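import Pool.Agent.Work.MP_02e829_tr.Interface
import Pool.Agent.Work.MP_02e829_sf.Interface

/-!
# MP_02e829_gt, TROUGH RIGIDITY, part 2: surfaces

Same rules as part 1 (`import Pool.Agent.Work.MP_02e829_tr.Interface2`).  `FRD.dvec`,
`FRD.firstForm`: `MP_02e829_fr/Deformation.lean`; `E3 L3 Proper PosCurv Fam2`:
`MP_02e829_sb/Interface.lean`; `Fam3 Transv TC`: `MP_02e829_sf/Interface.lean`.
-/

open Set Filter Manifold Matrix MeasureTheory Metric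
open scoped Topology ContDiff Manifold Real

set_option autoImplicit false

universe w

namespace Pool.TRG

open Pool
open Pool.FR (pd ee gg WW DD NN II Ga Gb Imm SO3)
open Pool.SXB (E3 L3 Proper PosCurv Fam2 Fam3 Transv)

/-! ### Families in the plane -/

/-- the derivatives of order `≤ n` are bounded near every point, uniformly in time -/
def LB (n : ℕ) (O : Set E2) (G : ℝ → E2 → V3) : Prop :=
  ∀ x ∈ O, ∃ M : ℝ, ∀ᶠ y in 𝓝 x, ∀ t ∈ Icc (0 : ℝ) 1, ∀ k ≤ n, ‖iteratedFDeriv ℝ k (G t) y‖ ≤ M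

/-- the partial derivatives of order 1 and 2 are jointly continuous -/
def J2 (O : Set E2) (G : ℝ → E2 → V3) : Prop :=
  (∀ i, ContinuousOn (fun z : ℝ × E2 => pd i (G z.1) z.2) (Icc (0 : ℝ) 1 ×ˢ O)) ∧
  ∀ i j, ContinuousOn (fun z : ℝ × E2 => pd i (pd j (G z.1)) z.2) (Icc (0 : ℝ) 1 ×ˢ O)

/-- LBC (120 lines; uses nothing). Composition.  Near `x`: `‖iteratedFDeriv i ψ‖ ≤ D ≤ D ^ i` for
`1 ≤ i ≤ n` (continuity, `D ≥ 1`), `norm_iteratedFDerivWithin_comp_le` with `s = O`, `t = V`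
(`iteratedFDerivWithin_of_isOpen`), bound `k! * M * D ^ k`. -/
def Stmt_LBC : Prop :=
  ∀ (n : ℕ) (O V : Set E2), IsOpen O → IsOpen V → ∀ G : ℝ → E2 → V3,
    (∀ t ∈ Icc (0 : ℝ) 1, ContDiffOn ℝ n (G t) V) → LB n V G →
    ∀ ψ : E2 → E2, ContDiffOn ℝ n ψ O → MapsTo ψ O V → LB n O fun t x => G t (ψ x)

/-- CDC (180 lines; uses nothing). Composition.  On `O`, `A = fderiv (G t)`:
`pd j (G t ∘ ψ) x = A (ψ x) (pd j ψ x)` and `pd i (pd j (G t ∘ ψ)) x =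
fderiv A (ψ x) (pd i ψ x) (pd j ψ x) + A (ψ x) (pd i (pd j ψ) x)`; every factor is jointly
continuous in `(t, x)`. -/
def Stmt_CDC : Prop :=
  ∀ (O V : Set E2), IsOpen O → IsOpen V → ∀ G : ℝ → E2 → V3,
    (∀ t ∈ Icc (0 : ℝ) 1, ContDiffOn ℝ 2 (G t) V) →
    ContinuousOn (fun z : ℝ × E2 => fderiv ℝ (G z.1) z.2) (Icc (0 : ℝ) 1 ×ˢ V) →
    ContinuousOn (fun z : ℝ × E2 => fderiv ℝ (fderiv ℝ (G z.1)) z.2) (Icc (0 : ℝ) 1 ×ˢ V) →
    ∀ ψ : E2 → E2, ContDiffOn ℝ 2 ψ O → MapsTo ψ O V → J2 O fun t x => G t (ψ x)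

/-- LBP (150 lines; uses nothing). On an open set `‖iteratedFDeriv k (pd i u) x‖ ≤
‖iteratedFDeriv (k+1) u x‖` (`pd i u = fderiv u · (ee i)`, `norm_iteratedFDeriv_fderiv`,
`ContinuousLinearMap.iteratedFDeriv_comp_left` or `..Within..` on `St`), so every norm of the claim
is at most `‖iteratedFDeriv k (F t) (pt x)‖` for some `k ≤ 4`; `LB` and the compactness of the set
of the `pt x`, `0 ≤ x ≤ 2π`, give a bound for these `x`; `Per` (differentiated) for all `x`: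
the functions `pd .. (F t) (pt x)` are `2π`-periodic in `x`. -/
def Stmt_LBP : Prop :=
  ∀ F : ℝ → E2 → V3, (∀ t ∈ Icc (0 : ℝ) 1, Imm (F t) St) → (∀ t ∈ Icc (0 : ℝ) 1, Per (F t)) →
    LB 4 St F → ∃ M : ℝ, ∀ t ∈ Icc (0 : ℝ) 1, ∀ x : ℝ, ∀ i j,
    ‖pd i (F t) (pt x)‖ ≤ M ∧ ‖pd 0 (pd i (F t)) (pt x)‖ ≤ M ∧
    ‖pd 0 (pd 0 (pd i (F t))) (pt x)‖ ≤ M ∧ ‖pd i (pd j (F t)) (pt x)‖ ≤ M ∧
    ‖pd 0 (pd i (pd j (F t))) (pt x)‖ ≤ M ∧ ‖pd 0 (pd 0 (pd i (pd j (F t)))) (pt x)‖ ≤ M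

/-- JT2 (120 lines; uses nothing). `iteratedFDeriv_zero/succ_apply`, bilinear maps on `E2` are
determined by the values on `ee 0, ee 1` (`pd i (pd j u) x = fderiv (fderiv u) x (ee i) (ee j)`,
see `pd_comm`). -/
def Stmt_JT2 : Prop :=
  ∀ (U : Set E2), IsOpen U → ∀ u w : E2 → E3, ContDiffOn ℝ 2 u U → ContDiffOn ℝ 2 w U → ∀ x ∈ U,
    u x = w x → (∀ i, pd i u x = pd i w x) → (∀ i j, pd i (pd j u) x = pd i (pd j w) x) →
    ∀ k ≤ 2, iteratedFDeriv ℝ k u x = iteratedFDeriv ℝ k w x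

/-- CV3 (40 lines; uses nothing). `L3` is the linear part of a continuous linear equivalence
(`EuclideanSpace.equiv`): `ContinuousLinearEquiv.iteratedFDeriv_comp_left`. -/
def Stmt_CV3 : Prop :=
  ∀ (u w : E2 → E3) (x : E2) (k : ℕ), iteratedFDeriv ℝ k (fun y => L3 (u y)) x =
    iteratedFDeriv ℝ k (fun y => L3 (w y)) x → iteratedFDeriv ℝ k u x = iteratedFDeriv ℝ k w x

/-- MTN (100 lines; uses nothing). `A z = L3⁻¹ (R *ᵥ L3 z + b)`: linear isometry because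
`Rᵀ R = 1`, determinant `1` (`LinearMap.det` of the conjugate by `L3`). -/
def Stmt_MTN : Prop :=
  ∀ (R : Matrix (Fin 3) (Fin 3) ℝ) (b : V3), SO3 R → ∃ A : E3 ≃ᵃⁱ[ℝ] E3, Proper A ∧
    (∀ z, L3 (A z) = R *ᵥ L3 z + b) ∧ ∀ z, L3 (A.linearIsometryEquiv z) = R *ᵥ L3 z

/-- PLB (250 lines; uses FR.FRM TR0). `F' = R F + b`: `F'_i = R F_i`, `F'_ij = R F_ij`,
`hh F' i j = hh F i j` (`det R = 1`), `hh H i j = √DD II H i j` (`WW = √DD NN`, FRM), so `flat` by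
TR0 and `bend`: `hh G 1 1 = hh F 1 1 ≠ 0` on the line (`DD` depends on the metric only).
`F'_0 ⨯₃ F'_00 = R (ρ² φ' (e1 ⨯₃ e2)) ≠ 0` (`F_00 = ρ' c0 + ρ φ' c1`).  On the line `nn F' G =
F'_0 ⨯₃ F'_1 ≠ 0`; `U` = the open set of the points of `St` with `nn F' G ≠ 0`. -/
def Stmt_PLB : Prop :=
  ∀ (F : E2 → V3) (e1 e2 : V3) (φ ρ lam mu : ℝ → ℝ), Tr F e1 e2 φ ρ lam mu →
    ∀ G : E2 → V3, Imm G St → Iso F G → ContDiffOn ℝ ∞ F St → ContDiffOn ℝ ∞ G St →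
    ∀ (R : Matrix (Fin 3) (Fin 3) ℝ) (b : V3), SO3 R → (∀ x, G (pt x) = R *ᵥ F (pt x) + b) →
    (∀ x i, pd i G (pt x) = R *ᵥ pd i F (pt x)) → (∀ x, II G 1 1 (pt x) = II F 1 1 (pt x)) →
    ∃ U ⊆ St, (∀ x, pt x ∈ U) ∧ PL U (fun x => R *ᵥ F x + b) G

/-! ### Surfaces -/

section surface

variable {S : Type w} [TopologicalSpace S] [ChartedSpace E2 S]

/-- an isometric deformation through immersions of class `C⁴`, continuous in the `C²` topology and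
bounded in the `C⁴` topology, in charts -/
structure Dfm (f : ℝ → S → E3) : Prop where
  smooth : ∀ t ∈ Icc (0 : ℝ) 1, ContMDiff (𝓡 2) (𝓡 3) 4 (f t)
  imm : ∀ t ∈ Icc (0 : ℝ) 1, ∀ p, Function.Injective (FRD.dvec (f t) p)
  iso : ∀ t ∈ Icc (0 : ℝ) 1, ∀ p v w, FRD.firstForm (f t) p v w = FRD.firstForm (f 0) p v w
  cont : ∀ (p : S) (k : ℕ), k ≤ 2 → ContinuousOn (fun z : ℝ × E2 =>
    iteratedFDeriv ℝ k (fun x => f z.1 ((extChartAt (𝓡 2) p).symm x)) z.2)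
    (Icc (0 : ℝ) 1 ×ˢ (extChartAt (𝓡 2) p).target)
  bdd : ∀ p : S, ∀ x ∈ (extChartAt (𝓡 2) p).target, ∃ M : ℝ, ∀ᶠ y in 𝓝 x,
    ∀ t ∈ Icc (0 : ℝ) 1, ∀ k ≤ 4,
    ‖iteratedFDeriv ℝ k (fun z => f t ((extChartAt (𝓡 2) p).symm z)) y‖ ≤ M

/-- coordinates of class `C^n` on an annulus -/
structure Ann (n : WithTop ℕ∞) (Φ : E2 → S) : Prop where
  smooth : ContMDiffOn (𝓡 2) (𝓡 2) n Φ St
  reg : ∀ x ∈ St, Function.Injective (mfderiv (𝓡 2) (𝓡 2) Φ x)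
  per : ∀ x ∈ St, Φ (x + (2 * π) • ee 0) = Φ x

/-- `Φ` is a trough of `f`: along the line `x 1 = 0` the surface touches a plane in a closed convex
curve with tangent angle `φ`, and it is curved across -/
structure Tro (n : WithTop ℕ∞) (f : S → E3) (Φ : E2 → S) (e1 e2 : E3) (φ : ℝ → ℝ) : Prop where
  ann : Ann n Φ
  ang : Ang φ
  ort : Orthonormal ℝ ![e1, e2]
  along : ∀ x : ℝ, ∃ ρ : ℝ, 0 < ρ ∧ pd 0 (fun y => f (Φ y)) (pt x) =
    ρ • (Real.cos (φ x) • e1 + Real.sin (φ x) • e2)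
  across : ∀ x : ℝ, ∃ lam mu : ℝ, 0 < mu ∧ pd 1 (fun y => f (Φ y)) (pt x) =
    lam • (Real.cos (φ x) • e1 + Real.sin (φ x) • e2) +
      mu • (-(Real.sin (φ x)) • e1 + Real.cos (φ x) • e2)
  bend : ∀ x : ℝ, pd 1 (pd 1 (fun y => f (Φ y))) (pt x) ∉ Submodule.span ℝ {e1, e2}

/-- the jets of order `m` agree on the line -/
def Agr (m : ℕ) (g h : S → E3) (Φ : E2 → S) : Prop :=
  ∀ x : ℝ, ∀ k ≤ m, iteratedFDeriv ℝ k (fun y => g (Φ y)) (pt x) =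
    iteratedFDeriv ℝ k (fun y => h (Φ y)) (pt x)

end surface

/-- CHN (80 lines; uses nothing). The chain rule (`mfderiv_comp`, `mfderiv_eq_fderiv`). -/
def Stmt_CHN : Prop :=
  ∀ (S : Type w) [TopologicalSpace S] [ChartedSpace E2 S] (f : S → E3),
    ContMDiff (𝓡 2) (𝓡 3) 1 f → ∀ (Φ : E2 → S), Ann 1 Φ → ∀ x ∈ St, ∀ v : E2,
    fderiv ℝ (fun y => f (Φ y)) x v = FRD.dvec f (Φ x) (mfderiv (𝓡 2) (𝓡 2) Φ x v)

/-- LCC (80 lines; uses nothing). `p = Φ x0`, `O` = the set of the points of `St` mapped by `Φ` into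
the source of the chart at `p` (open), `ψ = extChartAt p ∘ Φ`. -/
def Stmt_LCC : Prop :=
  ∀ (S : Type w) [TopologicalSpace S] [ChartedSpace E2 S] [IsManifold (𝓡 2) 4 S] (Φ : E2 → S),
    Ann 4 Φ → ∀ x0 ∈ St, ∃ (p : S) (O : Set E2) (ψ : E2 → E2), IsOpen O ∧ x0 ∈ O ∧ O ⊆ St ∧
    ContDiffOn ℝ 4 ψ O ∧ MapsTo ψ O (extChartAt (𝓡 2) p).target ∧
    ∀ x ∈ O, (extChartAt (𝓡 2) p).symm (ψ x) = Φ x

/-- CNV (120 lines; uses nothing). From `iteratedFDeriv` of order 0, 1, 2 to the values, `fderiv`,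
`fderiv (fderiv)` (`iteratedFDeriv_succ_eq_comp_left/right`, `iteratedFDeriv_zero_eq_comp`:
composition with linear isometries). -/
def Stmt_CNV : Prop :=
  ∀ (S : Type w) [TopologicalSpace S] [ChartedSpace E2 S] (f : ℝ → S → E3), Dfm f → Fam3 f

/-- RD0 (200 lines; uses CHN). `F t x = L3 (f t (Φ x))` is `C⁴` on `St`; `pd i F = L3 (dvec (dΦ
ee i))`, so `gg (F t) i j = firstForm` (the inner product of `E3` is the scalar product of the
coordinates); `DD > 0` because `dΦ ee 0, dΦ ee 1` are independent and `dvec` is injective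
(Gram determinant). -/
def Stmt_RD0 : Prop :=
  ∀ (S : Type w) [TopologicalSpace S] [ChartedSpace E2 S] [IsManifold (𝓡 2) 4 S]
    (f : ℝ → S → E3), Dfm f → ∀ Φ : E2 → S, Ann 4 Φ →
    (∀ t ∈ Icc (0 : ℝ) 1, Imm (fun x => L3 (f t (Φ x))) St) ∧
    (∀ t ∈ Icc (0 : ℝ) 1, Iso (fun x => L3 (f 0 (Φ x))) (fun x => L3 (f t (Φ x)))) ∧
    ∀ t ∈ Icc (0 : ℝ) 1, Per (fun x => L3 (f t (Φ x)))

/-- RD1 (150 lines; uses LCC CNV CDC). Local: CDC for `G t = L3 ∘ f t ∘ (extChartAt p).symm` on the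
target (`fderiv` of `G t` is the composition with `L3` of the `fderiv` in `Fam2.cont1`, also for the
second derivative) and `ψ` of LCC; `F t = G t ∘ ψ` on the open set `O`, so the `pd` agree there. -/
def Stmt_RD1 : Prop :=
  ∀ (S : Type w) [TopologicalSpace S] [ChartedSpace E2 S] [IsManifold (𝓡 2) 4 S]
    (f : ℝ → S → E3), Dfm f → ∀ Φ : E2 → S, Ann 4 Φ →
    J2 St fun t x => L3 (f t (Φ x))

/-- LBM (120 lines; uses LCC LBC). Local: LBC (`n = 4`) for `G t = L3 ∘ f t ∘ (extChartAt p).symm`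
on the target (`Dfm.bdd`, the norm of `iteratedFDeriv` of `L3 ∘ h` is at most `‖L3‖` times that of
`h`) and `ψ` of LCC; `iteratedFDeriv` depends on the germ. -/
def Stmt_LBM : Prop :=
  ∀ (S : Type w) [TopologicalSpace S] [ChartedSpace E2 S] [IsManifold (𝓡 2) 4 S]
    (f : ℝ → S → E3), Dfm f → ∀ Φ : E2 → S, Ann 4 Φ →
    LB 4 St fun t x => L3 (f t (Φ x))

/-- TRC (200 lines; uses RD0). Choose `ρ lam mu`; `L3` commutes with `pd` and preserves the scalar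
product; `F_11 ⬝ (e1 ⨯₃ e2) = 0` iff `F_11` is in the span of `e1, e2`. -/
def Stmt_TRC : Prop :=
  ∀ (S : Type w) [TopologicalSpace S] [ChartedSpace E2 S] [IsManifold (𝓡 2) 4 S]
    (f : ℝ → S → E3), Dfm f → ∀ (Φ : E2 → S) (e1 e2 : E3) (φ : ℝ → ℝ), Tro 4 (f 0) Φ e1 e2 φ →
    ∃ ρ lam mu : ℝ → ℝ, Tr (fun x => L3 (f 0 (Φ x))) (L3 e1) (L3 e2) φ ρ lam mu

/-- DVC (100 lines; uses CHN). `mfderiv Φ` at `x` is bijective (dimension 2). -/
def Stmt_DVC : Prop :=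
  ∀ (S : Type w) [TopologicalSpace S] [ChartedSpace E2 S] (g h : S → E3),
    ContMDiff (𝓡 2) (𝓡 3) 1 g → ContMDiff (𝓡 2) (𝓡 3) 1 h → ∀ Φ : E2 → S, Ann 1 Φ →
    ∀ L : E3 ≃ₗᵢ[ℝ] E3, ∀ x ∈ St,
    (∀ i, pd i (fun y => g (Φ y)) x = L (pd i (fun y => h (Φ y)) x)) →
    ∀ v, FRD.dvec g (Φ x) v = L (FRD.dvec h (Φ x) v)

/-- ELC (200 lines; uses nothing, import `MP_02e829_sf.AllF`). `FTF_piece` of
`MP_02e829_sf/B_FTF.lean` (all its block hypotheses: copy the `have`s of `allF`; `hCM9` as in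
`blk_FTF`) gives `TC f C t`, then `blk_CLD` for `closure C`.  Its hypothesis: every
`B ∈ Mset (f 0) (f t) (frontier C)` is some `g t i` (a proper motion is determined by the image of a
point and of two independent directions: `dvec` is injective; look in `B_MCO.lean`,
`MP_02e829_s7/Mot9.lean` or for `UQ7`/`Uq8`), so `Mset` is contained in the range of `g t`: `encard
≤ 7` or countable. -/
def Stmt_ELC : Prop :=
  ∀ (S : Type w) [TopologicalSpace S] [ChartedSpace E2 S] [IsManifold (𝓡 2) 2 S] [T2Space S]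
    [CompactSpace S] (f : ℝ → S → E3), Fam3 f → ∀ C : Set S, IsOpen C → IsPreconnected C →
    (∀ q ∈ C, PosCurv (f 0) q) → ∀ (ι : Type) (J : S → ι) (g : ℝ → ι → (E3 ≃ᵃⁱ[ℝ] E3)),
    ENat.card ι ≤ 7 ∨ (Countable ι ∧ Transv (f 0) (closure C)) →
    (∀ t ∈ Icc (0 : ℝ) 1, ∀ i, Proper (g t i)) →
    (∀ t ∈ Icc (0 : ℝ) 1, ∀ p ∈ frontier C, f t p = g t (J p) (f 0 p) ∧
      ∀ v, FRD.dvec (f t) p v = (g t (J p)).linearIsometryEquiv (FRD.dvec (f 0) p v)) →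
    ∀ t ∈ Icc (0 : ℝ) 1, ∃ A : E3 ≃ᵃⁱ[ℝ] E3, Proper A ∧ ∀ p ∈ closure C, f t p = A (f 0 p)

/-- IDN (150 lines; uses nothing). The identity theorem.  The interior `W` of `{g = h}` is not
empty; if `p` is in its closure: in the chart at `p` the two maps are analytic on a ball around the
image of `p` (`contMDiffOn_extChartAt_symm`, `ContDiffOn ℝ ω` is analytic) and agree on a nonempty
open subset, so on the ball (`AnalyticOnNhd.eqOn_of_preconnected_of_eventuallyEq`).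
Connectedness. -/
def Stmt_IDN : Prop :=
  ∀ (S : Type w) [TopologicalSpace S] [ChartedSpace E2 S] [IsManifold (𝓡 2) ω S]
    [ConnectedSpace S] (g h : S → E3), ContMDiff (𝓡 2) (𝓡 3) ω g → ContMDiff (𝓡 2) (𝓡 3) ω h →
    ∀ O : Set S, IsOpen O → O.Nonempty → (∀ p ∈ O, g p = h p) → ∀ p, g p = h p

/-- OPE (100 lines; uses nothing). `Φ` is open at the points of the strip: `extChartAt (Φ x) ∘ Φ`
is `C¹` near `x` with bijective derivative (`mfderiv` is its `fderiv`), so strictly differentiable;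
`HasStrictFDerivAt.map_nhds_eq_of_equiv` (or `..of_surj`), and `extChartAt` is a local
homeomorphism. -/
def Stmt_OPE : Prop :=
  ∀ (S : Type w) [TopologicalSpace S] [ChartedSpace E2 S] [IsManifold (𝓡 2) 1 S] (Φ : E2 → S),
    Ann 1 Φ → ∀ x ∈ St, ∀ V ∈ 𝓝 x, Φ '' V ∈ 𝓝 (Φ x)

end Pool.TRG
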