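import Pool.Agent.Work.MP_02e829_s7.Mot9
import Pool.Agent.Work.MP_02e829_tr.Interface2

/-!
# Motions as matrices, immersions in charts
-/

open Set Filter Manifold Matrix
open scoped Topology ContDiff Manifold Real

set_option autoImplicit false

universe w

namespace Pool.TRG

open Pool
open Pool.FR (pd ee)
open Pool.SXB (E3 L3 Proper)

theorem motion_of (A : E3 ≃ᵃⁱ[ℝ] E3) (hA : Proper A) :
    ∃ (R : Matrix (Fin 3) (Fin 3) ℝ) (b : E3), Rᵀ * R = 1 ∧ R.det = 1 ∧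
      ∀ (x : E3) (i : Fin 3), A x i = ∑ j, R i j * x j + b i := by
  obtain ⟨R, hR, b, hd, rfl⟩ := Pool.SXB.isoE_exists A hA
  refine ⟨R, b, hR, hd, fun x i => ?_⟩
  rw [Pool.SXB.isoE_apply]
  rfl

theorem ann_of {S : Type w} [TopologicalSpace S] [ChartedSpace E2 S] {n : WithTop ℕ∞}
    (hn : 1 ≤ n) {Φ : E2 → S} (h1 : ContMDiffOn (𝓡 2) (𝓡 2) n Φ St)
    (h2 : ∀ x ∈ St, Function.Injective
      (fderiv ℝ (fun y => extChartAt (𝓡 2) (Φ x) (Φ y)) x))
    (h3 : ∀ x ∈ St, Φ (x + (2 * π) • ee 0) = Φ x) : Ann n Φ := by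
  refine ⟨h1, fun x hx => ?_, h3⟩
  have hO : IsOpen St := by
    have h : Continuous fun x : E2 => |x 1| := by fun_prop
    exact isOpen_lt h continuous_const
  have h4 : ContMDiffAt (𝓡 2) (𝓡 2) 1 Φ x :=
    ((h1.of_le hn) x hx).contMDiffAt (hO.mem_nhds hx)
  have h5 : fderiv ℝ (fun y => extChartAt (𝓡 2) (Φ x) (Φ y)) x = mfderiv (𝓡 2) (𝓡 2) Φ x := by
    rw [(h4.mdifferentiableAt one_ne_zero).mfderiv]
    simp [writtenInExtChartAt, Function.comp_def, fderivWithin_univ]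
  rw [← h5]
  exact h2 x hx

end Pool.TRG
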