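import Pool.Agent.Work.MP_02e829_tr.Interface3

/-! # Block HTF: a family of hyperbolic tubes keeps its second form -/

open Set Filter Manifold Matrix MeasureTheory Metric
open scoped Topology ContDiff Manifold Real

set_option autoImplicit false

namespace Pool.TRG

open Pool
open Pool.FR (pd ee gg WW DD NN II Ga Gb Imm SO3)

theorem HTF_open : IsOpen St := by
  have : St = (fun x : E2 => |x 1|) ⁻¹' Iio 1 := rfl
  rw [this]
  exact isOpen_Iio.preimage (by fun_prop)

theorem HTF_px0 (a b : ℝ) : (px a b) 0 = a := by simp [px, ee]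

theorem HTF_px1 (a b : ℝ) : (px a b) 1 = b := by simp [px, ee]

theorem HTF_pxe (x : E2) : px (x 0) (x 1) = x := by
  ext i
  fin_cases i
  · exact HTF_px0 _ _
  · exact HTF_px1 _ _

theorem HTF_pxp (a b : ℝ) : px (a + 2 * π) b = px a b + (2 * π) • ee 0 := by
  simp only [px, add_smul]
  abel

theorem HTF_pxc : Continuous fun p : ℝ × ℝ => px p.1 p.2 := by
  unfold px
  fun_prop

theorem HTF_mem {b : ℝ} (hb : |b| < 1) (a : ℝ) : px a b ∈ St := by
  show |(px a b) 1| < 1
  rwa [HTF_px1]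

theorem HTF_memv {x : E2} (hx : x ∈ St) : x + (2 * π) • ee 0 ∈ St := by
  show |(x + (2 * π) • ee 0) 1| < 1
  have : (x + (2 * π) • ee 0) 1 = x 1 := by simp [ee]
  rw [this]
  exact hx

/-- Derivatives of functions which are periodic on the strip. -/
theorem HTF_pdp {G : Type} [NormedAddCommGroup G] [NormedSpace ℝ G] (u : E2 → G)
    (hu : ∀ x ∈ St, u (x + (2 * π) • ee 0) = u x) (i : Fin 2) :
    ∀ x ∈ St, pd i u (x + (2 * π) • ee 0) = pd i u x := by
  intro x hx
  unfold pd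
  have h1 : fderiv ℝ (fun y => u (y + (2 * π) • ee 0)) x = fderiv ℝ u (x + (2 * π) • ee 0) :=
    fderiv_comp_add_right _
  have h2 : (fun y => u (y + (2 * π) • ee 0)) =ᶠ[𝓝 x] u := by
    filter_upwards [HTF_open.mem_nhds hx] with y hy using hu y hy
  rw [← h1, h2.fderiv_eq]

theorem HTF_IIp (F : E2 → V3) (hF : Per F) (i j : Fin 2) :
    ∀ x ∈ St, II F i j (x + (2 * π) • ee 0) = II F i j x := by
  intro x hx
  have h1 : ∀ k, ∀ x ∈ St, pd k F (x + (2 * π) • ee 0) = pd k F x := fun k => HTF_pdp F hF k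
  have h2 := HTF_pdp (pd j F) (h1 j) i x hx
  unfold II NN DD WW gg
  rw [h2, h1 0 x hx, h1 1 x hx]

/-- joint continuity of the second form -/
theorem HTF_IIc (F : ℝ → E2 → V3) (hF : SFam F) (i j : Fin 2) :
    ContinuousOn (fun z : ℝ × E2 => II (F z.1) i j z.2) (Icc (0 : ℝ) 1 ×ˢ St) := by
  have h1 := hF.con1
  have h2 := hF.con2
  have hg : ∀ k l, ContinuousOn (fun z : ℝ × E2 => gg (F z.1) k l z.2) (Icc (0 : ℝ) 1 ×ˢ St) := by
    intro k l
    unfold gg
    simp only [dotProduct]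
    refine continuousOn_finsetSum _ fun m _ => ?_
    exact ((continuousOn_pi.1 (h1 k)) m).mul ((continuousOn_pi.1 (h1 l)) m)
  have hD : ContinuousOn (fun z : ℝ × E2 => DD (F z.1) z.2) (Icc (0 : ℝ) 1 ×ˢ St) := by
    unfold DD
    exact ((hg 0 0).mul (hg 1 1)).sub ((hg 0 1).pow 2)
  have hDp : ∀ z ∈ Icc (0 : ℝ) 1 ×ˢ St, 0 < DD (F z.1) z.2 := fun z hz =>
    (hF.imm z.1 hz.1).pos z.2 hz.2
  have hW : ContinuousOn (fun z : ℝ × E2 => WW (F z.1) z.2) (Icc (0 : ℝ) 1 ×ˢ St) := by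
    have h10 := fun m => (continuousOn_pi.1 (h1 0)) m
    have h11 := fun m => (continuousOn_pi.1 (h1 1)) m
    rw [continuousOn_pi]
    intro m
    unfold WW
    simp only [cross_apply]
    fin_cases m
    · exact ((h10 1).mul (h11 2)).sub ((h10 2).mul (h11 1))
    · exact ((h10 2).mul (h11 0)).sub ((h10 0).mul (h11 2))
    · exact ((h10 0).mul (h11 1)).sub ((h10 1).mul (h11 0))
  have hN : ContinuousOn (fun z : ℝ × E2 => NN (F z.1) z.2) (Icc (0 : ℝ) 1 ×ˢ St) := by
    unfold NN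
    refine ContinuousOn.smul (ContinuousOn.inv₀ (Real.continuous_sqrt.comp_continuousOn hD) ?_) hW
    intro z hz
    exact (Real.sqrt_pos.2 (hDp z hz)).ne'
  unfold II
  simp only [dotProduct]
  refine continuousOn_finsetSum _ fun m _ => ?_
  exact ((continuousOn_pi.1 (h2 i j)) m).mul ((continuousOn_pi.1 hN) m)

/-- the tube lemma for functions on `[0,1] × St`, periodic -/
theorem HTF_tube (g : ℝ → E2 → ℝ)
    (hc : ContinuousOn (fun z : ℝ × E2 => g z.1 z.2) (Icc (0 : ℝ) 1 ×ˢ St))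
    (hp : ∀ t ∈ Icc (0 : ℝ) 1, ∀ x ∈ St, g t (x + (2 * π) • ee 0) = g t x)
    (s : ℝ) (hs : s ∈ Icc (0 : ℝ) 1) (δ r : ℝ) (hδ : 0 < δ) (hr : r < 1)
    (hg : ∀ x ∈ St, δ ≤ x 1 → x 1 ≤ r → g s x < 0) :
    ∀ᶠ t in 𝓝[Icc (0 : ℝ) 1] s, ∀ x ∈ St, δ ≤ x 1 → x 1 ≤ r → g t x < 0 := by
  have hK : IsCompact (Icc (0 : ℝ) (2 * π) ×ˢ Icc δ r) := isCompact_Icc.prod isCompact_Icc
  have h1 : ∀ᶠ t in 𝓝 s, ∀ y ∈ Icc (0 : ℝ) (2 * π) ×ˢ Icc δ r,
      t ∈ Icc (0 : ℝ) 1 → g t (px y.1 y.2) < 0 := by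
    apply hK.eventually_forall_of_forall_eventually
      (P := fun t y => t ∈ Icc (0 : ℝ) 1 → g t (px y.1 y.2) < 0)
    rintro ⟨a, b⟩ ⟨-, hb⟩
    have hb1 : |b| < 1 := by
      rw [abs_lt]
      exact ⟨by linarith [hb.1], by linarith [hb.2]⟩
    have hm : px a b ∈ St := HTF_mem hb1 a
    have h2 : g s (px a b) < 0 := by
      apply hg _ hm
      · rw [HTF_px1]; exact hb.1
      · rw [HTF_px1]; exact hb.2
    have h3 : ∀ᶠ z in 𝓝[Icc (0 : ℝ) 1 ×ˢ St] (s, px a b), g z.1 z.2 < 0 :=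
      (hc (s, px a b) ⟨hs, hm⟩).eventually_lt_const h2
    rw [eventually_nhdsWithin_iff] at h3
    have hcont : Tendsto (fun z : ℝ × ℝ × ℝ => (z.1, px z.2.1 z.2.2)) (𝓝 (s, a, b))
        (𝓝 (s, px a b)) := by
      have : Continuous fun z : ℝ × ℝ × ℝ => (z.1, px z.2.1 z.2.2) :=
        continuous_fst.prodMk (HTF_pxc.comp continuous_snd)
      exact this.tendsto (s, a, b)
    have h4 := hcont.eventually h3
    have h5 : ∀ᶠ z : ℝ × ℝ × ℝ in 𝓝 (s, a, b), px z.2.1 z.2.2 ∈ St := by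
      have := hcont.eventually (continuous_snd.tendsto (s, px a b) |>.eventually
        (HTF_open.mem_nhds hm))
      exact this
    filter_upwards [h4, h5] with z hz hz5 ht
    exact hz ⟨ht, hz5⟩
  rw [eventually_nhdsWithin_iff]
  filter_upwards [h1] with t ht ht01 x hx hx1 hx2
  have hb1 : |x 1| < 1 := hx
  have hper : Function.Periodic (fun a => g t (px a (x 1))) (2 * π) := by
    intro a
    show g t (px (a + 2 * π) (x 1)) = g t (px a (x 1))
    rw [HTF_pxp]
    exact hp t ht01 _ (HTF_mem hb1 a)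
  obtain ⟨y, hy, hxy⟩ := hper.exists_mem_Ico₀ (by positivity) (x 0)
  have := ht (y, x 1) ⟨⟨hy.1, hy.2.le⟩, hx1, hx2⟩ ht01
  rw [← HTF_pxe x]
  have hxy' : g t (px (x 0) (x 1)) = g t (px y (x 1)) := hxy
  rw [hxy']
  exact this

theorem p_HTF (hCHR : Pool.FR.Stmt_CHR) (hTR0 : Stmt_TR0) (hALL : Stmt_ALL) (hHPR : Stmt_HPR)
    (hNLS : Stmt_NLS) : Stmt_HTF := by
  intro F e1 e2 φ ρ lam mu hT hS hL hyp
  obtain ⟨hW, -, -, -, -, -, hpt⟩ := hTR0 (F 0) e1 e2 φ ρ lam mu hT
  have hall := hALL F e1 e2 φ ρ lam mu hT hS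
  obtain ⟨δ, hδ0, hδ1, hδ⟩ := hNLS F e1 e2 φ ρ lam mu hT hS hL
  have h0 : (0 : ℝ) ∈ Icc (0 : ℝ) 1 := ⟨le_rfl, zero_le_one⟩
  -- for every `r < 1`
  have main : ∀ r : ℝ, 0 < r → r < 1 → ∀ t ∈ Icc (0 : ℝ) 1, ∀ x : E2, 0 ≤ x 1 → x 1 ≤ r →
      ∀ i j, II (F t) i j x = II (F 0) i j x := by
    intro r hr0 hr1
    have hmem : ∀ x : E2, 0 ≤ x 1 → x 1 ≤ r → x ∈ St := fun x h1 h2 => by
      show |x 1| < 1
      rw [abs_of_nonneg h1]
      linarith
    set T : Set ℝ := {t | ∀ x : E2, 0 ≤ x 1 → x 1 ≤ r → ∀ i j, II (F t) i j x = II (F 0) i j x}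
      with hTdef
    have hclosed : IsClosed (T ∩ Icc (0 : ℝ) 1) := by
      have : T ∩ Icc (0 : ℝ) 1 = ⋂ (x : E2) (_ : 0 ≤ x 1) (_ : x 1 ≤ r) (i : Fin 2) (j : Fin 2),
          {t ∈ Icc (0 : ℝ) 1 | II (F t) i j x = II (F 0) i j x} := by
        ext t
        constructor
        · rintro ⟨h1, h2⟩
          simp only [mem_iInter]
          intro x hx1 hx2 i j
          exact ⟨h2, h1 x hx1 hx2 i j⟩
        · intro h
          simp only [mem_iInter] at h
          refine ⟨fun x hx1 hx2 i j => (h x hx1 hx2 i j).2, ?_⟩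
          have := h 0 (by simp) (by simpa using hr0.le) 0 0
          exact this.1
      rw [this]
      refine isClosed_iInter fun x => isClosed_iInter fun hx1 => isClosed_iInter fun hx2 =>
        isClosed_iInter fun i => isClosed_iInter fun j => ?_
      have hcx : ContinuousOn (fun t : ℝ => II (F t) i j x) (Icc 0 1) := by
        have := (HTF_IIc F hS i j).comp (f := fun t : ℝ => (t, x))
          (continuous_id.prodMk continuous_const).continuousOn
          (fun t ht => ⟨ht, hmem x hx1 hx2⟩)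
        exact this
      exact hcx.preimage_isClosed_of_isClosed isClosed_Icc isClosed_singleton
    have hop : ∀ s ∈ T ∩ Icc (0 : ℝ) 1, ∀ᶠ t in 𝓝[Icc (0 : ℝ) 1] s, t ∈ T := by
      rintro s ⟨hsT, hs⟩
      -- signs near the line
      have hnear : ∀ t ∈ Icc (0 : ℝ) 1, ∀ x ∈ St, 0 < x 1 → x 1 ≤ δ →
          (II (F t) 0 0 x + II (F s) 0 0 x) * (II (F t) 1 1 x + II (F s) 1 1 x) < 0 := by
        intro t ht x hx hx1 hx2
        obtain ⟨a1, a2⟩ := hδ t ht x hx hx1 hx2
        obtain ⟨b1, b2⟩ := hδ s hs x hx hx1 hx2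
        set k := II (F 0) 1 1 (pt (x 0))
        have hk : k ≠ 0 := (hpt (x 0)).2.2.2.2.2.2.1
        have hk2 : 0 < k ^ 2 := by positivity
        have h1 : (II (F t) 0 0 x + II (F s) 0 0 x) * k < 0 := by linarith
        have h2 : 0 < (II (F t) 1 1 x + II (F s) 1 1 x) * k := by linarith
        have h3 : (II (F t) 0 0 x + II (F s) 0 0 x) * (II (F t) 1 1 x + II (F s) 1 1 x) * k ^ 2
            < 0 := by
          have := mul_neg_of_neg_of_pos h1 h2
          nlinarith
        by_contra hcon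
        rw [not_lt] at hcon
        have := mul_nonneg hcon hk2.le
        linarith
      -- signs away from the line
      have haway : ∀ᶠ t in 𝓝[Icc (0 : ℝ) 1] s, ∀ x ∈ St, δ ≤ x 1 → x 1 ≤ r →
          (II (F t) 0 0 x + II (F s) 0 0 x) * (II (F t) 1 1 x + II (F s) 1 1 x) < 0 := by
        apply HTF_tube (fun t x =>
          (II (F t) 0 0 x + II (F s) 0 0 x) * (II (F t) 1 1 x + II (F s) 1 1 x)) _ _ s hs δ r hδ0 hr1
        · intro x hx hx1 hx2
          have e : ∀ i j, II (F s) i j x = II (F 0) i j x := hsT x (by linarith) hx2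
          have := hyp x hx (by linarith)
          show (II (F s) 0 0 x + II (F s) 0 0 x) * (II (F s) 1 1 x + II (F s) 1 1 x) < 0
          rw [e, e]
          linarith
        · have hfix : ∀ i j, ContinuousOn (fun z : ℝ × E2 => II (F s) i j z.2)
              (Icc (0 : ℝ) 1 ×ˢ St) := by
            intro i j
            have := (HTF_IIc F hS i j).comp (f := fun z : ℝ × E2 => (s, z.2))
              (continuous_const.prodMk continuous_snd).continuousOn
              (s := Icc (0 : ℝ) 1 ×ˢ St) (fun z hz => ⟨hs, hz.2⟩)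
            exact this
          exact ((HTF_IIc F hS 0 0).add (hfix 0 0)).mul ((HTF_IIc F hS 1 1).add (hfix 1 1))
        · intro t ht x hx
          show (II (F t) 0 0 (x + (2 * π) • ee 0) + II (F s) 0 0 (x + (2 * π) • ee 0)) *
            (II (F t) 1 1 (x + (2 * π) • ee 0) + II (F s) 1 1 (x + (2 * π) • ee 0)) =
            (II (F t) 0 0 x + II (F s) 0 0 x) * (II (F t) 1 1 x + II (F s) 1 1 x)
          rw [HTF_IIp _ (hS.per t ht) 0 0 x hx, HTF_IIp _ (hS.per s hs) 0 0 x hx,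
            HTF_IIp _ (hS.per t ht) 1 1 x hx, HTF_IIp _ (hS.per s hs) 1 1 x hx]
      filter_upwards [haway, self_mem_nhdsWithin] with t ht ht01
      have hIso : Iso (F s) (F t) := by
        intro x hx i j
        rw [hS.iso t ht01 x hx i j, hS.iso s hs x hx i j]
      have key := hHPR r (F s) (F t) hr0 hr1 (hS.imm s hs) (hS.imm t ht01) hIso (hS.per s hs)
        (hS.per t ht01) (hall s hs).1 (hall t ht01).1
        (fun x => by rw [(hall t ht01).2 x, (hall s hs).2 x])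
        (fun x => by rw [(hall s hs).2 x]; exact (hpt x).2.2.2.2.2.2.1)
        (fun x => by
          have hx : pt x ∈ St := by
            show |(pt x) 1| < 1
            simp [pt, ee]
          have := ((hCHR St HTF_open (F 0) (hS.imm 0 h0)).2.2 (F s) (hS.imm s hs)
            (fun y hy i j => hS.iso s hs y hy i j) (pt x) hx 1 0 0).2
          rw [this, (hpt x).2.2.2.2.2.2.2]
          exact div_pos (mul_pos (hT.rpos x) (hT.ang.pos x)) (hT.mpos x))
        (fun x hx hx1 hx2 => by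
          rcases le_total (x 1) δ with h | h
          · exact hnear t ht01 x hx hx1 h
          · exact ht x hx h hx2)
      intro x hx1 hx2 i j
      rw [key x hx1 hx2 i j, hsT x hx1 hx2 i j]
    have hsub : Icc (0 : ℝ) 1 ⊆ T := by
      apply IsClosed.Icc_subset_of_forall_mem_nhdsWithin hclosed
      · intro x _ _ i j
        rfl
      · rintro s ⟨hsT, hs⟩
        have h1 := hop s ⟨hsT, hs.1, hs.2.le⟩
        have h2 : 𝓝[>] s ≤ 𝓝[Icc (0 : ℝ) 1] s := by
          rw [← nhdsWithin_Ioo_eq_nhdsGT hs.2]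
          exact nhdsWithin_mono _ fun y hy => ⟨by linarith [hs.1, hy.1], hy.2.le⟩
        exact h2 h1
    exact fun t ht => hsub ht
  intro t ht x hx hx0 i j
  have hx1 : x 1 < 1 := lt_of_le_of_lt (le_abs_self _) hx
  exact main ((x 1 + 1) / 2) (by linarith) (by linarith) t ht x hx0 (by linarith) i j

end Pool.TRG
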