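import Pool.Agent.Work.MP_02e829_tr.Interface

/-!
# Block FRA: the frame along the line
-/

open Set Filter Matrix MeasureTheory Metric
open scoped Topology ContDiff Real

set_option autoImplicit false

namespace Pool.TRG

open Pool.FR (pd ee gg WW DD NN II Ga Gb Imm SO3)

/-! ### vectors -/

theorem FRA_triple (a b c : V3) : (a ⨯₃ b) ⨯₃ c = (a ⬝ᵥ c) • b - (b ⬝ᵥ c) • a := by
  ext i
  fin_cases i <;>
  · simp [cross_apply, dotProduct, Fin.sum_univ_three]
    ring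

theorem FRA_dot {u v : ℝ → V3} {u' v' : V3} {x : ℝ} (hu : HasDerivAt u u' x)
    (hv : HasDerivAt v v' x) :
    HasDerivAt (fun y => u y ⬝ᵥ v y) (u' ⬝ᵥ v x + u x ⬝ᵥ v') x := by
  have hu' := hasDerivAt_pi.1 hu
  have hv' := hasDerivAt_pi.1 hv
  have h := (((hu' 0).mul (hv' 0)).add ((hu' 1).mul (hv' 1))).add ((hu' 2).mul (hv' 2))
  have e1 : (fun y => u y ⬝ᵥ v y) =
      fun y => u y 0 * v y 0 + u y 1 * v y 1 + u y 2 * v y 2 := by
    funext y
    rw [dotProduct, Fin.sum_univ_three]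
  have e2 : u' ⬝ᵥ v x + u x ⬝ᵥ v' = u' 0 * v x 0 + u x 0 * v' 0 + (u' 1 * v x 1 + u x 1 * v' 1) +
      (u' 2 * v x 2 + u x 2 * v' 2) := by
    rw [dotProduct, dotProduct, Fin.sum_univ_three, Fin.sum_univ_three]
    ring
  rw [e1, e2]
  exact h

/-! ### the line -/

theorem FRA_St_open : IsOpen St := by
  have h : Continuous fun x : E2 => |x 1| := by fun_prop
  exact isOpen_lt h continuous_const

theorem FRA_pt_mem (x : ℝ) : pt x ∈ St := by
  show |(x • ee 0 : E2) 1| < 1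
  simp [ee]

theorem FRA_pt_deriv (x : ℝ) : HasDerivAt pt (ee 0) x := by
  have h : HasDerivAt (fun y : ℝ => y • (ee 0 : E2)) ((1 : ℝ) • ee 0) x :=
    (hasDerivAt_id' x).smul_const (ee 0)
  rw [one_smul] at h
  exact h

theorem FRA_pt_smooth {n : WithTop ℕ∞} : ContDiff ℝ n pt := contDiff_id.smul contDiff_const

theorem FRA_line {X : Type*} [NormedAddCommGroup X] [NormedSpace ℝ X] {H : E2 → X} {x : ℝ}
    (hH : DifferentiableAt ℝ H (pt x)) : HasDerivAt (fun y => H (pt y)) (pd 0 H (pt x)) x :=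
  hH.hasFDerivAt.comp_hasDerivAt x (FRA_pt_deriv x)

theorem FRA_pt_add (x : ℝ) : pt (x + 2 * π) = pt x + (2 * π) • ee 0 := add_smul _ _ _

theorem FRA_St_add {y : E2} (hy : y ∈ St) : y + (2 * π) • ee 0 ∈ St := by
  have h : (y + (2 * π) • ee 0 : E2) 1 = y 1 := by simp [ee]
  show |(y + (2 * π) • ee 0 : E2) 1| < 1
  rw [h]
  exact hy

theorem FRA_per {X : Type*} [NormedAddCommGroup X] [NormedSpace ℝ X] {H : E2 → X}
    (hH : ∀ y ∈ St, H (y + (2 * π) • ee 0) = H y) (i : Fin 2) :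
    ∀ y ∈ St, pd i H (y + (2 * π) • ee 0) = pd i H y := by
  intro y hy
  have h1 : pd i (fun z => H (z + (2 * π) • ee 0)) y = pd i H y :=
    Pool.FR.pd_congr FRA_St_open hH i hy
  rw [← h1]
  unfold pd
  rw [fderiv_comp_add_right]

theorem FRA_NN_per {G : E2 → V3} (hG : Per G) :
    ∀ y ∈ St, NN G (y + (2 * π) • ee 0) = NN G y := by
  intro y hy
  have h := FRA_per hG
  unfold NN DD WW gg
  rw [h 0 y hy, h 1 y hy]

theorem FRA_II_per {G : E2 → V3} (hG : Per G) (i j : Fin 2) :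
    ∀ y ∈ St, II G i j (y + (2 * π) • ee 0) = II G i j y := by
  intro y hy
  unfold II
  rw [FRA_NN_per hG y hy, FRA_per (FRA_per hG j) i y hy]

theorem FRA_II_line {G : E2 → V3} (hG : Per G) (i j : Fin 2) (x : ℝ) :
    II G i j (pt (x + 2 * π)) = II G i j (pt x) := by
  rw [FRA_pt_add]
  exact FRA_II_per hG i j _ (FRA_pt_mem x)

theorem FRA_phi {φ : ℝ → ℝ} (h : Ang φ) (x : ℝ) : deriv φ (x + 2 * π) = deriv φ x := by
  have h1 : deriv (fun y => φ (y + 2 * π)) x = deriv φ (x + 2 * π) := deriv_comp_add_const _ _ _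
  have h2 : (fun y => φ (y + 2 * π)) = fun y => φ y + 2 * π := funext h.per
  rw [← h1, h2, deriv_add_const]

theorem FRA_comp {X : Type*} [NormedAddCommGroup X] [NormedSpace ℝ X] {H : E2 → X}
    {n : WithTop ℕ∞} (hH : ContDiffOn ℝ n H St) : ContDiff ℝ n fun x => H (pt x) :=
  hH.comp_contDiff FRA_pt_smooth FRA_pt_mem

/-! ### the theorem -/

theorem p_FRA (hFRM : Pool.FR.Stmt_FRM) (hCHR : Pool.FR.Stmt_CHR) (hTR0 : Stmt_TR0) :
    Stmt_FRA := by
  intro F e1 e2 φ ρ lam mu hTr G hG hIso hPer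
  obtain ⟨hW, hρs, hls, hms, hlp, hmp, hpt⟩ := hTR0 F e1 e2 φ ρ lam mu hTr
  have hρ0 : ∀ x, ρ x ≠ 0 := fun x => (hTr.rpos x).ne'
  have hm0 : ∀ x, mu x ≠ 0 := fun x => (hTr.mpos x).ne'
  have hφ0 : ∀ x, deriv φ x ≠ 0 := fun x => (hTr.ang.pos x).ne'
  -- the metric on the line
  have g00 : ∀ x, gg G 0 0 (pt x) = ρ x ^ 2 := fun x => by
    rw [hIso _ (FRA_pt_mem x), (hpt x).1]
  have g01 : ∀ x, gg G 0 1 (pt x) = ρ x * lam x := fun x => by
    rw [hIso _ (FRA_pt_mem x), (hpt x).2.1]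
  have g11 : ∀ x, gg G 1 1 (pt x) = lam x ^ 2 + mu x ^ 2 := fun x => by
    rw [hIso _ (FRA_pt_mem x), (hpt x).2.2.1]
  have hDD : ∀ x, DD G (pt x) = (ρ x * mu x) ^ 2 := fun x => by
    unfold DD
    rw [g00, g01, g11]
    ring
  have hsq : ∀ x, Real.sqrt (DD G (pt x)) = ρ x * mu x := fun x => by
    rw [hDD]
    exact Real.sqrt_sq (mul_pos (hTr.rpos x) (hTr.mpos x)).le
  have d00 : ∀ x, pd 0 G (pt x) ⬝ᵥ pd 0 G (pt x) = ρ x ^ 2 := g00
  have d01 : ∀ x, pd 0 G (pt x) ⬝ᵥ pd 1 G (pt x) = ρ x * lam x := g01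
  have d10 : ∀ x, pd 1 G (pt x) ⬝ᵥ pd 0 G (pt x) = ρ x * lam x := fun x => by
    rw [dotProduct_comm]
    exact g01 x
  have d11 : ∀ x, pd 1 G (pt x) ⬝ᵥ pd 1 G (pt x) = lam x ^ 2 + mu x ^ 2 := g11
  -- the vectors
  have hG0 : ∀ x, pd 0 G (pt x) = ρ x • fT ρ G x := fun x => by
    unfold fT
    rw [smul_smul, mul_inv_cancel₀ (hρ0 x), one_smul]
  have hN : ∀ x, fN ρ G x = (mu x)⁻¹ • (pd 1 G (pt x) - lam x • fT ρ G x) := fun x => by
    unfold fN fn fT NN WW
    rw [hsq, map_smul, map_smul, LinearMap.smul_apply, FRA_triple, d00, d10]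
    rw [smul_sub, smul_sub, smul_sub, smul_smul, smul_smul, smul_smul, smul_smul, smul_smul,
      smul_smul]
    have hr := hρ0 x
    have hm := hm0 x
    congr 1
    · congr 1
      field_simp
    · congr 1
      field_simp
  have hG1 : ∀ x, pd 1 G (pt x) = lam x • fT ρ G x + mu x • fN ρ G x := fun x => by
    rw [hN, smul_smul, mul_inv_cancel₀ (hm0 x), one_smul]
    abel
  have hfrm := fun x => hFRM St FRA_St_open G hG (pt x) (FRA_pt_mem x)
  have nn : ∀ x, fn G x ⬝ᵥ fn G x = 1 := fun x => (hfrm x).1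
  have n0 : ∀ x k, pd k G (pt x) ⬝ᵥ fn G x = 0 := fun x k => (hfrm x).2.1 k
  have TT : ∀ x, fT ρ G x ⬝ᵥ fT ρ G x = 1 := fun x => by
    unfold fT
    rw [smul_dotProduct, dotProduct_smul, d00, smul_eq_mul, smul_eq_mul]
    have hr := hρ0 x
    field_simp
  have Tn : ∀ x, fT ρ G x ⬝ᵥ fn G x = 0 := fun x => by
    unfold fT
    rw [smul_dotProduct, n0, smul_zero]
  have G1T : ∀ x, pd 1 G (pt x) ⬝ᵥ fT ρ G x = lam x := fun x => by
    unfold fT
    rw [dotProduct_smul, d10, smul_eq_mul]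
    have hr := hρ0 x
    field_simp
  have TG1 : ∀ x, fT ρ G x ⬝ᵥ pd 1 G (pt x) = lam x := fun x => by
    rw [dotProduct_comm]
    exact G1T x
  have TN : ∀ x, fT ρ G x ⬝ᵥ fN ρ G x = 0 := fun x => by
    rw [hN, dotProduct_smul, dotProduct_sub, dotProduct_smul, TG1, TT]
    simp
  have Nn : ∀ x, fN ρ G x ⬝ᵥ fn G x = 0 := fun x => by
    rw [hN, smul_dotProduct, sub_dotProduct, n0, smul_dotProduct, Tn]
    simp
  have NN' : ∀ x, fN ρ G x ⬝ᵥ fN ρ G x = 1 := fun x => by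
    rw [hN, smul_dotProduct, dotProduct_smul, sub_dotProduct, dotProduct_sub, dotProduct_sub,
      dotProduct_smul, smul_dotProduct, smul_dotProduct, dotProduct_smul, d11, G1T, TG1, TT]
    have hm := hm0 x
    simp only [smul_eq_mul, mul_one]
    field_simp
    ring
  -- a vector is determined by its products with the frame
  have hext : ∀ (x : ℝ) (w w' : V3), w ⬝ᵥ fT ρ G x = w' ⬝ᵥ fT ρ G x →
      w ⬝ᵥ fN ρ G x = w' ⬝ᵥ fN ρ G x → w ⬝ᵥ fn G x = w' ⬝ᵥ fn G x → w = w' := by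
    intro x w w' h1 h2 h3
    have h4 : (w - w') ⬝ᵥ pd 0 G (pt x) = 0 := by
      rw [hG0, dotProduct_smul, sub_dotProduct, h1, sub_self, smul_zero]
    have h5 : (w - w') ⬝ᵥ pd 1 G (pt x) = 0 := by
      rw [hG1, dotProduct_add, dotProduct_smul, dotProduct_smul, sub_dotProduct,
        sub_dotProduct, h1, h2, sub_self, sub_self, smul_zero, smul_zero, add_zero]
    have h6 : (w - w') ⬝ᵥ NN G (pt x) = 0 := by
      have h7 : (w - w') ⬝ᵥ fn G x = 0 := by rw [sub_dotProduct, h3, sub_self]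
      exact h7
    have h7 := (hfrm x).2.2.2.1 (w - w')
    rw [h4, h5, h6] at h7
    simp only [mul_zero, sub_zero, zero_div, zero_smul, add_zero] at h7
    exact sub_eq_zero.1 h7
  -- derivatives
  have hGs : ∀ j, ContDiffOn ℝ 3 (pd j G) St := fun j =>
    Pool.FR.pd_contDiffOn FRA_St_open hG.smooth (by norm_num) j
  have dG : ∀ j x, HasDerivAt (fun y => pd j G (pt y)) (pd 0 (pd j G) (pt x)) x := fun j x =>
    FRA_line (Pool.FR.diff_at FRA_St_open (hGs j) (by norm_num) (FRA_pt_mem x))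
  have hNs : ContDiffOn ℝ 3 (NN G) St := (hfrm 0).2.2.2.2.2.2.2.2.1
  have hIs : ∀ i j, ContDiffOn ℝ 2 (II G i j) St := (hfrm 0).2.2.2.2.2.2.2.2.2
  have dn : ∀ x, HasDerivAt (fn G) (pd 0 (NN G) (pt x)) x := fun x =>
    FRA_line (Pool.FR.diff_at FRA_St_open hNs (by norm_num) (FRA_pt_mem x))
  have hρd : ∀ x, HasDerivAt ρ (deriv ρ x) x := fun x =>
    ((hρs.differentiable (by norm_num)) x).hasDerivAt
  have hld : ∀ x, HasDerivAt lam (deriv lam x) x := fun x =>
    ((hls.differentiable (by norm_num)) x).hasDerivAt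
  have hmd : ∀ x, HasDerivAt mu (deriv mu x) x := fun x =>
    ((hms.differentiable (by norm_num)) x).hasDerivAt
  -- the derivative of T
  have dT0 : ∀ x, HasDerivAt (fT ρ G) ((ρ x)⁻¹ • pd 0 (pd 0 G) (pt x) +
      (-(deriv ρ x) / ρ x ^ 2) • pd 0 G (pt x)) x := fun x =>
    ((hρd x).inv (hρ0 x)).smul (dG 0 x)
  have hII : ∀ x j, pd 0 (pd j G) (pt x) ⬝ᵥ fn G x = II G 0 j (pt x) := fun x j => rfl
  have hTn' : ∀ x, ((ρ x)⁻¹ • pd 0 (pd 0 G) (pt x) +
      (-(deriv ρ x) / ρ x ^ 2) • pd 0 G (pt x)) ⬝ᵥ fn G x = deriv φ x * aa φ ρ G x := fun x => by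
    rw [add_dotProduct, smul_dotProduct, smul_dotProduct, n0, smul_zero, add_zero, hII,
      smul_eq_mul]
    unfold aa
    have hr := hρ0 x
    have hp := hφ0 x
    field_simp
  have hG0N : ∀ x, pd 0 G (pt x) ⬝ᵥ fN ρ G x = 0 := fun x => by
    rw [hG0, smul_dotProduct, TN, smul_zero]
  have hTN' : ∀ x, ((ρ x)⁻¹ • pd 0 (pd 0 G) (pt x) +
      (-(deriv ρ x) / ρ x ^ 2) • pd 0 G (pt x)) ⬝ᵥ fN ρ G x = deriv φ x := fun x => by
    have hr := hρ0 x
    have hm := hm0 x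
    have h1 := (hCHR St FRA_St_open F hTr.imm).2.2 G hG hIso (pt x) (FRA_pt_mem x)
    have h2 : (gg F 0 0 (pt x) * Ga F 0 0 1 (pt x) - gg F 0 1 (pt x) * Ga F 0 0 0 (pt x)) /
        DD F (pt x) = ρ x * deriv φ x / mu x := by
      have h3 := (hpt x).2.2.2.2.2.2.2
      unfold Gb at h3
      rw [if_neg (by norm_num)] at h3
      exact h3
    have hDF : DD F (pt x) = (ρ x * mu x) ^ 2 := by
      rw [← hDD]
      unfold DD
      rw [hIso _ (FRA_pt_mem x), hIso _ (FRA_pt_mem x), hIso _ (FRA_pt_mem x)]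
    rw [hDF, (hpt x).1, (hpt x).2.1, ← (h1 0 0 1).1, ← (h1 0 0 0).1] at h2
    have h4 : pd 0 (pd 0 G) (pt x) ⬝ᵥ fN ρ G x =
        (mu x)⁻¹ * (Ga G 0 0 1 (pt x) - lam x * ((ρ x)⁻¹ * Ga G 0 0 0 (pt x))) := by
      rw [hN, dotProduct_smul, dotProduct_sub, dotProduct_smul]
      unfold fT
      rw [dotProduct_smul]
      rfl
    rw [add_dotProduct, smul_dotProduct, smul_dotProduct, hG0N, smul_zero, add_zero, h4,
      smul_eq_mul]
    field_simp at h2 ⊢
    linarith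
  have hTT' : ∀ x, ((ρ x)⁻¹ • pd 0 (pd 0 G) (pt x) +
      (-(deriv ρ x) / ρ x ^ 2) • pd 0 G (pt x)) ⬝ᵥ fT ρ G x = 0 := fun x => by
    have h1 := FRA_dot (dT0 x) (dT0 x)
    have h2 : (fun y => fT ρ G y ⬝ᵥ fT ρ G y) = fun _ => (1 : ℝ) := funext TT
    rw [h2] at h1
    have h3 := h1.unique (hasDerivAt_const x (1 : ℝ))
    rw [dotProduct_comm (fT ρ G x)] at h3
    linarith
  have dT : ∀ x, HasDerivAt (fT ρ G) (deriv φ x • (fN ρ G x + aa φ ρ G x • fn G x)) x := by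
    intro x
    refine (dT0 x).congr_deriv (hext x _ _ ?_ ?_ ?_)
    · rw [hTT', smul_dotProduct, add_dotProduct, smul_dotProduct, dotProduct_comm (fN ρ G x),
        TN, dotProduct_comm (fn G x), Tn]
      simp
    · rw [hTN', smul_dotProduct, add_dotProduct, smul_dotProduct, NN',
        dotProduct_comm (fn G x), Nn]
      simp
    · rw [hTn', smul_dotProduct, add_dotProduct, smul_dotProduct, Nn, nn]
      simp
  -- the derivative of N
  obtain ⟨N', hN', hNn'⟩ : ∃ N' : ℝ → V3, (∀ x, HasDerivAt (fN ρ G) (N' x) x) ∧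
      ∀ x, N' x ⬝ᵥ fn G x = deriv φ x * bb φ ρ lam mu G x := by
    refine ⟨fun x => (mu x)⁻¹ • (pd 0 (pd 1 G) (pt x) -
      (lam x • (deriv φ x • (fN ρ G x + aa φ ρ G x • fn G x)) + deriv lam x • fT ρ G x)) +
      (-(deriv mu x) / mu x ^ 2) • (pd 1 G (pt x) - lam x • fT ρ G x), fun x => ?_, fun x => ?_⟩
    · have h1 : fN ρ G = fun x => (mu x)⁻¹ • (pd 1 G (pt x) - lam x • fT ρ G x) := funext hN
      rw [h1]
      have h2 := ((hmd x).inv (hm0 x)).smul ((dG 1 x).sub ((hld x).smul (dT x)))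
      rw [h1] at h2
      exact h2
    · have hr := hρ0 x
      have hm := hm0 x
      have hp := hφ0 x
      simp only [add_dotProduct, smul_dotProduct, sub_dotProduct, n0, Nn, nn, Tn, hII,
        smul_eq_mul, mul_zero, add_zero, sub_zero, zero_add, mul_one]
      unfold aa bb
      field_simp
  have hNT' : ∀ x, N' x ⬝ᵥ fT ρ G x = -deriv φ x := fun x => by
    have h1 := FRA_dot (dT x) (hN' x)
    have h2 : (fun y => fT ρ G y ⬝ᵥ fN ρ G y) = fun _ => (0 : ℝ) := funext TN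
    rw [h2] at h1
    have h3 := h1.unique (hasDerivAt_const x (0 : ℝ))
    rw [dotProduct_comm (fT ρ G x), smul_dotProduct, add_dotProduct, smul_dotProduct, NN',
      dotProduct_comm (fn G x), Nn] at h3
    simp only [smul_eq_mul, mul_zero, add_zero, mul_one] at h3
    linarith
  have hNN' : ∀ x, N' x ⬝ᵥ fN ρ G x = 0 := fun x => by
    have h1 := FRA_dot (hN' x) (hN' x)
    have h2 : (fun y => fN ρ G y ⬝ᵥ fN ρ G y) = fun _ => (1 : ℝ) := funext NN'
    rw [h2] at h1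
    have h3 := h1.unique (hasDerivAt_const x (1 : ℝ))
    rw [dotProduct_comm (fN ρ G x)] at h3
    linarith
  have dN : ∀ x, HasDerivAt (fN ρ G)
      (deriv φ x • (-(fT ρ G x) + bb φ ρ lam mu G x • fn G x)) x := by
    intro x
    refine (hN' x).congr_deriv (hext x _ _ ?_ ?_ ?_)
    · rw [hNT', smul_dotProduct, add_dotProduct, smul_dotProduct, neg_dotProduct, TT,
        dotProduct_comm (fn G x), Tn]
      simp
    · rw [hNN', smul_dotProduct, add_dotProduct, smul_dotProduct, neg_dotProduct, TN,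
        dotProduct_comm (fn G x), Nn]
      simp
    · rw [hNn', smul_dotProduct, add_dotProduct, smul_dotProduct, neg_dotProduct, Tn, nn]
      simp
  -- the derivative of n
  have dn' : ∀ x, HasDerivAt (fn G)
      (deriv φ x • (-(aa φ ρ G x • fT ρ G x) - bb φ ρ lam mu G x • fN ρ G x)) x := by
    intro x
    refine (dn x).congr_deriv (hext x _ _ ?_ ?_ ?_)
    · have h2 := FRA_dot (dn x) (dT x)
      have h3 : (fun y => fn G y ⬝ᵥ fT ρ G y) = fun _ => (0 : ℝ) := funext fun y => by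
        rw [dotProduct_comm, Tn]
      rw [h3] at h2
      have h4 := h2.unique (hasDerivAt_const x (0 : ℝ))
      simp only [dotProduct_smul, dotProduct_add, smul_dotProduct, sub_dotProduct,
        neg_dotProduct, nn, TT, dotProduct_comm (fn G x) (fN ρ G x), Nn,
        dotProduct_comm (fN ρ G x) (fT ρ G x), TN, smul_eq_mul] at h4 ⊢
      linarith
    · have h2 := FRA_dot (dn x) (dN x)
      have h3 : (fun y => fn G y ⬝ᵥ fN ρ G y) = fun _ => (0 : ℝ) := funext fun y => by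
        rw [dotProduct_comm, Nn]
      rw [h3] at h2
      have h4 := h2.unique (hasDerivAt_const x (0 : ℝ))
      simp only [dotProduct_smul, dotProduct_add, dotProduct_neg, smul_dotProduct,
        sub_dotProduct, neg_dotProduct, nn, NN', TN, dotProduct_comm (fn G x) (fT ρ G x), Tn,
        smul_eq_mul] at h4 ⊢
      linarith
    · have h2 := (hfrm x).2.2.2.2.2.2.1 0
      have h3 : pd 0 (NN G) (pt x) ⬝ᵥ fn G x = 0 := h2
      rw [h3]
      simp only [smul_dotProduct, sub_dotProduct, neg_dotProduct, Tn, Nn, smul_eq_mul]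
      ring
  -- periodicity
  have pT : Function.Periodic (fT ρ G) (2 * π) := fun x => by
    unfold fT
    rw [hW.per x, FRA_pt_add, FRA_per hPer 0 _ (FRA_pt_mem x)]
  have pn : Function.Periodic (fn G) (2 * π) := fun x => by
    unfold fn
    rw [FRA_pt_add, FRA_NN_per hPer _ (FRA_pt_mem x)]
  have pN : Function.Periodic (fN ρ G) (2 * π) := fun x => by
    unfold fN
    rw [pT x, pn x]
  have pa : Function.Periodic (aa φ ρ G) (2 * π) := fun x => by
    unfold aa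
    rw [FRA_II_line hPer, hW.per x, FRA_phi hTr.ang]
  have pb : Function.Periodic (bb φ ρ lam mu G) (2 * π) := fun x => by
    unfold bb
    rw [FRA_II_line hPer, FRA_II_line hPer, hW.per x, FRA_phi hTr.ang, hlp x, hmp x]
  -- smoothness
  have hφ2 : ContDiff ℝ 2 (deriv φ) := by
    have h1 : ContDiff ℝ (2 + 1) φ := hTr.ang.smooth
    exact (contDiff_succ_iff_deriv.1 h1).2.2
  have ca : ContDiff ℝ 1 (aa φ ρ G) :=
    ((FRA_comp (hIs 0 0)).of_le (by norm_num)).div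
      ((hρs.of_le (by norm_num)).mul (hφ2.of_le (by norm_num)))
      fun x => mul_ne_zero (hρ0 x) (hφ0 x)
  have cb : ContDiff ℝ 2 (bb φ ρ lam mu G) :=
    ((FRA_comp (hIs 0 1)).sub ((hls.of_le (by norm_num)).mul
      ((FRA_comp (hIs 0 0)).div (hρs.of_le (by norm_num)) hρ0))).div
      ((hms.of_le (by norm_num)).mul hφ2) fun x => mul_ne_zero (hm0 x) (hφ0 x)
  refine ⟨⟨dT, dN, dn', TT, NN', nn, TN, Tn, Nn, pT, pN, pn, pa, pb, ca, cb, ?_⟩,
    fun x => ⟨hG0 x, hG1 x⟩⟩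
  intro i
  have h1 : (fun x => ρ x * fT ρ G x i) = fun x => pd 0 G (pt x) i := by
    funext x
    rw [hG0 x]
    rfl
  rw [h1]
  have h2 : ∀ x, HasDerivAt (fun y => G (pt y) i) (pd 0 G (pt x) i) x := fun x =>
    hasDerivAt_pi.1 (FRA_line (Pool.FR.diff_at FRA_St_open hG.smooth (by norm_num)
      (FRA_pt_mem x))) i
  have h3 : Continuous fun x => pd 0 G (pt x) i :=
    (continuous_apply i).comp (FRA_comp (hGs 0)).continuous
  unfold IC
  rw [intervalIntegral.integral_eq_sub_of_hasDerivAt (fun x _ => h2 x)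
    (h3.intervalIntegrable _ _)]
  have h4 : pt (2 * π) = pt 0 + (2 * π) • ee 0 := by
    rw [← FRA_pt_add, zero_add]
  rw [h4, hPer _ (FRA_pt_mem 0), sub_self]

end Pool.TRG

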