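import Pool.Agent.Work.MP_02e829_tr.Interface3
import Pool.Agent.Work.MP_02e829_tr.B_FRA

/-! # MP_02e829_gt, TROUGH RIGIDITY: block HPR (two surfaces satisfy the hyperbolic system) -/

open Set Filter Matrix Metric
open scoped Topology ContDiff Real

set_option autoImplicit false

namespace Pool.TRG

open Pool.FR (pd ee gg WW DD NN II Ga Gb Imm SO3 pd_add pd_sub pd_contDiffOn diff_at)

/-- the Christoffel symbols are continuous -/
lemma HPR_Gb {F : E2 → V3} (hF : Imm F St) (k i j : Fin 2) : ContinuousOn (Gb F k i j) St := by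
  have s1 : ∀ i, ContDiffOn ℝ 3 (pd i F) St := fun i =>
    pd_contDiffOn FRA_St_open hF.smooth (by norm_num) i
  have s2 : ∀ i j, ContDiffOn ℝ 2 (pd i (pd j F)) St := fun i j =>
    pd_contDiffOn FRA_St_open (s1 j) (by norm_num) i
  have cg : ∀ i j, ContinuousOn (gg F i j) St := fun i j =>
    (Pool.FR.contDiffOn_dot (s1 i) (s1 j)).continuousOn
  have cG : ∀ i j k, ContinuousOn (Ga F i j k) St := fun i j k =>
    (Pool.FR.contDiffOn_dot (s2 i j) ((s1 k).of_le (by norm_num))).continuousOn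
  have cD : ContinuousOn (DD F) St := ((cg 0 0).mul (cg 1 1)).sub ((cg 0 1).pow 2)
  have hD : ∀ x ∈ St, DD F x ≠ 0 := fun x hx => (hF.pos x hx).ne'
  by_cases hk : k = 0
  · have h : Gb F k i j = fun x =>
        (gg F 1 1 x * Ga F i j 0 x - gg F 0 1 x * Ga F i j 1 x) / DD F x := by
      funext x
      rw [Gb, if_pos hk]
    rw [h]
    exact (((cg 1 1).mul (cG i j 0)).sub ((cg 0 1).mul (cG i j 1))).div cD hD
  · have h : Gb F k i j = fun x =>
        (gg F 0 0 x * Ga F i j 1 x - gg F 0 1 x * Ga F i j 0 x) / DD F x := by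
      funext x
      rw [Gb, if_neg hk]
    rw [h]
    exact (((cg 0 0).mul (cG i j 1)).sub ((cg 0 1).mul (cG i j 0))).div cD hD

/-- and periodic -/
lemma HPR_Gb_per {F : E2 → V3} (hF : Per F) (k i j : Fin 2) : PerR (Gb F k i j) := by
  intro x hx
  have h1 := FRA_per hF
  have h2 := fun j => FRA_per (h1 j)
  unfold Gb DD gg Ga
  rw [h1 0 x hx, h1 1 x hx, h2 j i x hx]

theorem p_HPR (hFRM : Pool.FR.Stmt_FRM) (hCHR : Pool.FR.Stmt_CHR) (hCOD : Pool.FR.Stmt_COD)
    (hEGG : Stmt_EGG) (hHEN : Stmt_HEN) : Stmt_HPR := by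
  intro r F G hr0 hr1 hF hG hiso hpF hpG hfF hfG h11 hne hGb hsign
  have hO := FRA_St_open
  have smF : ∀ i j, ContDiffOn ℝ 2 (II F i j) St := fun i j =>
    (hFRM St hO F hF _ (FRA_pt_mem 0)).2.2.2.2.2.2.2.2.2 i j
  have smG : ∀ i j, ContDiffOn ℝ 2 (II G i j) St := fun i j =>
    (hFRM St hO G hG _ (FRA_pt_mem 0)).2.2.2.2.2.2.2.2.2 i j
  have symF : ∀ x ∈ St, II F 1 0 x = II F 0 1 x := fun x hx =>
    (hFRM St hO F hF x hx).2.2.2.2.1 1 0
  have symG : ∀ x ∈ St, II G 1 0 x = II G 0 1 x := fun x hx =>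
    (hFRM St hO G hG x hx).2.2.2.2.1 1 0
  have dF : ∀ i j, ∀ x ∈ St, DifferentiableAt ℝ (II F i j) x := fun i j x hx =>
    diff_at hO (smF i j) (by norm_num) hx
  have dG : ∀ i j, ∀ x ∈ St, DifferentiableAt ℝ (II G i j) x := fun i j x hx =>
    diff_at hO (smG i j) (by norm_num) hx
  have eGb : ∀ x ∈ St, ∀ k i j, Gb G k i j x = Gb F k i j x := fun x hx k i j =>
    ((hCHR St hO F hF).2.2 G hG hiso x hx k i j).2
  have pS : ∀ k i j, ∀ x ∈ St, pd k (fun y => II G i j y - II F i j y) x =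
      pd k (II G i j) x - pd k (II F i j) x := fun k i j x hx =>
    pd_sub k (dG i j x hx) (dF i j x hx)
  have pA : ∀ k i j, ∀ x ∈ St, pd k (fun y => II G i j y + II F i j y) x =
      pd k (II G i j) x + pd k (II F i j) x := fun k i j x hx =>
    pd_add k (dG i j x hx) (dF i j x hx)
  -- the derivative along the line
  have line : ∀ (H : E2 → V3), Imm H St → Flat H → ∀ x, pd 0 (II H 0 1) (pt x) = 0 := by
    intro H hH hfl x
    have h1 : HasDerivAt (fun y => II H 0 1 (pt y)) (pd 0 (II H 0 1) (pt x)) x :=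
      FRA_line (diff_at hO ((hFRM St hO H hH _ (FRA_pt_mem 0)).2.2.2.2.2.2.2.2.2 0 1)
        (by norm_num) (FRA_pt_mem x))
    have h2 : (fun y => II H 0 1 (pt y)) = fun _ => (0 : ℝ) := funext fun y => (hfl y).2
    rw [h2] at h1
    exact (h1.unique (hasDerivAt_const x (0 : ℝ)))
  have hl : ∀ i : Fin 3, ContinuousOn ((![Gb F 0 0 1, fun x => Gb F 1 0 1 x - Gb F 0 0 0 x,
      fun x => -Gb F 1 0 0 x] : Fin 3 → E2 → ℝ) i) St := by
    intro i
    fin_cases i
    · exact HPR_Gb hF 0 0 1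
    · exact (HPR_Gb hF 1 0 1).sub (HPR_Gb hF 0 0 0)
    · exact (HPR_Gb hF 1 0 0).neg
  have hm : ∀ i : Fin 3, ContinuousOn ((![Gb F 0 1 1, fun x => Gb F 1 1 1 x - Gb F 0 0 1 x,
      fun x => -Gb F 1 0 1 x] : Fin 3 → E2 → ℝ) i) St := by
    intro i
    fin_cases i
    · exact HPR_Gb hF 0 1 1
    · exact (HPR_Gb hF 1 1 1).sub (HPR_Gb hF 0 0 1)
    · exact (HPR_Gb hF 1 0 1).neg
  have hpl : ∀ i : Fin 3, PerR ((![Gb F 0 0 1, fun x => Gb F 1 0 1 x - Gb F 0 0 0 x,
      fun x => -Gb F 1 0 0 x] : Fin 3 → E2 → ℝ) i) := by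
    intro i
    fin_cases i
    · exact HPR_Gb_per hpF 0 0 1
    · intro x hx
      change Gb F 1 0 1 _ - Gb F 0 0 0 _ = Gb F 1 0 1 x - Gb F 0 0 0 x
      rw [HPR_Gb_per hpF 1 0 1 x hx, HPR_Gb_per hpF 0 0 0 x hx]
    · intro x hx
      change -Gb F 1 0 0 _ = -Gb F 1 0 0 x
      rw [HPR_Gb_per hpF 1 0 0 x hx]
  have hpm : ∀ i : Fin 3, PerR ((![Gb F 0 1 1, fun x => Gb F 1 1 1 x - Gb F 0 0 1 x,
      fun x => -Gb F 1 0 1 x] : Fin 3 → E2 → ℝ) i) := by
    intro i
    fin_cases i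
    · exact HPR_Gb_per hpF 0 1 1
    · intro x hx
      change Gb F 1 1 1 _ - Gb F 0 0 1 _ = Gb F 1 1 1 x - Gb F 0 0 1 x
      rw [HPR_Gb_per hpF 1 1 1 x hx, HPR_Gb_per hpF 0 0 1 x hx]
    · intro x hx
      change -Gb F 1 0 1 _ = -Gb F 1 0 1 x
      rw [HPR_Gb_per hpF 1 0 1 x hx]
  have hperS : ∀ i j, PerR fun y => II G i j y - II F i j y := by
    intro i j x hx
    change II G i j _ - II F i j _ = _
    rw [FRA_II_per hpG i j x hx, FRA_II_per hpF i j x hx]
  have hperA : ∀ i j, PerR fun y => II G i j y + II F i j y := by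
    intro i j x hx
    change II G i j _ + II F i j _ = _
    rw [FRA_II_per hpG i j x hx, FRA_II_per hpF i j x hx]
  have hHY : HY r (fun y => II G 0 0 y + II F 0 0 y) (fun y => II G 0 1 y + II F 0 1 y)
      (fun y => II G 1 1 y + II F 1 1 y) (fun y => II G 0 0 y - II F 0 0 y)
      (fun y => II G 0 1 y - II F 0 1 y) (fun y => II G 1 1 y - II F 1 1 y)
      ![Gb F 0 0 1, fun x => Gb F 1 0 1 x - Gb F 0 0 0 x, fun x => -Gb F 1 0 0 x]
      ![Gb F 0 1 1, fun x => Gb F 1 1 1 x - Gb F 0 0 1 x, fun x => -Gb F 1 0 1 x] := by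
    refine
      { r0 := hr0, r1 := hr1
        sA := (smG 0 0).add (smF 0 0), sB := (smG 0 1).add (smF 0 1)
        sC := (smG 1 1).add (smF 1 1), sa := (smG 0 0).sub (smF 0 0)
        sb := (smG 0 1).sub (smF 0 1), sw := (smG 1 1).sub (smF 1 1)
        sl := hl, sm := hm, pA := hperA 0 0, pB := hperA 0 1, pC := hperA 1 1
        pa := hperS 0 0, pb := hperS 0 1, pw := hperS 1 1, pl := hpl, pm := hpm
        e0 := ?_, e1 := ?_, e2 := ?_, zA := ?_, zB := ?_, za := ?_, zb := ?_, zw := ?_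
        C0 := ?_, A1 := ?_, l0 := ?_, hyp := ?_ }
    · intro x hx
      have h1 := hEGG St hO F G hF hG hiso x hx
      linarith [h1]
    · intro x hx
      have h1 := (hCOD St hO F hF x hx).1
      have h2 := (hCOD St hO G hG x hx).1
      rw [eGb x hx, eGb x hx, eGb x hx, eGb x hx, symG x hx] at h2
      rw [symF x hx] at h1
      rw [pS 1 0 0 x hx, pS 0 0 1 x hx]
      change _ = pd 0 (II G 0 1) x - pd 0 (II F 0 1) x + Gb F 0 0 1 x * (II G 0 0 x - II F 0 0 x) +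
        (Gb F 1 0 1 x - Gb F 0 0 0 x) * (II G 0 1 x - II F 0 1 x) +
        -Gb F 1 0 0 x * (II G 1 1 x - II F 1 1 x)
      linarith [h1, h2]
    · intro x hx
      have h1 := (hCOD St hO F hF x hx).2
      have h2 := (hCOD St hO G hG x hx).2
      rw [eGb x hx, eGb x hx, eGb x hx, eGb x hx, symG x hx] at h2
      rw [symF x hx] at h1
      rw [pS 1 0 1 x hx, pS 0 1 1 x hx]
      change _ = pd 0 (II G 1 1) x - pd 0 (II F 1 1) x + Gb F 0 1 1 x * (II G 0 0 x - II F 0 0 x) +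
        (Gb F 1 1 1 x - Gb F 0 0 1 x) * (II G 0 1 x - II F 0 1 x) +
        -Gb F 1 0 1 x * (II G 1 1 x - II F 1 1 x)
      linarith [h1, h2]
    · intro x
      change II G 0 0 _ + II F 0 0 _ = 0
      rw [(hfF x).1, (hfG x).1, add_zero]
    · intro x
      change II G 0 1 _ + II F 0 1 _ = 0
      rw [(hfF x).2, (hfG x).2, add_zero]
    · intro x
      change II G 0 0 _ - II F 0 0 _ = 0
      rw [(hfF x).1, (hfG x).1, sub_zero]
    · intro x
      change II G 0 1 _ - II F 0 1 _ = 0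
      rw [(hfF x).2, (hfG x).2, sub_zero]
    · intro x
      change II G 1 1 _ - II F 1 1 _ = 0
      rw [h11 x, sub_self]
    · intro x
      change II G 1 1 _ + II F 1 1 _ ≠ 0
      rw [h11 x]
      intro h
      exact hne x (by linarith)
    · intro x
      have hx := FRA_pt_mem x
      have h1 := (hCOD St hO F hF _ hx).1
      have h2 := (hCOD St hO G hG _ hx).1
      rw [line F hF hfF x, symF _ hx, (hfF x).1, (hfF x).2] at h1
      rw [line G hG hfG x, eGb _ hx, eGb _ hx, eGb _ hx, eGb _ hx, symG _ hx, (hfG x).1,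
        (hfG x).2] at h2
      rw [pA 1 0 0 _ hx]
      change _ = -Gb F 1 0 0 (pt x) * (II G 1 1 (pt x) + II F 1 1 (pt x))
      linarith [h1, h2]
    · intro x
      change -Gb F 1 0 0 (pt x) < 0
      linarith [hGb x]
    · intro x hx h0 h1
      exact hsign x hx h0 h1
  intro x h0 h1 i j
  have hx : x ∈ St := by
    change |x 1| < 1
    rw [abs_of_nonneg h0]
    linarith
  obtain ⟨k1, k2, k3⟩ := hHEN r _ _ _ _ _ _ _ _ hHY x h0 h1
  have k1' : II G 0 0 x = II F 0 0 x := sub_eq_zero.1 k1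
  have k2' : II G 0 1 x = II F 0 1 x := sub_eq_zero.1 k2
  have k3' : II G 1 1 x = II F 1 1 x := sub_eq_zero.1 k3
  fin_cases i <;> fin_cases j
  · exact k1'
  · exact k2'
  · change II G 1 0 x = II F 1 0 x
    rw [symF x hx, symG x hx]
    exact k2'
  · exact k3'

end Pool.TRG
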