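import Pool.Agent.Work.MP_02e829_tr.Interface3

/-!
# MP_02e829_gt, TROUGH RIGIDITY: block NLB
-/

open Set Filter Manifold Matrix MeasureTheory Metric
open scoped Topology ContDiff Manifold Real

set_option autoImplicit false

namespace Pool.TRG

open Pool
open Pool.FR (pd ee gg WW DD NN II Ga Gb Imm SO3)

theorem NLB_open : IsOpen St := by
  have h1 : Continuous fun x : E2 => |x 1| := by fun_prop
  exact isOpen_lt h1 continuous_const

theorem NLB_px0 (t s : ℝ) : px t s 0 = t := by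
  simp [px, ee]

theorem NLB_px1 (t s : ℝ) : px t s 1 = s := by
  simp [px, ee]

theorem NLB_px (x : E2) : px (x 0) (x 1) = x := by
  ext i
  fin_cases i
  · exact NLB_px0 _ _
  · exact NLB_px1 _ _

theorem NLB_px_zero (t : ℝ) : px t 0 = pt t := by
  simp [px, pt]

theorem NLB_mem {t s : ℝ} (h : |s| < 1) : px t s ∈ St := by
  change |px t s 1| < 1
  rwa [NLB_px1]

theorem NLB_px_per (t s : ℝ) : px (t + 2 * π) s = px t s + (2 * π) • ee 0 := by
  simp only [px, add_smul]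
  abel

/-- Derivative along the vertical segments. -/
theorem NLB_vert {u : E2 → ℝ} {t s : ℝ} (h : DifferentiableAt ℝ u (px t s)) :
    HasDerivAt (fun σ => u (px t σ)) (pd 1 u (px t s)) s := by
  have h1 : HasDerivAt (fun σ : ℝ => px t σ) (ee 1) s := by
    have h2 := ((hasDerivAt_id s).smul_const (ee 1)).const_add (t • ee 0)
    rw [one_smul] at h2
    exact h2
  exact h.hasFDerivAt.comp_hasDerivAt s h1

/-- Derivative along the horizontal lines. -/
theorem NLB_hor {u : E2 → ℝ} {t s : ℝ} (h : DifferentiableAt ℝ u (px t s)) :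
    HasDerivAt (fun τ => u (px τ s)) (pd 0 u (px t s)) t := by
  have h1 : HasDerivAt (fun τ : ℝ => px τ s) (ee 0) t := by
    have h2 := ((hasDerivAt_id t).smul_const (ee 0)).add_const (s • ee 1)
    rw [one_smul] at h2
    exact h2
  exact h.hasFDerivAt.comp_hasDerivAt t h1

/-- Partial derivatives of periodic functions. -/
theorem NLB_per {u : E2 → ℝ} (hu : PerR u) (i : Fin 2) : PerR (pd i u) := by
  intro x hx
  have h1 : (fun y => u (y + (2 * π) • ee 0)) =ᶠ[𝓝 x] u :=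
    Filter.eventuallyEq_of_mem (NLB_open.mem_nhds hx) hu
  have h2 := h1.fderiv_eq (𝕜 := ℝ)
  rw [fderiv_comp_add_right] at h2
  simp only [pd]
  rw [h2]

/-- A continuous periodic function is bounded. -/
theorem NLB_bound {v : E2 → ℝ} (hc : ContinuousOn v St) (hp : PerR v) :
    ∃ M : ℝ, 0 ≤ M ∧ ∀ t s : ℝ, 0 ≤ s → s ≤ 1 / 2 → |v (px t s)| ≤ M := by
  have hK : IsCompact (Icc (0 : ℝ) (2 * π) ×ˢ Icc (0 : ℝ) (1 / 2)) :=
    isCompact_Icc.prod isCompact_Icc
  have hpx : Continuous fun q : ℝ × ℝ => px q.1 q.2 := by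
    unfold px
    fun_prop
  have hcont : ContinuousOn (fun q : ℝ × ℝ => v (px q.1 q.2))
      (Icc (0 : ℝ) (2 * π) ×ˢ Icc (0 : ℝ) (1 / 2)) := by
    refine hc.comp hpx.continuousOn ?_
    intro q hq
    apply NLB_mem
    rw [abs_lt]
    constructor
    · linarith [hq.2.1]
    · linarith [hq.2.2]
  obtain ⟨M, hM⟩ := hK.exists_bound_of_continuousOn hcont
  refine ⟨max M 0, le_max_right _ _, fun t s hs0 hs1 => ?_⟩
  have hs : |s| < 1 := by
    rw [abs_lt]
    constructor <;> linarith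
  have hper : Function.Periodic (fun τ => v (px τ s)) (2 * π) := by
    intro τ
    change v (px (τ + 2 * π) s) = v (px τ s)
    rw [NLB_px_per]
    exact hp _ (NLB_mem hs)
  obtain ⟨y, hy, hty⟩ := hper.exists_mem_Ico₀ (by positivity) t
  rw [hty]
  have h1 := hM (y, s) ⟨⟨hy.1, hy.2.le⟩, ⟨hs0, hs1⟩⟩
  rw [Real.norm_eq_abs] at h1
  exact h1.trans (le_max_left _ _)

/-- Mean value inequality. -/
theorem NLB_mv {f f' : ℝ → ℝ} {C b : ℝ} (hb : 0 ≤ b)
    (hf : ∀ s ∈ Icc 0 b, HasDerivAt f (f' s) s) (bd : ∀ s ∈ Icc 0 b, |f' s| ≤ C)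
    (h0 : f 0 = 0) : |f b| ≤ C * b := by
  have h := norm_image_sub_le_of_norm_deriv_le_segment' (f := f) (f' := f') (C := C) (a := 0)
    (b := b) (fun x hx => (hf x hx).hasDerivWithinAt)
    (fun x hx => by rw [Real.norm_eq_abs]; exact bd x ⟨hx.1, hx.2.le⟩) b (right_mem_Icc.2 hb)
  rw [h0, sub_zero, sub_zero, Real.norm_eq_abs] at h
  exact h

theorem p_NLB : Stmt_NLB := by
  intro u hu hp h0
  have hd : ∀ x ∈ St, DifferentiableAt ℝ u x := fun x hx =>
    Pool.FR.diff_at NLB_open hu (by norm_num) hx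
  have hu1 : ∀ i, ContDiffOn ℝ 1 (pd i u) St := fun i =>
    Pool.FR.pd_contDiffOn NLB_open hu (by norm_num) i
  have hd1 : ∀ i, ∀ x ∈ St, DifferentiableAt ℝ (pd i u) x := fun i x hx =>
    Pool.FR.diff_at NLB_open (hu1 i) le_rfl hx
  have hu2 : ∀ i j, ContinuousOn (pd j (pd i u)) St := fun i j =>
    (Pool.FR.pd_contDiffOn (m := 0) NLB_open (hu1 i) (by norm_num) j).continuousOn
  obtain ⟨M1, hM1, b1⟩ := NLB_bound (hu1 1).continuousOn (NLB_per hp 1)
  obtain ⟨M2, hM2, b2⟩ := NLB_bound (hu2 0 1) (NLB_per (NLB_per hp 0) 1)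
  obtain ⟨M3, hM3, b3⟩ := NLB_bound (hu2 1 1) (NLB_per (NLB_per hp 1) 1)
  refine ⟨M1 + M2 + M3, by positivity, fun x hx0 hx1 => ?_⟩
  obtain ⟨t, s, rfl⟩ : ∃ t s, x = px t s := ⟨x 0, x 1, (NLB_px x).symm⟩
  rw [NLB_px1] at hx0 hx1
  rw [NLB_px1, NLB_px0]
  have hmem : ∀ σ ∈ Icc 0 s, px t σ ∈ St := by
    intro σ hσ
    apply NLB_mem
    rw [abs_lt]
    constructor
    · linarith [hσ.1]
    · linarith [hσ.2]
  have hle : ∀ σ ∈ Icc 0 s, σ ≤ 1 / 2 := fun σ hσ => hσ.2.trans hx1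
  have hss : 0 ≤ s * s := mul_self_nonneg s
  have hz : u (px t 0) = 0 := by
    rw [NLB_px_zero]
    exact h0 t
  have hz0 : pd 0 u (px t 0) = 0 := by
    have h1 := NLB_hor (hd (px t 0) (hmem 0 (left_mem_Icc.2 hx0)))
    have h2 : (fun τ => u (px τ 0)) = fun _ => (0 : ℝ) := by
      funext τ
      rw [NLB_px_zero]
      exact h0 τ
    rw [h2] at h1
    exact h1.unique (hasDerivAt_const t 0)
  -- the five bounds
  have B1 : |u (px t s)| ≤ M1 * s :=
    NLB_mv (f := fun σ => u (px t σ)) hx0 (fun σ hσ => NLB_vert (hd _ (hmem σ hσ)))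
      (fun σ hσ => b1 t σ hσ.1 (hle σ hσ)) hz
  have B2 : |pd 0 u (px t s)| ≤ M2 * s :=
    NLB_mv (f := fun σ => pd 0 u (px t σ)) hx0 (fun σ hσ => NLB_vert (hd1 0 _ (hmem σ hσ)))
      (fun σ hσ => b2 t σ hσ.1 (hle σ hσ)) hz0
  have B3 : |pd 1 u (px t s)| ≤ M1 := b1 t s hx0 hx1
  have D1 : ∀ σ ∈ Icc 0 s, |pd 1 u (px t σ) - pd 1 u (px t 0)| ≤ M3 * s := by
    intro σ hσ
    have h1 := NLB_mv (f := fun ρ => pd 1 u (px t ρ) - pd 1 u (px t 0)) (b := σ) hσ.1
      (fun ρ hρ => (NLB_vert (hd1 1 _ (hmem ρ ⟨hρ.1, hρ.2.trans hσ.2⟩))).sub_const _)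
      (fun ρ hρ => b3 t ρ hρ.1 (hle ρ ⟨hρ.1, hρ.2.trans hσ.2⟩)) (sub_self _)
    exact h1.trans (mul_le_mul_of_nonneg_left hσ.2 hM3)
  have B4 : |u (px t s) - s * pd 1 u (px t 0)| ≤ M3 * s * s := by
    refine NLB_mv (f := fun σ => u (px t σ) - σ * pd 1 u (px t 0))
      (f' := fun σ => pd 1 u (px t σ) - pd 1 u (px t 0)) hx0 (fun σ hσ => ?_) D1 ?_
    · have h1 := (NLB_vert (hd _ (hmem σ hσ))).sub
        ((hasDerivAt_id σ).mul_const (pd 1 u (px t 0)))
      rw [one_mul] at h1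
      exact h1
    · rw [zero_mul, sub_zero]
      exact hz
  have B5 : |s * pd 1 u (px t s) - u (px t s)| ≤ M3 * s * s := by
    refine NLB_mv (f := fun σ => σ * pd 1 u (px t σ) - u (px t σ))
      (f' := fun σ => σ * pd 1 (pd 1 u) (px t σ)) hx0 (fun σ hσ => ?_) (fun σ hσ => ?_) ?_
    · have h1 := ((hasDerivAt_id σ).mul (NLB_vert (hd1 1 _ (hmem σ hσ)))).sub
        (NLB_vert (hd _ (hmem σ hσ)))
      refine h1.congr_deriv ?_
      simp only [id]
      ring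
    · rw [abs_mul, abs_of_nonneg hσ.1, mul_comm]
      exact mul_le_mul (b3 t σ hσ.1 (hle σ hσ)) hσ.2 hσ.1 hM3
    · rw [zero_mul, zero_sub, hz, neg_zero]
  rw [NLB_px_zero] at B4
  have hM12 : 0 ≤ (M2 + M3) * s := by positivity
  have hM13 : 0 ≤ (M1 + M3) * s := by positivity
  have hM14 : 0 ≤ (M1 + M2) * (s * s) := by positivity
  refine ⟨by nlinarith, by nlinarith, by linarith, by nlinarith, by nlinarith⟩

end Pool.TRG
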