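import Pool.Agent.Work.MP_02e829_tr.Interface3

open Set Filter Manifold Matrix MeasureTheory Metric
open scoped Topology ContDiff Manifold Real

set_option autoImplicit false

namespace Pool.TRG

open Pool
open Pool.FR (pd ee gg WW DD NN II Ga Gb Imm SO3)

section fams

variable {X : Type*} [NormedAddCommGroup X] [NormedSpace ℝ X]
variable {X' : Type*} [NormedAddCommGroup X'] [NormedSpace ℝ X']

/-- families of class `C^n` on the strip with locally bounded derivatives -/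
structure UB3_B (n : ℕ) (u : ℝ → E2 → X) : Prop where
  sm : ∀ t ∈ Icc (0 : ℝ) 1, ContDiffOn ℝ n (u t) St
  bd : ∀ x ∈ St, ∃ M : ℝ, ∀ᶠ y in 𝓝 x, ∀ t ∈ Icc (0 : ℝ) 1, ∀ k ≤ n,
    ‖iteratedFDeriv ℝ k (u t) y‖ ≤ M

theorem UB3_St : IsOpen St := by
  have h1 : Continuous fun x : E2 => |x 1| := by fun_prop
  exact isOpen_lt h1 continuous_const

theorem UB3_le {n m : ℕ} {u : ℝ → E2 → X} (h : m ≤ n) (hu : UB3_B n u) : UB3_B m u := by
  refine ⟨fun t ht => (hu.sm t ht).of_le (by exact_mod_cast h), fun x hx => ?_⟩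
  obtain ⟨M, hM⟩ := hu.bd x hx
  exact ⟨M, hM.mono fun y hy t ht k hk => hy t ht k (hk.trans h)⟩

theorem UB3_clm {n : ℕ} {u : ℝ → E2 → X} (L : X →L[ℝ] X') (hu : UB3_B n u) :
    UB3_B n (fun t y => L (u t y)) := by
  refine ⟨fun t ht => L.contDiff.comp_contDiffOn (hu.sm t ht), fun x hx => ?_⟩
  obtain ⟨M, hM⟩ := hu.bd x hx
  refine ⟨‖L‖ * M, ?_⟩
  filter_upwards [hM, UB3_St.mem_nhds hx] with y hy hyS t ht k hk
  have h1 : ContDiffAt ℝ n (u t) y := (hu.sm t ht).contDiffAt (UB3_St.mem_nhds hyS)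
  have h2 := L.norm_iteratedFDeriv_comp_left (n := k) h1 (by exact_mod_cast hk)
  exact h2.trans (mul_le_mul_of_nonneg_left (hy t ht k hk) (norm_nonneg _))

theorem UB3_pd {n : ℕ} {u : ℝ → E2 → X} (i : Fin 2) (hu : UB3_B (n + 1) u) :
    UB3_B n (fun t => pd i (u t)) := by
  have h1 : UB3_B n (fun t => fderiv ℝ (u t)) := by
    refine ⟨fun t ht => (hu.sm t ht).fderiv_of_isOpen UB3_St (by exact_mod_cast le_rfl),
      fun x hx => ?_⟩
    obtain ⟨M, hM⟩ := hu.bd x hx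
    refine ⟨M, hM.mono fun y hy t ht k hk => ?_⟩
    rw [norm_iteratedFDeriv_fderiv]
    exact hy t ht (k + 1) (by omega)
  exact UB3_clm (ContinuousLinearMap.apply ℝ X (ee i)) h1

theorem UB3_add {n : ℕ} {u v : ℝ → E2 → X} (hu : UB3_B n u) (hv : UB3_B n v) :
    UB3_B n (fun t y => u t y + v t y) := by
  refine ⟨fun t ht => (hu.sm t ht).add (hv.sm t ht), fun x hx => ?_⟩
  obtain ⟨M, hM⟩ := hu.bd x hx
  obtain ⟨M', hM'⟩ := hv.bd x hx
  refine ⟨M + M', ?_⟩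
  filter_upwards [hM, hM', UB3_St.mem_nhds hx] with y hy hy' hyS t ht k hk
  have hk' : (k : WithTop ℕ∞) ≤ n := by exact_mod_cast hk
  have h1 : ContDiffAt ℝ k (u t) y := ((hu.sm t ht).contDiffAt (UB3_St.mem_nhds hyS)).of_le hk'
  have h2 : ContDiffAt ℝ k (v t) y := ((hv.sm t ht).contDiffAt (UB3_St.mem_nhds hyS)).of_le hk'
  rw [fun_iteratedFDeriv_add_apply h1 h2]
  exact (norm_add_le _ _).trans (add_le_add (hy t ht k hk) (hy' t ht k hk))

theorem UB3_mul {n : ℕ} {u v : ℝ → E2 → ℝ} (hu : UB3_B n u) (hv : UB3_B n v) :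
    UB3_B n (fun t y => u t y * v t y) := by
  refine ⟨fun t ht => (hu.sm t ht).mul (hv.sm t ht), fun x hx => ?_⟩
  obtain ⟨M, hM⟩ := hu.bd x hx
  obtain ⟨M', hM'⟩ := hv.bd x hx
  refine ⟨2 ^ n * (M * M'), ?_⟩
  filter_upwards [hM, hM', UB3_St.mem_nhds hx] with y hy hy' hyS t ht k hk
  have hk' : (k : WithTop ℕ∞) ≤ n := by exact_mod_cast hk
  have hM0 : 0 ≤ M := (norm_nonneg _).trans (hy t ht k hk)
  have hM0' : 0 ≤ M' := (norm_nonneg _).trans (hy' t ht k hk)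
  have h1 := norm_iteratedFDerivWithin_mul_le (hu.sm t ht) (hv.sm t ht) UB3_St.uniqueDiffOn hyS hk'
  rw [iteratedFDerivWithin_of_isOpen k UB3_St hyS] at h1
  refine h1.trans ?_
  have h2 : ∀ i ∈ Finset.range (k + 1), (k.choose i : ℝ) *
      ‖iteratedFDerivWithin ℝ i (u t) St y‖ * ‖iteratedFDerivWithin ℝ (k - i) (v t) St y‖ ≤
      (k.choose i : ℝ) * (M * M') := by
    intro i hi
    have hi' : i ≤ k := by
      have := Finset.mem_range.1 hi
      omega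
    rw [iteratedFDerivWithin_of_isOpen i UB3_St hyS,
      iteratedFDerivWithin_of_isOpen (k - i) UB3_St hyS, mul_assoc]
    refine mul_le_mul_of_nonneg_left ?_ (Nat.cast_nonneg _)
    exact mul_le_mul (hy t ht i (hi'.trans hk)) (hy' t ht (k - i) (by omega)) (norm_nonneg _) hM0
  refine (Finset.sum_le_sum h2).trans ?_
  rw [← Finset.sum_mul, ← Nat.cast_sum, Nat.sum_range_choose]
  have h3 : ((2 ^ k : ℕ) : ℝ) ≤ 2 ^ n := by
    push_cast
    exact pow_le_pow_right₀ (by norm_num) hk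
  exact mul_le_mul_of_nonneg_right h3 (mul_nonneg hM0 hM0')

theorem UB3_fix {n : ℕ} {w : E2 → X} (hw : ContDiffOn ℝ n w St) : UB3_B n fun _ => w := by
  refine ⟨fun _ _ => hw, fun x hx => ?_⟩
  refine ⟨∑ k ∈ Finset.range (n + 1), (‖iteratedFDeriv ℝ k w x‖ + 1), ?_⟩
  have h1 : ∀ k ∈ Finset.range (n + 1), ∀ᶠ y in 𝓝 x,
      ‖iteratedFDeriv ℝ k w y‖ < ‖iteratedFDeriv ℝ k w x‖ + 1 := by
    intro k hk
    have hk' : (k : WithTop ℕ∞) ≤ n := by
      have := Finset.mem_range.1 hk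
      have h2 : k ≤ n := by omega
      exact_mod_cast h2
    have h3 : ContinuousAt (iteratedFDeriv ℝ k w) x :=
      (hw.contDiffAt (UB3_St.mem_nhds hx)).continuousAt_iteratedFDeriv hk'
    exact h3.norm.eventually (gt_mem_nhds (lt_add_one _))
  filter_upwards [(Filter.eventually_all_finset _).2 h1] with y hy t _ k hk
  have hk' : k ∈ Finset.range (n + 1) := Finset.mem_range.2 (by omega)
  refine (hy k hk').le.trans ?_
  exact Finset.single_le_sum (f := fun k => ‖iteratedFDeriv ℝ k w x‖ + 1)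
    (fun i _ => by positivity) hk'

theorem UB3_congr {n : ℕ} {u v : ℝ → E2 → X} (hu : UB3_B n u)
    (h : ∀ t ∈ Icc (0 : ℝ) 1, ∀ y ∈ St, v t y = u t y) : UB3_B n v := by
  refine ⟨fun t ht => (hu.sm t ht).congr fun y hy => h t ht y hy, fun x hx => ?_⟩
  obtain ⟨M, hM⟩ := hu.bd x hx
  refine ⟨M, ?_⟩
  filter_upwards [hM, UB3_St.mem_nhds hx] with y hy hyS t ht k hk
  have h1 : v t =ᶠ[𝓝 y] u t := by
    filter_upwards [UB3_St.mem_nhds hyS] with z hz
    exact h t ht z hz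
  rw [(h1.iteratedFDeriv ℝ k).eq_of_nhds]
  exact hy t ht k hk

theorem UB3_cmp {n : ℕ} {u : ℝ → E2 → V3} (hu : UB3_B n u) (a : Fin 3) :
    UB3_B n fun t y => u t y a :=
  UB3_clm (ContinuousLinearMap.proj a : V3 →L[ℝ] ℝ) hu

end fams

theorem p_UB3 : Stmt_UB3 := by
  intro F hI hiso hLB i j x hx
  have h0 : UB3_B 4 F := ⟨fun t ht => by exact_mod_cast (hI t ht).smooth, hLB⟩
  have h1 : ∀ i a, UB3_B 2 fun t y => pd i (F t) y a := fun i a =>
    UB3_cmp (UB3_le (by norm_num) (UB3_pd (n := 3) i h0)) a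
  have h2 : ∀ i j a, UB3_B 2 fun t y => pd i (pd j (F t)) y a := fun i j a =>
    UB3_cmp (UB3_pd (n := 2) i (UB3_pd (n := 3) j h0)) a
  have hN : UB3_B 2 fun (_ : ℝ) (_ : E2) => (-1 : ℝ) := UB3_fix contDiffOn_const
  have hsub : ∀ {u v : ℝ → E2 → ℝ}, UB3_B 2 u → UB3_B 2 v → UB3_B 2 fun t x => u t x - v t x := by
    intro u v hu hv
    refine UB3_congr (UB3_add hu (UB3_mul hN hv)) fun t _ y _ => ?_
    ring
  have h3 : UB3_B 2 fun t y => pd i (pd j (F t)) y ⬝ᵥ WW (F t) y := by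
    have q0 := UB3_mul (h2 i j 0) (hsub (UB3_mul (h1 0 1) (h1 1 2)) (UB3_mul (h1 0 2) (h1 1 1)))
    have q1 := UB3_mul (h2 i j 1) (hsub (UB3_mul (h1 0 2) (h1 1 0)) (UB3_mul (h1 0 0) (h1 1 2)))
    have q2 := UB3_mul (h2 i j 2) (hsub (UB3_mul (h1 0 0) (h1 1 1)) (UB3_mul (h1 0 1) (h1 1 0)))
    refine UB3_congr (UB3_add (UB3_add q0 q1) q2) fun t _ y _ => ?_
    rw [WW, cross_apply, dotProduct, Fin.sum_univ_three]
    simp
  have hI0 : Imm (F 0) St := hI 0 (by norm_num)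
  have hp : ∀ i, ContDiffOn ℝ 2 (pd i (F 0)) St := fun i =>
    Pool.FR.pd_contDiffOn UB3_St hI0.smooth (by norm_num) i
  have hgg : ∀ i j, ContDiffOn ℝ 2 (gg (F 0) i j) St := fun i j =>
    Pool.FR.contDiffOn_dot (hp i) (hp j)
  have hDD : ContDiffOn ℝ 2 (DD (F 0)) St :=
    ((hgg 0 0).mul (hgg 1 1)).sub ((hgg 0 1).pow 2)
  have hr : ContDiffOn ℝ 2 (fun y => (Real.sqrt (DD (F 0) y))⁻¹) St := by
    refine (hDD.sqrt fun y hy => (hI0.pos y hy).ne').inv fun y hy => ?_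
    exact (Real.sqrt_pos.2 (hI0.pos y hy)).ne'
  have h4 : UB3_B 2 fun (_ : ℝ) y => (Real.sqrt (DD (F 0) y))⁻¹ := UB3_fix (by exact_mod_cast hr)
  have h5 : UB3_B 2 fun t => II (F t) i j := by
    refine UB3_congr (UB3_mul h4 h3) fun t ht y hy => ?_
    have hDt : DD (F t) y = DD (F 0) y := by
      rw [DD, DD, hiso t ht y hy 0 0, hiso t ht y hy 0 1, hiso t ht y hy 1 1]
    rw [II, NN, hDt, dotProduct_smul, smul_eq_mul]
  exact h5.bd x hx

end Pool.TRG
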