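import Pool.Agent.Work.MP_02e829_tr.Interface2
import Pool.Agent.Work.MP_02e829_sf.AllF

/-! # Block ELC: the pieces of positive curvature -/

open Set Filter Manifold Matrix MeasureTheory Metric
open scoped Topology ContDiff Manifold Real

set_option autoImplicit false

universe w

namespace Pool.SXB

theorem ELC_cross_mulVec (M : Matrix (Fin 3) (Fin 3) ℝ) (a b : V3) :
    Mᵀ *ᵥ ((M *ᵥ a) ⨯₃ (M *ᵥ b)) = M.det • (a ⨯₃ b) := by
  ext i
  fin_cases i <;>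
  · simp [Matrix.det_fin_three, cross_apply, mulVec, dotProduct, Fin.sum_univ_three]
    ring

theorem ELC_cross {R : Matrix (Fin 3) (Fin 3) ℝ} (h : Rᵀ * R = 1) (hd : R.det = 1) (a b : V3) :
    (R *ᵥ a) ⨯₃ (R *ᵥ b) = R *ᵥ (a ⨯₃ b) := by
  have h1 := ELC_cross_mulVec R a b
  rw [hd, one_smul] at h1
  rw [← h1, mulVec_mulVec, mul_eq_one_comm.1 h, one_mulVec]

theorem ELC_det_frame (a b : V3) :
    (Matrix.of ![a, b, a ⨯₃ b]).det = (a ⨯₃ b) ⬝ᵥ (a ⨯₃ b) := by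
  simp [Matrix.det_fin_three, cross_apply, dotProduct, Fin.sum_univ_three]
  ring

theorem ELC_frame {R R' : Matrix (Fin 3) (Fin 3) ℝ} {a b : V3}
    (hab : (a ⨯₃ b) ⬝ᵥ (a ⨯₃ b) ≠ 0) (ha : R *ᵥ a = R' *ᵥ a) (hb : R *ᵥ b = R' *ᵥ b)
    (hc : R *ᵥ (a ⨯₃ b) = R' *ᵥ (a ⨯₃ b)) : R = R' := by
  set A : Matrix (Fin 3) (Fin 3) ℝ := Matrix.of ![a, b, a ⨯₃ b] with hA
  have hdet : IsUnit A.det := by
    rw [hA, ELC_det_frame]
    exact isUnit_iff_ne_zero.2 hab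
  have hrow : ∀ (S : Matrix (Fin 3) (Fin 3) ℝ) (k i : Fin 3), (A * Sᵀ) k i = (S *ᵥ (A k)) i := by
    intro S k i
    simp only [Matrix.mul_apply, transpose_apply, mulVec, dotProduct]
    exact Finset.sum_congr rfl fun _ _ => mul_comm _ _
  have hmul : A * Rᵀ = A * R'ᵀ := by
    ext k i
    rw [hrow, hrow]
    fin_cases k
    · exact congrFun ha i
    · exact congrFun hb i
    · exact congrFun hc i
  have h2 : A⁻¹ * (A * Rᵀ) = A⁻¹ * (A * R'ᵀ) := by rw [hmul]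
  rw [← Matrix.mul_assoc, ← Matrix.mul_assoc, Matrix.nonsing_inv_mul A hdet, Matrix.one_mul,
    Matrix.one_mul] at h2
  exact Matrix.transpose_injective h2

/-- a proper motion is determined by the image of a point and of two independent directions -/
theorem ELC_uniq (A B : E3 ≃ᵃⁱ[ℝ] E3) (hA : Proper A) (hB : Proper B) (z a b : E3)
    (hab : L3 a ⨯₃ L3 b ≠ 0) (hz : A z = B z) (ha : A.linearIsometryEquiv a = B.linearIsometryEquiv a)
    (hb : A.linearIsometryEquiv b = B.linearIsometryEquiv b) : A = B := by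
  obtain ⟨R, hR, c, hRd, rfl⟩ := isoE_exists A hA
  obtain ⟨R', hR', c', hRd', rfl⟩ := isoE_exists B hB
  rw [isoE_lin, isoE_lin, linE_apply, linE_apply] at ha hb
  have ha' : R *ᵥ L3 a = R' *ᵥ L3 a := by
    rw [← turnE_L3, ← turnE_L3, ha]
  have hb' : R *ᵥ L3 b = R' *ᵥ L3 b := by
    rw [← turnE_L3, ← turnE_L3, hb]
  have hc' : R *ᵥ (L3 a ⨯₃ L3 b) = R' *ᵥ (L3 a ⨯₃ L3 b) := by
    rw [← ELC_cross hR hRd, ← ELC_cross hR' hRd', ha', hb']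
  have hne : (L3 a ⨯₃ L3 b) ⬝ᵥ (L3 a ⨯₃ L3 b) ≠ 0 := fun h => hab (dotProduct_self_eq_zero.1 h)
  have hRR : R = R' := ELC_frame hne ha' hb' hc'
  subst hRR
  have hcc : c = c' := by
    rw [isoE_apply, isoE_apply] at hz
    exact add_left_cancel hz
  subst hcc
  rfl

/-- the motions of the points of a set -/
theorem ELC_sub {S : Type w} [TopologicalSpace S] [ChartedSpace E2 S] (f0 ft : S → E3)
    (himm : ∀ p, Function.Injective (FRD.dvec f0 p)) (P : Set S) (ι : Type) (J : S → ι)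
    (g : ι → (E3 ≃ᵃⁱ[ℝ] E3)) (hg : ∀ i, Proper (g i))
    (h : ∀ p ∈ P, ft p = g (J p) (f0 p) ∧
      ∀ v, FRD.dvec ft p v = (g (J p)).linearIsometryEquiv (FRD.dvec f0 p v)) :
    Mset f0 ft P ⊆ Set.range g := by
  rintro B ⟨hB, p, hp, h1, h2⟩
  refine ⟨J p, ?_⟩
  obtain ⟨h3, h4⟩ := h p hp
  refine ELC_uniq _ _ (hg _) hB (f0 p) (FRD.dvec f0 p (Pool.FR.ee 0)) (FRD.dvec f0 p (Pool.FR.ee 1)) ?_
    (by rw [← h3, h1]) (by rw [← h4, h2]) (by rw [← h4, h2])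
  intro h0
  obtain ⟨r, s, hrs, h5⟩ := LOC_cross h0
  apply hrs
  have h6 : L3 (FRD.dvec f0 p (r • Pool.FR.ee 0 + s • Pool.FR.ee 1)) = 0 := by
    rw [LOC_lin, map_add, map_smul, map_smul]
    exact h5
  have h7 : FRD.dvec f0 p (r • Pool.FR.ee 0 + s • Pool.FR.ee 1) = FRD.dvec f0 p 0 := by
    have h8 : FRD.dvec f0 p (r • Pool.FR.ee 0 + s • Pool.FR.ee 1) = 0 := LOC_inj (by rw [h6, map_zero])
    rw [h8]
    change _ = (FRD.differential f0 p) 0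
    rw [map_zero]
  have h9 := himm p h7
  have e0 := congrArg (fun x : E2 => x 0) h9
  have e1 := congrArg (fun x : E2 => x 1) h9
  simp [Pool.FR.ee] at e0 e1
  exact ⟨e0, e1⟩

end Pool.SXB

namespace Pool.TRG

open Pool
open Pool.SXB

theorem p_ELC : Stmt_ELC.{w} := by
  intro S _ _ _ _ _ f hf C hC hCc hpos ι J g hι hg h t ht
  have hYC1 := blk_YC1 blk_SOL
  have hDIF := blk_DIF hYC1
  have hMIX := blk_MIX blk_W0 hYC1 hDIF
  have hSMP := blk_SMP (blk_WMP blk_W0) (blk_ENE blk_W0) blk_CIR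
  have hSIG := blk_SIG (blk_EGR hYC1 hDIF) hMIX
  have hDL7 := blk_DL7 hYC1 hDIF
  have hGD7 := blk_GD7 hYC1 hDIF hMIX blk_BND hSMP hDL7
  have hBD7 := blk_BD7 hYC1 hGD7 (blk_SD7 hYC1 hDIF hMIX hDL7) (blk_IN7 hYC1 hDIF hDL7) blk_TOP
    hDL7
  have hLP7 := blk_LP7 hGD7 hBD7 hDL7
  have hKL7 := blk_KL7 hYC1 hDIF hMIX hDL7
  have hGLB : Stmt_GLB.{w} := blk_GLB blk_SOL hYC1 blk_LOC
  have hCTY : Stmt_CTY.{w} := blk_CTY hYC1 blk_LOC hGLB
  have hLCN : Stmt_LCN.{w} := blk_LCN hYC1 hDIF blk_LOC hGLB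
  have hMX7 : Stmt_MX7.{w} := blk_MX7 hSIG hLP7 blk_PT7 blk_LOC hGLB hCTY hLCN
  have hST7 : Stmt_ST7.{w} := blk_ST7 hMX7 hSIG hKL7 blk_LOC hGLB hLCN
  have hCY7 : Stmt_CY7.{w} := blk_CY7 hGLB
  -- the integral formula
  have hJLW : Stmt_JLW.{w} := p_JLW
  have hGSB : Stmt_GSB.{w} := blk_GSB (blk_GSA blk_W0) (p_CHG hJLW) blk_ITG
  have hLIM : Stmt_LIM.{w} := blk_LIM hGSB blk_LVL blk_TAU blk_ITG
  have hC1L : Stmt_C1L.{w} := blk_C1L hYC1 blk_LOC hGLB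
  have hORI : Stmt_ORI.{w} := blk_ORI blk_LOC
  have hTLE : Stmt_TLE.{w} := blk_TLE hJLW hC1L (blk_JAC hDL7 hDIF blk_LOC hGLB)
    (blk_SGK hDIF hMIX blk_BND) hSIG blk_LOC hORI hLCN
  have hSTT : Stmt_STT.{w} := blk_STT blk_PAR hLIM blk_ITG blk_DEC hC1L hJLW hORI hTLE
  have hMCO : Stmt_MCO.{w} := blk_MCO hCY7 blk_UQ7 blk_ROT hGLB
  have hCM9 : ∀ f g : S → E3, MPair f g → ∀ C : Set S, IsOpen C → IsPreconnected C →
      (∀ q ∈ C, Ell f g q) → Special9 (Mset f g (frontier C)) →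
      ∀ q ∈ C, q ∈ closure {q' | LC f g q'} := fun f g hfg C hC hCc hE hS =>
    CM9 hCY7 blk_UQ7 (blk_RB7 blk_HY7 blk_UQ7) blk_RP7 (blk_NS7 hGLB) blk_AL7 hST7
      (blk_SH9 hMX7 hST7 hCTY) blk_ROT hGLB hfg hC hCc hE hS
  have h0 : (0 : ℝ) ∈ Icc (0 : ℝ) 1 := ⟨le_rfl, zero_le_one⟩
  have hTC : TC f C t := by
    refine FTF_piece hCM9 (blk_CMF hSTT hMCO blk_CLD blk_MSC blk_PSH) blk_TRV blk_CLE
      (blk_DN9 hYC1 blk_LOC hGLB hLCN) (blk_MLC blk_ROT hGLB) blk_CLD blk_MSC blk_CLO blk_ELP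
      (blk_SGN blk_LOC hSIG blk_CLO) hf hC hCc hpos ?_ t ht
    intro s hs
    have hsub : Mset (f 0) (f s) (frontier C) ⊆ Set.range (g s) :=
      ELC_sub (f 0) (f s) (hf.fam.imm 0 h0) (frontier C) ι J (g s) (hg s hs) (h s hs)
    rcases hι with h7 | ⟨hcount, htr⟩
    · left
      left
      refine (Set.encard_le_encard hsub).trans ?_
      rw [← Set.image_univ]
      refine (Set.encard_image_le _ _).trans ?_
      rw [Set.encard_univ]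
      exact h7
    · right
      exact ⟨(Set.countable_range (g s)).mono hsub, htr⟩
  obtain ⟨A, hA, hAf⟩ := hTC
  exact ⟨A, hA, fun p hp => (blk_CLD S (f 0) (f t) (hf.fam.smooth 0 h0) (hf.fam.smooth t ht) A C hC hAf p hp).1⟩

end Pool.TRG
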