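import Pool.Agent.Work.MP_02e829_tr.Interface3
import Pool.Agent.Work.MP_02e829_fr.MOT

/-! # Trough rigidity, block FOD: the fundamental theorem of surfaces, from the line -/

open Set Filter Matrix MeasureTheory Metric
open scoped Topology ContDiff Real

set_option autoImplicit false

namespace Pool.TRG

open Pool.FR (pd ee gg WW DD NN II Ga Gb Imm SO3 pd_congr pd_contDiffOn diff_at pd_comm
  contDiffOn_dot contDiffOn_cross)

/-- linear systems: uniqueness of the zero solution -/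
theorem FOD_gron {ι : Type} [Fintype ι] (Y : ι → ℝ → V3) (a : ι → ι → ℝ → ℝ) (s1 : ℝ)
    (hd : ∀ s ∈ Icc 0 s1, ∀ k, HasDerivAt (Y k) (∑ l, a k l s • Y l s) s)
    (ha : ∀ k l, ContinuousOn (a k l) (Icc 0 s1)) (h0 : ∀ k, Y k 0 = 0) :
    ∀ s ∈ Icc 0 s1, ∀ k, Y k s = 0 := by
  have hb : ∀ k l, ∃ C, ∀ s ∈ Icc (0 : ℝ) s1, ‖a k l s‖ ≤ C := fun k l =>
    isCompact_Icc.exists_bound_of_continuousOn (ha k l)
  choose C hC using hb
  set f : ℝ → ι → V3 := fun s k => Y k s with hf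
  set f' : ℝ → ι → V3 := fun s k => ∑ l, a k l s • Y l s with hf'
  have hfd : ∀ s ∈ Icc 0 s1, HasDerivAt f (f' s) s := fun s hs =>
    hasDerivAt_pi.2 fun k => hd s hs k
  set K : ℝ := ∑ k, ∑ l, |C k l| with hK
  have hbound : ∀ s ∈ Ico 0 s1, ‖f' s‖ ≤ K * ‖f s‖ + 0 := by
    intro s hs
    have hs' := Ico_subset_Icc_self hs
    rw [add_zero]
    have hKn : 0 ≤ K := Finset.sum_nonneg fun _ _ => Finset.sum_nonneg fun _ _ => abs_nonneg _
    refine (pi_norm_le_iff_of_nonneg (mul_nonneg hKn (norm_nonneg _))).2 fun k => ?_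
    calc ‖f' s k‖ ≤ ∑ l, ‖a k l s • Y l s‖ := norm_sum_le _ _
      _ ≤ ∑ l, |C k l| * ‖f s‖ := by
          refine Finset.sum_le_sum fun l _ => ?_
          rw [norm_smul]
          exact mul_le_mul ((hC k l s hs').trans (le_abs_self _)) (norm_le_pi_norm (f s) l)
            (norm_nonneg _) (abs_nonneg _)
      _ = (∑ l, |C k l|) * ‖f s‖ := by rw [Finset.sum_mul]
      _ ≤ K * ‖f s‖ := by
          refine mul_le_mul_of_nonneg_right ?_ (norm_nonneg _)
          exact Finset.single_le_sum (f := fun k => ∑ l, |C k l|)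
            (fun _ _ => Finset.sum_nonneg fun _ _ => abs_nonneg _) (Finset.mem_univ k)
  have hf0 : ‖f 0‖ ≤ 0 := by
    have : f 0 = 0 := funext h0
    rw [this, norm_zero]
  have h := norm_le_gronwallBound_of_norm_deriv_right_le (f := f) (f' := f') (δ := 0) (K := K)
    (ε := 0) (a := 0) (b := s1) (fun s hs => (hfd s hs).continuousAt.continuousWithinAt)
    (fun s hs => (hfd s (Ico_subset_Icc_self hs)).hasDerivWithinAt) hf0 hbound
  intro s hs k
  have h1 := h s hs
  rw [gronwallBound_ε0_δ0] at h1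
  have h2 : f s = 0 := norm_le_zero_iff.1 h1
  exact congrFun h2 k

/-- the frame -/
noncomputable def FOD_P (F : E2 → V3) : Fin 4 → E2 → V3 := ![F, pd 0 F, pd 1 F, NN F]

/-- the coefficients -/
noncomputable def FOD_a (F : E2 → V3) (x : E2) : Fin 4 → Fin 4 → ℝ :=
  ![![0, 0, 1, 0],
    ![0, Gb F 0 1 0 x, Gb F 1 1 0 x, II F 1 0 x],
    ![0, Gb F 0 1 1 x, Gb F 1 1 1 x, II F 1 1 x],
    ![0, (gg F 1 1 x * (-II F 1 0 x) - gg F 0 1 x * (-II F 1 1 x)) / DD F x,
      (gg F 0 0 x * (-II F 1 1 x) - gg F 0 1 x * (-II F 1 0 x)) / DD F x, 0]]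

theorem FOD_open : IsOpen St := by
  have : Continuous fun x : E2 => |x 1| := by fun_prop
  exact isOpen_lt this continuous_const

theorem FOD_sys (hFRM : Pool.FR.Stmt_FRM) {F : E2 → V3} (hF : Imm F St) {x : E2} (hx : x ∈ St)
    (k : Fin 4) : pd 1 (FOD_P F k) x = ∑ l, FOD_a F x k l • FOD_P F l x := by
  obtain ⟨h1, h2, h3, h4, h5, h6, h7, h8, h9, h10⟩ := hFRM St FOD_open F hF x hx
  fin_cases k
  · simp [FOD_P, FOD_a, Fin.sum_univ_four]
  · simp only [FOD_P, FOD_a, Fin.sum_univ_four]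
    simp [h6 1 0]
  · simp only [FOD_P, FOD_a, Fin.sum_univ_four]
    simp [h6 1 1]
  · simp only [FOD_P, FOD_a, Fin.sum_univ_four]
    have := h4 (pd 1 (NN F) x)
    rw [h7 1, h8 1 0, h8 1 1] at this
    simp only [Fin.reduceFinMk, Fin.isValue, Matrix.cons_val, zero_smul, zero_add, add_zero]
      at this ⊢
    exact this

theorem FOD_coef (hCHR : Pool.FR.Stmt_CHR) {F G : E2 → V3} (hF : Imm F St) (hG : Imm G St)
    (hI : Iso F G) {x : E2} (hx : x ∈ St) (hII : ∀ i j, II G i j x = II F i j x) :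
    FOD_a G x = FOD_a F x := by
  obtain ⟨-, -, h3⟩ := hCHR St FOD_open F hF
  have h4 := fun i j k => (h3 G hG hI x hx i j k).2
  have hD : DD G x = DD F x := by
    simp only [DD, hI x hx]
  unfold FOD_a
  rw [h4, h4, h4, h4, hII, hII, hD, hI x hx, hI x hx, hI x hx]

theorem FOD_cont (hFRM : Pool.FR.Stmt_FRM) {F : E2 → V3} (hF : Imm F St) (k l : Fin 4) :
    ContinuousOn (fun x => FOD_a F x k l) St := by
  have hp : ∀ i, ContDiffOn ℝ 3 (pd i F) St := fun i =>
    pd_contDiffOn FOD_open hF.smooth (by norm_num) i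
  have hpp : ∀ i j, ContDiffOn ℝ 2 (pd i (pd j F)) St := fun i j =>
    pd_contDiffOn FOD_open (hp j) (by norm_num) i
  have hg : ∀ i j, ContinuousOn (gg F i j) St := fun i j =>
    (contDiffOn_dot (hp i) (hp j)).continuousOn
  have hD : ContinuousOn (DD F) St := ((hg 0 0).mul (hg 1 1)).sub ((hg 0 1).pow 2)
  have hD0 : ∀ x ∈ St, DD F x ≠ 0 := fun x hx => (hF.pos x hx).ne'
  have hGa : ∀ i j k, ContinuousOn (Ga F i j k) St := fun i j k =>
    (contDiffOn_dot (hpp i j) ((hp k).of_le (by norm_num))).continuousOn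
  have hGb0 : ∀ i j, ContinuousOn (Gb F 0 i j) St := fun i j =>
    (((hg 1 1).mul (hGa i j 0)).sub ((hg 0 1).mul (hGa i j 1))).div hD hD0
  have hGb1 : ∀ i j, ContinuousOn (Gb F 1 i j) St := fun i j =>
    (((hg 0 0).mul (hGa i j 1)).sub ((hg 0 1).mul (hGa i j 0))).div hD hD0
  have hII : ∀ i j, ContinuousOn (II F i j) St := by
    intro i j x hx
    exact ((hFRM St FOD_open F hF x hx).2.2.2.2.2.2.2.2.2 i j).continuousOn x hx
  have h1 : ContinuousOn (fun x => (gg F 1 1 x * (-II F 1 0 x) - gg F 0 1 x * (-II F 1 1 x)) /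
      DD F x) St :=
    (((hg 1 1).mul (hII 1 0).neg).sub ((hg 0 1).mul (hII 1 1).neg)).div hD hD0
  have h2 : ContinuousOn (fun x => (gg F 0 0 x * (-II F 1 1 x) - gg F 0 1 x * (-II F 1 0 x)) /
      DD F x) St :=
    (((hg 0 0).mul (hII 1 1).neg).sub ((hg 0 1).mul (hII 1 0).neg)).div hD hD0
  fin_cases k <;> fin_cases l
  all_goals first
    | exact continuousOn_const
    | exact hGb0 _ _
    | exact hGb1 _ _
    | exact hII _ _
    | exact h1
    | exact h2

theorem FOD_diff (hFRM : Pool.FR.Stmt_FRM) {F : E2 → V3} (hF : Imm F St) (k : Fin 4) {x : E2}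
    (hx : x ∈ St) : DifferentiableAt ℝ (FOD_P F k) x := by
  fin_cases k
  · exact diff_at FOD_open hF.smooth (by norm_num) hx
  · exact diff_at FOD_open (pd_contDiffOn FOD_open hF.smooth (m := 3) (by norm_num) 0)
      (by norm_num) hx
  · exact diff_at FOD_open (pd_contDiffOn FOD_open hF.smooth (m := 3) (by norm_num) 1)
      (by norm_num) hx
  · exact diff_at FOD_open (hFRM St FOD_open F hF x hx).2.2.2.2.2.2.2.2.1 (by norm_num) hx

theorem FOD_pxd (x s : ℝ) : HasDerivAt (fun s => px x s) (ee 1) s := by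
  have h1 : HasDerivAt (fun s : ℝ => s • ee 1) ((1 : ℝ) • ee 1) s :=
    (hasDerivAt_id s).smul_const (ee 1)
  rw [one_smul] at h1
  exact h1.const_add (x • ee 0)

theorem FOD_px0 (x s : ℝ) : px x s 0 = x := by
  simp [px, ee]

theorem FOD_px1 (x s : ℝ) : px x s 1 = s := by
  simp [px, ee]

theorem p_FOD (hFRM : Pool.FR.Stmt_FRM) (hCHR : Pool.FR.Stmt_CHR) : Stmt_FOD := by
  intro F G hF hG hI R b hR h0 h1 hII x hx hx1
  set L : V3 →L[ℝ] V3 := LinearMap.toContinuousLinearMap R.mulVecLin with hL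
  have hLa : ∀ w : V3, L w = R *ᵥ w := fun w => rfl
  have hx' : x 1 < 1 := (abs_lt.1 hx).2
  have hmem : ∀ s ∈ Icc 0 (x 1), px (x 0) s ∈ St := by
    intro s hs
    change |px (x 0) s 1| < 1
    rw [FOD_px1, abs_lt]
    exact ⟨by linarith [hs.1], by linarith [hs.2]⟩
  set bb : Fin 4 → V3 := ![b, 0, 0, 0] with hbb
  have hab : ∀ y k, ∑ l, FOD_a F y k l • bb l = 0 := by
    intro y k
    fin_cases k <;> simp [FOD_a, hbb, Fin.sum_univ_four]
  have hz := FOD_gron
    (Y := fun k s => FOD_P G k (px (x 0) s) - L (FOD_P F k (px (x 0) s)) - bb k)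
    (a := fun k l s => FOD_a F (px (x 0) s) k l) (x 1) ?_ ?_ ?_ (x 1) ⟨hx1, le_rfl⟩ 0
  · have hpx : px (x 0) (x 1) = x := by
      ext i
      fin_cases i
      · exact FOD_px0 _ _
      · exact FOD_px1 _ _
    simp only [hpx] at hz
    have hz' : G x - R *ᵥ F x - b = 0 := hz
    rw [sub_sub, sub_eq_zero] at hz'
    exact hz'
  · intro s hs k
    have hxs := hmem s hs
    have dG : HasDerivAt (fun s => FOD_P G k (px (x 0) s)) (pd 1 (FOD_P G k) (px (x 0) s)) s :=
      (FOD_diff hFRM hG k hxs).hasFDerivAt.comp_hasDerivAt s (FOD_pxd (x 0) s)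
    have dF : HasDerivAt (fun s => FOD_P F k (px (x 0) s)) (pd 1 (FOD_P F k) (px (x 0) s)) s :=
      (FOD_diff hFRM hF k hxs).hasFDerivAt.comp_hasDerivAt s (FOD_pxd (x 0) s)
    have dLF : HasDerivAt (fun s => L (FOD_P F k (px (x 0) s)))
        (L (pd 1 (FOD_P F k) (px (x 0) s))) s := L.hasFDerivAt.comp_hasDerivAt s dF
    have hd := (dG.sub dLF).sub_const (bb k)
    have hc := FOD_coef hCHR hF hG hI hxs (hII _ hxs (by rw [FOD_px1]; exact hs.1))
    have key : ∑ l, FOD_a F (px (x 0) s) k l • (FOD_P G l (px (x 0) s) -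
        L (FOD_P F l (px (x 0) s)) - bb l) =
        pd 1 (FOD_P G k) (px (x 0) s) - L (pd 1 (FOD_P F k) (px (x 0) s)) := by
      rw [FOD_sys hFRM hG hxs, FOD_sys hFRM hF hxs, hc, map_sum]
      simp only [smul_sub, Finset.sum_sub_distrib, map_smul]
      rw [hab, sub_zero]
    change HasDerivAt _ (∑ l, FOD_a F (px (x 0) s) k l • (FOD_P G l (px (x 0) s) -
        L (FOD_P F l (px (x 0) s)) - bb l)) s
    rw [key]
    exact hd
  · intro k l
    exact (FOD_cont hFRM hF k l).comp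
      (fun s _ => (FOD_pxd (x 0) s).continuousAt.continuousWithinAt) hmem
  · intro k
    have hp : px (x 0) 0 = pt (x 0) := by simp [px, pt]
    have hm : pt (x 0) ∈ St := by
      rw [← hp]
      exact hmem 0 ⟨le_rfl, hx1⟩
    simp only [hp]
    fin_cases k
    · change G (pt (x 0)) - R *ᵥ F (pt (x 0)) - b = 0
      rw [h0, add_sub_cancel_left, sub_self]
    · change pd 0 G (pt (x 0)) - R *ᵥ pd 0 F (pt (x 0)) - 0 = 0
      rw [h1, sub_self, sub_zero]
    · change pd 1 G (pt (x 0)) - R *ᵥ pd 1 F (pt (x 0)) - 0 = 0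
      rw [h1, sub_self, sub_zero]
    · change NN G (pt (x 0)) - R *ᵥ NN F (pt (x 0)) - 0 = 0
      have hD : DD G (pt (x 0)) = DD F (pt (x 0)) := by
        simp only [DD, hI _ hm]
      have hW : WW G (pt (x 0)) = R *ᵥ WW F (pt (x 0)) := by
        simp only [WW]
        rw [h1, h1, Pool.FR.MOTb.cross_SO3 hR]
      have hN : NN G (pt (x 0)) = R *ᵥ NN F (pt (x 0)) := by
        simp only [NN]
        rw [hD, hW, mulVec_smul]
      rw [hN, sub_self, sub_zero]

end Pool.TRG
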