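import Pool.Agent.Work.MP_02e829_tr.Interface3
import Pool.Agent.Work.MP_02e829_sf.B_FTF
import Pool.Agent.Work.MP_02e829_sb.B_VAL
import Pool.Agent.Work.MP_02e829_sb.B_GLB
import Pool.Agent.Work.MP_02e829_sb.B_SOL
import Pool.Agent.Work.MP_02e829_sb.B_YC1
import Pool.Agent.Work.MP_02e829_sb.B_LOC
import Pool.Agent.Work.MP_02e829_sb.B_LCN
import Pool.Agent.Work.MP_02e829_sb.B_DIF
import Pool.Agent.Work.MP_02e829_sb.B_ROT
import Pool.Agent.Work.MP_02e829_sb.B_CLO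
import Pool.Agent.Work.MP_02e829_s7.B_LR7
import Pool.Agent.Work.MP_02e829_s7.B_DN7

/-! # Block GLU (MP_02e829, TROUGH RIGIDITY) -/

open Set Filter Manifold Matrix MeasureTheory Metric
open scoped Topology ContDiff Manifold Real

set_option autoImplicit false

universe w

namespace Pool.SXB

variable {S : Type w} [TopologicalSpace S] [ChartedSpace E2 S] [IsManifold (𝓡 2) 2 S]

/-- one global step, dense set version -/
lemma GLU_glob (hLR7 : Stmt_LR7.{w}) (hDN7 : Stmt_DN7.{w}) (hROT : Stmt_ROT)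
    (hGLB : Stmt_GLB.{w}) [CompactSpace S] [ConnectedSpace S] {f : ℝ → S → E3}
    (hd : Dense {q | ∃ C : Set S, IsOpen C ∧ q ∈ C ∧ ∀ t ∈ Icc (0 : ℝ) 1, TC f C t})
    {s t : ℝ} (hs : s ∈ Icc (0 : ℝ) 1) (ht : t ∈ Icc (0 : ℝ) 1) (hM : MPair (f s) (f t))
    (hT : FIN_T f s) : FIN_T f t := by
  have h3 : ∀ q, (∃ B B' : E3 ≃ᵃⁱ[ℝ] E3, Proper B ∧ Proper B' ∧ (∀ᶠ p in 𝓝 q, f s p = B (f 0 p)) ∧
      ∀ᶠ p in 𝓝 q, f t p = B' (f 0 p)) → LC (f s) (f t) q := by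
    rintro q ⟨B, B', hB, hB', h4, h5⟩
    refine hLR7 S (f s) (f t) hM (B.symm.trans B') (FIN_trans (FIN_symm hB) hB') q ?_
    filter_upwards [h4, h5] with p h6 h7
    rw [h7, h6]
    change _ = B' (B.symm (B (f 0 p)))
    rw [AffineIsometryEquiv.symm_apply_apply]
  have h4 : ∀ q, LC (f s) (f t) q := by
    refine hDN7 S (f s) (f t) hM _ hd ?_
    rintro q ⟨C, hC, hqC, hCt⟩
    obtain ⟨B, hB, hBf⟩ := hCt s hs
    obtain ⟨B', hB', hBf'⟩ := hCt t ht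
    refine h3 q ⟨B, B', hB, hB', ?_, ?_⟩
    · filter_upwards [hC.mem_nhds hqC] with p hp
      exact hBf p hp
    · filter_upwards [hC.mem_nhds hqC] with p hp
      exact hBf' p hp
  obtain ⟨A, hA, hAf⟩ := hT
  obtain ⟨c, hc⟩ := STA_const (P := Mo (f s) (f t)) h4
  obtain ⟨A', hA', hA'z⟩ := hROT c.1 c.2
  refine ⟨A.trans A', FIN_trans hA hA', fun p => ?_⟩
  have h5 := (hGLB S (f s) (f t) hM).2.2 p
  have h6 : Yg (f s) (f t) p = c.1 := congrArg Prod.fst (hc p)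
  have h7 : Wg (f s) (f t) p = c.2 := congrArg Prod.snd (hc p)
  rw [h6, h7] at h5
  have h8 := hA'z (f s p) (f t p) h5
  rw [h8, hAf p]
  rfl

end Pool.SXB

namespace Pool.TRG

open Pool
open Pool.FR (pd ee gg WW DD NN II Ga Gb Imm SO3)
open Pool.SXB

theorem p_GLU : Stmt_GLU.{w} := by
  intro S _ _ _ _ _ _ f hf hd t ht
  have hYC1 := blk_YC1 blk_SOL
  have hDIF := blk_DIF hYC1
  have hGLB : Stmt_GLB.{w} := blk_GLB blk_SOL hYC1 blk_LOC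
  have hLCN : Stmt_LCN.{w} := blk_LCN hYC1 hDIF blk_LOC hGLB
  have hLR7 : Stmt_LR7.{w} := blk_LR7 (blk_VAL hGLB blk_SOL)
  have hDN7 : Stmt_DN7.{w} := blk_DN7 hYC1 blk_LOC hGLB hLCN
  have key : ∀ s : Icc (0 : ℝ) 1, ∀ᶠ r : Icc (0 : ℝ) 1 in 𝓝 s, (FIN_T f r ↔ FIN_T f s) := by
    intro s
    filter_upwards [(FTF_tend s).eventually (blk_CLO S f hf.fam s s.2)] with r hr
    exact ⟨GLU_glob hLR7 hDN7 blk_ROT hGLB hd r.2 s.2 hr.2,
      GLU_glob hLR7 hDN7 blk_ROT hGLB hd s.2 r.2 hr.1⟩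
  exact FTF_sub (T := {s : Icc (0 : ℝ) 1 | FIN_T f s})
    ⟨AffineIsometryEquiv.refl ℝ E3, FIN_refl, fun p => rfl⟩ key ⟨t, ht⟩

end Pool.TRG
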