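import Pool.Agent.Work.MP_02e829_tr.Interface3

/-! # TROUGH RIGIDITY, block HAL -/

open Set Filter Manifold Matrix MeasureTheory Metric
open scoped Topology ContDiff Manifold Real

set_option autoImplicit false

universe w

namespace Pool.TRG

open Pool
open Pool.FR (pd ee gg WW DD NN II Ga Gb Imm SO3)
open Pool.SXB (E3 L3 Proper PosCurv Fam2 Fam3 Transv TC)

theorem HAL_open : IsOpen St := by
  have : Continuous fun x : E2 => |x 1| := by fun_prop
  exact isOpen_lt this continuous_const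

/-- the derivative along the line -/
theorem HAL_line {u : E2 → ℝ} {x : E2} (h : DifferentiableAt ℝ u x) (i : Fin 2) :
    HasDerivAt (fun t : ℝ => u (x + t • ee i)) (pd i u x) 0 := by
  have h1 : HasFDerivAt u (fderiv ℝ u x) (x + (0 : ℝ) • ee i) := by
    rw [zero_smul, add_zero]
    exact h.hasFDerivAt
  have h2 : HasDerivAt (fun t : ℝ => x + t • (ee i : E2)) (ee i) 0 := by
    have h3 := ((hasDerivAt_id (0 : ℝ)).smul_const (ee i : E2)).const_add x
    simpa using h3
  exact h1.comp_hasDerivAt (0 : ℝ) h2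

theorem HAL_alg (A B C a b w A0 A1 B0 C1 a1 b0 b1 w0 l0 l1 l2 m0 m1 m2 : ℝ) (hA : A ≠ 0)
    (hC : C ≠ 0) (e0 : A * w + C * a = 2 * (B * b)) (e1 : a1 = b0 + l0 * a + l1 * b + l2 * w)
    (e2 : b1 = w0 + m0 * a + m1 * b + m2 * w) :
    (-((C1 * A - C * A1) / A ^ 2) * a ^ 2 + -(C / A) * (2 * a * a1) + 2 * b * b1) -
      (2 * (w0 * b + w * b0) - (2 * ((B0 * A - B * A0) / A ^ 2) * b ^ 2 +
        2 * (B / A) * (2 * b * b0))) =
    (-(C / A) * (C1 / C - A1 / A + 2 * l0) + 2 * (C / A) ^ 2 * l2) * a ^ 2 +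
      (-(C / A) * (2 * l1 + 4 * (B / A) * l2 + 2 * m2) + 2 * m0) * (a * b) +
      (2 * (B0 * A - B * A0) / A ^ 2 + 2 * m1 + 4 * m2 * (B / A)) * b ^ 2 := by
  have hw : w = (2 * (B * b) - C * a) / A := by
    field_simp
    linear_combination e0
  subst e1 e2
  rw [hw]
  field_simp
  ring

theorem p_HAL : Stmt_HAL := by
  intro r A B C a b w l m h x hx hx1 hxr
  have hAC := h.hyp x hx hx1 hxr
  have hA : A x ≠ 0 := fun h0 => by rw [h0, zero_mul] at hAC; exact lt_irrefl _ hAC
  have hC : C x ≠ 0 := fun h0 => by rw [h0, mul_zero] at hAC; exact lt_irrefl _ hAC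
  have hn : St ∈ 𝓝 x := HAL_open.mem_nhds hx
  have hd : ∀ {u : E2 → ℝ}, ContDiffOn ℝ 2 u St → DifferentiableAt ℝ u x := fun hu =>
    (hu.contDiffAt hn).differentiableAt two_ne_zero
  have dA := hd h.sA
  have dB := hd h.sB
  have dC := hd h.sC
  have da := hd h.sa
  have db := hd h.sb
  have dw := hd h.sw
  have hx0 : ∀ i : Fin 2, x + (0 : ℝ) • (ee i : E2) = x := fun i => by rw [zero_smul, add_zero]
  have dCA : DifferentiableAt ℝ (fun y => C y / A y) x := by
    simp only [div_eq_mul_inv]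
    exact dC.mul (dA.inv hA)
  have dBA : DifferentiableAt ℝ (fun y => B y / A y) x := by
    simp only [div_eq_mul_inv]
    exact dB.mul (dA.inv hA)
  have hH : DifferentiableAt ℝ (HH A C a b) x := by
    unfold HH
    exact ((dCA.neg).mul (da.pow 2)).add (db.pow 2)
  have hJ : DifferentiableAt ℝ (HJ A B b w) x := by
    unfold HJ
    exact ((dw.mul db).const_mul 2).sub ((dBA.const_mul 2).mul (db.pow 2))
  have h1 : pd 1 (HH A C a b) x = -((pd 1 C x * A x - C x * pd 1 A x) / A x ^ 2) * a x ^ 2 +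
      -(C x / A x) * (2 * a x * pd 1 a x) + 2 * b x * pd 1 b x := by
    have k1 := HAL_line hH 1
    have k2 := ((((HAL_line dC 1).div (HAL_line dA 1) (by rw [hx0]; exact hA)).neg).mul
      ((HAL_line da 1).pow 2)).add ((HAL_line db 1).pow 2)
    have k3 := k1.unique k2
    rw [k3]
    simp only [hx0, Pi.neg_apply, Pi.div_apply, Pi.pow_apply]
    norm_num
    try ring
  have h2 : pd 0 (HJ A B b w) x = 2 * (pd 0 w x * b x + w x * pd 0 b x) -
      (2 * ((pd 0 B x * A x - B x * pd 0 A x) / A x ^ 2) * b x ^ 2 +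
        2 * (B x / A x) * (2 * b x * pd 0 b x)) := by
    have k1 := HAL_line hJ 0
    have k2 := (((HAL_line dw 0).mul (HAL_line db 0)).const_mul 2).sub
      ((((HAL_line dB 0).div (HAL_line dA 0) (by rw [hx0]; exact hA)).const_mul 2).mul
        ((HAL_line db 0).pow 2))
    have k3 := k1.unique k2
    rw [k3]
    simp only [hx0, Pi.neg_apply, Pi.div_apply, Pi.pow_apply]
    norm_num
    try ring
  rw [h1, h2]
  exact HAL_alg _ _ _ _ _ _ _ _ _ _ _ _ _ _ _ _ _ _ _ _ hA hC (h.e0 x hx) (h.e1 x hx) (h.e2 x hx)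

end Pool.TRG
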