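import Pool.Agent.Work.MP_02e829_tr.B_NLB

/-!
# MP_02e829_gt, TROUGH RIGIDITY: block HBD
-/

open Set Filter Manifold Matrix MeasureTheory Metric
open scoped Topology ContDiff Manifold Real

set_option autoImplicit false

namespace Pool.TRG

open Pool
open Pool.FR (pd ee gg WW DD NN II Ga Gb Imm SO3)

/-! ### Numbers -/

theorem HBD_ab (a b : ℝ) : |a * b| ≤ (a ^ 2 + b ^ 2) / 2 := by
  rw [abs_le]
  constructor
  · nlinarith [sq_nonneg (a + b)]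
  · nlinarith [sq_nonneg (a - b)]

theorem HBD_cab {N p q l1 l2 m2 : ℝ} (hN : 1 ≤ N) (hp : 0 < p) (hq : |q| ≤ N) (h1 : |l1| ≤ N)
    (h2 : |l2| ≤ N) (k2 : |m2| ≤ N) :
    |p * (2 * l1 + 4 * q * l2 + 2 * m2)| ≤ p * (8 * N ^ 2) := by
  have hN0 : 0 ≤ N := by linarith
  have e1 : |4 * q * l2| ≤ 4 * N * N := by
    rw [abs_mul, abs_mul, abs_of_pos (by norm_num : (0 : ℝ) < 4)]
    exact mul_le_mul (mul_le_mul_of_nonneg_left hq (by norm_num)) h2 (abs_nonneg _) (by positivity)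
  have e2 : |2 * l1 + 4 * q * l2 + 2 * m2| ≤ 4 * N + 4 * N * N := by
    rw [abs_le] at *
    constructor <;> linarith
  have e3 : 4 * N + 4 * N * N ≤ 8 * N ^ 2 := by nlinarith
  rw [abs_mul, abs_of_pos hp]
  exact mul_le_mul_of_nonneg_left (e2.trans e3) hp.le

theorem HBD_cbb {N q e m1 m2 : ℝ} (hN : 1 ≤ N) (hq : |q| ≤ N) (he : |e| ≤ N) (k1 : |m1| ≤ N)
    (k2 : |m2| ≤ N) : |2 * e + 2 * m1 + 4 * m2 * q| ≤ 8 * N ^ 2 := by
  have hN0 : 0 ≤ N := by linarith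
  have e1 : |4 * m2 * q| ≤ 4 * N * N := by
    rw [abs_mul, abs_mul, abs_of_pos (by norm_num : (0 : ℝ) < 4)]
    exact mul_le_mul (mul_le_mul_of_nonneg_left k2 (by norm_num)) hq (abs_nonneg _) (by positivity)
  have e2 : |2 * e + 2 * m1 + 4 * m2 * q| ≤ 4 * N + 4 * N * N := by
    rw [abs_le] at *
    constructor <;> linarith
  have e3 : 4 * N + 4 * N * N ≤ 8 * N ^ 2 := by nlinarith
  exact e2.trans e3

/-- The bound away from the line. -/
theorem HBD_nfar {N p q g h e l0 l1 l2 m0 m1 m2 a b : ℝ} (hN : 1 ≤ N) (hp : 0 < p)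
    (hpN : p ≤ N) (hpl : 1 ≤ N * p) (hq : |q| ≤ N) (hg : |g| ≤ N) (hh : |h| ≤ N) (he : |e| ≤ N)
    (h0 : |l0| ≤ N) (h1 : |l1| ≤ N) (h2 : |l2| ≤ N) (k0 : |m0| ≤ N) (k1 : |m1| ≤ N)
    (k2 : |m2| ≤ N) :
    (p * (g - h + 2 * l0) + 2 * p ^ 2 * l2) * a ^ 2 +
      (p * (2 * l1 + 4 * q * l2 + 2 * m2) + 2 * m0) * (a * b) +
      (2 * e + 2 * m1 + 4 * m2 * q) * b ^ 2 ≤ 33 * N ^ 5 * (p * a ^ 2 + b ^ 2) := by
  have hN0 : 0 ≤ N := by linarith
  have n23 : N ^ 2 ≤ N ^ 3 := pow_le_pow_right₀ hN (by norm_num)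
  have n13 : N ≤ N ^ 3 := le_self_pow₀ hN (by norm_num)
  have n35 : N ^ 3 ≤ N ^ 5 := pow_le_pow_right₀ hN (by norm_num)
  have n45 : N ^ 4 ≤ N ^ 5 := pow_le_pow_right₀ hN (by norm_num)
  have c1 : |p * (g - h + 2 * l0) + 2 * p ^ 2 * l2| ≤ 6 * N ^ 3 := by
    have e1 : |g - h + 2 * l0| ≤ 4 * N := by
      rw [abs_le] at *
      constructor <;> linarith
    have e2 : |p * (g - h + 2 * l0)| ≤ N * (4 * N) := by
      rw [abs_mul, abs_of_pos hp]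
      exact mul_le_mul hpN e1 (abs_nonneg _) hN0
    have e3 : |2 * p ^ 2 * l2| ≤ 2 * N ^ 2 * N := by
      rw [abs_mul, abs_of_nonneg (by positivity : 0 ≤ 2 * p ^ 2)]
      have e4 : 2 * p ^ 2 ≤ 2 * N ^ 2 := by nlinarith
      exact mul_le_mul e4 h2 (abs_nonneg _) (by positivity)
    have e5 := abs_add_le (p * (g - h + 2 * l0)) (2 * p ^ 2 * l2)
    nlinarith
  have c2 : |p * (2 * l1 + 4 * q * l2 + 2 * m2) + 2 * m0| ≤ 10 * N ^ 3 := by
    have e1 := HBD_cab hN hp hq h1 h2 k2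
    have e2 : p * (8 * N ^ 2) ≤ N * (8 * N ^ 2) := mul_le_mul_of_nonneg_right hpN (by positivity)
    have e3 := abs_add_le (p * (2 * l1 + 4 * q * l2 + 2 * m2)) (2 * m0)
    have e4 : |2 * m0| ≤ 2 * N := by
      rw [abs_mul, abs_two]
      linarith
    nlinarith
  have c3 : |2 * e + 2 * m1 + 4 * m2 * q| ≤ 8 * N ^ 3 := by
    have e1 := HBD_cbb hN hq he k1 k2
    linarith
  have t1 : (p * (g - h + 2 * l0) + 2 * p ^ 2 * l2) * a ^ 2 ≤ 6 * N ^ 3 * a ^ 2 :=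
    mul_le_mul_of_nonneg_right ((le_abs_self _).trans c1) (sq_nonneg a)
  have t2 : (p * (2 * l1 + 4 * q * l2 + 2 * m2) + 2 * m0) * (a * b) ≤
      10 * N ^ 3 * ((a ^ 2 + b ^ 2) / 2) := by
    refine (le_abs_self _).trans ?_
    rw [abs_mul]
    exact mul_le_mul c2 (HBD_ab a b) (abs_nonneg _) (by positivity)
  have t3 : (2 * e + 2 * m1 + 4 * m2 * q) * b ^ 2 ≤ 8 * N ^ 3 * b ^ 2 :=
    mul_le_mul_of_nonneg_right ((le_abs_self _).trans c3) (sq_nonneg b)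
  have t4 : N ^ 3 * a ^ 2 ≤ N ^ 5 * (p * a ^ 2) := by
    have e1 : N ^ 3 * a ^ 2 * 1 ≤ N ^ 3 * a ^ 2 * (N * p) :=
      mul_le_mul_of_nonneg_left hpl (by positivity)
    have e2 : N ^ 4 * (p * a ^ 2) ≤ N ^ 5 * (p * a ^ 2) :=
      mul_le_mul_of_nonneg_right n45 (by positivity)
    have e3 : N ^ 3 * a ^ 2 * (N * p) = N ^ 4 * (p * a ^ 2) := by ring
    linarith
  have t5 : N ^ 3 * b ^ 2 ≤ N ^ 5 * b ^ 2 := mul_le_mul_of_nonneg_right n35 (sq_nonneg b)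
  have t6 : 0 ≤ N ^ 5 * (p * a ^ 2) := by positivity
  have t7 : 0 ≤ N ^ 5 * b ^ 2 := by positivity
  nlinarith

/-- The bound near the line. -/
theorem HBD_nnear {N s p q g h e l0 l1 l2 m0 m1 m2 a b : ℝ} (hN : 1 ≤ N) (hs : 0 < s)
    (hp : 0 < p) (hps : p * s ≤ N) (hpl : 1 ≤ N * p) (hq : |q| ≤ N) (hg : |g| ≤ N)
    (hh : |h - 1 / s| ≤ N) (he : |e| ≤ N)
    (h0 : |l0| ≤ N) (h1 : |l1| ≤ N) (h2 : |l2| ≤ N) (k0 : |m0| ≤ N) (k1 : |m1| ≤ N)
    (k2 : |m2| ≤ N) (hl2 : l2 ≤ 0) :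
    (p * (g - h + 2 * l0) + 2 * p ^ 2 * l2) * a ^ 2 +
      (p * (2 * l1 + 4 * q * l2 + 2 * m2) + 2 * m0) * (a * b) +
      (2 * e + 2 * m1 + 4 * m2 * q) * b ^ 2 ≤ 33 * N ^ 5 * (p * a ^ 2 + b ^ 2) := by
  have hN0 : 0 ≤ N := by linarith
  have n12 : N ≤ N ^ 2 := le_self_pow₀ hN (by norm_num)
  have n25 : N ^ 2 ≤ N ^ 5 := pow_le_pow_right₀ hN (by norm_num)
  have n15 : N ≤ N ^ 5 := le_self_pow₀ hN (by norm_num)
  have c1 : p * (g - h + 2 * l0) + 2 * p ^ 2 * l2 ≤ p * (4 * N - 1 / s) := by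
    have e1 : g - h + 2 * l0 ≤ 4 * N - 1 / s := by
      rw [abs_le] at *
      linarith
    have e2 : p * (g - h + 2 * l0) ≤ p * (4 * N - 1 / s) := mul_le_mul_of_nonneg_left e1 hp.le
    have e3 : 2 * p ^ 2 * l2 ≤ 0 := mul_nonpos_of_nonneg_of_nonpos (by positivity) hl2
    linarith
  have c2 : |p * (2 * l1 + 4 * q * l2 + 2 * m2) + 2 * m0| ≤ 10 * N ^ 2 * p := by
    have e1 := HBD_cab hN hp hq h1 h2 k2
    have e3 := abs_add_le (p * (2 * l1 + 4 * q * l2 + 2 * m2)) (2 * m0)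
    have e4 : |2 * m0| ≤ 2 * N := by
      rw [abs_mul, abs_two]
      linarith
    have e5 : N * 1 ≤ N * (N * p) := mul_le_mul_of_nonneg_left hpl hN0
    nlinarith
  have c3 := HBD_cbb hN hq he k1 k2
  have t1 : (p * (g - h + 2 * l0) + 2 * p ^ 2 * l2) * a ^ 2 ≤ p * (4 * N - 1 / s) * a ^ 2 :=
    mul_le_mul_of_nonneg_right c1 (sq_nonneg a)
  have t2 : (p * (2 * l1 + 4 * q * l2 + 2 * m2) + 2 * m0) * (a * b) ≤
      10 * N ^ 2 * p * |a * b| := by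
    refine (le_abs_self _).trans ?_
    rw [abs_mul]
    exact mul_le_mul_of_nonneg_right c2 (abs_nonneg _)
  have t3 : (2 * e + 2 * m1 + 4 * m2 * q) * b ^ 2 ≤ 8 * N ^ 2 * b ^ 2 :=
    mul_le_mul_of_nonneg_right ((le_abs_self _).trans c3) (sq_nonneg b)
  -- the mixed term
  have t4 : 10 * N ^ 2 * p * |a * b| ≤ p * (1 / s) * a ^ 2 + 25 * N ^ 4 * (p * s) * b ^ 2 := by
    have e1 : p * (1 / s) * a ^ 2 + 25 * N ^ 4 * (p * s) * b ^ 2 - 10 * N ^ 2 * p * |a * b| =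
        p * (1 / s) * (|a| - 5 * N ^ 2 * s * |b|) ^ 2 := by
      rw [abs_mul, sub_sq, mul_pow, mul_pow, sq_abs, sq_abs]
      field_simp
      ring
    have e2 : 0 ≤ p * (1 / s) * (|a| - 5 * N ^ 2 * s * |b|) ^ 2 := by positivity
    linarith
  have t5 : 25 * N ^ 4 * (p * s) * b ^ 2 ≤ 25 * N ^ 5 * b ^ 2 := by
    have e1 : 25 * N ^ 4 * (p * s) ≤ 25 * N ^ 4 * N := mul_le_mul_of_nonneg_left hps (by positivity)
    have e2 := mul_le_mul_of_nonneg_right e1 (sq_nonneg b)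
    have e3 : 25 * N ^ 4 * N * b ^ 2 = 25 * N ^ 5 * b ^ 2 := by ring
    linarith
  have t6 : N ^ 2 * b ^ 2 ≤ N ^ 5 * b ^ 2 := mul_le_mul_of_nonneg_right n25 (sq_nonneg b)
  have t7 : N * (p * a ^ 2) ≤ N ^ 5 * (p * a ^ 2) :=
    mul_le_mul_of_nonneg_right n15 (by positivity)
  have t8 : 0 ≤ N ^ 5 * (p * a ^ 2) := by positivity
  have t9 : p * (4 * N - 1 / s) * a ^ 2 = 4 * (N * (p * a ^ 2)) - p * (1 / s) * a ^ 2 := by ring
  linarith

theorem HBD_quot {x y X Y : ℝ} (hx : |x| ≤ X) (hY : 0 < Y) (hy : Y ≤ |y|) :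
    |x / y| ≤ X / Y := by
  rw [abs_div]
  exact div_le_div₀ ((abs_nonneg x).trans hx) hx hY hy

/-! ### Compactness -/

theorem HBD_mem {r t s : ℝ} (hr : r < 1) (h0 : 0 ≤ s) (h1 : s ≤ r) : px t s ∈ St := by
  apply NLB_mem
  rw [abs_lt]
  constructor <;> linarith

theorem HBD_cont {v : E2 → ℝ} (hc : ContinuousOn v St) {α r : ℝ} (hα : 0 ≤ α) (hr : r < 1) :
    ContinuousOn (fun q : ℝ × ℝ => v (px q.1 q.2)) (Icc (0 : ℝ) (2 * π) ×ˢ Icc α r) := by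
  have hpx : Continuous fun q : ℝ × ℝ => px q.1 q.2 := by
    unfold px
    fun_prop
  refine hc.comp hpx.continuousOn ?_
  intro q hq
  exact HBD_mem hr (hα.trans hq.2.1) hq.2.2

/-- Reduction to a period. -/
theorem HBD_red {v : E2 → ℝ} (hp : PerR v) {t s : ℝ} (hs : |s| < 1) :
    ∃ y ∈ Icc (0 : ℝ) (2 * π), v (px t s) = v (px y s) := by
  have hper : Function.Periodic (fun τ => v (px τ s)) (2 * π) := by
    intro τ
    change v (px (τ + 2 * π) s) = v (px τ s)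
    rw [NLB_px_per]
    exact hp _ (NLB_mem hs)
  obtain ⟨y, hy, hty⟩ := hper.exists_mem_Ico₀ (by positivity) t
  exact ⟨y, ⟨hy.1, hy.2.le⟩, hty⟩

theorem HBD_bound {v : E2 → ℝ} (hc : ContinuousOn v St) (hp : PerR v) {r : ℝ} (hr : r < 1) :
    ∃ M : ℝ, ∀ t s : ℝ, 0 ≤ s → s ≤ r → |v (px t s)| ≤ M := by
  have hK : IsCompact (Icc (0 : ℝ) (2 * π) ×ˢ Icc (0 : ℝ) r) := isCompact_Icc.prod isCompact_Icc
  obtain ⟨M, hM⟩ := hK.exists_bound_of_continuousOn (HBD_cont hc le_rfl hr)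
  refine ⟨M, fun t s hs0 hs1 => ?_⟩
  have hs : |s| < 1 := by
    rw [abs_lt]
    constructor <;> linarith
  obtain ⟨y, hy, hty⟩ := HBD_red hp hs (t := t)
  rw [hty]
  have h1 := hM (y, s) ⟨hy, ⟨hs0, hs1⟩⟩
  rwa [Real.norm_eq_abs] at h1

theorem HBD_far {v : E2 → ℝ} (hc : ContinuousOn v St) (hp : PerR v) {δ r : ℝ} (hδ : 0 ≤ δ)
    (hδr : δ ≤ r) (hr : r < 1) (hv : ∀ t s : ℝ, δ ≤ s → s ≤ r → 0 < v (px t s)) :
    ∃ c : ℝ, 0 < c ∧ ∀ t s : ℝ, δ ≤ s → s ≤ r → c ≤ v (px t s) := by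
  have hK : IsCompact (Icc (0 : ℝ) (2 * π) ×ˢ Icc δ r) := isCompact_Icc.prod isCompact_Icc
  have hne : (Icc (0 : ℝ) (2 * π) ×ˢ Icc δ r).Nonempty :=
    ⟨(0, δ), ⟨⟨le_rfl, by positivity⟩, ⟨le_rfl, hδr⟩⟩⟩
  obtain ⟨q, hq, hmin⟩ := hK.exists_isMinOn hne (HBD_cont hc hδ hr)
  refine ⟨v (px q.1 q.2), hv _ _ hq.2.1 hq.2.2, fun t s hs0 hs1 => ?_⟩
  have hs : |s| < 1 := by
    rw [abs_lt]
    constructor <;> linarith
  obtain ⟨y, hy, hty⟩ := HBD_red hp hs (t := t)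
  rw [hty]
  exact hmin (show (y, s) ∈ Icc (0 : ℝ) (2 * π) ×ˢ Icc δ r from ⟨hy, ⟨hs0, hs1⟩⟩)

theorem HBD_near {v : E2 → ℝ} (hc : ContinuousOn v St) (hp : PerR v)
    (hv : ∀ t : ℝ, 0 < v (pt t)) :
    ∃ c δ : ℝ, 0 < c ∧ 0 < δ ∧ ∀ t s : ℝ, 0 ≤ s → s ≤ δ → s < 1 → c ≤ v (px t s) := by
  obtain ⟨c, hc0, hcv⟩ := HBD_far hc hp le_rfl le_rfl (zero_lt_one) (fun t s h1 h2 => by
    have : s = 0 := le_antisymm h2 h1
    rw [this, NLB_px_zero]
    exact hv t)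
  have hpx : Continuous fun q : ℝ × ℝ => px q.1 q.2 := by
    unfold px
    fun_prop
  have hO : IsOpen ((fun q : ℝ × ℝ => px q.1 q.2) ⁻¹' (St ∩ v ⁻¹' Ioi (c / 2))) :=
    (hc.isOpen_inter_preimage NLB_open isOpen_Ioi).preimage hpx
  have hsub : Icc (0 : ℝ) (2 * π) ×ˢ ({0} : Set ℝ) ⊆
      (fun q : ℝ × ℝ => px q.1 q.2) ⁻¹' (St ∩ v ⁻¹' Ioi (c / 2)) := by
    rintro ⟨t, s⟩ ⟨_, hs⟩
    rw [mem_singleton_iff] at hs
    simp only at hs
    subst hs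
    refine ⟨NLB_mem (by norm_num), ?_⟩
    have h1 := hcv t 0 le_rfl le_rfl
    change c / 2 < v (px t 0)
    linarith
  obtain ⟨U, W, hU, hW, hUs, hWs, hUW⟩ := generalized_tube_lemma isCompact_Icc isCompact_singleton
    hO hsub
  have hW0 : (0 : ℝ) ∈ W := hWs (mem_singleton _)
  obtain ⟨ε, hε, hball⟩ := Metric.isOpen_iff.1 hW 0 hW0
  refine ⟨c / 2, ε / 2, by positivity, by positivity, fun t s hs0 hs1 hs2 => ?_⟩
  have hs : |s| < 1 := by
    rw [abs_lt]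
    constructor <;> linarith
  obtain ⟨y, hy, hty⟩ := HBD_red hp hs (t := t)
  rw [hty]
  have h1 : s ∈ W := hball (by
    rw [Metric.mem_ball, Real.dist_eq, sub_zero, abs_of_nonneg hs0]
    linarith)
  have h2 := hUW (show (y, s) ∈ U ×ˢ W from ⟨hUs hy, h1⟩)
  exact le_of_lt h2.2

theorem HBD_pl {A C M κ : ℝ} (hκ : 0 < κ) (hM : 0 < M) (hA0 : A ≠ 0) (hA : |A| ≤ M)
    (hC : κ ≤ |C|) : 1 ≤ M / κ * |C / A| := by
  have h1 : 0 < |A| := abs_pos.2 hA0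
  rw [abs_div, div_mul_div_comm, le_div_iff₀ (by positivity)]
  have h2 : κ * |A| ≤ κ * M := mul_le_mul_of_nonneg_left hA hκ.le
  have h3 : M * κ ≤ M * |C| := mul_le_mul_of_nonneg_left hC hM.le
  linarith

theorem p_HBD (hNLB : Stmt_NLB) : Stmt_HBD := by
  intro r A B C a b w l m hy
  have hr := hy.r1
  have hr0 := hy.r0
  have hpdA : ∀ i, ContinuousOn (pd i A) St := fun i =>
    (Pool.FR.pd_contDiffOn (m := 0) NLB_open hy.sA (by norm_num) i).continuousOn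
  have hpdB : ∀ i, ContinuousOn (pd i B) St := fun i =>
    (Pool.FR.pd_contDiffOn (m := 0) NLB_open hy.sB (by norm_num) i).continuousOn
  have hpdC : ∀ i, ContinuousOn (pd i C) St := fun i =>
    (Pool.FR.pd_contDiffOn (m := 0) NLB_open hy.sC (by norm_num) i).continuousOn
  obtain ⟨MA, hMA, nA⟩ := hNLB A hy.sA hy.pA hy.zA
  obtain ⟨MB, hMB, nB⟩ := hNLB B hy.sB hy.pB hy.zB
  obtain ⟨N1, hN1⟩ := HBD_bound hy.sA.continuousOn hy.pA hr
  obtain ⟨N2, hN2⟩ := HBD_bound hy.sB.continuousOn hy.pB hr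
  obtain ⟨N3, hN3⟩ := HBD_bound hy.sC.continuousOn hy.pC hr
  obtain ⟨N4, hN4⟩ := HBD_bound (hpdA 0) (NLB_per hy.pA 0) hr
  obtain ⟨N5, hN5⟩ := HBD_bound (hpdA 1) (NLB_per hy.pA 1) hr
  obtain ⟨N6, hN6⟩ := HBD_bound (hpdB 0) (NLB_per hy.pB 0) hr
  obtain ⟨N7, hN7⟩ := HBD_bound (hpdC 1) (NLB_per hy.pC 1) hr
  obtain ⟨P0, hP0⟩ := HBD_bound (hy.sl 0) (hy.pl 0) hr
  obtain ⟨P1, hP1⟩ := HBD_bound (hy.sl 1) (hy.pl 1) hr
  obtain ⟨P2, hP2⟩ := HBD_bound (hy.sl 2) (hy.pl 2) hr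
  obtain ⟨Q0, hQ0⟩ := HBD_bound (hy.sm 0) (hy.pm 0) hr
  obtain ⟨Q1, hQ1⟩ := HBD_bound (hy.sm 1) (hy.pm 1) hr
  obtain ⟨Q2, hQ2⟩ := HBD_bound (hy.sm 2) (hy.pm 2) hr
  -- a common upper bound
  obtain ⟨M, hM⟩ : ∃ M : ℝ, ∀ y ∈ [1, MA, MB, N1, N2, N3, N4, N5, N6, N7, P0, P1, P2, Q0, Q1, Q2],
      y ≤ M := by
    refine ⟨([1, MA, MB, N1, N2, N3, N4, N5, N6, N7, P0, P1, P2, Q0, Q1, Q2].map abs).sum,
      fun y hy => (le_abs_self y).trans ?_⟩
    refine List.single_le_sum ?_ _ (List.mem_map_of_mem hy)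
    intro z hz
    obtain ⟨z', _, rfl⟩ := List.mem_map.1 hz
    exact abs_nonneg _
  simp only [List.mem_cons, List.not_mem_nil, or_false, forall_eq_or_imp, forall_eq] at hM
  obtain ⟨M1, MAM, MBM, N1M, N2M, N3M, N4M, N5M, N6M, N7M, P0M, P1M, P2M, Q0M, Q1M, Q2M⟩ := hM
  have hM0 : 0 < M := by linarith
  -- near the line
  obtain ⟨c1, δ1, hc1, hδ1, n1⟩ := HBD_near (v := fun x => -l 2 x) (hy.sl 2).neg
    (fun x hx => by simp only; rw [hy.pl 2 x hx]) (fun t => by simpa using hy.l0 t)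
  obtain ⟨c2, δ2, hc2, hδ2, n2⟩ := HBD_near (v := fun x => |C x|) hy.sC.continuousOn.abs
    (fun x hx => by simp only; rw [hy.pC x hx]) (fun t => abs_pos.2 (hy.C0 t))
  have hc12 : 0 < c1 * c2 / 2 := by positivity
  obtain ⟨δ, hδ0, hδr, hδh, hδ1', hδ2', hδM⟩ : ∃ δ : ℝ, 0 < δ ∧ δ ≤ r ∧ δ ≤ 1 / 2 ∧ δ ≤ δ1 ∧
      δ ≤ δ2 ∧ M * δ ≤ c1 * c2 / 2 := by
    refine ⟨min r (min (1 / 2) (min δ1 (min δ2 (c1 * c2 / 2 / M)))), ?_, min_le_left _ _, ?_, ?_, ?_,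
      ?_⟩
    · refine lt_min hr0 (lt_min (by norm_num) (lt_min hδ1 (lt_min hδ2 (by positivity))))
    · exact (min_le_right _ _).trans (min_le_left _ _)
    · exact (min_le_right _ _).trans ((min_le_right _ _).trans (min_le_left _ _))
    · exact (min_le_right _ _).trans ((min_le_right _ _).trans ((min_le_right _ _).trans
        (min_le_left _ _)))
    · have h1 : min r (min (1 / 2) (min δ1 (min δ2 (c1 * c2 / 2 / M)))) ≤ c1 * c2 / 2 / M :=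
        (min_le_right _ _).trans ((min_le_right _ _).trans ((min_le_right _ _).trans
          (min_le_right _ _)))
      rw [le_div_iff₀ hM0] at h1
      linarith
  have hAnear : ∀ t s : ℝ, 0 ≤ s → s ≤ δ → c1 * c2 / 2 * s ≤ |A (px t s)| := by
    intro t s h0 h1
    have e1 := (nA (px t s) (by rw [NLB_px1]; exact h0) (by rw [NLB_px1]; linarith)).2.2.2.1
    rw [NLB_px1, NLB_px0] at e1
    have e2 : c1 * c2 ≤ |pd 1 A (pt t)| := by
      rw [hy.A1 t, abs_mul]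
      have f1 := n1 t 0 le_rfl hδ1.le (by norm_num)
      have f2 := n2 t 0 le_rfl hδ2.le (by norm_num)
      rw [NLB_px_zero] at f1 f2
      refine mul_le_mul ?_ f2 hc2.le (abs_nonneg _)
      exact f1.trans (neg_le_abs _)
    have e3 : MA * s ^ 2 ≤ c1 * c2 / 2 * s := by
      have f1 : MA * s ≤ M * δ := mul_le_mul MAM h1 h0 hM0.le
      have f2 : MA * s * s ≤ c1 * c2 / 2 * s := mul_le_mul_of_nonneg_right (f1.trans hδM) h0
      calc MA * s ^ 2 = MA * s * s := by ring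
        _ ≤ _ := f2
    have e4 : |s * pd 1 A (pt t)| ≤ |A (px t s)| + |A (px t s) - s * pd 1 A (pt t)| := by
      have := abs_sub_abs_le_abs_sub (s * pd 1 A (pt t)) (A (px t s))
      rw [abs_sub_comm] at this
      linarith
    rw [abs_mul, abs_of_nonneg h0] at e4
    have e5 : s * (c1 * c2) ≤ s * |pd 1 A (pt t)| := mul_le_mul_of_nonneg_left e2 h0
    linarith
  -- away from the line
  have hypx : ∀ t s : ℝ, 0 < s → s ≤ r → A (px t s) * C (px t s) < 0 := by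
    intro t s h0 h1
    have := hy.hyp (px t s) (HBD_mem hr h0.le h1)
    rw [NLB_px1] at this
    exact this h0 h1
  obtain ⟨c4, hc4, n4⟩ := HBD_far (v := fun x => |A x|) hy.sA.continuousOn.abs
    (fun x hx => by simp only; rw [hy.pA x hx]) hδ0.le hδr hr (fun t s h0 h1 => by
      refine abs_pos.2 fun h => ?_
      have := hypx t s (hδ0.trans_le h0) h1
      rw [h, zero_mul] at this
      exact lt_irrefl _ this)
  obtain ⟨c5, hc5, n5⟩ := HBD_far (v := fun x => |C x|) hy.sC.continuousOn.abs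
    (fun x hx => by simp only; rw [hy.pC x hx]) hδ0.le hδr hr (fun t s h0 h1 => by
      refine abs_pos.2 fun h => ?_
      have := hypx t s (hδ0.trans_le h0) h1
      rw [h, mul_zero] at this
      exact lt_irrefl _ this)
  obtain ⟨κ, hκ0, hκ1, hκ2, hκ3, hκ4, hκ5⟩ : ∃ κ : ℝ, 0 < κ ∧ κ ≤ 1 ∧ κ ≤ c1 * c2 / 2 ∧ κ ≤ c2 ∧
      κ ≤ c4 ∧ κ ≤ c5 := by
    refine ⟨min 1 (min (c1 * c2 / 2) (min c2 (min c4 c5))),
      lt_min one_pos (lt_min hc12 (lt_min hc2 (lt_min hc4 hc5))), min_le_left _ _,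
      (min_le_right _ _).trans (min_le_left _ _),
      (min_le_right _ _).trans ((min_le_right _ _).trans (min_le_left _ _)),
      (min_le_right _ _).trans ((min_le_right _ _).trans ((min_le_right _ _).trans
        (min_le_left _ _))),
      (min_le_right _ _).trans ((min_le_right _ _).trans ((min_le_right _ _).trans
        (min_le_right _ _)))⟩
  -- the constant
  set T : ℝ := M / κ with hT
  have hMT : M ≤ T := by
    rw [hT, le_div_iff₀ hκ0]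
    exact mul_le_of_le_one_right hM0.le hκ1
  have hT1 : 1 ≤ T := M1.trans hMT
  have hTN : T ≤ 2 * T ^ 2 := by nlinarith
  have hTN2 : (M * M + M * M) / κ ^ 2 = 2 * T ^ 2 := by
    rw [hT, div_pow]
    ring
  have hN1' : 1 ≤ 2 * T ^ 2 := hT1.trans hTN
  have hMN : M ≤ 2 * T ^ 2 := hMT.trans hTN
  refine ⟨33 * (2 * T ^ 2) ^ 5, by positivity, ?_⟩
  intro x _ hx0 hxr
  obtain ⟨t, s, rfl⟩ : ∃ t s, x = px t s := ⟨x 0, x 1, (NLB_px x).symm⟩
  rw [NLB_px1] at hx0 hxr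
  set y := px t s with hyy
  have hAC : A y * C y < 0 := hypx t s hx0 hxr
  have hA0 : A y ≠ 0 := by
    intro h
    rw [h, zero_mul] at hAC
    exact lt_irrefl _ hAC
  have hp : 0 < -(C y / A y) := by
    have e1 : C y / A y = A y * C y / A y ^ 2 := by
      field_simp
    rw [e1, ← neg_div]
    have e2 : 0 < A y ^ 2 := by positivity
    exact div_pos (by linarith) e2
  have hpabs : -(C y / A y) = |C y / A y| := by
    rw [abs_of_neg (by linarith)]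
  have bA : |A y| ≤ M := (hN1 t s hx0.le hxr).trans N1M
  have bB : |B y| ≤ M := (hN2 t s hx0.le hxr).trans N2M
  have bC : |C y| ≤ M := (hN3 t s hx0.le hxr).trans N3M
  have bA0 : |pd 0 A y| ≤ M := (hN4 t s hx0.le hxr).trans N4M
  have bA1 : |pd 1 A y| ≤ M := (hN5 t s hx0.le hxr).trans N5M
  have bB0 : |pd 0 B y| ≤ M := (hN6 t s hx0.le hxr).trans N6M
  have bC1 : |pd 1 C y| ≤ M := (hN7 t s hx0.le hxr).trans N7M
  have bl0 : |l 0 y| ≤ 2 * T ^ 2 := (hP0 t s hx0.le hxr).trans (P0M.trans hMN)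
  have bl1 : |l 1 y| ≤ 2 * T ^ 2 := (hP1 t s hx0.le hxr).trans (P1M.trans hMN)
  have bl2 : |l 2 y| ≤ 2 * T ^ 2 := (hP2 t s hx0.le hxr).trans (P2M.trans hMN)
  have bm0 : |m 0 y| ≤ 2 * T ^ 2 := (hQ0 t s hx0.le hxr).trans (Q0M.trans hMN)
  have bm1 : |m 1 y| ≤ 2 * T ^ 2 := (hQ1 t s hx0.le hxr).trans (Q1M.trans hMN)
  have bm2 : |m 2 y| ≤ 2 * T ^ 2 := (hQ2 t s hx0.le hxr).trans (Q2M.trans hMN)
  have hform : Raa A C l y * a y ^ 2 + Rab A B C l m y * (a y * b y) + Rbb A B m y * b y ^ 2 =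
      (-(C y / A y) * (pd 1 C y / C y - pd 1 A y / A y + 2 * l 0 y) +
        2 * (-(C y / A y)) ^ 2 * l 2 y) * a y ^ 2 +
      (-(C y / A y) * (2 * l 1 y + 4 * (B y / A y) * l 2 y + 2 * m 2 y) + 2 * m 0 y) *
        (a y * b y) +
      (2 * ((pd 0 B y * A y - B y * pd 0 A y) / A y ^ 2) + 2 * m 1 y +
        4 * m 2 y * (B y / A y)) * b y ^ 2 := by
    unfold Raa Rab Rbb
    ring
  rw [hform]
  unfold HH
  have hC : κ ≤ |C y| := by
    rcases le_total s δ with h | h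
    · exact hκ3.trans (n2 t s hx0.le (h.trans hδ2') (hxr.trans_lt hr))
    · exact hκ5.trans (n5 t s h hxr)
  have hpl : 1 ≤ 2 * T ^ 2 * -(C y / A y) := by
    rw [hpabs]
    refine (HBD_pl hκ0 hM0 hA0 bA hC).trans ?_
    exact mul_le_mul_of_nonneg_right hTN (abs_nonneg _)
  have hg : |pd 1 C y / C y| ≤ 2 * T ^ 2 := (HBD_quot bC1 hκ0 hC).trans hTN
  rcases le_total s δ with h | h
  · -- near
    have hAs : κ * s ≤ |A y| :=
      (mul_le_mul_of_nonneg_right hκ2 hx0.le).trans (hAnear t s hx0.le h)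
    have hκs : 0 < κ * s := by positivity
    have nAy := nA y (by rw [hyy, NLB_px1]; exact hx0.le) (by rw [hyy, NLB_px1]; linarith)
    have nBy := nB y (by rw [hyy, NLB_px1]; exact hx0.le) (by rw [hyy, NLB_px1]; linarith)
    have hy1 : y 1 = s := by rw [hyy, NLB_px1]
    rw [hy1] at nAy nBy
    have cA : |A y| ≤ M * s := nAy.1.trans (mul_le_mul_of_nonneg_right MAM hx0.le)
    have cA0 : |pd 0 A y| ≤ M * s := nAy.2.1.trans (mul_le_mul_of_nonneg_right MAM hx0.le)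
    have cA1 : |s * pd 1 A y - A y| ≤ M * s ^ 2 :=
      nAy.2.2.2.2.trans (mul_le_mul_of_nonneg_right MAM (sq_nonneg s))
    have cB : |B y| ≤ M * s := nBy.1.trans (mul_le_mul_of_nonneg_right MBM hx0.le)
    have cB0 : |pd 0 B y| ≤ M * s := nBy.2.1.trans (mul_le_mul_of_nonneg_right MBM hx0.le)
    refine HBD_nnear hN1' hx0 hp ?_ hpl ?_ hg ?_ ?_ bl0 bl1 bl2 bm0 bm1 bm2 ?_
    · rw [hpabs]
      have e1 := HBD_quot bC hκs hAs
      have e2 := mul_le_mul_of_nonneg_right e1 hx0.le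
      have e3 : M / (κ * s) * s = T := by
        rw [hT]
        field_simp
      rw [e3] at e2
      exact e2.trans hTN
    · have e1 := HBD_quot cB hκs hAs
      have e3 : M * s / (κ * s) = T := by
        rw [hT]
        field_simp
      rw [e3] at e1
      exact e1.trans hTN
    · have e0 : pd 1 A y / A y - 1 / s = (s * pd 1 A y - A y) / (A y * s) := by
        field_simp
      have e4 : κ * s * s ≤ |A y * s| := by
        rw [abs_mul, abs_of_pos hx0]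
        exact mul_le_mul_of_nonneg_right hAs hx0.le
      have e1 := HBD_quot cA1 (by positivity : 0 < κ * s * s) e4
      have e3 : M * s ^ 2 / (κ * s * s) = T := by
        rw [hT]
        field_simp
      rw [e3] at e1
      rw [e0]
      exact e1.trans hTN
    · have e1 : |pd 0 B y * A y - B y * pd 0 A y| ≤ M * s * (M * s) + M * s * (M * s) := by
        refine (abs_sub _ _).trans ?_
        rw [abs_mul, abs_mul]
        have hMs : 0 ≤ M * s := by positivity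
        exact add_le_add (mul_le_mul cB0 cA (abs_nonneg _) hMs)
          (mul_le_mul cB cA0 (abs_nonneg _) hMs)
      have e4 : (κ * s) ^ 2 ≤ |A y ^ 2| := by
        rw [abs_pow]
        exact pow_le_pow_left₀ hκs.le hAs 2
      have e2 := HBD_quot e1 (by positivity : 0 < (κ * s) ^ 2) e4
      have e3 : (M * s * (M * s) + M * s * (M * s)) / (κ * s) ^ 2 = 2 * T ^ 2 := by
        rw [← hTN2]
        field_simp
      rw [e3] at e2
      exact e2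
    · have e1 := n1 t s hx0.le (h.trans hδ1') (hxr.trans_lt hr)
      rw [← hyy] at e1
      linarith
  · -- far
    have hAs : κ ≤ |A y| := hκ4.trans (n4 t s h hxr)
    refine HBD_nfar hN1' hp ?_ hpl ?_ hg ?_ ?_ bl0 bl1 bl2 bm0 bm1 bm2
    · rw [hpabs]
      exact (HBD_quot bC hκ0 hAs).trans hTN
    · exact (HBD_quot bB hκ0 hAs).trans hTN
    · exact (HBD_quot bA1 hκ0 hAs).trans hTN
    · have e1 : |pd 0 B y * A y - B y * pd 0 A y| ≤ M * M + M * M := by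
        refine (abs_sub _ _).trans ?_
        rw [abs_mul, abs_mul]
        exact add_le_add (mul_le_mul bB0 bA (abs_nonneg _) hM0.le)
          (mul_le_mul bB bA0 (abs_nonneg _) hM0.le)
      have e4 : κ ^ 2 ≤ |A y ^ 2| := by
        rw [abs_pow]
        exact pow_le_pow_left₀ hκ0.le hAs 2
      have e2 := HBD_quot e1 (by positivity : 0 < κ ^ 2) e4
      rw [hTN2] at e2
      exact e2

end Pool.TRG
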