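import Pool.Agent.Work.MP_02e829_tr.Interface3

/-! # HDE: differentiation under the integral -/

open Set Filter Manifold Matrix MeasureTheory Metric
open scoped Topology ContDiff Manifold Real

set_option autoImplicit false

namespace Pool.TRG

open Pool
open Pool.FR (pd ee)

theorem HDE_cpx : Continuous fun p : ℝ × ℝ => px p.1 p.2 := by
  unfold px
  fun_prop

theorem HDE_dx (x s : ℝ) : HasDerivAt (fun t => px t s) (ee 0) x := by
  unfold px
  have h := ((hasDerivAt_id x).smul_const (ee 0 : E2)).add_const (s • (ee 1 : E2))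
  simpa using h

theorem HDE_ds (x s : ℝ) : HasDerivAt (fun t => px x t) (ee 1) s := by
  unfold px
  have h := ((hasDerivAt_id s).smul_const (ee 1 : E2)).const_add (x • (ee 0 : E2))
  simpa using h

/-- the composition with a curve -/
theorem HDE_comp {V : Set E2} (hV : IsOpen V) {H : E2 → ℝ} (hH : ContDiffOn ℝ 1 H V)
    {c : ℝ → E2} {v : E2} {t : ℝ} (hc : HasDerivAt c v t) (ht : c t ∈ V) :
    HasDerivAt (fun σ => H (c σ)) (fderiv ℝ H (c t) v) t := by
  have hd : DifferentiableAt ℝ H (c t) :=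
    (hH.differentiableOn one_ne_zero).differentiableAt (hV.mem_nhds ht)
  exact hd.hasFDerivAt.comp_hasDerivAt t hc

/-- the partial derivatives are continuous on `V` -/
theorem HDE_cpd {V : Set E2} (hV : IsOpen V) {H : E2 → ℝ} (hH : ContDiffOn ℝ 1 H V) (i : Fin 2) :
    ContinuousOn (pd i H) V := by
  have h := hH.continuousOn_fderiv_of_isOpen hV (le_refl 1)
  unfold Pool.FR.pd
  exact h.clm_apply continuousOn_const

theorem p_HDE : Stmt_HDE := by
  intro α β V H J hV hin hH hJ hper s hs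
  have hxs : ∀ x σ : ℝ, σ ∈ Ioo α β → px x σ ∈ V := fun x σ h => hin x σ h.1 h.2
  -- continuity in `x`
  have hc1 : ∀ σ ∈ Ioo α β, Continuous fun x => px x σ := fun σ _ =>
    HDE_cpx.comp (by fun_prop : Continuous fun x : ℝ => (x, σ))
  have hcH : ∀ σ ∈ Ioo α β, Continuous fun x => H (px x σ) := fun σ h =>
    hH.continuousOn.comp_continuous (hc1 σ h) (fun x => hxs x σ h)
  have hcH1 : ∀ σ ∈ Ioo α β, Continuous fun x => pd 1 H (px x σ) := fun σ h =>
    (HDE_cpd hV hH 1).comp_continuous (hc1 σ h) (fun x => hxs x σ h)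
  have hcJ0 : Continuous fun x => pd 0 J (px x s) :=
    (HDE_cpd hV hJ 0).comp_continuous (hc1 s hs) (fun x => hxs x s hs)
  -- the integral of `pd 0 J` vanishes
  have hJ0 : (∫ x in (0 : ℝ)..(2 * π), pd 0 J (px x s)) = 0 := by
    have h := intervalIntegral.integral_eq_sub_of_hasDerivAt (a := 0) (b := 2 * π)
      (f := fun x => J (px x s)) (f' := fun x => pd 0 J (px x s))
      (fun x _ => HDE_comp hV hJ (HDE_dx x s) (hxs x s hs)) (hcJ0.intervalIntegrable _ _)
    rw [h]
    have := hper 0 s hs.1 hs.2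
    rw [zero_add] at this
    simp [this]
  -- a compact neighbourhood
  obtain ⟨ε, hε, hsub⟩ := Metric.nhds_basis_closedBall.mem_iff.1 (Ioo_mem_nhds hs.1 hs.2)
  have hcomp : IsCompact (Icc (0 : ℝ) (2 * π) ×ˢ closedBall s ε) :=
    isCompact_Icc.prod (isCompact_closedBall s ε)
  have hcont : ContinuousOn (fun p : ℝ × ℝ => pd 1 H (px p.1 p.2))
      (Icc (0 : ℝ) (2 * π) ×ˢ closedBall s ε) := by
    refine (HDE_cpd hV hH 1).comp HDE_cpx.continuousOn ?_
    rintro ⟨x, σ⟩ ⟨_, h2⟩
    exact hxs x σ (hsub h2)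
  obtain ⟨C, hC⟩ := hcomp.exists_bound_of_continuousOn hcont
  have hpi : (0 : ℝ) ≤ 2 * π := by positivity
  have key := intervalIntegral.hasDerivAt_integral_of_dominated_loc_of_deriv_le
    (μ := volume) (a := 0) (b := 2 * π) (x₀ := s) (s := closedBall s ε)
    (F := fun σ x => H (px x σ)) (F' := fun σ x => pd 1 H (px x σ)) (bound := fun _ => C)
    (closedBall_mem_nhds s hε)
    (by
      filter_upwards [Ioo_mem_nhds hs.1 hs.2] with σ hσ
      exact (hcH σ hσ).aestronglyMeasurable)
    ((hcH s hs).intervalIntegrable _ _)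
    ((hcH1 s hs).aestronglyMeasurable)
    (by
      refine Eventually.of_forall fun x hx σ hσ => ?_
      rw [uIoc_of_le hpi] at hx
      exact hC (x, σ) ⟨⟨hx.1.le, hx.2⟩, hσ⟩)
    (by simp)
    (by
      refine Eventually.of_forall fun x _ σ hσ => ?_
      exact HDE_comp hV hH (HDE_ds x σ) (hxs x σ (hsub hσ)))
  have h2 : (IC fun x => pd 1 H (px x s) - pd 0 J (px x s)) =
      ∫ x in (0 : ℝ)..(2 * π), pd 1 H (px x s) := by
    unfold IC
    rw [intervalIntegral.integral_sub ((hcH1 s hs).intervalIntegrable _ _)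
      (hcJ0.intervalIntegrable _ _), hJ0, sub_zero]
  rw [h2]
  exact key.2

end Pool.TRG
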