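import Pool.Agent.Work.MP_02e829_tr.Interface3

/-! # Block HEN: the hyperbolic system has only the zero solution (MP_02e829, TROUGH RIGIDITY) -/

open Set Filter Manifold Matrix MeasureTheory Metric
open scoped Topology ContDiff Manifold Real

set_option autoImplicit false

universe w

namespace Pool.TRG

open Pool
open Pool.FR (pd ee gg WW DD NN II Ga Gb Imm SO3)
open Pool.SXB (E3 L3 Proper PosCurv Fam2 Fam3 Transv TC)

theorem HEN_px0 (x s : ℝ) : (px x s) 0 = x := by simp [px, ee]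

theorem HEN_px1 (x s : ℝ) : (px x s) 1 = s := by simp [px, ee]

theorem HEN_eta (x : E2) : px (x 0) (x 1) = x := by
  ext i
  fin_cases i
  · exact HEN_px0 _ _
  · exact HEN_px1 _ _

theorem HEN_pt (x : ℝ) : pt x = px x 0 := by simp [pt, px]

theorem HEN_cont : Continuous fun z : ℝ × ℝ => px z.1 z.2 := by
  unfold px
  fun_prop

theorem HEN_contx (s : ℝ) : Continuous fun x : ℝ => px x s := by
  unfold px
  fun_prop

theorem HEN_conts (x : ℝ) : Continuous fun s : ℝ => px x s := by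
  unfold px
  fun_prop

theorem HEN_per (x s : ℝ) : px (x + 2 * π) s = px x s + (2 * π) • ee 0 := by
  unfold px
  rw [add_smul]
  abel

theorem HEN_St {x s : ℝ} (h0 : 0 ≤ s) (h1 : s < 1) : px x s ∈ St := by
  show |(px x s) 1| < 1
  rw [HEN_px1, abs_of_nonneg h0]
  exact h1

theorem HEN_V (r : ℝ) : IsOpen {x : E2 | 0 < x 1 ∧ x 1 < r} := by
  have h1 : Continuous fun x : E2 => x 1 := by fun_prop
  exact (isOpen_lt continuous_const h1).inter (isOpen_lt h1 continuous_const)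

section

variable {r : ℝ} {A B C a b w : E2 → ℝ} {l m : Fin 3 → E2 → ℝ}

theorem HEN_sub (h : HY r A B C a b w l m) : {x : E2 | 0 < x 1 ∧ x 1 < r} ⊆ St := by
  intro x hx
  show |x 1| < 1
  rw [abs_of_pos hx.1]
  exact hx.2.trans h.r1

theorem HEN_A (h : HY r A B C a b w l m) {x : E2} (h0 : 0 < x 1) (h1 : x 1 ≤ r) : A x ≠ 0 := by
  have hx : x ∈ St := by
    show |x 1| < 1
    rw [abs_of_pos h0]
    exact lt_of_le_of_lt h1 h.r1
  intro hA
  have := h.hyp x hx h0 h1
  rw [hA, zero_mul] at this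
  exact lt_irrefl _ this

theorem HEN_p (h : HY r A B C a b w l m) {x : E2} (h0 : 0 < x 1) (h1 : x 1 ≤ r) :
    0 < -(C x / A x) := by
  have hx : x ∈ St := by
    show |x 1| < 1
    rw [abs_of_pos h0]
    exact lt_of_le_of_lt h1 h.r1
  have h2 := h.hyp x hx h0 h1
  have hA := HEN_A h h0 h1
  have h3 : C x / A x = A x * C x / A x ^ 2 := by
    field_simp
  rw [h3, neg_pos]
  exact div_neg_of_neg_of_pos h2 (by positivity)

theorem HEN_H0 (h : HY r A B C a b w l m) {x : E2} (h0 : 0 < x 1) (h1 : x 1 ≤ r) :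
    0 ≤ HH A C a b x := by
  unfold HH
  have := HEN_p h h0 h1
  positivity

theorem HEN_sH (h : HY r A B C a b w l m) :
    ContDiffOn ℝ 1 (HH A C a b) {x : E2 | 0 < x 1 ∧ x 1 < r} := by
  have hs := HEN_sub h
  have h12 : (1 : WithTop ℕ∞) ≤ 2 := by norm_num
  have hA : ContDiffOn ℝ 1 A {x : E2 | 0 < x 1 ∧ x 1 < r} := (h.sA.mono hs).of_le h12
  have hC : ContDiffOn ℝ 1 C {x : E2 | 0 < x 1 ∧ x 1 < r} := (h.sC.mono hs).of_le h12
  have ha : ContDiffOn ℝ 1 a {x : E2 | 0 < x 1 ∧ x 1 < r} := (h.sa.mono hs).of_le h12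
  have hb : ContDiffOn ℝ 1 b {x : E2 | 0 < x 1 ∧ x 1 < r} := (h.sb.mono hs).of_le h12
  exact ((hC.div hA fun x hx => HEN_A h hx.1 hx.2.le).neg.mul (ha.pow 2)).add (hb.pow 2)

theorem HEN_sJ (h : HY r A B C a b w l m) :
    ContDiffOn ℝ 1 (HJ A B b w) {x : E2 | 0 < x 1 ∧ x 1 < r} := by
  have hs := HEN_sub h
  have h12 : (1 : WithTop ℕ∞) ≤ 2 := by norm_num
  have hA : ContDiffOn ℝ 1 A {x : E2 | 0 < x 1 ∧ x 1 < r} := (h.sA.mono hs).of_le h12
  have hB : ContDiffOn ℝ 1 B {x : E2 | 0 < x 1 ∧ x 1 < r} := (h.sB.mono hs).of_le h12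
  have hw : ContDiffOn ℝ 1 w {x : E2 | 0 < x 1 ∧ x 1 < r} := (h.sw.mono hs).of_le h12
  have hb : ContDiffOn ℝ 1 b {x : E2 | 0 < x 1 ∧ x 1 < r} := (h.sb.mono hs).of_le h12
  exact (contDiffOn_const.mul (hw.mul hb)).sub
    ((contDiffOn_const.mul (hB.div hA fun x hx => HEN_A h hx.1 hx.2.le)).mul (hb.pow 2))

theorem HEN_perH (h : HY r A B C a b w l m) {s : ℝ} (h0 : 0 < s) (h1 : s < r) (x : ℝ) :
    HH A C a b (px (x + 2 * π) s) = HH A C a b (px x s) := by
  have hx : px x s ∈ St := HEN_St h0.le (h1.trans h.r1)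
  unfold HH
  rw [HEN_per, h.pA _ hx, h.pC _ hx, h.pa _ hx, h.pb _ hx]

theorem HEN_perJ (h : HY r A B C a b w l m) {s : ℝ} (h0 : 0 < s) (h1 : s < r) (x : ℝ) :
    HJ A B b w (px (x + 2 * π) s) = HJ A B b w (px x s) := by
  have hx : px x s ∈ St := HEN_St h0.le (h1.trans h.r1)
  unfold HJ
  rw [HEN_per, h.pA _ hx, h.pB _ hx, h.pw _ hx, h.pb _ hx]

theorem HEN_mem {s : ℝ} (h0 : 0 < s) (h1 : s < r) (x : ℝ) :
    px x s ∈ {x : E2 | 0 < x 1 ∧ x 1 < r} := by
  show 0 < (px x s) 1 ∧ (px x s) 1 < r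
  rw [HEN_px1]
  exact ⟨h0, h1⟩

/-- the energy tends to zero at the line -/
theorem HEN_lim (hNLB : Stmt_NLB) (h : HY r A B C a b w l m) :
    Tendsto (fun s => IC fun x => HH A C a b (px x s)) (𝓝[>] 0) (𝓝 0) := by
  obtain ⟨MA, hMA0, hMA⟩ := hNLB A h.sA h.pA h.zA
  obtain ⟨Ma, hMa0, hMa⟩ := hNLB a h.sa h.pa h.za
  obtain ⟨Mb, hMb0, hMb⟩ := hNLB b h.sb h.pb h.zb
  -- the bound of C
  have hrect : IsCompact (Icc (0 : ℝ) (2 * π) ×ˢ Icc (0 : ℝ) (1 / 2)) :=
    isCompact_Icc.prod isCompact_Icc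
  have hCc : ContinuousOn (fun z : ℝ × ℝ => C (px z.1 z.2))
      (Icc (0 : ℝ) (2 * π) ×ˢ Icc (0 : ℝ) (1 / 2)) := by
    refine h.sC.continuousOn.comp HEN_cont.continuousOn ?_
    rintro ⟨x, s⟩ ⟨_, hs⟩
    exact HEN_St hs.1 (by
      have h2 : s ≤ 1 / 2 := hs.2
      show s < 1
      linarith)
  obtain ⟨MC, hMC⟩ := hrect.exists_bound_of_continuousOn hCc
  -- the lower bound of the derivative of A on the line
  have hlC : ContinuousOn (fun x : ℝ => l 2 (pt x) * C (pt x)) (Icc (0 : ℝ) (2 * π)) := by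
    have hp : ContinuousOn (fun x : ℝ => pt x) (Icc (0 : ℝ) (2 * π)) := by
      have : Continuous fun x : ℝ => pt x := by
        unfold pt
        fun_prop
      exact this.continuousOn
    have hm : MapsTo (fun x : ℝ => pt x) (Icc (0 : ℝ) (2 * π)) St := by
      intro x _
      show pt x ∈ St
      rw [HEN_pt]
      exact HEN_St le_rfl one_pos
    exact ((h.sl 2).comp hp hm).mul (h.sC.continuousOn.comp hp hm)
  have hne : ∀ x ∈ Icc (0 : ℝ) (2 * π), l 2 (pt x) * C (pt x) ≠ 0 := fun x _ =>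
    mul_ne_zero (h.l0 x).ne (h.C0 x)
  obtain ⟨K₀, hK₀⟩ := isCompact_Icc.exists_bound_of_continuousOn (hlC.inv₀ hne)
  set K := max K₀ 1 with hK
  have hK1 : 1 ≤ K := le_max_right _ _
  have hKpos : 0 < K := one_pos.trans_le hK1
  have hlow : ∀ x ∈ Icc (0 : ℝ) (2 * π), K⁻¹ ≤ |pd 1 A (pt x)| := by
    intro x hx
    rw [h.A1 x]
    have h2 := (hK₀ x hx).trans (le_max_left K₀ 1)
    rw [Pi.inv_apply, norm_inv, Real.norm_eq_abs] at h2
    exact inv_le_of_inv_le₀ (abs_pos.2 (hne x hx)) h2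
  -- the final bound
  have hMC0 : 0 ≤ max MC 0 := le_max_right _ _
  set N : ℝ := 2 * K * max MC 0 * Ma ^ 2 + Mb ^ 2 with hN
  have hN0 : 0 ≤ N := by positivity
  have hpda : ∀ x : ℝ, pd 1 a (pt x) = 0 := by
    intro x
    have hx : pt x ∈ St := by
      rw [HEN_pt]
      exact HEN_St le_rfl one_pos
    have hp1 : (pt x) 1 = 0 := by rw [HEN_pt, HEN_px1]
    have h2 : pd 0 b (pt x) = 0 := by
      have h3 := (hMb (pt x) (by rw [hp1]) (by rw [hp1]; norm_num)).2.1
      rw [hp1, mul_zero] at h3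
      exact abs_eq_zero.1 (le_antisymm h3 (abs_nonneg _))
    rw [h.e1 _ hx, h2, h.za, h.zb, h.zw]
    ring
  set δ : ℝ := min (min (1 / 2) (r / 2)) ((2 * K * (MA + 1))⁻¹) with hδ
  have hδ0 : 0 < δ := by
    have := h.r0
    refine lt_min (lt_min (by norm_num) (by linarith)) ?_
    positivity
  have hbound : ∀ s ∈ Ioo (0 : ℝ) δ, ∀ x ∈ Icc (0 : ℝ) (2 * π),
      ‖HH A C a b (px x s)‖ ≤ N * s ^ 2 := by
    intro s hs x hx
    have hs1 : s ≤ 1 / 2 := (hs.2.le.trans (min_le_left _ _)).trans (min_le_left _ _)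
    have hs2 : s < r := by
      have h2 : s ≤ r / 2 := (hs.2.le.trans (min_le_left _ _)).trans (min_le_right _ _)
      have := h.r0
      linarith
    have hs3 : s * (2 * K * (MA + 1)) ≤ 1 := by
      have h2 : s ≤ (2 * K * (MA + 1))⁻¹ := hs.2.le.trans (min_le_right _ _)
      have h3 : 0 < 2 * K * (MA + 1) := by positivity
      calc s * (2 * K * (MA + 1)) ≤ (2 * K * (MA + 1))⁻¹ * (2 * K * (MA + 1)) :=
            mul_le_mul_of_nonneg_right h2 h3.le
        _ = 1 := inv_mul_cancel₀ h3.ne'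
    have hs0 : 0 < s := hs.1
    have e1 : (px x s) 1 = s := HEN_px1 x s
    have e0 : (px x s) 0 = x := HEN_px0 x s
    have hA2 := (hMA (px x s) (by rw [e1]; exact hs0.le) (by rw [e1]; exact hs1)).2.2.2.1
    rw [e1, e0] at hA2
    have ha2 := (hMa (px x s) (by rw [e1]; exact hs0.le) (by rw [e1]; exact hs1)).2.2.2.1
    rw [e1, e0, hpda x, mul_zero, sub_zero] at ha2
    have hb2 := (hMb (px x s) (by rw [e1]; exact hs0.le) (by rw [e1]; exact hs1)).1
    rw [e1] at hb2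
    have hC2 : |C (px x s)| ≤ max MC 0 :=
      (hMC (x, s) ⟨hx, hs0.le, hs1⟩).trans (le_max_left _ _)
    -- the lower bound of A
    have hAlow : s / (2 * K) ≤ |A (px x s)| := by
      have h2 : s * K⁻¹ ≤ |s * pd 1 A (pt x)| := by
        rw [abs_mul, abs_of_pos hs0]
        exact mul_le_mul_of_nonneg_left (hlow x hx) hs0.le
      have h3 : |s * pd 1 A (pt x)| ≤ |A (px x s)| + MA * s ^ 2 := by
        have h4 : s * pd 1 A (pt x) = A (px x s) - (A (px x s) - s * pd 1 A (pt x)) := by ring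
        calc |s * pd 1 A (pt x)| = |A (px x s) - (A (px x s) - s * pd 1 A (pt x))| := by rw [← h4]
          _ ≤ |A (px x s)| + |A (px x s) - s * pd 1 A (pt x)| := abs_sub _ _
          _ ≤ |A (px x s)| + MA * s ^ 2 := by linarith
      have h5 : MA * s ^ 2 ≤ s / (2 * K) := by
        rw [le_div_iff₀ (by positivity)]
        nlinarith [mul_nonneg hs0.le (mul_nonneg hs0.le hKpos.le)]
      have h6 : s * K⁻¹ = s / (2 * K) + s / (2 * K) := by
        field_simp
        ring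
      linarith
    have hApos : 0 < |A (px x s)| := lt_of_lt_of_le (by positivity) hAlow
    unfold HH
    rw [Real.norm_eq_abs]
    have h7 : |-(C (px x s) / A (px x s)) * a (px x s) ^ 2| ≤
        2 * K * max MC 0 * Ma ^ 2 * s ^ 2 := by
      rw [abs_mul, abs_neg, abs_div, abs_pow]
      have h8 : |C (px x s)| / |A (px x s)| ≤ max MC 0 / (s / (2 * K)) :=
        div_le_div₀ hMC0 hC2 (by positivity) hAlow
      have h9 : |a (px x s)| ^ 2 ≤ (Ma * s ^ 2) ^ 2 :=
        pow_le_pow_left₀ (abs_nonneg _) ha2 2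
      calc |C (px x s)| / |A (px x s)| * |a (px x s)| ^ 2
          ≤ max MC 0 / (s / (2 * K)) * (Ma * s ^ 2) ^ 2 :=
            mul_le_mul h8 h9 (by positivity) (by positivity)
        _ = 2 * K * max MC 0 * Ma ^ 2 * s ^ 2 * s := by
            field_simp
        _ ≤ 2 * K * max MC 0 * Ma ^ 2 * s ^ 2 * 1 := by
            refine mul_le_mul_of_nonneg_left (by linarith) (by positivity)
        _ = 2 * K * max MC 0 * Ma ^ 2 * s ^ 2 := mul_one _
    have h10 : |b (px x s) ^ 2| ≤ Mb ^ 2 * s ^ 2 := by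
      rw [abs_pow, ← mul_pow]
      exact pow_le_pow_left₀ (abs_nonneg _) hb2 2
    calc |-(C (px x s) / A (px x s)) * a (px x s) ^ 2 + b (px x s) ^ 2|
        ≤ |-(C (px x s) / A (px x s)) * a (px x s) ^ 2| + |b (px x s) ^ 2| := abs_add_le _ _
      _ ≤ 2 * K * max MC 0 * Ma ^ 2 * s ^ 2 + Mb ^ 2 * s ^ 2 := add_le_add h7 h10
      _ = N * s ^ 2 := by rw [hN]; ring
  have hE : ∀ s ∈ Ioo (0 : ℝ) δ, ‖IC fun x => HH A C a b (px x s)‖ ≤ N * s ^ 2 * (2 * π) := by
    intro s hs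
    have h2 := intervalIntegral.norm_integral_le_of_norm_le_const (a := (0 : ℝ)) (b := 2 * π)
      (f := fun x => HH A C a b (px x s)) (C := N * s ^ 2) (by
        intro x hx
        rw [uIoc_of_le (by positivity)] at hx
        exact hbound s hs x ⟨hx.1.le, hx.2⟩)
    rw [sub_zero, abs_of_pos (by positivity : (0 : ℝ) < 2 * π)] at h2
    exact h2
  refine squeeze_zero_norm' (a := fun s : ℝ => N * s ^ 2 * (2 * π)) ?_ ?_
  · filter_upwards [Ioo_mem_nhdsGT hδ0] with s hs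
    exact hE s hs
  · have h2 : Tendsto (fun s : ℝ => N * s ^ 2 * (2 * π)) (𝓝 0) (𝓝 (N * 0 ^ 2 * (2 * π))) := by
      have : Continuous fun s : ℝ => N * s ^ 2 * (2 * π) := by fun_prop
      exact this.tendsto 0
    have h3 : N * (0 : ℝ) ^ 2 * (2 * π) = 0 := by ring
    rw [h3] at h2
    exact h2.mono_left nhdsWithin_le_nhds

end

theorem p_HEN (hNLB : Stmt_NLB) (hHAL : Stmt_HAL) (hHBD : Stmt_HBD) (hHDE : Stmt_HDE)
    (hHGW : Stmt_HGW) : Stmt_HEN := by
  intro r A B C a b w l m h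
  obtain ⟨K, hK0, hK⟩ := hHBD r A B C a b w l m h
  have hal := hHAL r A B C a b w l m h
  have hV := HEN_V r
  have hsH := HEN_sH h
  have hsJ := HEN_sJ h
  have hcH : ∀ s ∈ Ioo 0 r, Continuous fun x => HH A C a b (px x s) := fun s hs =>
    hsH.continuousOn.comp_continuous (HEN_contx s) fun x => HEN_mem hs.1 hs.2 x
  have hc1 : ∀ s ∈ Ioo 0 r, Continuous fun x => pd 1 (HH A C a b) (px x s) -
      pd 0 (HJ A B b w) (px x s) := by
    intro s hs
    have h1 : ContDiffOn ℝ 0 (pd 1 (HH A C a b)) {x : E2 | 0 < x 1 ∧ x 1 < r} :=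
      Pool.FR.pd_contDiffOn hV hsH (by norm_num) 1
    have h2 : ContDiffOn ℝ 0 (pd 0 (HJ A B b w)) {x : E2 | 0 < x 1 ∧ x 1 < r} :=
      Pool.FR.pd_contDiffOn hV hsJ (by norm_num) 0
    exact (h1.continuousOn.comp_continuous (HEN_contx s) fun x => HEN_mem hs.1 hs.2 x).sub
      (h2.continuousOn.comp_continuous (HEN_contx s) fun x => HEN_mem hs.1 hs.2 x)
  have hE := hHGW r K (fun s => IC fun x => HH A C a b (px x s))
    (fun s => IC fun x => pd 1 (HH A C a b) (px x s) - pd 0 (HJ A B b w) (px x s)) (by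
      intro s hs
      refine ⟨?_, ?_, ?_⟩
      · exact hHDE 0 r _ (HH A C a b) (HJ A B b w) hV (fun x s h0 h1 => HEN_mem h0 h1 x) hsH hsJ
          (fun x s h0 h1 => HEN_perJ h h0 h1 x) s hs
      · show (∫ x in (0 : ℝ)..(2 * π), (pd 1 (HH A C a b) (px x s) - pd 0 (HJ A B b w) (px x s)))
          ≤ K * ∫ x in (0 : ℝ)..(2 * π), HH A C a b (px x s)
        rw [← intervalIntegral.integral_const_mul]
        refine intervalIntegral.integral_mono_on (by positivity) ((hc1 s hs).intervalIntegrable _ _)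
          (((hcH s hs).const_mul K).intervalIntegrable _ _) ?_
        intro x _
        have hx : px x s ∈ St := HEN_St hs.1.le (hs.2.trans h.r1)
        have e1 : (px x s) 1 = s := HEN_px1 x s
        rw [hal _ hx (by rw [e1]; exact hs.1) (by rw [e1]; exact hs.2.le)]
        exact hK _ hx (by rw [e1]; exact hs.1) (by rw [e1]; exact hs.2.le)
      · refine intervalIntegral.integral_nonneg (by positivity) fun x _ => ?_
        exact HEN_H0 h (by rw [HEN_px1]; exact hs.1) (by rw [HEN_px1]; exact hs.2.le))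
    (HEN_lim hNLB h)
  -- the energy density vanishes
  have hH : ∀ s ∈ Ioo 0 r, ∀ x : ℝ, HH A C a b (px x s) = 0 := by
    intro s hs
    have h1 : ∀ y ∈ Icc (0 : ℝ) (2 * π), HH A C a b (px y s) = 0 := by
      intro y hy
      by_contra hne
      have hpos : 0 < HH A C a b (px y s) := lt_of_le_of_ne
        (HEN_H0 h (by rw [HEN_px1]; exact hs.1) (by rw [HEN_px1]; exact hs.2.le)) (Ne.symm hne)
      have h2 : 0 < ∫ x in (0 : ℝ)..(2 * π), HH A C a b (px x s) :=
        intervalIntegral.integral_pos (by positivity) (hcH s hs).continuousOn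
          (fun x _ => HEN_H0 h (by rw [HEN_px1]; exact hs.1) (by rw [HEN_px1]; exact hs.2.le))
          ⟨y, hy, hpos⟩
      have h3 : (∫ x in (0 : ℝ)..(2 * π), HH A C a b (px x s)) = 0 := hE s hs
      rw [h3] at h2
      exact lt_irrefl _ h2
    have hper : Function.Periodic (fun x => HH A C a b (px x s)) (2 * π) := fun x =>
      HEN_perH h hs.1 hs.2 x
    intro x
    obtain ⟨y, hy, hxy⟩ := hper.exists_mem_Ico₀ (by positivity) x
    have h4 : HH A C a b (px x s) = HH A C a b (px y s) := hxy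
    rw [h4]
    exact h1 y ⟨hy.1, hy.2.le⟩
  have hin : ∀ s ∈ Ioo 0 r, ∀ x : ℝ, a (px x s) = 0 ∧ b (px x s) = 0 ∧ w (px x s) = 0 := by
    intro s hs x
    have e1 : (px x s) 1 = s := HEN_px1 x s
    have hp := HEN_p h (x := px x s) (by rw [e1]; exact hs.1) (by rw [e1]; exact hs.2.le)
    have hA := HEN_A h (x := px x s) (by rw [e1]; exact hs.1) (by rw [e1]; exact hs.2.le)
    have h1 := hH s hs x
    unfold HH at h1
    have h2 : 0 ≤ -(C (px x s) / A (px x s)) * a (px x s) ^ 2 := by positivity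
    have h3 : 0 ≤ b (px x s) ^ 2 := by positivity
    have hb : b (px x s) = 0 := by
      have : b (px x s) ^ 2 = 0 := by linarith
      exact pow_eq_zero_iff (two_ne_zero) |>.1 this
    have ha : a (px x s) = 0 := by
      have h4 : -(C (px x s) / A (px x s)) * a (px x s) ^ 2 = 0 := by linarith
      rcases mul_eq_zero.1 h4 with h5 | h5
      · exact absurd h5 hp.ne'
      · exact pow_eq_zero_iff (two_ne_zero) |>.1 h5
    have hx : px x s ∈ St := HEN_St hs.1.le (hs.2.trans h.r1)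
    have h6 := h.e0 _ hx
    rw [ha, hb, mul_zero, mul_zero, mul_zero, add_zero] at h6
    rcases mul_eq_zero.1 h6 with h7 | h7
    · exact absurd h7 hA
    · exact ⟨ha, hb, h7⟩
  have hclose : ∀ u : E2 → ℝ, ContDiffOn ℝ 2 u St → (∀ s ∈ Ioo 0 r, ∀ x : ℝ, u (px x s) = 0) →
      ∀ x : ℝ, u (px x r) = 0 := by
    intro u hu hu0 x
    have hx : px x r ∈ St := HEN_St h.r0.le h.r1
    have hSt : IsOpen St := by
      have h1 : Continuous fun x : E2 => |x 1| := by fun_prop
      exact isOpen_lt h1 continuous_const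
    have h1 : ContinuousAt u (px x r) := hu.continuousOn.continuousAt (hSt.mem_nhds hx)
    have h2 : Tendsto (fun s => u (px x s)) (𝓝[<] r) (𝓝 (u (px x r))) :=
      (h1.tendsto.comp ((HEN_conts x).tendsto r)).mono_left nhdsWithin_le_nhds
    have h3 : Tendsto (fun s => u (px x s)) (𝓝[<] r) (𝓝 0) := by
      refine tendsto_const_nhds.congr' ?_
      filter_upwards [Ioo_mem_nhdsLT h.r0] with s hs
      exact (hu0 s hs x).symm
    exact tendsto_nhds_unique h2 h3
  intro x h0 h1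
  have hx := HEN_eta x
  rcases h0.eq_or_lt with h2 | h2
  · have h3 : pt (x 0) = x := by
      rw [HEN_pt, h2]
      exact hx
    rw [← h3]
    exact ⟨h.za _, h.zb _, h.zw _⟩
  · rcases h1.eq_or_lt with h3 | h3
    · rw [← hx, h3]
      exact ⟨hclose a h.sa (fun s hs y => (hin s hs y).1) _,
        hclose b h.sb (fun s hs y => (hin s hs y).2.1) _,
        hclose w h.sw (fun s hs y => (hin s hs y).2.2) _⟩
    · rw [← hx]
      exact hin (x 1) ⟨h2, h3⟩ (x 0)

end Pool.TRG
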