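import Pool.Agent.Work.MP_02e829_tr.Interface3

/-! # MP_02e829_gt, TROUGH RIGIDITY: block HGW (Gronwall) -/

open Set Filter Metric
open scoped Topology Real

set_option autoImplicit false

namespace Pool.TRG

theorem p_HGW : Stmt_HGW := by
  intro r K E E' h hlim s hs
  have hg : ∀ x ∈ Ioo 0 r, HasDerivAt (fun y => Real.exp (-K * y) * E y)
      (Real.exp (-K * x) * (E' x - K * E x)) x := by
    intro x hx
    have h1 : HasDerivAt (fun y : ℝ => Real.exp (-K * y)) (Real.exp (-K * x) * -K) x := by
      have h2 : HasDerivAt (fun y : ℝ => -K * y) (-K) x := by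
        simpa using (hasDerivAt_id x).const_mul (-K)
      exact h2.exp
    have h3 := h1.mul (h x hx).1
    refine h3.congr_deriv ?_
    ring
  have hanti : AntitoneOn (fun y => Real.exp (-K * y) * E y) (Ioo 0 r) := by
    refine antitoneOn_of_deriv_nonpos (convex_Ioo 0 r)
      (fun x hx => (hg x hx).continuousAt.continuousWithinAt) ?_ ?_
    · intro x hx
      rw [interior_Ioo] at hx
      exact (hg x hx).differentiableAt.differentiableWithinAt
    · intro x hx
      rw [interior_Ioo] at hx
      rw [(hg x hx).deriv]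
      exact mul_nonpos_of_nonneg_of_nonpos (Real.exp_pos _).le (by linarith [(h x hx).2.1])
  have hl : Tendsto (fun y => Real.exp (-K * y) * E y) (𝓝[>] 0) (𝓝 0) := by
    have h1 : Tendsto (fun y : ℝ => Real.exp (-K * y)) (𝓝[>] 0) (𝓝 1) := by
      have h2 : Continuous fun y : ℝ => Real.exp (-K * y) := by fun_prop
      have h3 := (h2.tendsto 0).mono_left (nhdsWithin_le_nhds (s := Ioi (0 : ℝ)))
      simpa using h3
    simpa using h1.mul hlim
  have h1 : Real.exp (-K * s) * E s ≤ 0 := by
    refine ge_of_tendsto hl ?_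
    filter_upwards [Ioo_mem_nhdsGT hs.1] with x hx
    exact hanti ⟨hx.1, hx.2.trans hs.2⟩ hs hx.2.le
  have h2 : E s ≤ 0 := by
    by_contra h3
    exact absurd h1 (not_le.2 (mul_pos (Real.exp_pos _) (not_le.1 h3)))
  exact le_antisymm h2 (h s hs).2.2

end Pool.TRG
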