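import Pool.Agent.Work.MP_02e829_tr.Interface2
import Pool.Agent.Work.MP_02e829_sb.B_FIN

/-!
# Trough rigidity: assembly from the blocks
-/

open Set Filter Manifold Matrix MeasureTheory Metric
open scoped Topology ContDiff Manifold Real

set_option autoImplicit false

universe w

namespace Pool.TRG

open Pool
open Pool.FR (pd ee gg WW DD NN II Ga Gb Imm SO3)
open Pool.SXB (E3 L3 Proper PosCurv Fam2 Fam3 Transv)

theorem ann_le {S : Type w} [TopologicalSpace S] [ChartedSpace E2 S] {n m : WithTop ℕ∞}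
    {Φ : E2 → S} (h : Ann n Φ) (hm : m ≤ n) : Ann m Φ :=
  ⟨h.smooth.of_le hm, h.reg, h.per⟩

theorem tro_le {S : Type w} [TopologicalSpace S] [ChartedSpace E2 S] {n m : WithTop ℕ∞}
    {f : S → E3} {Φ : E2 → S} {e1 e2 : E3} {φ : ℝ → ℝ} (h : Tro n f Φ e1 e2 φ) (hm : m ≤ n) :
    Tro m f Φ e1 e2 φ :=
  ⟨ann_le h.ann hm, h.ang, h.ort, h.along, h.across, h.bend⟩

theorem pt_mem (x : ℝ) : pt x ∈ St := by
  simp [pt, St, ee]

theorem St_open : IsOpen St := by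
  have h : Continuous fun x : E2 => |x 1| := by fun_prop
  exact isOpen_Iio.preimage h

section
variable {S : Type w} [TopologicalSpace S] [ChartedSpace E2 S]

/-- the map in coordinates is of the same class -/
theorem smooth_comp {n : WithTop ℕ∞} {g : S → E3} (hg : ContMDiff (𝓡 2) (𝓡 3) n g) {Φ : E2 → S}
    (hΦ : Ann n Φ) : ContDiffOn ℝ n (fun x => g (Φ x)) St := by
  rw [← contMDiffOn_iff_contDiffOn]
  exact hg.comp_contMDiffOn hΦ.smooth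

/-- the motion and the second order jets -/
theorem part_A (hRD0 : Stmt_RD0.{w}) (hRD1 : Stmt_RD1.{w}) (hLBM : Stmt_LBM.{w})
    (hLBP : Stmt_LBP) (hTRC : Stmt_TRC.{w}) (hALL : Stmt_ALL) (hRIG : Stmt_RIG)
    (hMTN : Stmt_MTN) (hJT2 : Stmt_JT2) (hDVC : Stmt_DVC.{w}) (hPLB : Stmt_PLB) (hINF : Stmt_INF)
    (hCV3 : Stmt_CV3)
    [IsManifold (𝓡 2) 4 S] (f : ℝ → S → E3) (hf : Dfm f) (Φ : E2 → S) (e1 e2 : E3) (φ : ℝ → ℝ)
    (hΦ : Tro 4 (f 0) Φ e1 e2 φ) {t : ℝ} (ht : t ∈ Icc (0 : ℝ) 1) :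
    ∃ A : E3 ≃ᵃⁱ[ℝ] E3, Proper A ∧ Agr 2 (f t) (fun p => A (f 0 p)) Φ ∧
      (∀ x v, FRD.dvec (f t) (Φ (pt x)) v =
        A.linearIsometryEquiv (FRD.dvec (f 0) (Φ (pt x)) v)) ∧
      (Ann ∞ Φ → ContMDiff (𝓡 2) (𝓡 3) ∞ (f 0) → ContMDiff (𝓡 2) (𝓡 3) ∞ (f t) →
        ∀ m, Agr m (f t) (fun p => A (f 0 p)) Φ) := by
  have h0 : (0 : ℝ) ∈ Icc (0 : ℝ) 1 := ⟨le_rfl, zero_le_one⟩
  obtain ⟨h1, h2, h3⟩ := hRD0 S f hf Φ hΦ.ann
  have hS : SFam fun t x => L3 (f t (Φ x)) :=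
    ⟨h1, h2, h3, (hRD1 S f hf Φ hΦ.ann).1, (hRD1 S f hf Φ hΦ.ann).2,
      hLBP _ h1 h3 (hLBM S f hf Φ hΦ.ann)⟩
  obtain ⟨ρ, lam, mu, hT⟩ := hTRC S f hf Φ e1 e2 φ hΦ
  obtain ⟨hfl, hII⟩ := hALL _ (L3 e1) (L3 e2) φ ρ lam mu hT hS t ht
  obtain ⟨R, hR, b, hb⟩ := hRIG _ (L3 e1) (L3 e2) φ ρ lam mu hT _ (h1 t ht) (h2 t ht) (h3 t ht)
    hfl hII
  obtain ⟨A, hA, hA1, hA2⟩ := hMTN R b hR
  have hL : ∀ z z' : E3, L3 z = L3 z' → z = z' := fun z z' h =>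
    (EuclideanSpace.equiv (Fin 3) ℝ).injective h
  have hsm : ∀ s ∈ Icc (0 : ℝ) 1, ContDiffOn ℝ 4 (fun x => f s (Φ x)) St := fun s hs =>
    smooth_comp (hf.smooth s hs) hΦ.ann
  have hdf : ∀ s ∈ Icc (0 : ℝ) 1, ∀ x ∈ St, DifferentiableAt ℝ (fun x => f s (Φ x)) x :=
    fun s hs x hx => FR.diff_at St_open (hsm s hs) (by norm_num) hx
  -- first derivatives in coordinates
  have hpd : ∀ s ∈ Icc (0 : ℝ) 1, ∀ x ∈ St, ∀ i, pd i (fun y => L3 (f s (Φ y))) x =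
      L3 (pd i (fun y => f s (Φ y)) x) := fun s hs x hx i => FR.pd_clm i L3 (hdf s hs x hx)
  have hdf2 : ∀ s ∈ Icc (0 : ℝ) 1, ∀ x ∈ St, ∀ j,
      DifferentiableAt ℝ (pd j fun x => f s (Φ x)) x := fun s hs x hx j =>
    FR.diff_at St_open (FR.pd_contDiffOn St_open (hsm s hs) (m := 3) (by norm_num) j)
      (by norm_num) hx
  have hpd2 : ∀ s ∈ Icc (0 : ℝ) 1, ∀ x ∈ St, ∀ i j, pd i (pd j fun y => L3 (f s (Φ y))) x =
      L3 (pd i (pd j fun y => f s (Φ y)) x) := by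
    intro s hs x hx i j
    rw [FR.pd_congr St_open (f := pd j fun y => L3 (f s (Φ y)))
      (g := fun y => L3 (pd j (fun y => f s (Φ y)) y)) (fun y hy => hpd s hs y hy j) i hx]
    exact FR.pd_clm i L3 (hdf2 s hs x hx j)
  have hAd : ∀ z : E3, A z = A.linearIsometryEquiv z + A 0 := by
    intro z
    have := A.map_vadd 0 z
    simpa using this
  have hApd : ∀ x ∈ St, ∀ i, pd i (fun y => A (f 0 (Φ y))) x =
      A.linearIsometryEquiv (pd i (fun y => f 0 (Φ y)) x) := by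
    intro x hx i
    have e1 : (fun y => A (f 0 (Φ y))) = fun y => A.linearIsometryEquiv (f 0 (Φ y)) + A 0 := by
      funext y
      exact hAd _
    have hd : DifferentiableAt ℝ (fun y => A.linearIsometryEquiv (f 0 (Φ y))) x :=
      (A.linearIsometryEquiv.toContinuousLinearEquiv.differentiableAt).comp x (hdf 0 h0 x hx)
    rw [e1, FR.pd_add i hd (differentiableAt_const _), FR.pd_const, add_zero]
    exact FR.pd_clm i (A.linearIsometryEquiv.toContinuousLinearEquiv : E3 →L[ℝ] E3)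
      (hdf 0 h0 x hx)
  have hApd2 : ∀ x ∈ St, ∀ i j, pd i (pd j fun y => A (f 0 (Φ y))) x =
      A.linearIsometryEquiv (pd i (pd j fun y => f 0 (Φ y)) x) := by
    intro x hx i j
    rw [FR.pd_congr St_open (f := pd j fun y => A (f 0 (Φ y)))
      (g := fun y => A.linearIsometryEquiv (pd j (fun y => f 0 (Φ y)) y))
      (fun y hy => hApd y hy j) i hx]
    exact FR.pd_clm i (A.linearIsometryEquiv.toContinuousLinearEquiv : E3 →L[ℝ] E3)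
      (hdf2 0 h0 x hx j)
  have hAsm : ∀ n : WithTop ℕ∞, ContDiffOn ℝ n (fun x => f 0 (Φ x)) St →
      ContDiffOn ℝ n (fun x => A (f 0 (Φ x))) St := by
    intro n hn
    have e1 : (fun y => A (f 0 (Φ y))) = fun y => A.linearIsometryEquiv (f 0 (Φ y)) + A 0 := by
      funext y
      exact hAd _
    rw [e1]
    exact (A.linearIsometryEquiv.toContinuousLinearEquiv.contDiff.comp_contDiffOn hn).add
      contDiffOn_const
  have hfirst : ∀ x i, pd i (fun y => f t (Φ y)) (pt x) =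
      A.linearIsometryEquiv (pd i (fun y => f 0 (Φ y)) (pt x)) := by
    intro x i
    apply hL
    rw [hA2, ← hpd t ht _ (pt_mem x), ← hpd 0 h0 _ (pt_mem x)]
    exact (hb x).2.1 i
  refine ⟨A, hA, ?_, ?_, ?_⟩
  · intro x
    have q24 : (2 : WithTop ℕ∞) ≤ 4 := by norm_num
    refine hJT2 St St_open (fun y => f t (Φ y)) (fun y => A (f 0 (Φ y))) ((hsm t ht).of_le q24)
      ((hAsm 4 (hsm 0 h0)).of_le q24) _ (pt_mem x) ?_ ?_ ?_
    · apply hL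
      rw [hA1]
      exact (hb x).1
    · intro i
      rw [hApd _ (pt_mem x)]
      exact hfirst x i
    · intro i j
      apply hL
      rw [hApd2 _ (pt_mem x), hA2, ← hpd2 t ht _ (pt_mem x), ← hpd2 0 h0 _ (pt_mem x)]
      exact (hb x).2.2 i j
  · intro x
    exact hDVC S (f t) (f 0) ((hf.smooth t ht).of_le (by norm_num))
      ((hf.smooth 0 h0).of_le (by norm_num)) Φ (ann_le hΦ.ann (by norm_num))
      A.linearIsometryEquiv _ (pt_mem x) (hfirst x)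
  · intro hΦ' hf0 hft m x k _
    have hc : ∀ s, ContMDiff (𝓡 2) (𝓡 3) ∞ (f s) → ContDiffOn ℝ ∞ (fun x => L3 (f s (Φ x))) St :=
      fun s hs => L3.contDiff.comp_contDiffOn (smooth_comp hs hΦ')
    obtain ⟨U, -, hU, hPL⟩ := hPLB _ (L3 e1) (L3 e2) φ ρ lam mu hT _ (h1 t ht) (h2 t ht)
      (hc 0 hf0) (hc t hft) R b hR (fun x => (hb x).1) (fun x => (hb x).2.1) hII
    have h4 := hINF U _ _ hPL x (hU x) k
    refine hCV3 _ _ _ k ?_
    rw [h4]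
    congr 1
    funext y
    exact (hA1 _).symm

end

/-- trough rigidity, all parts -/
theorem main (hRD0 : Stmt_RD0.{w}) (hRD1 : Stmt_RD1.{w}) (hLBM : Stmt_LBM.{w})
    (hLBP : Stmt_LBP) (hTRC : Stmt_TRC.{w}) (hALL : Stmt_ALL) (hRIG : Stmt_RIG)
    (hMTN : Stmt_MTN) (hJT2 : Stmt_JT2) (hDVC : Stmt_DVC.{w}) (hPLB : Stmt_PLB) (hINF : Stmt_INF)
    (hCV3 : Stmt_CV3) (hCNV : Stmt_CNV.{w}) (hELC : Stmt_ELC.{w}) (hIDN : Stmt_IDN.{w})
    (hOPE : Stmt_OPE.{w}) (hANZ : Stmt_ANZ)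
    {S : Type w} [TopologicalSpace S] [ChartedSpace E2 S] [IsManifold (𝓡 2) 4 S] [T2Space S]
    [CompactSpace S] [ConnectedSpace S] (f : ℝ → S → E3) (hf : Dfm f) :
    (∀ (Φ : E2 → S) (e1 e2 : E3) (φ : ℝ → ℝ), Tro 4 (f 0) Φ e1 e2 φ → ∀ t ∈ Icc (0 : ℝ) 1,
      ∃ A : E3 ≃ᵃⁱ[ℝ] E3, Proper A ∧ Agr 2 (f t) (fun p => A (f 0 p)) Φ ∧
        (Ann ∞ Φ → ContMDiff (𝓡 2) (𝓡 3) ∞ (f 0) → ContMDiff (𝓡 2) (𝓡 3) ∞ (f t) →
          ∀ m, Agr m (f t) (fun p => A (f 0 p)) Φ)) ∧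
    (∀ C : Set S, IsOpen C → IsPreconnected C → (∀ p ∈ C, PosCurv (f 0) p) →
      ∀ (ι : Type) (Φ : ι → E2 → S) (e : ι → E3 × E3) (φ : ι → ℝ → ℝ),
      (∀ i, Tro 4 (f 0) (Φ i) (e i).1 (e i).2 (φ i)) →
      (∀ p ∈ frontier C, ∃ i, ∃ x : ℝ, p = Φ i (pt x)) →
      ENat.card ι ≤ 7 ∨ (Countable ι ∧ Transv (f 0) (closure C)) → ∀ t ∈ Icc (0 : ℝ) 1,
      ∃ A : E3 ≃ᵃⁱ[ℝ] E3, Proper A ∧ ∀ p ∈ closure C, f t p = A (f 0 p)) ∧
    (IsManifold (𝓡 2) ω S → (∀ t ∈ Icc (0 : ℝ) 1, ContMDiff (𝓡 2) (𝓡 3) ω (f t)) →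
      (∃ (Φ : E2 → S) (e1 e2 : E3) (φ : ℝ → ℝ), Tro ω (f 0) Φ e1 e2 φ) → ∀ t ∈ Icc (0 : ℝ) 1,
      ∃ A : E3 ≃ᵃⁱ[ℝ] E3, Proper A ∧ ∀ p, f t p = A (f 0 p)) := by
  have h0 : (0 : ℝ) ∈ Icc (0 : ℝ) 1 := ⟨le_rfl, zero_le_one⟩
  have hA := fun (Φ : E2 → S) (e1 e2 : E3) (φ : ℝ → ℝ) (hΦ : Tro 4 (f 0) Φ e1 e2 φ) (t : ℝ)
      (ht : t ∈ Icc (0 : ℝ) 1) => part_A hRD0 hRD1 hLBM hLBP hTRC hALL hRIG hMTN hJT2 hDVC
        hPLB hINF hCV3 f hf Φ e1 e2 φ hΦ ht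
  refine ⟨?_, ?_, ?_⟩
  · intro Φ e1 e2 φ hΦ t ht
    obtain ⟨A, h1, h2, -, h3⟩ := hA Φ e1 e2 φ hΦ t ht
    exact ⟨A, h1, h2, h3⟩
  · intro C hC hCc hpos ι Φ e φ hΦ hfr hι t ht
    have : IsManifold (𝓡 2) 2 S := IsManifold.of_le (n := 4) (by norm_num)
    rcases (frontier C).eq_empty_or_nonempty with hemp | ⟨p0, hp0⟩
    · refine hELC S f (hCNV S f hf) C hC hCc hpos (Fin 1) (fun _ => 0)
        (fun _ _ => AffineIsometryEquiv.refl ℝ E3) (Or.inl (by simp)) ?_ ?_ t ht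
      · intro s hs i
        exact SXB.FIN_refl
      · intro s hs p hp
        rw [hemp] at hp
        exact absurd hp (notMem_empty p)
    obtain ⟨i0, -⟩ := hfr p0 hp0
    have h1 : ∀ s : ℝ, ∀ i : ι, ∃ A : E3 ≃ᵃⁱ[ℝ] E3, s ∈ Icc (0 : ℝ) 1 →
        Proper A ∧ ∀ x : ℝ, f s (Φ i (pt x)) = A (f 0 (Φ i (pt x))) ∧
          ∀ v, FRD.dvec (f s) (Φ i (pt x)) v =
            A.linearIsometryEquiv (FRD.dvec (f 0) (Φ i (pt x)) v) := by
      intro s i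
      by_cases hs : s ∈ Icc (0 : ℝ) 1
      · obtain ⟨A, h1, h2, h3, -⟩ := hA (Φ i) (e i).1 (e i).2 (φ i) (hΦ i) s hs
        refine ⟨A, fun _ => ⟨h1, fun x => ⟨?_, h3 x⟩⟩⟩
        have h4 := h2 x 0 (by norm_num)
        have h5 := congrArg (fun F => F (fun _ => (0 : E2))) h4
        simpa using h5
      · exact ⟨AffineIsometryEquiv.refl ℝ E3, fun h => absurd h hs⟩
    choose g hg using h1
    have h2 : ∀ p : S, ∃ i : ι, p ∈ frontier C → ∃ x : ℝ, p = Φ i (pt x) := by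
      intro p
      by_cases hp : p ∈ frontier C
      · obtain ⟨i, hi⟩ := hfr p hp
        exact ⟨i, fun _ => hi⟩
      · exact ⟨i0, fun h => absurd h hp⟩
    choose J hJ using h2
    refine hELC S f (hCNV S f hf) C hC hCc hpos ι J g hι (fun s hs i => (hg s i hs).1) ?_ t ht
    intro s hs p hp
    obtain ⟨x, hx⟩ := hJ p hp
    obtain ⟨h3, h4⟩ := (hg s (J p) hs).2 x
    rw [← hx] at h3 h4
    exact ⟨h3, h4⟩
  · intro hM han ⟨Φ, e1, e2, φ, hΦ⟩ t ht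
    have := hM
    have : IsManifold (𝓡 2) 1 S := IsManifold.of_le (n := 4) (by norm_num)
    have hw : (∞ : WithTop ℕ∞) ≤ ω := le_top
    have h4w : (4 : WithTop ℕ∞) ≤ ω := le_top
    obtain ⟨A, h1, -, -, h3⟩ := hA Φ e1 e2 φ (tro_le hΦ h4w) t ht
    refine ⟨A, h1, ?_⟩
    have h5 := h3 (ann_le hΦ.ann hw) ((han 0 h0).of_le hw) ((han t ht).of_le hw)
    have hAa : ContMDiff (𝓡 2) (𝓡 3) ω (fun p => A (f 0 p)) := by
      have e1 : (fun p => A (f 0 p)) = fun p => A.linearIsometryEquiv (f 0 p) + A 0 := by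
        funext p
        have := A.map_vadd 0 (f 0 p)
        simpa using this
      rw [e1]
      have h6 : ContDiff ℝ ω fun z : E3 => A.linearIsometryEquiv z + A 0 :=
        A.linearIsometryEquiv.toContinuousLinearEquiv.contDiff.add contDiff_const
      exact h6.contMDiff.comp (han 0 h0)
    have hc1 : ContDiffOn ℝ ω (fun x => f t (Φ x)) St := smooth_comp (han t ht) hΦ.ann
    have hc2 : ContDiffOn ℝ ω (fun x => A (f 0 (Φ x))) St := smooth_comp hAa hΦ.ann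
    have hd : ContDiffOn ℝ ω (fun x => f t (Φ x) - A (f 0 (Φ x))) St := hc1.sub hc2
    have hu : AnalyticAt ℝ (fun x => f t (Φ x) - A (f 0 (Φ x))) (pt 0) := by
      rw [contDiffOn_omega_iff_analyticOn St_open.uniqueDiffOn] at hd
      exact (St_open.analyticOn_iff_analyticOnNhd.1 hd) _ (pt_mem 0)
    have hz : ∀ k, iteratedFDeriv ℝ k (fun x => f t (Φ x) - A (f 0 (Φ x))) (pt 0) = 0 := by
      intro k
      have g1 : ContDiffAt ℝ k (fun x => f t (Φ x)) (pt 0) :=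
        ((hc1 _ (pt_mem 0)).contDiffAt (St_open.mem_nhds (pt_mem 0))).of_le le_top
      have g2 : ContDiffAt ℝ k (fun x => A (f 0 (Φ x))) (pt 0) :=
        ((hc2 _ (pt_mem 0)).contDiffAt (St_open.mem_nhds (pt_mem 0))).of_le le_top
      have g3 := iteratedFDeriv_sub_apply g1 g2
      have g4 := h5 k 0 k le_rfl
      have g5 : (fun x => f t (Φ x) - A (f 0 (Φ x))) =
        (fun x => f t (Φ x)) - fun x => A (f 0 (Φ x)) := rfl
      rw [g5, g3, g4, sub_self]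
    have hev := hANZ _ _ hu hz
    have hN := hOPE S Φ (ann_le hΦ.ann le_top) _ (pt_mem 0) _ hev
    rw [_root_.mem_nhds_iff] at hN
    obtain ⟨O, hO1, hO2, hO3⟩ := hN
    refine hIDN S (f t) (fun p => A (f 0 p)) (han t ht) hAa O hO2 ⟨_, hO3⟩ ?_
    intro p hp
    obtain ⟨x, hx, rfl⟩ := hO1 hp
    exact sub_eq_zero.1 hx

/-- one trough: second order, infinite order, the analytic case -/
theorem main1 (hRD0 : Stmt_RD0.{w}) (hRD1 : Stmt_RD1.{w}) (hLBM : Stmt_LBM.{w})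
    (hLBP : Stmt_LBP) (hTRC : Stmt_TRC.{w}) (hALL : Stmt_ALL) (hRIG : Stmt_RIG)
    (hMTN : Stmt_MTN) (hJT2 : Stmt_JT2) (hDVC : Stmt_DVC.{w}) (hPLB : Stmt_PLB) (hINF : Stmt_INF)
    (hCV3 : Stmt_CV3) (hIDN : Stmt_IDN.{w}) (hOPE : Stmt_OPE.{w}) (hANZ : Stmt_ANZ)
    {S : Type w} [TopologicalSpace S] [ChartedSpace E2 S] [IsManifold (𝓡 2) 4 S]
    [ConnectedSpace S] (f : ℝ → S → E3) (hf : Dfm f) (Φ : E2 → S) (e1 e2 : E3) (φ : ℝ → ℝ)
    (hΦ : Tro 4 (f 0) Φ e1 e2 φ) (t : ℝ) (ht : t ∈ Icc (0 : ℝ) 1) :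
    ∃ A : E3 ≃ᵃⁱ[ℝ] E3, Proper A ∧ Agr 2 (f t) (fun p => A (f 0 p)) Φ ∧
      (Ann ∞ Φ → ContMDiff (𝓡 2) (𝓡 3) ∞ (f 0) → ContMDiff (𝓡 2) (𝓡 3) ∞ (f t) →
        ∀ m, Agr m (f t) (fun p => A (f 0 p)) Φ) ∧
      (IsManifold (𝓡 2) ω S → Ann ω Φ → ContMDiff (𝓡 2) (𝓡 3) ω (f 0) →
        ContMDiff (𝓡 2) (𝓡 3) ω (f t) → ∀ p, f t p = A (f 0 p)) := by
  obtain ⟨A, h1, h2, -, h3⟩ := part_A hRD0 hRD1 hLBM hLBP hTRC hALL hRIG hMTN hJT2 hDVC
    hPLB hINF hCV3 f hf Φ e1 e2 φ hΦ ht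
  refine ⟨A, h1, h2, h3, ?_⟩
  intro hM hAn han0 hant
  have := hM
  have : IsManifold (𝓡 2) 1 S := IsManifold.of_le (n := 4) (by norm_num)
  have hw : (∞ : WithTop ℕ∞) ≤ ω := le_top
  have h5 := h3 (ann_le hAn hw) (han0.of_le hw) (hant.of_le hw)
  have hAa : ContMDiff (𝓡 2) (𝓡 3) ω (fun p => A (f 0 p)) := by
    have e1 : (fun p => A (f 0 p)) = fun p => A.linearIsometryEquiv (f 0 p) + A 0 := by
      funext p
      have := A.map_vadd 0 (f 0 p)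
      simpa using this
    rw [e1]
    have h6 : ContDiff ℝ ω fun z : E3 => A.linearIsometryEquiv z + A 0 :=
      A.linearIsometryEquiv.toContinuousLinearEquiv.contDiff.add contDiff_const
    exact h6.contMDiff.comp han0
  have hc1 : ContDiffOn ℝ ω (fun x => f t (Φ x)) St := smooth_comp hant hAn
  have hc2 : ContDiffOn ℝ ω (fun x => A (f 0 (Φ x))) St := smooth_comp hAa hAn
  have hd : ContDiffOn ℝ ω (fun x => f t (Φ x) - A (f 0 (Φ x))) St := hc1.sub hc2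
  have hu : AnalyticAt ℝ (fun x => f t (Φ x) - A (f 0 (Φ x))) (pt 0) := by
    rw [contDiffOn_omega_iff_analyticOn St_open.uniqueDiffOn] at hd
    exact (St_open.analyticOn_iff_analyticOnNhd.1 hd) _ (pt_mem 0)
  have hz : ∀ k, iteratedFDeriv ℝ k (fun x => f t (Φ x) - A (f 0 (Φ x))) (pt 0) = 0 := by
    intro k
    have g1 : ContDiffAt ℝ k (fun x => f t (Φ x)) (pt 0) :=
      ((hc1 _ (pt_mem 0)).contDiffAt (St_open.mem_nhds (pt_mem 0))).of_le le_top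
    have g2 : ContDiffAt ℝ k (fun x => A (f 0 (Φ x))) (pt 0) :=
      ((hc2 _ (pt_mem 0)).contDiffAt (St_open.mem_nhds (pt_mem 0))).of_le le_top
    have g3 := iteratedFDeriv_sub_apply g1 g2
    have g4 := h5 k 0 k le_rfl
    have g5 : (fun x => f t (Φ x) - A (f 0 (Φ x))) =
      (fun x => f t (Φ x)) - fun x => A (f 0 (Φ x)) := rfl
    rw [g5, g3, g4, sub_self]
  have hev := hANZ _ _ hu hz
  have hN := hOPE S Φ (ann_le hAn le_top) _ (pt_mem 0) _ hev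
  rw [_root_.mem_nhds_iff] at hN
  obtain ⟨O, hO1, hO2, hO3⟩ := hN
  refine hIDN S (f t) (fun p => A (f 0 p)) hant hAa O hO2 ⟨_, hO3⟩ ?_
  intro p hp
  obtain ⟨x, hx, rfl⟩ := hO1 hp
  exact sub_eq_zero.1 hx

end Pool.TRG
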