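import Pool.Agent.Work.MP_02e829_sf.Interface

/-!
# Projective fields in the Euclidean space and in coordinates
-/

open Set Manifold Matrix
open scoped ContDiff Manifold

set_option autoImplicit false

universe w

namespace Pool.TRG

open Pool
open Pool.SXB (E3 L3 XX Transv)

theorem L3_inner (z w : E3) : (inner ℝ z w : ℝ) = L3 z ⬝ᵥ L3 w := by
  rw [PiLp.inner_apply, dotProduct]
  refine Finset.sum_congr rfl fun i _ => ?_
  simp [L3, mul_comm]

theorem transv_of {S : Type w} [TopologicalSpace S] [ChartedSpace (EuclideanSpace ℝ (Fin 2)) S]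
    {f : S → E3} {P : Set S} (c : E3) (L : E3 →ₗ[ℝ] E3) (k : E3)
    (h : ∀ p ∈ P, ∀ v, FRD.dvec f p v ≠ c + L (f p) + (inner ℝ k (f p) : ℝ) • f p) :
    Transv f P := by
  let e : E3 ≃ₗ[ℝ] (Fin 3 → ℝ) := (EuclideanSpace.equiv (Fin 3) ℝ).toLinearEquiv
  have he : ∀ z, L3 z = e z := fun z => rfl
  refine ⟨L3 c, LinearMap.toMatrix' (e.toLinearMap ∘ₗ L ∘ₗ e.symm.toLinearMap), L3 k, ?_⟩
  intro p hp v hv
  refine h p hp v (e.injective ?_)
  have h1 : (LinearMap.toMatrix' (e.toLinearMap ∘ₗ L ∘ₗ e.symm.toLinearMap)) *ᵥ L3 (f p) =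
      L3 (L (f p)) := by
    rw [LinearMap.toMatrix'_mulVec]
    simp [he]
  rw [XX, h1, ← L3_inner] at hv
  rw [← he, ← he, hv, map_add, map_add, map_smul]

end Pool.TRG
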