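import Pool.Agent.Work.MP_02e829_tr.Interface3
import Pool.Agent.Work.MP_02e829_tr.Final
import Pool.Agent.Work.MP_02e829_tr.Tv

/-! # MP_02e829_gt, TROUGH RIGIDITY: block HTC (the tube in coordinates) -/

open Set Filter Manifold Matrix Metric
open scoped Topology ContDiff Manifold Real

set_option autoImplicit false

universe w

namespace Pool.TRG

open Pool
open Pool.FR (pd ee gg WW DD NN II Ga Gb Imm SO3)
open Pool.SXB (E3 L3)

theorem p_HTC (hFRM : Pool.FR.Stmt_FRM) (hRD0 : Stmt_RD0.{w}) : Stmt_HTC.{w} := by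
  intro S _ _ _ f hf Φ hΦ hT x hx hx0
  have h0 : (0 : ℝ) ∈ Icc (0 : ℝ) 1 := ⟨le_rfl, zero_le_one⟩
  have hI := (hRD0 S f hf Φ hΦ).1 0 h0
  obtain ⟨hNN, hkN, -⟩ := hFRM St St_open _ hI x hx
  obtain ⟨n, hn⟩ : ∃ n : E3, L3 n = NN (fun y => L3 (f 0 (Φ y))) x :=
    ⟨(EuclideanSpace.equiv (Fin 3) ℝ).symm _, (EuclideanSpace.equiv (Fin 3) ℝ).apply_symm_apply _⟩
  have hsm : ContDiffOn ℝ 4 (fun x => f 0 (Φ x)) St := smooth_comp (hf.smooth 0 h0) hΦ
  have hdf : ∀ x ∈ St, DifferentiableAt ℝ (fun x => f 0 (Φ x)) x :=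
    fun x hx => FR.diff_at St_open hsm (by norm_num) hx
  have hpd : ∀ x ∈ St, ∀ i, pd i (fun y => L3 (f 0 (Φ y))) x =
      L3 (pd i (fun y => f 0 (Φ y)) x) := fun x hx i => FR.pd_clm i L3 (hdf x hx)
  have hdf2 : ∀ x ∈ St, ∀ j,
      DifferentiableAt ℝ (pd j fun x => f 0 (Φ x)) x := fun x hx j =>
    FR.diff_at St_open (FR.pd_contDiffOn St_open hsm (m := 3) (by norm_num) j)
      (by norm_num) hx
  have hpd2 : ∀ i j, pd i (pd j fun y => L3 (f 0 (Φ y))) x =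
      L3 (pd i (pd j fun y => f 0 (Φ y)) x) := by
    intro i j
    rw [FR.pd_congr St_open (f := pd j fun y => L3 (f 0 (Φ y)))
      (g := fun y => L3 (pd j (fun y => f 0 (Φ y)) y)) (fun y hy => hpd y hy j) i hx]
    exact FR.pd_clm i L3 (hdf2 x hx j)
  have hn0 : n ≠ 0 := by
    rintro rfl
    rw [map_zero] at hn
    rw [← hn] at hNN
    simp at hNN
  have h1 : ∀ i, (inner ℝ (pd i (fun y => f 0 (Φ y)) x) n : ℝ) = 0 := by
    intro i
    rw [L3_inner, ← hpd x hx i, hn]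
    exact hkN i
  have h2 := hT x hx hx0 n hn0 (h1 0) (h1 1)
  rw [L3_inner, L3_inner, ← hpd2, ← hpd2, hn] at h2
  exact h2

end Pool.TRG
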