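import Pool.Agent.Work.MP_02e829_tr.B_NLB
import Pool.Agent.Work.MP_02e829_tr.B_FRA

/-! # Block NLS: signs near the line (MP_02e829, TROUGH RIGIDITY) -/

open Set Filter Manifold Matrix MeasureTheory Metric
open scoped Topology ContDiff Manifold Real

set_option autoImplicit false

universe w

namespace Pool.TRG

open Pool
open Pool.FR (pd ee gg WW DD NN II Ga Gb Imm SO3)

theorem NLS_ee (i : Fin 2) : ‖(ee i : E2)‖ = 1 := by
  unfold ee
  simp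

theorem NLS_pd1 {u : E2 → ℝ} {y : E2} (i : Fin 2) : |pd i u y| ≤ ‖iteratedFDeriv ℝ 1 u y‖ := by
  rw [norm_iteratedFDeriv_one]
  have h := (fderiv ℝ u y).le_opNorm (ee i)
  rw [NLS_ee, mul_one, Real.norm_eq_abs] at h
  exact h

theorem NLS_pd2 {u : E2 → ℝ} {y : E2} (hd : DifferentiableAt ℝ (fderiv ℝ u) y) (i j : Fin 2) :
    |pd i (pd j u) y| ≤ ‖iteratedFDeriv ℝ 2 u y‖ := by
  have h2 : pd j u = fun z => fderiv ℝ u z (ee j) := rfl
  have h3 : pd i (pd j u) y = iteratedFDeriv ℝ 2 u y ![ee i, ee j] := by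
    rw [iteratedFDeriv_two_apply, pd, h2, fderiv_clm_apply hd (differentiableAt_const _)]
    simp
  rw [h3, ← Real.norm_eq_abs]
  have h4 := (iteratedFDeriv ℝ 2 u y).le_opNorm ![ee i, ee j]
  rw [Fin.prod_univ_two] at h4
  simp only [Matrix.cons_val_zero, Matrix.cons_val_one, NLS_ee, mul_one] at h4
  exact h4

theorem NLS_cpt {F : ℝ → E2 → V3} {i j : Fin 2}
    (h : ∀ x ∈ St, ∃ M : ℝ, ∀ᶠ y in 𝓝 x, ∀ t ∈ Icc (0 : ℝ) 1, ∀ k ≤ 2,
      ‖iteratedFDeriv ℝ k (II (F t) i j) y‖ ≤ M) :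
    ∃ M : ℝ, 0 ≤ M ∧ ∀ x ∈ Icc (0 : ℝ) (2 * π), ∀ s ∈ Icc (0 : ℝ) (1 / 2), ∀ t ∈ Icc (0 : ℝ) 1,
      ∀ k ≤ 2, ‖iteratedFDeriv ℝ k (II (F t) i j) (px x s)‖ ≤ M := by
  have hpx : Continuous fun q : ℝ × ℝ => px q.1 q.2 := by
    unfold px
    fun_prop
  have hK : IsCompact ((fun q : ℝ × ℝ => px q.1 q.2) ''
      (Icc (0 : ℝ) (2 * π) ×ˢ Icc (0 : ℝ) (1 / 2))) :=
    (isCompact_Icc.prod isCompact_Icc).image hpx
  have key : ∃ M : ℝ, 0 ≤ M ∧ ∀ y ∈ ((fun q : ℝ × ℝ => px q.1 q.2) ''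
      (Icc (0 : ℝ) (2 * π) ×ˢ Icc (0 : ℝ) (1 / 2))), ∀ t ∈ Icc (0 : ℝ) 1,
      ∀ k ≤ 2, ‖iteratedFDeriv ℝ k (II (F t) i j) y‖ ≤ M := by
    refine hK.induction_on (p := fun S => ∃ M : ℝ, 0 ≤ M ∧ ∀ y ∈ S, ∀ t ∈ Icc (0 : ℝ) 1,
      ∀ k ≤ 2, ‖iteratedFDeriv ℝ k (II (F t) i j) y‖ ≤ M) ?_ ?_ ?_ ?_
    · exact ⟨0, le_rfl, fun y hy => absurd hy (Set.notMem_empty y)⟩
    · rintro S T hST ⟨M, hM0, hM⟩
      exact ⟨M, hM0, fun y hy => hM y (hST hy)⟩
    · rintro S T ⟨M, hM0, hM⟩ ⟨N, hN0, hN⟩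
      refine ⟨max M N, hM0.trans (le_max_left _ _), ?_⟩
      rintro y (hy | hy) t ht k hk
      · exact (hM y hy t ht k hk).trans (le_max_left _ _)
      · exact (hN y hy t ht k hk).trans (le_max_right _ _)
    · rintro y ⟨q, hq, rfl⟩
      have hmem : px q.1 q.2 ∈ St := by
        apply NLB_mem
        rw [abs_lt]
        constructor
        · linarith [hq.2.1]
        · linarith [hq.2.2]
      obtain ⟨M, hM⟩ := h _ hmem
      refine ⟨{y | ∀ t ∈ Icc (0 : ℝ) 1, ∀ k ≤ 2, ‖iteratedFDeriv ℝ k (II (F t) i j) y‖ ≤ M},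
        mem_nhdsWithin_of_mem_nhds hM, max M 0, le_max_right _ _, ?_⟩
      intro z hz t ht k hk
      exact (hz t ht k hk).trans (le_max_left _ _)
  obtain ⟨M, hM0, hM⟩ := key
  exact ⟨M, hM0, fun x hx s hs t ht k hk => hM _ ⟨(x, s), ⟨hx, hs⟩, rfl⟩ t ht k hk⟩

/-- Taylor's formula of order one and two. -/
theorem NLS_tay {u : E2 → ℝ} (hu : ContDiffOn ℝ 2 u St) {x s M : ℝ} (hM : 0 ≤ M) (hs0 : 0 ≤ s)
    (hs1 : s ≤ 1 / 2)
    (hb : ∀ σ ∈ Icc (0 : ℝ) (1 / 2), ∀ k ≤ 2, ‖iteratedFDeriv ℝ k u (px x σ)‖ ≤ M) :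
    |u (px x s) - u (px x 0)| ≤ M * s ∧
      |u (px x s) - u (px x 0) - s * pd 1 u (px x 0)| ≤ M * s * s := by
  have hd : ∀ x ∈ St, DifferentiableAt ℝ u x := fun x hx =>
    Pool.FR.diff_at NLB_open hu (by norm_num) hx
  have hu1 : ∀ i, ContDiffOn ℝ 1 (pd i u) St := fun i =>
    Pool.FR.pd_contDiffOn NLB_open hu (by norm_num) i
  have hd1 : ∀ i, ∀ x ∈ St, DifferentiableAt ℝ (pd i u) x := fun i x hx =>
    Pool.FR.diff_at NLB_open (hu1 i) le_rfl hx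
  have hfd : ∀ y ∈ St, DifferentiableAt ℝ (fderiv ℝ u) y := by
    intro y hy
    have h1 : ContDiffOn ℝ 1 (fderiv ℝ u) St := hu.fderiv_of_isOpen NLB_open (by norm_num)
    exact (h1.differentiableOn (by norm_num)).differentiableAt (NLB_open.mem_nhds hy)
  have hmem : ∀ σ ∈ Icc 0 s, px x σ ∈ St := by
    intro σ hσ
    apply NLB_mem
    rw [abs_lt]
    constructor
    · linarith [hσ.1]
    · linarith [hσ.2]
  have hle : ∀ σ ∈ Icc 0 s, σ ∈ Icc (0 : ℝ) (1 / 2) := fun σ hσ => ⟨hσ.1, hσ.2.trans hs1⟩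
  constructor
  · refine NLB_mv (f := fun σ => u (px x σ) - u (px x 0)) (f' := fun σ => pd 1 u (px x σ)) hs0
      (fun σ hσ => (NLB_vert (hd _ (hmem σ hσ))).sub_const _) (fun σ hσ => ?_) (sub_self _)
    exact (NLS_pd1 1).trans (hb σ (hle σ hσ) 1 (by norm_num))
  · have D1 : ∀ σ ∈ Icc 0 s, |pd 1 u (px x σ) - pd 1 u (px x 0)| ≤ M * s := by
      intro σ hσ
      have h1 := NLB_mv (f := fun ρ => pd 1 u (px x ρ) - pd 1 u (px x 0))
        (f' := fun ρ => pd 1 (pd 1 u) (px x ρ)) (b := σ) hσ.1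
        (fun ρ hρ => (NLB_vert (hd1 1 _ (hmem ρ ⟨hρ.1, hρ.2.trans hσ.2⟩))).sub_const _)
        (C := M)
        (fun ρ hρ => (NLS_pd2 (hfd _ (hmem ρ ⟨hρ.1, hρ.2.trans hσ.2⟩)) 1 1).trans
          (hb ρ (hle ρ ⟨hρ.1, hρ.2.trans hσ.2⟩) 2 le_rfl)) (sub_self _)
      exact h1.trans (mul_le_mul_of_nonneg_left hσ.2 hM)
    refine NLB_mv (f := fun σ => u (px x σ) - u (px x 0) - σ * pd 1 u (px x 0))
      (f' := fun σ => pd 1 u (px x σ) - pd 1 u (px x 0)) hs0 (fun σ hσ => ?_) D1 ?_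
    · have h1 := ((NLB_vert (hd _ (hmem σ hσ))).sub_const (u (px x 0))).sub
        ((hasDerivAt_id σ).mul_const (pd 1 u (px x 0)))
      rw [one_mul] at h1
      exact h1
    · show u (px x 0) - u (px x 0) - 0 * pd 1 u (px x 0) = 0
      ring

theorem p_NLS (hFRM : Pool.FR.Stmt_FRM) (hCHR : Pool.FR.Stmt_CHR) (hCOD : Pool.FR.Stmt_COD)
    (hTR0 : Stmt_TR0) (hUB3 : Stmt_UB3) (hALL : Stmt_ALL) : Stmt_NLS := by
  intro F e1 e2 φ ρ lam mu hTr hS hLB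
  obtain ⟨hW, hρ3, hlam3, hmu3, -, -, hline⟩ := hTR0 (F 0) e1 e2 φ ρ lam mu hTr
  have hall := hALL F e1 e2 φ ρ lam mu hTr hS
  obtain ⟨M0, hM00, hM0⟩ := NLS_cpt (hUB3 F hS.imm hS.iso hLB 0 0)
  obtain ⟨M1, hM10, hM1⟩ := NLS_cpt (hUB3 F hS.imm hS.iso hLB 1 1)
  have h00 : (0 : ℝ) ∈ Icc (0 : ℝ) 1 := ⟨le_rfl, zero_le_one⟩
  have hII : ∀ t ∈ Icc (0 : ℝ) 1, ∀ i j, ContDiffOn ℝ 2 (II (F t) i j) St := fun t ht =>
    (hFRM St NLB_open (F t) (hS.imm t ht) (pt 0) (FRA_pt_mem 0)).2.2.2.2.2.2.2.2.2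
  -- the functions on the line
  set κ : ℝ → ℝ := fun x => II (F 0) 1 1 (pt x) with hκ
  set Γ : ℝ → ℝ := fun x => Gb (F 0) 1 0 0 (pt x) with hΓ
  have hκc : Continuous κ := (FRA_comp (hII 0 h00 1 1)).continuous
  have hκ0 : ∀ x, κ x ≠ 0 := fun x => (hline x).2.2.2.2.2.2.1
  have hΓe : ∀ x, Γ x = ρ x * deriv φ x / mu x := fun x => (hline x).2.2.2.2.2.2.2
  have hΓc : Continuous Γ := by
    have h1 : Continuous (deriv φ) := hTr.ang.smooth.continuous_deriv (by norm_num)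
    have h2 : Continuous fun x => ρ x * deriv φ x / mu x :=
      (hρ3.continuous.mul h1).div hmu3.continuous fun x => (hTr.mpos x).ne'
    have h3 : Γ = fun x => ρ x * deriv φ x / mu x := funext hΓe
    rw [h3]
    exact h2
  have hΓ0 : ∀ x, 0 < Γ x := by
    intro x
    rw [hΓe]
    exact div_pos (mul_pos (hTr.rpos x) (hTr.ang.pos x)) (hTr.mpos x)
  -- the derivative of II 0 0 across the line
  have hder : ∀ t ∈ Icc (0 : ℝ) 1, ∀ x, pd 1 (II (F t) 0 0) (pt x) = -(Γ x * κ x) := by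
    intro t ht x
    have hx := FRA_pt_mem x
    have h1 := (hCOD St NLB_open (F t) (hS.imm t ht) (pt x) hx).1
    have hfr := hFRM St NLB_open (F t) (hS.imm t ht) (pt x) hx
    have hfl := (hall t ht).1
    have h2 : pd 0 (II (F t) 0 1) (pt x) = 0 := by
      have h3 := FRA_line (x := x) (Pool.FR.diff_at NLB_open (hII t ht 0 1) (by norm_num) hx)
      have h4 : (fun y => II (F t) 0 1 (pt y)) = fun _ => (0 : ℝ) := funext fun y => (hfl y).2
      rw [h4] at h3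
      exact h3.unique (hasDerivAt_const x 0)
    have h5 : II (F t) 1 0 (pt x) = 0 := by
      rw [hfr.2.2.2.2.1 1 0]
      exact (hfl x).2
    have h6 : Gb (F t) 1 0 0 (pt x) = Γ x :=
      ((hCHR St NLB_open (F 0) (hS.imm 0 h00)).2.2 (F t) (hS.imm t ht) (hS.iso t ht) (pt x) hx
        1 0 0).2
    rw [h2, h5, (hfl x).1, (hfl x).2, (hall t ht).2 x, h6] at h1
    rw [sub_zero] at h1
    rw [h1]
    show Gb (F t) 0 0 1 (pt x) * 0 + Gb (F t) 1 0 1 (pt x) * 0 - Gb (F t) 0 0 0 (pt x) * 0 -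
      Γ x * κ x = -(Γ x * κ x)
    ring
  -- constants
  have hne : (Icc (0 : ℝ) (2 * π)).Nonempty := ⟨0, le_rfl, by positivity⟩
  obtain ⟨y1, hy1, hmin1⟩ := isCompact_Icc.exists_isMinOn hne
    ((hΓc.mul (hκc.pow 2)).continuousOn (s := Icc (0 : ℝ) (2 * π)))
  obtain ⟨y2, hy2, hmin2⟩ := isCompact_Icc.exists_isMinOn hne
    ((hκc.pow 2).continuousOn (s := Icc (0 : ℝ) (2 * π)))
  obtain ⟨Q, hQ⟩ := isCompact_Icc.exists_bound_of_continuousOn
    (hκc.continuousOn (s := Icc (0 : ℝ) (2 * π)))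
  set c1 : ℝ := Γ y1 * κ y1 ^ 2 with hc1
  set c2 : ℝ := κ y2 ^ 2 with hc2
  have hc1p : 0 < c1 := mul_pos (hΓ0 y1) (by have := hκ0 y1; positivity)
  have hc2p : 0 < c2 := by have := hκ0 y2; positivity
  have hc1' : ∀ x ∈ Icc (0 : ℝ) (2 * π), c1 ≤ Γ x * κ x ^ 2 := fun x hx => hmin1 hx
  have hc2' : ∀ x ∈ Icc (0 : ℝ) (2 * π), c2 ≤ κ x ^ 2 := fun x hx => hmin2 hx
  set Q' : ℝ := max Q 0 with hQ'
  have hQ'0 : 0 ≤ Q' := le_max_right _ _
  have hκQ : ∀ x ∈ Icc (0 : ℝ) (2 * π), |κ x| ≤ Q' := fun x hx => (hQ x hx).trans (le_max_left _ _)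
  set M : ℝ := max M0 M1 with hM
  have hMn : 0 ≤ M := hM00.trans (le_max_left _ _)
  set D : ℝ := 2 * (M * Q' + 1) with hD
  have hDp : 0 < D := by positivity
  set δ : ℝ := min (1 / 2) (min c1 c2 / D) with hδ
  have hmc : 0 < min c1 c2 := lt_min hc1p hc2p
  have hδ0 : 0 < δ := lt_min (by norm_num) (div_pos hmc hDp)
  refine ⟨δ, hδ0, lt_of_le_of_lt (min_le_left _ _) (by norm_num), ?_⟩
  intro t ht
  -- the claim for the period
  have claim : ∀ x ∈ Icc (0 : ℝ) (2 * π), ∀ s, 0 < s → s ≤ δ →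
      II (F t) 0 0 (px x s) * κ x < 0 ∧ 0 < II (F t) 1 1 (px x s) * κ x := by
    intro x hx s hs0 hs1
    have hs2 : s ≤ 1 / 2 := hs1.trans (min_le_left _ _)
    have hs3 : s * (M * Q') < min c1 c2 := by
      have h1 : s ≤ min c1 c2 / D := hs1.trans (min_le_right _ _)
      have h2 : s * D ≤ min c1 c2 := (le_div_iff₀ hDp).1 h1
      have h3 : s * D = 2 * (s * (M * Q')) + 2 * s := by rw [hD]; ring
      have h4 : 0 ≤ s * (M * Q') := by positivity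
      linarith
    have b0 : ∀ σ ∈ Icc (0 : ℝ) (1 / 2), ∀ k ≤ 2,
        ‖iteratedFDeriv ℝ k (II (F t) 0 0) (px x σ)‖ ≤ M := fun σ hσ k hk =>
      (hM0 x hx σ hσ t ht k hk).trans (le_max_left _ _)
    have b1 : ∀ σ ∈ Icc (0 : ℝ) (1 / 2), ∀ k ≤ 2,
        ‖iteratedFDeriv ℝ k (II (F t) 1 1) (px x σ)‖ ≤ M := fun σ hσ k hk =>
      (hM1 x hx σ hσ t ht k hk).trans (le_max_right _ _)
    have t0 := (NLS_tay (hII t ht 0 0) hMn hs0.le hs2 b0).2
    have t1 := (NLS_tay (hII t ht 1 1) hMn hs0.le hs2 b1).1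
    rw [NLB_px_zero, hder t ht x, (hall t ht).1 x |>.1, sub_zero] at t0
    rw [NLB_px_zero, (hall t ht).2 x] at t1
    have hκx := hκQ x hx
    constructor
    · have h1 : II (F t) 0 0 (px x s) * κ x =
          (II (F t) 0 0 (px x s) - s * -(Γ x * κ x)) * κ x - s * (Γ x * κ x ^ 2) := by ring
      have h2 : (II (F t) 0 0 (px x s) - s * -(Γ x * κ x)) * κ x ≤ (M * s * s) * Q' :=
        (le_abs_self _).trans (by
          rw [abs_mul]
          exact mul_le_mul t0 hκx (abs_nonneg _) (by positivity))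
      have h3 : s * c1 ≤ s * (Γ x * κ x ^ 2) := mul_le_mul_of_nonneg_left (hc1' x hx) hs0.le
      have h4 : (M * s * s) * Q' < s * c1 := by
        have h5 : s * (M * Q') < c1 := hs3.trans_le (min_le_left _ _)
        have h6 := mul_lt_mul_of_pos_left h5 hs0
        calc (M * s * s) * Q' = s * (s * (M * Q')) := by ring
          _ < s * c1 := h6
      rw [h1]
      linarith
    · have h1 : II (F t) 1 1 (px x s) * κ x = (II (F t) 1 1 (px x s) - κ x) * κ x + κ x ^ 2 := by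
        ring
      have h2 : |(II (F t) 1 1 (px x s) - κ x) * κ x| ≤ (M * s) * Q' := by
        rw [abs_mul]
        exact mul_le_mul t1 hκx (abs_nonneg _) (by positivity)
      have h3 := neg_le_of_abs_le h2
      have h4 : (M * s) * Q' < c2 := by
        calc (M * s) * Q' = s * (M * Q') := by ring
          _ < min c1 c2 := hs3
          _ ≤ c2 := min_le_right _ _
      have h5 := hc2' x hx
      rw [h1]
      linarith
  intro x hx hx0 hx1
  set τ := x 0 with hτ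
  set s := x 1 with hs
  have hxe : px τ s = x := NLB_px x
  have hsabs : |s| < 1 := hx
  have per1 : ∀ i j, Function.Periodic (fun y => II (F t) i j (px y s)) (2 * π) := by
    intro i j y
    show II (F t) i j (px (y + 2 * π) s) = II (F t) i j (px y s)
    rw [NLB_px_per]
    exact FRA_II_per (hS.per t ht) i j _ (NLB_mem hsabs)
  have per2 : Function.Periodic κ (2 * π) := fun y => FRA_II_line (hS.per 0 h00) 1 1 y
  have perP : Function.Periodic (fun y => (II (F t) 0 0 (px y s) * κ y,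
      II (F t) 1 1 (px y s) * κ y)) (2 * π) := by
    intro y
    have e1 : II (F t) 0 0 (px (y + 2 * π) s) = II (F t) 0 0 (px y s) := per1 0 0 y
    have e2 : II (F t) 1 1 (px (y + 2 * π) s) = II (F t) 1 1 (px y s) := per1 1 1 y
    show (II (F t) 0 0 (px (y + 2 * π) s) * κ (y + 2 * π),
      II (F t) 1 1 (px (y + 2 * π) s) * κ (y + 2 * π)) = _
    rw [e1, e2, per2 y]
  obtain ⟨y, hy, hxy⟩ := perP.exists_mem_Ico₀ (by positivity) τ
  have hcl := claim y ⟨hy.1, hy.2.le⟩ s hx0 hx1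
  have hp1 : II (F t) 0 0 (px τ s) * κ τ = II (F t) 0 0 (px y s) * κ y := congrArg Prod.fst hxy
  have hp2 : II (F t) 1 1 (px τ s) * κ τ = II (F t) 1 1 (px y s) * κ y := congrArg Prod.snd hxy
  rw [← hp1, ← hp2, hxe] at hcl
  exact hcl

end Pool.TRG
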