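import Pool.Agent.Work.MP_02e829_tr.B_GLU
import Pool.Agent.Work.MP_02e829_sf.B_DN9
import Pool.Agent.Work.MP_02e829_sf.B_MLC

/-!
# Gluing rigid pieces on an open connected set
-/

open Set Filter Manifold Matrix MeasureTheory Metric
open scoped Topology ContDiff Manifold Real

set_option autoImplicit false

universe w

namespace Pool.TRG

open Pool
open Pool.SXB

theorem glue_local {S : Type w} [TopologicalSpace S] [ChartedSpace E2 S] [IsManifold (𝓡 2) 2 S]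
    [CompactSpace S] {f : ℝ → S → E3} (hf : Fam3 f) {O : Set S} (hO : IsOpen O)
    (hOc : IsPreconnected O)
    (hd : O ⊆ closure {q | ∃ C : Set S, IsOpen C ∧ q ∈ C ∧ ∀ t ∈ Icc (0 : ℝ) 1, TC f C t}) :
    ∀ t ∈ Icc (0 : ℝ) 1, TC f O t := by
  have hYC1 := blk_YC1 blk_SOL
  have hDIF := blk_DIF hYC1
  have hGLB : Stmt_GLB.{w} := blk_GLB blk_SOL hYC1 blk_LOC
  have hLCN : Stmt_LCN.{w} := blk_LCN hYC1 hDIF blk_LOC hGLB
  have hLR7 : Stmt_LR7.{w} := blk_LR7 (blk_VAL hGLB blk_SOL)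
  have hDN9 : Stmt_DN9.{w} := blk_DN9 hYC1 blk_LOC hGLB hLCN
  have hMLC : Stmt_MLC.{w} := blk_MLC blk_ROT hGLB
  have step : ∀ s ∈ Icc (0 : ℝ) 1, ∀ r ∈ Icc (0 : ℝ) 1, MPair (f s) (f r) → TC f O s →
      TC f O r := by
    rintro s hs r hr hM ⟨A, hA, hAf⟩
    have h1 : {q | ∃ C : Set S, IsOpen C ∧ q ∈ C ∧ ∀ t ∈ Icc (0 : ℝ) 1, TC f C t} ⊆
        {q | LC (f s) (f r) q} := by
      rintro q ⟨C, hC, hqC, hCt⟩
      obtain ⟨B, hB, hBf⟩ := hCt s hs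
      obtain ⟨B', hB', hBf'⟩ := hCt r hr
      refine hLR7 S (f s) (f r) hM (B.symm.trans B') (FIN_trans (FIN_symm hB) hB') q ?_
      filter_upwards [hC.mem_nhds hqC] with p hp
      rw [hBf' p hp, hBf p hp]
      change _ = B' (B.symm (B (f 0 p)))
      rw [AffineIsometryEquiv.symm_apply_apply]
    obtain ⟨A', hA', hAf'⟩ := hMLC S (f s) (f r) hM O hO hOc
      (hDN9 S (f s) (f r) hM O hO fun q hq => closure_mono h1 (hd hq))
    refine ⟨A.trans A', FIN_trans hA hA', fun p hp => ?_⟩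
    rw [hAf' p hp, hAf p hp]
    rfl
  have key : ∀ s : Icc (0 : ℝ) 1, ∀ᶠ r : Icc (0 : ℝ) 1 in 𝓝 s, (TC f O r ↔ TC f O s) := by
    intro s
    filter_upwards [(FTF_tend s).eventually (blk_CLO S f hf.fam s s.2)] with r hr
    exact ⟨step r r.2 s s.2 hr.2, step s s.2 r r.2 hr.1⟩
  intro t ht
  exact FTF_sub (T := {s : Icc (0 : ℝ) 1 | TC f O s})
    ⟨AffineIsometryEquiv.refl ℝ E3, FIN_refl, fun p _ => rfl⟩ key ⟨t, ht⟩

end Pool.TRG
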