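import Pool.Agent.Work.MP_02e829_tr.Interface2

/-!
# MP_02e829_gt, TROUGH RIGIDITY, part 3: hyperbolic tubes

Same rules as part 1 (`import Pool.Agent.Work.MP_02e829_tr.Interface3`, file `B_X.lean`,
`theorem p_X`).

THE PROOF.  On the side `0 < x 1` of a trough the surface is hyperbolic.  Suppose that there
`II₀₀ II₁₁ < 0`.  For two isometric surfaces `F, G` which agree to second order along the line the
difference `a, b, w` of the second forms (`00, 01, 11`) and their sum `A, B, C` satisfy the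
equations of Codazzi and Gauss
`A w + C a = 2 B b`, `a₁ = b₀ + l₀ a + l₁ b + l₂ w`, `b₁ = w₀ + m₀ a + m₁ b + m₂ w`
(indices = partial derivatives).  With `p = -C/A > 0`, `q = 2 B/A`: `w = p a + q b`, and
`H = p a² + b²`, `J = 2 w b - q b²` satisfy `H₁ - J₀ ≤ K H`, uniformly up to the line (there
`p ~ 1/x₁`, `p₁ ~ -p/x₁`, `l₂ < 0`).  The energy `∫ H dx₀` tends to zero at the line, so it
vanishes.
-/

open Set Filter Manifold Matrix MeasureTheory Metric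
open scoped Topology ContDiff Manifold Real

set_option autoImplicit false

universe w

namespace Pool.TRG

open Pool
open Pool.FR (pd ee gg WW DD NN II Ga Gb Imm SO3)
open Pool.SXB (E3 L3 Proper PosCurv Fam2 Fam3 Transv TC)

/-! ### The energy estimate -/

/-- the point `(x, s)` -/
noncomputable def px (x s : ℝ) : E2 := x • ee 0 + s • ee 1

/-- periodic on the strip -/
def PerR (u : E2 → ℝ) : Prop := ∀ x ∈ St, u (x + (2 * π) • ee 0) = u x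

/-- the hyperbolic system -/
structure HY (r : ℝ) (A B C a b w : E2 → ℝ) (l m : Fin 3 → E2 → ℝ) : Prop where
  r0 : 0 < r
  r1 : r < 1
  sA : ContDiffOn ℝ 2 A St
  sB : ContDiffOn ℝ 2 B St
  sC : ContDiffOn ℝ 2 C St
  sa : ContDiffOn ℝ 2 a St
  sb : ContDiffOn ℝ 2 b St
  sw : ContDiffOn ℝ 2 w St
  sl : ∀ i, ContinuousOn (l i) St
  sm : ∀ i, ContinuousOn (m i) St
  pA : PerR A
  pB : PerR B
  pC : PerR C
  pa : PerR a
  pb : PerR b
  pw : PerR w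
  pl : ∀ i, PerR (l i)
  pm : ∀ i, PerR (m i)
  e0 : ∀ x ∈ St, A x * w x + C x * a x = 2 * (B x * b x)
  e1 : ∀ x ∈ St, pd 1 a x = pd 0 b x + l 0 x * a x + l 1 x * b x + l 2 x * w x
  e2 : ∀ x ∈ St, pd 1 b x = pd 0 w x + m 0 x * a x + m 1 x * b x + m 2 x * w x
  zA : ∀ x : ℝ, A (pt x) = 0
  zB : ∀ x : ℝ, B (pt x) = 0
  za : ∀ x : ℝ, a (pt x) = 0
  zb : ∀ x : ℝ, b (pt x) = 0
  zw : ∀ x : ℝ, w (pt x) = 0
  C0 : ∀ x : ℝ, C (pt x) ≠ 0
  A1 : ∀ x : ℝ, pd 1 A (pt x) = l 2 (pt x) * C (pt x)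
  l0 : ∀ x : ℝ, l 2 (pt x) < 0
  hyp : ∀ x ∈ St, 0 < x 1 → x 1 ≤ r → A x * C x < 0

/-- the energy density -/
noncomputable def HH (A C a b : E2 → ℝ) (x : E2) : ℝ := -(C x / A x) * a x ^ 2 + b x ^ 2

/-- the flux -/
noncomputable def HJ (A B b w : E2 → ℝ) (x : E2) : ℝ :=
  2 * (w x * b x) - 2 * (B x / A x) * b x ^ 2

/-- the coefficients of `a²`, `a b`, `b²` -/
noncomputable def Raa (A C : E2 → ℝ) (l : Fin 3 → E2 → ℝ) (x : E2) : ℝ :=
  -(C x / A x) * (pd 1 C x / C x - pd 1 A x / A x + 2 * l 0 x) +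
    2 * (C x / A x) ^ 2 * l 2 x

noncomputable def Rab (A B C : E2 → ℝ) (l m : Fin 3 → E2 → ℝ) (x : E2) : ℝ :=
  -(C x / A x) * (2 * l 1 x + 4 * (B x / A x) * l 2 x + 2 * m 2 x) + 2 * m 0 x

noncomputable def Rbb (A B : E2 → ℝ) (m : Fin 3 → E2 → ℝ) (x : E2) : ℝ :=
  2 * (pd 0 B x * A x - B x * pd 0 A x) / A x ^ 2 + 2 * m 1 x + 4 * m 2 x * (B x / A x)

/-- NLB (150 lines; uses nothing). Taylor's formula with bounds.  All second derivatives are bounded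
by some `M` on the compact rectangle `0 ≤ x 0 ≤ 2π`, `0 ≤ x 1 ≤ 1/2`, so for all `x 0` by
periodicity (`pd` of a periodic function is periodic).  `pd 0 u` vanishes on the line.  Mean value
theorem in `x 1`. -/
def Stmt_NLB : Prop :=
  ∀ u : E2 → ℝ, ContDiffOn ℝ 2 u St → PerR u → (∀ x : ℝ, u (pt x) = 0) →
    ∃ M : ℝ, 0 ≤ M ∧ ∀ x : E2, 0 ≤ x 1 → x 1 ≤ 1 / 2 → |u x| ≤ M * x 1 ∧ |pd 0 u x| ≤ M * x 1 ∧
      |pd 1 u x| ≤ M ∧ |u x - x 1 * pd 1 u (pt (x 0))| ≤ M * x 1 ^ 2 ∧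
      |x 1 * pd 1 u x - u x| ≤ M * x 1 ^ 2

/-- HAL (180 lines; uses nothing). Algebra: on the open set `x ∈ St`, `A x ≠ 0`, `C x ≠ 0`
(`hyp`), `p = -C/A`, `q = 2 B/A`, `w = p a + q b` (e0), so `J = 2 w b - q b²`,
`H₁ - J₀ = p₁ a² + 2 p a a₁ + 2 b b₁ - 2 w₀ b - 2 w b₀ + q₀ b² + 2 q b b₀`; insert e1, e2 and
`2 p a b₀ - 2 w b₀ + 2 q b b₀ = 0`, then `w = p a + q b` in the terms with `l 2`, `m 2`.
`p₁ = p (C₁/C - A₁/A)`, `q₀ = 2 (B₀ A - B A₀)/A²`. -/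
def Stmt_HAL : Prop :=
  ∀ (r : ℝ) (A B C a b w : E2 → ℝ) (l m : Fin 3 → E2 → ℝ), HY r A B C a b w l m →
    ∀ x ∈ St, 0 < x 1 → x 1 ≤ r → pd 1 (HH A C a b) x - pd 0 (HJ A B b w) x =
      Raa A C l x * a x ^ 2 + Rab A B C l m x * (a x * b x) + Rbb A B m x * b x ^ 2

/-- HBD (250 lines; uses NLB). The bound.  NEAR THE LINE.  By compactness and periodicity there are
`c > 0`, `M`, `δ ≤ 1/2`, `δ ≤ r`, with, for `0 < x 1 ≤ δ`: `|C|, |l i|, |m i|, |pd 1 C| ≤ M`,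
`|C| ≥ c`, `l 2 x ≤ 0`, `|A| ≥ c x₁` (NLB and A1: `|A x - x₁ l₂ C| ≤ M x₁²`, `|l₂ C| ≥ 2 c` on the
line), `|B|, |pd 0 B|, |pd 0 A| ≤ M x₁`, `|x₁ pd 1 A - A| ≤ M x₁²`.  Then `q, q₀` are bounded,
`c' ≤ p x₁ ≤ M'` and `pd 1 A / A ≥ 1/x₁ - M''`.  So `Raa ≤ p (M₁ - 1/x₁)`,
`|Rab| ≤ M₂ p`, `|Rbb| ≤ M₃`, and `M₂ p |a b| ≤ (p/x₁) a² + M₂² p x₁ b² / 4`: the sum is at most
`K (p a² + b²)`.  AWAY FROM THE LINE (`δ ≤ x 1 ≤ r`): compact rectangle, `A`, `C` do not vanish, all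
coefficients are continuous and periodic, `p ≥ p₀ > 0`. -/
def Stmt_HBD : Prop :=
  ∀ (r : ℝ) (A B C a b w : E2 → ℝ) (l m : Fin 3 → E2 → ℝ), HY r A B C a b w l m →
    ∃ K : ℝ, 0 ≤ K ∧ ∀ x ∈ St, 0 < x 1 → x 1 ≤ r →
      Raa A C l x * a x ^ 2 + Rab A B C l m x * (a x * b x) + Rbb A B m x * b x ^ 2 ≤
        K * HH A C a b x

/-- HDE (200 lines; uses nothing). Differentiation under the integral
(`hasDerivAt_integral_of_dominated_loc_of_deriv_le` and its interval version, the bound from the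
compactness of `[0, 2π] × [s - ε, s + ε]`), and the integral of `pd 0 J` over a period vanishes. -/
def Stmt_HDE : Prop :=
  ∀ (α β : ℝ) (V : Set E2) (H J : E2 → ℝ), IsOpen V →
    (∀ x s : ℝ, α < s → s < β → px x s ∈ V) → ContDiffOn ℝ 1 H V → ContDiffOn ℝ 1 J V →
    (∀ x s : ℝ, α < s → s < β → J (px (x + 2 * π) s) = J (px x s)) → ∀ s ∈ Ioo α β,
    HasDerivAt (fun σ => IC fun x => H (px x σ)) (IC fun x => pd 1 H (px x s) - pd 0 J (px x s)) s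

/-- HGW (60 lines; uses nothing). Gronwall: `exp (-K s) E s` is nonincreasing on `(0, r)`,
nonnegative, with limit `0` at `0`. -/
def Stmt_HGW : Prop :=
  ∀ (r K : ℝ) (E E' : ℝ → ℝ), (∀ s ∈ Ioo 0 r, HasDerivAt E (E' s) s ∧ E' s ≤ K * E s ∧ 0 ≤ E s) →
    Tendsto E (𝓝[>] 0) (𝓝 0) → ∀ s ∈ Ioo 0 r, E s = 0

/-- HEN (200 lines; uses NLB HAL HBD HDE HGW). `E s = IC (H (px · s))`; HDE on `(0, r)` with `V` =
the set of the `x ∈ St` with `0 < x 1 < r`; HAL and HBD: `E' ≤ K E`.  Near the line NLB: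
`|a| ≤ M x₁²` (`pd 1 a = 0` on the line by e1, the derivative of `b` along the line is 0),
`|b| ≤ M x₁`, `|C| ≤ M`, `|A| ≥ c x₁` (NLB, A1, C0, l0), so `0 ≤ H ≤ M' x₁²` and `E → 0`.  `E = 0` and
`H ≥ 0` continuous: `H = 0`, `p > 0`, so `a = b = 0` and `w = 0` (e0) for `0 < x 1 < r`, for
`x 1 = r` by continuity. -/
def Stmt_HEN : Prop :=
  ∀ (r : ℝ) (A B C a b w : E2 → ℝ) (l m : Fin 3 → E2 → ℝ), HY r A B C a b w l m →
    ∀ x : E2, 0 ≤ x 1 → x 1 ≤ r → a x = 0 ∧ b x = 0 ∧ w x = 0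

/-! ### Two surfaces on the strip -/

/-- HPR (200 lines; uses FR.FRM FR.CHR FR.COD EGG HEN). HEN with `a, b, w` = the differences and
`A, B, C` = the sums of the second forms of `G` and `F` (`00, 01, 11`), `l 0 = Gb 0 0 1`,
`l 1 = Gb 1 0 1 - Gb 0 0 0`, `l 2 = -Gb 1 0 0`, `m 0 = Gb 0 1 1`, `m 1 = Gb 1 1 1 - Gb 0 0 1`,
`m 2 = -Gb 1 0 1` (all for `F`, the same for `G` by CHR).  e0: EGG.  e1, e2: difference of the
Codazzi equations (COD; `II 1 0 = II 0 1` by FRM), A1: their sum on the line, where `II 0 0`,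
`II 0 1` and the derivative of `II 0 1` along the line vanish.  Periodicity: differentiate `Per`. -/
def Stmt_HPR : Prop :=
  ∀ (r : ℝ) (F G : E2 → V3), 0 < r → r < 1 → Imm F St → Imm G St → Iso F G → Per F → Per G →
    Flat F → Flat G → (∀ x, II G 1 1 (pt x) = II F 1 1 (pt x)) → (∀ x, II F 1 1 (pt x) ≠ 0) →
    (∀ x, 0 < Gb F 1 0 0 (pt x)) →
    (∀ x ∈ St, 0 < x 1 → x 1 ≤ r →
      (II G 0 0 x + II F 0 0 x) * (II G 1 1 x + II F 1 1 x) < 0) →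
    ∀ x : E2, 0 ≤ x 1 → x 1 ≤ r → ∀ i j, II G i j x = II F i j x

/-- FOD (250 lines; uses FR.FRM FR.CHR). Fixed `x 0`, `s = x 1 ∈ [0, 1)`: `u = G_0 - R F_0`,
`v = G_1 - R F_1`, `n = NN G - R NN F` satisfy a linear system `(u, v, n)' = M(s) (u, v, n)` with
continuous coefficients: Gauss formula FRM (`Gb` equal by CHR, `II` equal by hypothesis), Weingarten
`pd 1 NN = ` the combination of `F_0, F_1` with coefficients from `gg`, `DD`, `II 1 0`, `II 1 1`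
(FRM, third and last but one statements).  `(u, v, n) = 0` at `s = 0` (`NN` by the cross product:
`(R y) ⨯₃ (R z) = R (y ⨯₃ z)` for `SO3 R`, see `MOT.lean`), so it vanishes (Gronwall,
`ODE_solution_unique` or `norm_le_gronwallBound_of_norm_deriv_right_le`); then `G - R F - b` has
derivative `v = 0` in `s`. -/
def Stmt_FOD : Prop :=
  ∀ (F G : E2 → V3), Imm F St → Imm G St → Iso F G → ∀ (R : Matrix (Fin 3) (Fin 3) ℝ) (b : V3),
    SO3 R → (∀ x, G (pt x) = R *ᵥ F (pt x) + b) → (∀ x i, pd i G (pt x) = R *ᵥ pd i F (pt x)) →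
    (∀ x ∈ St, 0 ≤ x 1 → ∀ i j, II G i j x = II F i j x) →
    ∀ x ∈ St, 0 ≤ x 1 → G x = R *ᵥ F x + b

/-! ### The family -/

/-- UB3 (250 lines; uses nothing). On `St`: `II (F t) i j = (√DD)⁻¹ (F_ij ⬝ (F_0 ⨯₃ F_1))` with
`DD = DD (F 0)` (`Iso`) fixed, positive, `C³`.  The families `u t` of class `C^n` whose derivatives
of order `≤ n` are bounded near every point uniformly in `t` are closed under continuous bilinear
products (`ContinuousLinearMap.norm_iteratedFDerivWithin_le_of_bilinear` on `St`), contain the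
families constant in `t`, and `pd i` lowers `n` by one (`norm_iteratedFDeriv_fderiv`). -/
def Stmt_UB3 : Prop :=
  ∀ F : ℝ → E2 → V3, (∀ t ∈ Icc (0 : ℝ) 1, Imm (F t) St) →
    (∀ t ∈ Icc (0 : ℝ) 1, Iso (F 0) (F t)) → LB 4 St F → ∀ i j, ∀ x ∈ St, ∃ M : ℝ,
    ∀ᶠ y in 𝓝 x, ∀ t ∈ Icc (0 : ℝ) 1, ∀ k ≤ 2, ‖iteratedFDeriv ℝ k (II (F t) i j) y‖ ≤ M

/-- NLS (200 lines; uses FR.FRM FR.CHR FR.COD TR0 UB3 ALL). Signs near the line, uniformly in `t`.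
`κ x = II (F 0) 1 1 (pt x)` (the same for `F t`, ALL), `Γ x = Gb (F 0) 1 0 0 (pt x) > 0` (TR0, the
same for `F t`, CHR), `|κ|, Γ ≥ c > 0` by periodicity.  `u = II (F t) 0 0` vanishes on the line with
`pd 1 u (pt x) = -Γ κ` (COD, `Flat`, the derivative of `II 0 1` along the line is 0); second
derivatives bounded by `M` for `|x 1| ≤ δ₀`, uniformly in `t` (UB3, compactness of the period,
periodicity), so `|u x + Γ κ x₁| ≤ M x₁²` and `u x κ ≤ -c³ x₁ + M |κ| x₁² < 0`.  Similarly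
`|II (F t) 1 1 x - κ| ≤ M x₁`. -/
def Stmt_NLS : Prop :=
  ∀ (F : ℝ → E2 → V3) (e1 e2 : V3) (φ ρ lam mu : ℝ → ℝ), Tr (F 0) e1 e2 φ ρ lam mu → SFam F →
    LB 4 St F → ∃ δ : ℝ, 0 < δ ∧ δ < 1 ∧ ∀ t ∈ Icc (0 : ℝ) 1, ∀ x ∈ St, 0 < x 1 → x 1 ≤ δ →
      II (F t) 0 0 x * II (F 0) 1 1 (pt (x 0)) < 0 ∧ 0 < II (F t) 1 1 x * II (F 0) 1 1 (pt (x 0))

/-- HTF (300 lines; uses FR.CHR TR0 ALL HPR NLS). Fix `r < 1`; `T` = the set of the `t ∈ [0,1]` with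
`II (F t) = II (F 0)` for `0 ≤ x 1 ≤ r`.  `0 ∈ T`; closed: `t ↦ II (F t) i j x` is continuous
(`con1`, `con2`; `NN = (√DD)⁻¹ • WW`).  Open: let `s ∈ T`, `δ` of NLS (`δ ≤ r`).  For `t` near `s` the
pair `F s, F t` satisfies the sign hypothesis of HPR: for `0 < x 1 ≤ δ` by NLS for `s` and `t` (all
`t`); for `δ ≤ x 1 ≤ r` because `II (F s) = II (F 0)` there, `II (F 0) 0 0 * II (F 0) 1 1 < 0`, and
`II (F t) → II (F s)` uniformly on the compact rectangle (tube lemma), periodicity.  The other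
hypotheses of HPR: ALL for `s` and `t`, CHR (`Gb (F s) = Gb (F 0)`), TR0, transitivity of `Iso`.  So
`II (F t) = II (F s) = II (F 0)`.  `[0,1]` is connected. -/
def Stmt_HTF : Prop :=
  ∀ (F : ℝ → E2 → V3) (e1 e2 : V3) (φ ρ lam mu : ℝ → ℝ), Tr (F 0) e1 e2 φ ρ lam mu → SFam F →
    LB 4 St F → (∀ x ∈ St, 0 < x 1 → II (F 0) 0 0 x * II (F 0) 1 1 x < 0) →
    ∀ t ∈ Icc (0 : ℝ) 1, ∀ x ∈ St, 0 ≤ x 1 → ∀ i j, II (F t) i j x = II (F 0) i j x

/-! ### Surfaces -/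

/-- the tube `0 < x 1 < 1` is hyperbolic: the normal curvatures of the coordinate curves have
opposite signs -/
def HTube {S : Type w} (f : S → E3) (Φ : E2 → S) : Prop :=
  ∀ x ∈ St, 0 < x 1 → ∀ n : E3, n ≠ 0 → inner ℝ (pd 0 (fun y => f (Φ y)) x) n = 0 →
    inner ℝ (pd 1 (fun y => f (Φ y)) x) n = 0 →
    inner ℝ (pd 0 (pd 0 fun y => f (Φ y)) x) n * inner ℝ (pd 1 (pd 1 fun y => f (Φ y)) x) n < 0

/-- HTC (100 lines; uses FR.FRM RD0). `n` with `L3 n = NN F x`, `F = L3 ∘ f 0 ∘ Φ`; `L3` commutes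
with `pd` (`pd_clm`) and preserves the scalar product. -/
def Stmt_HTC : Prop :=
  ∀ (S : Type w) [TopologicalSpace S] [ChartedSpace E2 S] [IsManifold (𝓡 2) 4 S]
    (f : ℝ → S → E3), Dfm f → ∀ Φ : E2 → S, Ann 4 Φ → HTube (f 0) Φ →
    ∀ x ∈ St, 0 < x 1 → II (fun y => L3 (f 0 (Φ y))) 0 0 x * II (fun y => L3 (f 0 (Φ y))) 1 1 x < 0

/-- GLU (150 lines; uses nothing, import `MP_02e829_sf.AllF`). As `FTF_glob` and the end of
`blk_FTF` in `MP_02e829_sf/B_FTF.lean`: for `s, t` close (CLO) and `q` with such a `C`: `f t =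
(B.symm.trans B') ∘ f s` near `q`, so `LC (f s) (f t) q` (LR7); dense, so everywhere (DN7); then
STA_const, ROT, GLB; the set of the `t` is open and closed (`FTF_sub`).  All blocks needed: the
`have`s of `allF`. -/
def Stmt_GLU : Prop :=
  ∀ (S : Type w) [TopologicalSpace S] [ChartedSpace E2 S] [IsManifold (𝓡 2) 2 S] [T2Space S]
    [CompactSpace S] [ConnectedSpace S] (f : ℝ → S → E3), Fam3 f →
    Dense {q | ∃ C : Set S, IsOpen C ∧ q ∈ C ∧ ∀ t ∈ Icc (0 : ℝ) 1, TC f C t} →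
    ∀ t ∈ Icc (0 : ℝ) 1, ∃ A : E3 ≃ᵃⁱ[ℝ] E3, Proper A ∧ ∀ p, f t p = A (f 0 p)

end Pool.TRG
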