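import Pool.Agent.Work.MP_02e829_tr.Final
import Pool.Agent.Work.MP_02e829_tr.Interface3
import Pool.Agent.Work.MP_02e829_tr.Glue

/-!
# Closed surfaces with troughs and hyperbolic tubes: assembly from the blocks
-/

open Set Filter Manifold Matrix MeasureTheory Metric
open scoped Topology ContDiff Manifold Real

set_option autoImplicit false

universe w

namespace Pool.TRG

open Pool
open Pool.FR (pd ee gg WW DD NN II Ga Gb Imm SO3)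
open Pool.SXB (E3 L3 Proper PosCurv Fam2 Fam3 Transv TC)

section
variable {S : Type w} [TopologicalSpace S] [ChartedSpace E2 S]

/-- one convex piece -/
theorem part_B (hRD0 : Stmt_RD0.{w}) (hRD1 : Stmt_RD1.{w}) (hLBM : Stmt_LBM.{w})
    (hLBP : Stmt_LBP) (hTRC : Stmt_TRC.{w}) (hALL : Stmt_ALL) (hRIG : Stmt_RIG)
    (hMTN : Stmt_MTN) (hJT2 : Stmt_JT2) (hDVC : Stmt_DVC.{w}) (hPLB : Stmt_PLB) (hINF : Stmt_INF)
    (hCV3 : Stmt_CV3) (hCNV : Stmt_CNV.{w}) (hELC : Stmt_ELC.{w})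
    [IsManifold (𝓡 2) 4 S] [T2Space S] [CompactSpace S] (f : ℝ → S → E3) (hf : Dfm f) :
    ∀ C : Set S, IsOpen C → IsPreconnected C → (∀ p ∈ C, PosCurv (f 0) p) →
      ∀ (ι : Type) (Φ : ι → E2 → S) (e : ι → E3 × E3) (φ : ι → ℝ → ℝ),
      (∀ i, Tro 4 (f 0) (Φ i) (e i).1 (e i).2 (φ i)) →
      (∀ p ∈ frontier C, ∃ i, ∃ x : ℝ, p = Φ i (pt x)) →
      ENat.card ι ≤ 7 ∨ (Countable ι ∧ Transv (f 0) (closure C)) → ∀ t ∈ Icc (0 : ℝ) 1,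
      ∃ A : E3 ≃ᵃⁱ[ℝ] E3, Proper A ∧ ∀ p ∈ closure C, f t p = A (f 0 p) := by
  have hA := fun (Φ : E2 → S) (e1 e2 : E3) (φ : ℝ → ℝ) (hΦ : Tro 4 (f 0) Φ e1 e2 φ) (t : ℝ)
      (ht : t ∈ Icc (0 : ℝ) 1) => part_A hRD0 hRD1 hLBM hLBP hTRC hALL hRIG hMTN hJT2 hDVC
        hPLB hINF hCV3 f hf Φ e1 e2 φ hΦ ht
  intro C hC hCc hpos ι Φ e φ hΦ hfr hι t ht
  have : IsManifold (𝓡 2) 2 S := IsManifold.of_le (n := 4) (by norm_num)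
  rcases (frontier C).eq_empty_or_nonempty with hemp | ⟨p0, hp0⟩
  · refine hELC S f (hCNV S f hf) C hC hCc hpos (Fin 1) (fun _ => 0)
      (fun _ _ => AffineIsometryEquiv.refl ℝ E3) (Or.inl (by simp)) ?_ ?_ t ht
    · intro s hs i
      exact SXB.FIN_refl
    · intro s hs p hp
      rw [hemp] at hp
      exact absurd hp (notMem_empty p)
  obtain ⟨i0, -⟩ := hfr p0 hp0
  have h1 : ∀ s : ℝ, ∀ i : ι, ∃ A : E3 ≃ᵃⁱ[ℝ] E3, s ∈ Icc (0 : ℝ) 1 →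
      Proper A ∧ ∀ x : ℝ, f s (Φ i (pt x)) = A (f 0 (Φ i (pt x))) ∧
        ∀ v, FRD.dvec (f s) (Φ i (pt x)) v =
          A.linearIsometryEquiv (FRD.dvec (f 0) (Φ i (pt x)) v) := by
    intro s i
    by_cases hs : s ∈ Icc (0 : ℝ) 1
    · obtain ⟨A, h1, h2, h3, -⟩ := hA (Φ i) (e i).1 (e i).2 (φ i) (hΦ i) s hs
      refine ⟨A, fun _ => ⟨h1, fun x => ⟨?_, h3 x⟩⟩⟩
      have h4 := h2 x 0 (by norm_num)
      have h5 := congrArg (fun F => F (fun _ => (0 : E2))) h4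
      simpa using h5
    · exact ⟨AffineIsometryEquiv.refl ℝ E3, fun h => absurd h hs⟩
  choose g hg using h1
  have h2 : ∀ p : S, ∃ i : ι, p ∈ frontier C → ∃ x : ℝ, p = Φ i (pt x) := by
    intro p
    by_cases hp : p ∈ frontier C
    · obtain ⟨i, hi⟩ := hfr p hp
      exact ⟨i, fun _ => hi⟩
    · exact ⟨i0, fun h => absurd h hp⟩
  choose J hJ using h2
  refine hELC S f (hCNV S f hf) C hC hCc hpos ι J g hι (fun s hs i => (hg s i hs).1) ?_ t ht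
  intro s hs p hp
  obtain ⟨x, hx⟩ := hJ p hp
  obtain ⟨h3, h4⟩ := (hg s (J p) hs).2 x
  rw [← hx] at h3 h4
  exact ⟨h3, h4⟩

/-- the tube moves rigidly -/
theorem part_D (hRD0 : Stmt_RD0.{w}) (hRD1 : Stmt_RD1.{w}) (hLBM : Stmt_LBM.{w})
    (hLBP : Stmt_LBP) (hTRC : Stmt_TRC.{w}) (hALL : Stmt_ALL) (hRIG : Stmt_RIG)
    (hMTN : Stmt_MTN) (hHTF : Stmt_HTF) (hFOD : Stmt_FOD) (hHTC : Stmt_HTC.{w})
    [IsManifold (𝓡 2) 4 S] (f : ℝ → S → E3) (hf : Dfm f) (Φ : E2 → S) (e1 e2 : E3) (φ : ℝ → ℝ)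
    (hΦ : Tro 4 (f 0) Φ e1 e2 φ) (hT : HTube (f 0) Φ) {t : ℝ} (ht : t ∈ Icc (0 : ℝ) 1) :
    TC f (Φ '' {x | x ∈ St ∧ 0 < x 1}) t := by
  obtain ⟨h1, h2, h3⟩ := hRD0 S f hf Φ hΦ.ann
  have hLB := hLBM S f hf Φ hΦ.ann
  have hS : SFam fun t x => L3 (f t (Φ x)) :=
    ⟨h1, h2, h3, (hRD1 S f hf Φ hΦ.ann).1, (hRD1 S f hf Φ hΦ.ann).2, hLBP _ h1 h3 hLB⟩
  obtain ⟨ρ, lam, mu, hTr⟩ := hTRC S f hf Φ e1 e2 φ hΦ
  obtain ⟨hfl, hII⟩ := hALL _ (L3 e1) (L3 e2) φ ρ lam mu hTr hS t ht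
  obtain ⟨R, hR, b, hb⟩ := hRIG _ (L3 e1) (L3 e2) φ ρ lam mu hTr _ (h1 t ht) (h2 t ht) (h3 t ht)
    hfl hII
  obtain ⟨A, hA, hA1, -⟩ := hMTN R b hR
  have h4 := hHTF _ (L3 e1) (L3 e2) φ ρ lam mu hTr hS hLB (hHTC S f hf Φ hΦ.ann hT) t ht
  have h0 : (0 : ℝ) ∈ Icc (0 : ℝ) 1 := ⟨le_rfl, zero_le_one⟩
  have h5 := hFOD _ _ (h1 0 h0) (h1 t ht) (h2 t ht) R b hR (fun x => (hb x).1)
    (fun x => (hb x).2.1) h4
  refine ⟨A, hA, ?_⟩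
  rintro _ ⟨x, ⟨hx, hx0⟩, rfl⟩
  refine (EuclideanSpace.equiv (Fin 3) ℝ).injective ?_
  change L3 (f t (Φ x)) = L3 (A (f 0 (Φ x)))
  rw [hA1]
  exact h5 x hx hx0.le

/-- a convex piece bounded by troughs of `f` -/
def CPiece (f : S → E3) (C : Set S) : Prop :=
  IsOpen C ∧ IsPreconnected C ∧ (∀ p ∈ C, PosCurv f p) ∧
    ∃ (ι : Type) (Φ : ι → E2 → S), (∀ i, ∃ (e1 e2 : E3) (φ : ℝ → ℝ), Tro 4 f (Φ i) e1 e2 φ) ∧
      (∀ p ∈ frontier C, ∃ i, ∃ x : ℝ, p = Φ i (pt x)) ∧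
      (ENat.card ι ≤ 7 ∨ (Countable ι ∧ Transv f (closure C)))

/-- a hyperbolic tube of `f` starting at a trough -/
def HPiece (f : S → E3) (C : Set S) : Prop :=
  ∃ (Φ : E2 → S) (e1 e2 : E3) (φ : ℝ → ℝ), Tro 4 f Φ e1 e2 φ ∧ HTube f Φ ∧
    C = Φ '' {x | x ∈ St ∧ 0 < x 1}

end

/-- convex pieces and hyperbolic tubes move rigidly, also together -/
theorem mainG (hRD0 : Stmt_RD0.{w}) (hRD1 : Stmt_RD1.{w}) (hLBM : Stmt_LBM.{w})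
    (hLBP : Stmt_LBP) (hTRC : Stmt_TRC.{w}) (hALL : Stmt_ALL) (hRIG : Stmt_RIG)
    (hMTN : Stmt_MTN) (hJT2 : Stmt_JT2) (hDVC : Stmt_DVC.{w}) (hPLB : Stmt_PLB) (hINF : Stmt_INF)
    (hCV3 : Stmt_CV3) (hCNV : Stmt_CNV.{w}) (hELC : Stmt_ELC.{w})
    (hOPE : Stmt_OPE.{w}) (hHTF : Stmt_HTF) (hFOD : Stmt_FOD)
    (hHTC : Stmt_HTC.{w})
    {S : Type w} [TopologicalSpace S] [ChartedSpace E2 S] [IsManifold (𝓡 2) 4 S] [T2Space S]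
    [CompactSpace S] (f : ℝ → S → E3) (hf : Dfm f) (O : Set S) (hO : IsOpen O)
    (hOc : IsPreconnected O)
    (hd : O ⊆ closure (⋃₀ {C | CPiece (f 0) C ∨ HPiece (f 0) C})) :
    ∀ t ∈ Icc (0 : ℝ) 1,
      ∃ A : E3 ≃ᵃⁱ[ℝ] E3, Proper A ∧ ∀ p ∈ closure O, f t p = A (f 0 p) := by
  have : IsManifold (𝓡 2) 2 S := IsManifold.of_le (n := 4) (by norm_num)
  have : IsManifold (𝓡 2) 1 S := IsManifold.of_le (n := 4) (by norm_num)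
  have h0 : (0 : ℝ) ∈ Icc (0 : ℝ) 1 := ⟨le_rfl, zero_le_one⟩
  have hP : ∀ C : Set S, CPiece (f 0) C ∨ HPiece (f 0) C → ∀ t ∈ Icc (0 : ℝ) 1, TC f C t := by
    rintro C (⟨hC1, hC2, hC3, ι, Φ, hΦ, hfr, hι⟩ | ⟨Φ, e1, e2, φ, hΦ, hT, rfl⟩) t ht
    · choose e1 e2 φ hT using hΦ
      obtain ⟨A, hA, hAf⟩ := part_B hRD0 hRD1 hLBM hLBP hTRC hALL hRIG hMTN hJT2 hDVC hPLB hINF
        hCV3 hCNV hELC f hf C hC1 hC2 hC3 ι Φ (fun i => (e1 i, e2 i)) φ hT hfr hι t ht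
      exact ⟨A, hA, fun p hp => hAf p (subset_closure hp)⟩
    · exact part_D hRD0 hRD1 hLBM hLBP hTRC hALL hRIG hMTN hHTF hFOD hHTC
        f hf Φ e1 e2 φ hΦ hT ht
  have hG := glue_local (hCNV S f hf) hO hOc (hd.trans (closure_mono ?_))
  · intro t ht
    obtain ⟨A, hA, hAf⟩ := hG t ht
    refine ⟨A, hA, fun p hp => ?_⟩
    have hcl : IsClosed {p | f t p = A (f 0 p)} :=
      isClosed_eq (hf.smooth t ht).continuous (A.continuous.comp (hf.smooth 0 h0).continuous)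
    exact closure_minimal hAf hcl hp
  rintro q ⟨C, hC, hqC⟩
  refine ⟨C, ?_, hqC, hP C hC⟩
  rcases hC with ⟨hC1, -⟩ | ⟨Φ, e1, e2, φ, hΦ, hT, rfl⟩
  · exact hC1
  · rw [isOpen_iff_mem_nhds]
    rintro _ ⟨x, hx, rfl⟩
    have hO : IsOpen {x : E2 | x ∈ St ∧ 0 < x 1} := by
      refine St_open.inter ?_
      have h : Continuous fun x : E2 => x 1 := by fun_prop
      exact isOpen_Ioi.preimage h
    exact hOPE S Φ (ann_le hΦ.ann (by norm_num)) x hx.1 _ (hO.mem_nhds hx)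

end Pool.TRG
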