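import Pool.Agent.Work.MP_02e829_tr.All
import Pool.Agent.Work.MP_02e829_tr.Final3
import Pool.Agent.Work.MP_02e829_tr.Tv
import Pool.Agent.Work.MP_02e829_tr.B_ELC
import Pool.Agent.Work.MP_02e829_tr.B_NLB
import Pool.Agent.Work.MP_02e829_tr.B_HAL
import Pool.Agent.Work.MP_02e829_tr.B_HBD
import Pool.Agent.Work.MP_02e829_tr.B_HDE
import Pool.Agent.Work.MP_02e829_tr.B_HGW
import Pool.Agent.Work.MP_02e829_tr.B_HEN
import Pool.Agent.Work.MP_02e829_tr.B_HPR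
import Pool.Agent.Work.MP_02e829_tr.B_FOD
import Pool.Agent.Work.MP_02e829_tr.B_UB3
import Pool.Agent.Work.MP_02e829_tr.B_NLS
import Pool.Agent.Work.MP_02e829_tr.B_HTF
import Pool.Agent.Work.MP_02e829_tr.B_HTC
import Pool.Agent.Work.MP_02e829_tr.B_GLU

/-!
# Closed surfaces with troughs and hyperbolic tubes, without hypotheses on blocks
-/

open Set Filter Manifold Matrix MeasureTheory Metric
open scoped Topology ContDiff Manifold Real

set_option autoImplicit false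

universe w

namespace Pool.TRG

open Pool
open Pool.SXB (E3 L3 Proper PosCurv Fam2 Fam3 Transv)

theorem all_HTF : Stmt_HTF := by
  have hFRM : Pool.FR.Stmt_FRM := Pool.FR.blk_FRM
  have hCHR : Pool.FR.Stmt_CHR := Pool.FR.blk_CHR
  have hCOD : Pool.FR.Stmt_COD := Pool.FR.blk_COD hFRM
  have hHEN := p_HEN p_NLB p_HAL (p_HBD p_NLB) p_HDE p_HGW
  exact p_HTF hCHR all_TR0 all_ALL (p_HPR hFRM hCHR hCOD all_EGG hHEN)
    (p_NLS hFRM hCHR hCOD all_TR0 p_UB3 all_ALL)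

/-- pieces move rigidly, also together -/
theorem all_mainG {S : Type w} [TopologicalSpace S] [ChartedSpace E2 S] [IsManifold (𝓡 2) 4 S]
    [T2Space S] [CompactSpace S] (f : ℝ → S → E3) (hf : Dfm f) (O : Set S) (hO : IsOpen O)
    (hOc : IsPreconnected O)
    (hd : O ⊆ closure (⋃₀ {C | CPiece (f 0) C ∨ HPiece (f 0) C})) :
    ∀ t ∈ Icc (0 : ℝ) 1,
      ∃ A : E3 ≃ᵃⁱ[ℝ] E3, Proper A ∧ ∀ p ∈ closure O, f t p = A (f 0 p) :=
  mainG all_RD0 all_RD1 all_LBM p_LBP all_TRC all_ALL all_RIG p_MTN p_JT2 (p_DVC p_CHN) all_PLB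
    all_INF p_CV3 p_CNV p_ELC p_OPE all_HTF (p_FOD Pool.FR.blk_FRM Pool.FR.blk_CHR)
    (p_HTC Pool.FR.blk_FRM all_RD0) f hf O hO hOc hd

end Pool.TRG
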