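import Pool.Agent.Work.MP_02e829_tr.Interface

/-! # MP_02e829_gt, TROUGH RIGIDITY: block ALL (all times) -/

open Set Filter Matrix Metric
open scoped Topology ContDiff Real

set_option autoImplicit false

namespace Pool.TRG

open Pool.FR (pd ee gg WW DD NN II Ga Gb Imm SO3)

theorem p_ALL (hTR0 : Stmt_TR0) (hSQR : Stmt_SQR) (hCTB : Stmt_CTB) (hOPN : Stmt_OPN) :
    Stmt_ALL := by
  intro F e1 e2 φ ρ lam mu hT hS t ht
  have h0 : (0 : ℝ) ∈ Icc (0 : ℝ) 1 := ⟨le_rfl, zero_le_one⟩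
  obtain ⟨-, -, -, -, -, -, hx⟩ := hTR0 (F 0) e1 e2 φ ρ lam mu hT
  have hc : ∀ i j x, ContinuousOn (fun s => II (F s) i j (pt x)) (Icc (0 : ℝ) 1) := by
    intro i j x
    have h1 : ContinuousOn (fun s : ℝ => (s, x)) (Icc (0 : ℝ) 1) := by fun_prop
    exact (hCTB F hS i j).comp h1 fun s hs => ⟨hs, mem_univ _⟩
  have hcS : ∀ i j x, Continuous fun s : Icc (0 : ℝ) 1 => II (F s) i j (pt x) := fun i j x =>
    (hc i j x).restrict
  have hcl : IsClopen {s : Icc (0 : ℝ) 1 | Flat (F s)} := by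
    constructor
    · have h1 : {s : Icc (0 : ℝ) 1 | Flat (F s)} = ⋂ x : ℝ, {s : Icc (0 : ℝ) 1 |
          II (F s) 0 0 (pt x) = 0} ∩ {s : Icc (0 : ℝ) 1 | II (F s) 0 1 (pt x) = 0} := by
        ext s
        simp only [mem_setOf_eq, mem_iInter, mem_inter_iff]
        exact Iff.rfl
      rw [h1]
      exact isClosed_iInter fun x => (isClosed_eq (hcS 0 0 x) continuous_const).inter
        (isClosed_eq (hcS 0 1 x) continuous_const)
    · rw [isOpen_iff_mem_nhds]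
      intro s hs
      have h1 : Tendsto (Subtype.val : Icc (0 : ℝ) 1 → ℝ) (𝓝 s) (𝓝[Icc (0 : ℝ) 1] (s : ℝ)) :=
        tendsto_nhdsWithin_iff.2 ⟨continuous_subtype_val.tendsto s,
          Eventually.of_forall fun x => x.2⟩
      exact h1.eventually (hOPN F e1 e2 φ ρ lam mu hT hS s s.2 hs)
  have : ConnectedSpace (Icc (0 : ℝ) 1) :=
    Subtype.connectedSpace (isConnected_Icc (zero_le_one' ℝ))
  have hu := hcl.eq_univ ⟨⟨0, h0⟩, fun x => ⟨(hx x).2.2.2.2.1, (hx x).2.2.2.2.2.1⟩⟩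
  have hfl : ∀ s ∈ Icc (0 : ℝ) 1, Flat (F s) := by
    intro s hs
    have h1 : (⟨s, hs⟩ : Icc (0 : ℝ) 1) ∈ {s : Icc (0 : ℝ) 1 | Flat (F s)} := by
      rw [hu]
      exact mem_univ _
    exact h1
  refine ⟨hfl t ht, fun x => ?_⟩
  have h1 := isPreconnected_Icc.eq_of_sq_eq (hc 1 1 x)
    (continuousOn_const (c := II (F 0) 1 1 (pt x))) (fun s hs => hSQR (F 0) e1 e2 φ ρ lam mu hT (F s)
      (hS.imm s hs) (hS.iso s hs) (hfl s hs) x) (fun _ => (hx x).2.2.2.2.2.2.1) h0 rfl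
  exact h1 ht

end Pool.TRG
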