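import Pool.Agent.Work.MP_02e829_tr.Interface

/-!
# MP_02e829_gt, TROUGH RIGIDITY, block ANZ
-/

open Set Filter Matrix MeasureTheory Metric
open scoped Topology ContDiff Real

set_option autoImplicit false

namespace Pool.TRG

theorem p_ANZ : Stmt_ANZ := by
  intro u x0 hu h0
  obtain ⟨p, r, hp⟩ := hu
  filter_upwards [Metric.eball_mem_nhds x0 hp.r_pos] with x hx
  have h1 := hp.hasSum_iteratedFDeriv (y := x - x0)
    (by simpa [Metric.mem_eball, edist_eq_enorm_sub] using hx)
  have h2 : (fun n : ℕ => ((n.factorial : ℝ)⁻¹) •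
      (iteratedFDeriv ℝ n u x0 fun _ => x - x0)) = fun _ => 0 := by
    funext n
    rw [h0 n]
    simp
  rw [h2, add_sub_cancel] at h1
  exact h1.unique hasSum_zero

end Pool.TRG
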