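import Pool.Agent.Work.MP_02e829_tr.Interface2

/-! # Block CDC: the derivatives of a composition are jointly continuous -/

open Set Filter Manifold Matrix MeasureTheory Metric
open scoped Topology ContDiff Manifold Real

set_option autoImplicit false

namespace Pool.TRG

open Pool
open Pool.FR (pd ee)

theorem p_CDC : Stmt_CDC := by
  intro O V hO hV G hG h1 h2 ψ hψ hm
  have hψd : ∀ x ∈ O, DifferentiableAt ℝ ψ x := fun x hx =>
    (hψ.differentiableOn (by norm_num)).differentiableAt (hO.mem_nhds hx)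
  have hGd : ∀ t ∈ Icc (0 : ℝ) 1, ∀ y ∈ V, DifferentiableAt ℝ (G t) y := fun t ht y hy =>
    ((hG t ht).differentiableOn (by norm_num)).differentiableAt (hV.mem_nhds hy)
  have hAc : ∀ t ∈ Icc (0 : ℝ) 1, ContDiffOn ℝ 1 (fderiv ℝ (G t)) V := fun t ht =>
    (hG t ht).fderiv_of_isOpen hV (by norm_num)
  have hAd : ∀ t ∈ Icc (0 : ℝ) 1, ∀ y ∈ V, DifferentiableAt ℝ (fderiv ℝ (G t)) y :=
    fun t ht y hy => ((hAc t ht).differentiableOn (by norm_num)).differentiableAt (hV.mem_nhds hy)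
  have hPc : ContDiffOn ℝ 1 (fderiv ℝ ψ) O := hψ.fderiv_of_isOpen hO (by norm_num)
  have hPd : ∀ x ∈ O, DifferentiableAt ℝ (fderiv ℝ ψ) x := fun x hx =>
    (hPc.differentiableOn (by norm_num)).differentiableAt (hO.mem_nhds hx)
  have hfd : ∀ t ∈ Icc (0 : ℝ) 1, ∀ x ∈ O, ∀ i,
      pd i (fun x => G t (ψ x)) x = fderiv ℝ (G t) (ψ x) (pd i ψ x) := by
    intro t ht x hx i
    unfold pd
    rw [show (fun x => G t (ψ x)) = G t ∘ ψ from rfl,
      fderiv_comp x (hGd t ht (ψ x) (hm hx)) (hψd x hx)]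
    rfl
  have hsd : ∀ t ∈ Icc (0 : ℝ) 1, ∀ x ∈ O, ∀ i j,
      pd i (pd j (fun x => G t (ψ x))) x = fderiv ℝ (G t) (ψ x) (pd i (pd j ψ) x) +
        fderiv ℝ (fderiv ℝ (G t)) (ψ x) (pd i ψ x) (pd j ψ x) := by
    intro t ht x hx i j
    have he : pd j (fun x => G t (ψ x)) =ᶠ[𝓝 x] fun x => fderiv ℝ (G t) (ψ x) (pd j ψ x) := by
      filter_upwards [hO.mem_nhds hx] with y hy using hfd t ht y hy j
    have hc : DifferentiableAt ℝ (fun x => fderiv ℝ (G t) (ψ x)) x :=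
      (hAd t ht (ψ x) (hm hx)).comp x (hψd x hx)
    have hu : DifferentiableAt ℝ (pd j ψ) x := by
      unfold pd
      exact (hPd x hx).clm_apply (differentiableAt_const _)
    have hcc : fderiv ℝ (fun x => fderiv ℝ (G t) (ψ x)) x =
        (fderiv ℝ (fderiv ℝ (G t)) (ψ x)).comp (fderiv ℝ ψ x) := by
      rw [show (fun x => fderiv ℝ (G t) (ψ x)) = fderiv ℝ (G t) ∘ ψ from rfl,
        fderiv_comp x (hAd t ht (ψ x) (hm hx)) (hψd x hx)]
    have h3 : pd i (pd j (fun x => G t (ψ x))) x =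
        fderiv ℝ (fun x => fderiv ℝ (G t) (ψ x) (pd j ψ x)) x (ee i) := by
      have := he.fderiv_eq (𝕜 := ℝ)
      show fderiv ℝ (pd j (fun x => G t (ψ x))) x (ee i) = _
      rw [this]
    rw [h3, fderiv_clm_apply hc hu, hcc]
    rfl
  have hmt : MapsTo (fun z : ℝ × E2 => (z.1, ψ z.2)) (Icc (0 : ℝ) 1 ×ˢ O)
      (Icc (0 : ℝ) 1 ×ˢ V) := fun z hz => ⟨hz.1, hm hz.2⟩
  have hsn : MapsTo (fun z : ℝ × E2 => z.2) (Icc (0 : ℝ) 1 ×ˢ O) O := fun z hz => hz.2
  have hpc : ContinuousOn (fun z : ℝ × E2 => (z.1, ψ z.2)) (Icc (0 : ℝ) 1 ×ˢ O) :=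
    continuousOn_fst.prodMk (hψ.continuousOn.comp continuousOn_snd hsn)
  have hA : ContinuousOn (fun z : ℝ × E2 => fderiv ℝ (G z.1) (ψ z.2)) (Icc (0 : ℝ) 1 ×ˢ O) :=
    h1.comp hpc hmt
  have hB : ContinuousOn (fun z : ℝ × E2 => fderiv ℝ (fderiv ℝ (G z.1)) (ψ z.2))
      (Icc (0 : ℝ) 1 ×ˢ O) := h2.comp hpc hmt
  have hp1 : ∀ i, ContinuousOn (pd i ψ) O := fun i => by
    unfold pd
    exact hPc.continuousOn.clm_apply continuousOn_const
  have hp2 : ∀ i j, ContinuousOn (pd i (pd j ψ)) O := fun i j => by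
    have h4 : ContDiffOn ℝ 1 (pd j ψ) O := by
      unfold pd
      exact hPc.clm_apply contDiffOn_const
    have h5 : ContDiffOn ℝ 0 (fderiv ℝ (pd j ψ)) O := h4.fderiv_of_isOpen hO (by norm_num)
    show ContinuousOn (fun x => fderiv ℝ (pd j ψ) x (ee i)) O
    exact h5.continuousOn.clm_apply continuousOn_const
  constructor
  · intro i
    have : ContinuousOn (fun z : ℝ × E2 => fderiv ℝ (G z.1) (ψ z.2) (pd i ψ z.2))
        (Icc (0 : ℝ) 1 ×ˢ O) := hA.clm_apply ((hp1 i).comp continuousOn_snd hsn)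
    exact this.congr fun z hz => hfd z.1 hz.1 z.2 hz.2 i
  · intro i j
    have : ContinuousOn (fun z : ℝ × E2 => fderiv ℝ (G z.1) (ψ z.2) (pd i (pd j ψ) z.2) +
        fderiv ℝ (fderiv ℝ (G z.1)) (ψ z.2) (pd i ψ z.2) (pd j ψ z.2))
        (Icc (0 : ℝ) 1 ×ˢ O) :=
      (hA.clm_apply ((hp2 i j).comp continuousOn_snd hsn)).add
        ((hB.clm_apply ((hp1 i).comp continuousOn_snd hsn)).clm_apply
          ((hp1 j).comp continuousOn_snd hsn))
    exact this.congr fun z hz => hsd z.1 hz.1 z.2 hz.2 i j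

end Pool.TRG
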