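import Pool.Agent.Work.MP_02e829_tr.Interface2

/-! # Block CHN (MP_02e829, TROUGH RIGIDITY) -/

open Set Filter Manifold Matrix MeasureTheory Metric
open scoped Topology ContDiff Manifold Real

set_option autoImplicit false

universe w

namespace Pool.TRG

open Pool
open Pool.SXB (E3 L3 Proper PosCurv Fam2 Fam3 Transv)

theorem p_CHN : Stmt_CHN.{w} := by
  intro S _ _ f hf Φ hΦ x hx v
  have hSt : IsOpen St := by
    have hc : Continuous fun x : E2 => |x 1| := by fun_prop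
    exact isOpen_lt hc continuous_const
  have h1 : MDifferentiableAt (𝓡 2) (𝓡 3) f (Φ x) :=
    (hf (Φ x)).mdifferentiableAt one_ne_zero
  have h2 : MDifferentiableAt (𝓡 2) (𝓡 2) Φ x :=
    ((hΦ.smooth x hx).contMDiffAt (hSt.mem_nhds hx)).mdifferentiableAt one_ne_zero
  have h3 := mfderiv_comp x h1 h2
  have h4 : mfderiv (𝓡 2) (𝓡 3) (f ∘ Φ) x = fderiv ℝ (f ∘ Φ) x := mfderiv_eq_fderiv
  have h5 : fderiv ℝ (fun y => f (Φ y)) x = mfderiv (𝓡 2) (𝓡 3) (f ∘ Φ) x := h4.symm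
  rw [h5, h3]
  rfl

end Pool.TRG
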