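import Pool.Agent.Work.MP_02e829_tr.Interface

/-! # Block CSI (typed by helper12) -/

open Set Filter Matrix MeasureTheory Metric
open scoped Topology ContDiff Real

set_option autoImplicit false

namespace Pool.TRG

theorem p_CSI : Stmt_CSI := by
  intro u v hu hv
  have hi : ∀ w : ℝ → ℝ, Continuous w → IntervalIntegrable w volume 0 (2 * π) :=
    fun w hw => hw.intervalIntegrable _ _
  have h1 : ∀ s : ℝ, 0 ≤ (IC fun x => u x ^ 2) * (s * s) + 2 * (IC fun x => u x * v x) * s +
      IC fun x => v x ^ 2 := by
    intro s
    have h2 : 0 ≤ IC fun x => (s * u x + v x) ^ 2 := by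
      unfold IC
      exact intervalIntegral.integral_nonneg (by positivity) fun x _ => sq_nonneg _
    have h3 : (IC fun x => (s * u x + v x) ^ 2) = (IC fun x => u x ^ 2) * (s * s) +
        2 * (IC fun x => u x * v x) * s + IC fun x => v x ^ 2 := by
      unfold IC
      have e : (fun x => (s * u x + v x) ^ 2) =
          fun x => (s * s) * u x ^ 2 + (2 * s) * (u x * v x) + v x ^ 2 := by
        funext x
        ring
      rw [e, intervalIntegral.integral_add (hi _ (by fun_prop)) (hi _ (by fun_prop)),
        intervalIntegral.integral_add (hi _ (by fun_prop)) (hi _ (by fun_prop)),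
        intervalIntegral.integral_const_mul, intervalIntegral.integral_const_mul]
      ring
    rw [← h3]
    exact h2
  have h4 := discrim_le_zero h1
  unfold discrim at h4
  nlinarith

end Pool.TRG
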