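import Pool.Agent.Work.MP_02e829_tr.Interface

/-! # MP_02e829_gt, TROUGH RIGIDITY: block CTB -/

open Set Filter Matrix MeasureTheory Metric
open scoped Topology ContDiff Real

set_option autoImplicit false

namespace Pool.TRG

open Pool.FR (pd ee gg WW DD NN II Ga Gb Imm SO3)

lemma CTB_dot {X : Type*} [TopologicalSpace X] {s : Set X} {f g : X → V3} (hf : ContinuousOn f s)
    (hg : ContinuousOn g s) : ContinuousOn (fun z => f z ⬝ᵥ g z) s := by
  have h1 : (fun z => f z ⬝ᵥ g z) = fun z => ∑ a, f z a * g z a := rfl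
  rw [h1]
  exact continuousOn_finsetSum _ fun a _ => (continuousOn_pi.1 hf a).mul (continuousOn_pi.1 hg a)

lemma CTB_cross {X : Type*} [TopologicalSpace X] {s : Set X} {f g : X → V3} (hf : ContinuousOn f s)
    (hg : ContinuousOn g s) : ContinuousOn (fun z => f z ⨯₃ g z) s := by
  have hf' := continuousOn_pi.1 hf
  have hg' := continuousOn_pi.1 hg
  have hcr : ∀ y, f y ⨯₃ g y = ![f y 1 * g y 2 - f y 2 * g y 1, f y 2 * g y 0 - f y 0 * g y 2,
      f y 0 * g y 1 - f y 1 * g y 0] := fun y => cross_apply _ _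
  simp only [hcr]
  rw [continuousOn_pi]
  intro a
  fin_cases a
  · exact ((hf' 1).mul (hg' 2)).sub ((hf' 2).mul (hg' 1))
  · exact ((hf' 2).mul (hg' 0)).sub ((hf' 0).mul (hg' 2))
  · exact ((hf' 0).mul (hg' 1)).sub ((hf' 1).mul (hg' 0))

theorem p_CTB : Stmt_CTB := by
  intro F hF i j
  have hmap : ContinuousOn (fun z : ℝ × ℝ => ((z.1, pt z.2) : ℝ × E2))
      (Icc (0 : ℝ) 1 ×ˢ (univ : Set ℝ)) := by
    apply Continuous.continuousOn
    have : Continuous pt := continuous_id.smul continuous_const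
    exact continuous_fst.prodMk (this.comp continuous_snd)
  have hmem : MapsTo (fun z : ℝ × ℝ => ((z.1, pt z.2) : ℝ × E2))
      (Icc (0 : ℝ) 1 ×ˢ (univ : Set ℝ)) (Icc (0 : ℝ) 1 ×ˢ St) := by
    rintro ⟨t, x⟩ ⟨ht, -⟩
    refine ⟨ht, ?_⟩
    show |(pt x) 1| < 1
    have : (pt x) 1 = 0 := by simp [pt, ee]
    rw [this]
    simp
  have h1 : ∀ a, ContinuousOn (fun z : ℝ × ℝ => pd a (F z.1) (pt z.2))
      (Icc (0 : ℝ) 1 ×ˢ (univ : Set ℝ)) := fun a => (hF.con1 a).comp hmap hmem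
  have h2 : ContinuousOn (fun z : ℝ × ℝ => pd i (pd j (F z.1)) (pt z.2))
      (Icc (0 : ℝ) 1 ×ˢ (univ : Set ℝ)) := (hF.con2 i j).comp hmap hmem
  have hg : ∀ a b, ContinuousOn (fun z : ℝ × ℝ => gg (F z.1) a b (pt z.2))
      (Icc (0 : ℝ) 1 ×ˢ (univ : Set ℝ)) := fun a b => CTB_dot (h1 a) (h1 b)
  have hD : ContinuousOn (fun z : ℝ × ℝ => DD (F z.1) (pt z.2))
      (Icc (0 : ℝ) 1 ×ˢ (univ : Set ℝ)) := ((hg 0 0).mul (hg 1 1)).sub ((hg 0 1).pow 2)
  have hN : ContinuousOn (fun z : ℝ × ℝ => NN (F z.1) (pt z.2))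
      (Icc (0 : ℝ) 1 ×ˢ (univ : Set ℝ)) := by
    refine ContinuousOn.smul (ContinuousOn.inv₀ hD.sqrt ?_) (CTB_cross (h1 0) (h1 1))
    rintro ⟨t, x⟩ hz
    have := (hF.imm t hz.1).pos (pt x) (hmem hz).2
    exact (Real.sqrt_pos.2 this).ne'
  exact CTB_dot h2 hN

end Pool.TRG
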