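import Pool.Agent.Work.MP_02e829_tr.Interface2

/-! # Block CV3: derivatives in coordinates (MP_02e829, TROUGH RIGIDITY) -/

open Set Filter Manifold Matrix MeasureTheory Metric
open scoped Topology ContDiff Manifold Real

set_option autoImplicit false

universe w

namespace Pool.TRG

open Pool
open Pool.FR (pd ee gg WW DD NN II Ga Gb Imm SO3)
open Pool.SXB (E3 L3 Proper PosCurv Fam2 Fam3 Transv)

theorem p_CV3 : Stmt_CV3 := by
  intro u w x k h
  have h1 : ∀ v : E2 → E3, iteratedFDeriv ℝ k (fun y => L3 (v y)) x =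
      ((EuclideanSpace.equiv (Fin 3) ℝ : E3 ≃L[ℝ] V3) :
        E3 →L[ℝ] V3).compContinuousMultilinearMap (iteratedFDeriv ℝ k v x) := by
    intro v
    exact (EuclideanSpace.equiv (Fin 3) ℝ : E3 ≃L[ℝ] V3).iteratedFDeriv_comp_left (f := v)
  rw [h1, h1] at h
  ext m : 1
  have h2 := congrArg (fun T => T m) h
  exact (EuclideanSpace.equiv (Fin 3) ℝ : E3 ≃L[ℝ] V3).injective h2

end Pool.TRG
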