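import Pool.Agent.Work.MP_02e829_tr.Interface2

/-! # Block DVC (helper77): the differentials of two surfaces along an annulus -/

open Set Filter Manifold Matrix MeasureTheory Metric
open scoped Topology ContDiff Manifold Real

set_option autoImplicit false

universe w

namespace Pool.TRG

open Pool
open Pool.FR (pd ee gg WW DD NN II Ga Gb Imm SO3)
open Pool.SXB (E3 L3 Proper PosCurv Fam2 Fam3 Transv)

/-- an injective linear map of the plane is onto -/
theorem DVC_surj (D : E2 →L[ℝ] E2) (hD : Function.Injective D) : Function.Surjective D :=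
  LinearMap.injective_iff_surjective (f := D.toLinearMap) |>.1 hD

/-- two linear maps which agree on the image of a basis -/
theorem DVC_lin (D : E2 →L[ℝ] E2) (hD : Function.Injective D) (A B : E2 →L[ℝ] E3)
    (L : E3 ≃ₗᵢ[ℝ] E3) (h : ∀ i, A (D (ee i)) = L (B (D (ee i)))) : ∀ v, A v = L (B v) := by
  intro v
  obtain ⟨u, rfl⟩ := DVC_surj D hD v
  have hu : u = ∑ i, u i • ee i := by
    ext j
    fin_cases j <;> simp [ee, Fin.sum_univ_two]
  rw [hu]
  simp only [map_sum, map_smul, h]

/-- block DVC -/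
theorem p_DVC (hCHN : Stmt_CHN.{w}) : Stmt_DVC.{w} := by
  intro S _ _ g h hg hh Φ hΦ L x hx hpd v
  refine DVC_lin (mfderiv (𝓡 2) (𝓡 2) Φ x) (hΦ.reg x hx) (FRD.differential g (Φ x))
    (FRD.differential h (Φ x)) L (fun i => ?_) v
  have h1 := hCHN S g hg Φ hΦ x hx (ee i)
  have h2 := hCHN S h hh Φ hΦ x hx (ee i)
  have h3 := hpd i
  unfold pd at h3
  rw [h1, h2] at h3
  exact h3

end Pool.TRG
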