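import Pool.Agent.Work.MP_02e829_tr.Interface

/-! # MP_02e829_gt, TROUGH RIGIDITY: block EGG (theorema egregium) -/

open Set Filter Matrix MeasureTheory Metric
open scoped Topology ContDiff Real

set_option autoImplicit false

namespace Pool.TRG

open Pool.FR (pd ee gg WW DD NN II Ga Gb Imm SO3 pd_congr pd_contDiffOn diff_at pd_comm pd_dot)

lemma EGG_dot (P Q N : V3) (a1 a2 a3 b1 b2 b3 : ℝ) (hP : P ⬝ᵥ N = 0) (hQ : Q ⬝ᵥ N = 0)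
    (hN : N ⬝ᵥ N = 1) :
    (a1 • P + a2 • Q + a3 • N) ⬝ᵥ (b1 • P + b2 • Q + b3 • N) =
      a1 * b1 * (P ⬝ᵥ P) + (a1 * b2 + a2 * b1) * (P ⬝ᵥ Q) + a2 * b2 * (Q ⬝ᵥ Q) + a3 * b3 := by
  have hP' : N ⬝ᵥ P = 0 := by rw [dotProduct_comm, hP]
  have hQ' : N ⬝ᵥ Q = 0 := by rw [dotProduct_comm, hQ]
  have hPQ : Q ⬝ᵥ P = P ⬝ᵥ Q := dotProduct_comm _ _
  simp only [add_dotProduct, dotProduct_add, smul_dotProduct, dotProduct_smul, smul_eq_mul, hP,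
    hQ, hN, hP', hQ', hPQ]
  ring

lemma EGG_gauss (hFRM : Pool.FR.Stmt_FRM) {U : Set E2} (hU : IsOpen U) {F : E2 → V3}
    (hF : Imm F U) {x : E2} (hx : x ∈ U) :
    II F 0 0 x * II F 1 1 x - II F 0 1 x ^ 2 =
      (pd 1 (Ga F 0 0 1) x - pd 0 (Ga F 0 1 1) x) -
      (Gb F 0 0 0 x * Gb F 0 1 1 x * gg F 0 0 x +
        (Gb F 0 0 0 x * Gb F 1 1 1 x + Gb F 1 0 0 x * Gb F 0 1 1 x) * gg F 0 1 x +
        Gb F 1 0 0 x * Gb F 1 1 1 x * gg F 1 1 x) +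
      (Gb F 0 0 1 x * Gb F 0 0 1 x * gg F 0 0 x +
        (Gb F 0 0 1 x * Gb F 1 0 1 x + Gb F 1 0 1 x * Gb F 0 0 1 x) * gg F 0 1 x +
        Gb F 1 0 1 x * Gb F 1 0 1 x * gg F 1 1 x) := by
  obtain ⟨hNN, hkN, _, _, _, hdec, _⟩ := hFRM U hU F hF x hx
  have s1 : ∀ i, ContDiffOn ℝ 3 (pd i F) U := fun i =>
    pd_contDiffOn hU hF.smooth (by norm_num) i
  have s2 : ∀ i j, ContDiffOn ℝ 2 (pd i (pd j F)) U := fun i j =>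
    pd_contDiffOn hU (s1 j) (by norm_num) i
  have d1 : ∀ i, DifferentiableAt ℝ (pd i F) x := fun i => diff_at hU (s1 i) (by norm_num) hx
  have d2 : ∀ i j, DifferentiableAt ℝ (pd i (pd j F)) x := fun i j =>
    diff_at hU (s2 i j) (by norm_num) hx
  have e1 : pd 1 (Ga F 0 0 1) x = pd 1 (pd 0 (pd 0 F)) x ⬝ᵥ pd 1 F x +
      pd 0 (pd 0 F) x ⬝ᵥ pd 1 (pd 1 F) x := pd_dot 1 (d2 0 0) (d1 1)
  have e2 : pd 0 (Ga F 0 1 1) x = pd 0 (pd 0 (pd 1 F)) x ⬝ᵥ pd 1 F x +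
      pd 0 (pd 1 F) x ⬝ᵥ pd 0 (pd 1 F) x := pd_dot 0 (d2 0 1) (d1 1)
  have e3 : pd 1 (pd 0 (pd 0 F)) x = pd 0 (pd 0 (pd 1 F)) x := by
    rw [pd_comm hU (s1 0) (by norm_num) 1 0 hx]
    exact pd_congr hU (fun y hy => pd_comm hU hF.smooth (by norm_num) 1 0 hy) 0 hx
  have e4 : pd 0 (pd 0 F) x ⬝ᵥ pd 1 (pd 1 F) x =
      Gb F 0 0 0 x * Gb F 0 1 1 x * gg F 0 0 x +
        (Gb F 0 0 0 x * Gb F 1 1 1 x + Gb F 1 0 0 x * Gb F 0 1 1 x) * gg F 0 1 x +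
        Gb F 1 0 0 x * Gb F 1 1 1 x * gg F 1 1 x + II F 0 0 x * II F 1 1 x := by
    rw [hdec 0 0, hdec 1 1]
    exact EGG_dot _ _ _ _ _ _ _ _ _ (hkN 0) (hkN 1) hNN
  have e5 : pd 0 (pd 1 F) x ⬝ᵥ pd 0 (pd 1 F) x =
      Gb F 0 0 1 x * Gb F 0 0 1 x * gg F 0 0 x +
        (Gb F 0 0 1 x * Gb F 1 0 1 x + Gb F 1 0 1 x * Gb F 0 0 1 x) * gg F 0 1 x +
        Gb F 1 0 1 x * Gb F 1 0 1 x * gg F 1 1 x + II F 0 1 x * II F 0 1 x := by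
    rw [hdec 0 1]
    exact EGG_dot _ _ _ _ _ _ _ _ _ (hkN 0) (hkN 1) hNN
  rw [e1, e2, e3, e4, e5]
  ring

theorem p_EGG (hFRM : Pool.FR.Stmt_FRM) (hCHR : Pool.FR.Stmt_CHR) : Stmt_EGG := by
  intro U hU F G hF hG hgg x hx
  have hc := (hCHR U hU F hF).2.2 G hG hgg
  rw [EGG_gauss hFRM hU hF hx, EGG_gauss hFRM hU hG hx,
    pd_congr hU (fun y hy => (hc y hy 0 0 1).1) 1 hx,
    pd_congr hU (fun y hy => (hc y hy 0 1 1).1) 0 hx]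
  simp only [(hc x hx _ _ _).2, hgg x hx]

end Pool.TRG
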