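import Pool.Agent.Work.MP_02e829_tr.Interface

/-!
# MP_02e829_gt, TROUGH RIGIDITY, part 1: block EST (the main estimate)
-/

open Set Filter Matrix MeasureTheory Metric
open scoped Topology ContDiff Real

set_option autoImplicit false

namespace Pool.TRG

theorem EST_add {u v : ℝ → ℝ} (hu : Continuous u) (hv : Continuous v) :
    (IC fun x => u x + v x) = IC u + IC v :=
  intervalIntegral.integral_add (hu.intervalIntegrable _ _) (hv.intervalIntegrable _ _)

theorem EST_add3 {u v w : ℝ → ℝ} (hu : Continuous u) (hv : Continuous v) (hw : Continuous w) :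
    (IC fun x => u x + v x + w x) = IC u + IC v + IC w := by
  rw [EST_add (u := fun x => u x + v x) (hu.add hv) hw, EST_add hu hv]

theorem EST_add5 {u v w y z : ℝ → ℝ} (hu : Continuous u) (hv : Continuous v) (hw : Continuous w)
    (hy : Continuous y) (hz : Continuous z) :
    (IC fun x => u x + v x + w x + y x + z x) = IC u + IC v + IC w + IC y + IC z := by
  rw [EST_add (u := fun x => u x + v x + w x + y x) (((hu.add hv).add hw).add hy) hz,
    EST_add (u := fun x => u x + v x + w x) ((hu.add hv).add hw) hy, EST_add3 hu hv hw]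

theorem EST_sub {u v : ℝ → ℝ} (hu : Continuous u) (hv : Continuous v) :
    (IC fun x => u x - v x) = IC u - IC v :=
  intervalIntegral.integral_sub (hu.intervalIntegrable _ _) (hv.intervalIntegrable _ _)

theorem EST_mono {u v : ℝ → ℝ} (hu : Continuous u) (hv : Continuous v) (h : ∀ x, u x ≤ v x) :
    IC u ≤ IC v :=
  intervalIntegral.integral_mono (by positivity) (hu.intervalIntegrable _ _)
    (hv.intervalIntegrable _ _) h

theorem EST_nonneg {u : ℝ → ℝ} (h : ∀ x, 0 ≤ u x) : 0 ≤ IC u :=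
  intervalIntegral.integral_nonneg_of_forall (by positivity) h

theorem EST_cs (hCSI : Stmt_CSI) {u v : ℝ → ℝ} (hu : Continuous u) (hv : Continuous v) :
    (IC fun x => u x * v x) ≤ √(IC fun x => u x ^ 2) * √(IC fun x => v x ^ 2) := by
  have h1 := Real.abs_le_sqrt (hCSI u v hu hv)
  rw [Real.sqrt_mul (EST_nonneg fun x => sq_nonneg _)] at h1
  exact le_trans (le_abs_self _) h1

theorem EST_cs2 (hCSI : Stmt_CSI) {u v : ℝ → ℝ} (hu : Continuous u) (hv : Continuous v) {P Q : ℝ}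
    (hP : √(IC fun x => u x ^ 2) ≤ P) (hQ : √(IC fun x => v x ^ 2) ≤ Q) :
    (IC fun x => u x * v x) ≤ P * Q :=
  le_trans (EST_cs hCSI hu hv) (mul_le_mul hP hQ (Real.sqrt_nonneg _)
    (le_trans (Real.sqrt_nonneg _) hP))

theorem EST_dot {u v : ℝ → V3} {u' v' : V3} {x : ℝ} (hu : HasDerivAt u u' x)
    (hv : HasDerivAt v v' x) :
    HasDerivAt (fun y => u y ⬝ᵥ v y) (u' ⬝ᵥ v x + u x ⬝ᵥ v') x := by
  simp only [dotProduct, Fin.sum_univ_three]
  have hu1 := hasDerivAt_pi.1 hu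
  have hv1 := hasDerivAt_pi.1 hv
  have h := (((hu1 0).mul (hv1 0)).add ((hu1 1).mul (hv1 1))).add ((hu1 2).mul (hv1 2))
  exact h.congr_deriv (by ring)

theorem EST_cdot {u v : ℝ → V3} (hu : Continuous u) (hv : Continuous v) :
    Continuous fun y => u y ⬝ᵥ v y := by
  simp only [dotProduct, Fin.sum_univ_three]
  have hu1 := continuous_pi_iff.1 hu
  have hv1 := continuous_pi_iff.1 hv
  exact (((hu1 0).mul (hv1 0)).add ((hu1 1).mul (hv1 1))).add ((hu1 2).mul (hv1 2))

theorem EST_cauchy {n e : V3} (h : n ⬝ᵥ n = 1) : (n ⬝ᵥ e) ^ 2 ≤ e ⬝ᵥ e := by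
  simp only [dotProduct, Fin.sum_univ_three] at h ⊢
  have e1 : n 0 * e 0 * (n 0 * e 0) = n 0 * e 0 * (n 0 * e 0) := rfl
  nlinarith [sq_nonneg (n 0 * e 1 - n 1 * e 0), sq_nonneg (n 0 * e 2 - n 2 * e 0),
    sq_nonneg (n 1 * e 2 - n 2 * e 1), h,
    show (n 0 * n 0 + n 1 * n 1 + n 2 * n 2) * (e 0 * e 0 + e 1 * e 1 + e 2 * e 2) =
      (e 0 * e 0 + e 1 * e 1 + e 2 * e 2) by rw [h, one_mul]]

/-- the coefficients of the first mode -/
noncomputable def EST_al (T : ℝ → V3) : V3 := fun i => π⁻¹ * IC fun s => T s i * Real.cos s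

/-- the coefficients of the first mode -/
noncomputable def EST_be (T : ℝ → V3) : V3 := fun i => π⁻¹ * IC fun s => T s i * Real.sin s

/-- the difference -/
noncomputable def EST_d (T : ℝ → V3) (x : ℝ) : V3 :=
  T x - Real.cos x • EST_al T - Real.sin x • EST_be T

/-- its derivative -/
noncomputable def EST_e (a : ℝ → ℝ) (T ν n : ℝ → V3) (x : ℝ) : V3 :=
  ν x + a x • n x + Real.sin x • EST_al T - Real.cos x • EST_be T

theorem EST_dd {ρ a b : ℝ → ℝ} {T ν n : ℝ → V3} (h : Fr ρ a b T ν n) (x : ℝ) :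
    HasDerivAt (EST_d T) (EST_e a T ν n x) x := by
  have h1 := (h.dT x).sub ((Real.hasDerivAt_cos x).smul_const (EST_al T))
  have h2 := h1.sub ((Real.hasDerivAt_sin x).smul_const (EST_be T))
  refine h2.congr_deriv ?_
  unfold EST_e
  rw [neg_smul, sub_neg_eq_add]

theorem EST_de {ρ a b : ℝ → ℝ} {T ν n : ℝ → V3} (h : Fr ρ a b T ν n) (x : ℝ) :
    HasDerivAt (EST_e a T ν n) ((-(T x) + b x • n x) +
      (a x • (-(a x • T x) - b x • ν x) + deriv a x • n x) + Real.cos x • EST_al T +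
        Real.sin x • EST_be T) x := by
  have ha : HasDerivAt a (deriv a x) x := (h.ca.differentiable (by norm_num) x).hasDerivAt
  have h1 := (h.dN x).add (ha.smul (h.dn x))
  have h2 := h1.add ((Real.hasDerivAt_sin x).smul_const (EST_al T))
  have h3 := h2.sub ((Real.hasDerivAt_cos x).smul_const (EST_be T))
  refine h3.congr_deriv ?_
  rw [neg_smul, sub_neg_eq_add]

theorem EST_di (T : ℝ → V3) (i : Fin 3) (x : ℝ) :
    EST_d T x i = T x i - M1 (fun y => T y i) x := by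
  simp only [EST_d, M1, EST_al, EST_be, Pi.sub_apply, Pi.smul_apply, smul_eq_mul]
  ring

/-- the key inequality for the frame -/
theorem EST_key {ρ a b : ℝ → ℝ} {T ν n : ℝ → V3} (h : Fr ρ a b T ν n) {κ : ℝ}
    (hκ : ∀ f : ℝ → ℝ, ContDiff ℝ 1 f →
    Function.Periodic f (2 * π) → (IC fun x => ρ x * f x) = 0 →
    κ * ((IC fun x => (f x - M1 f x) ^ 2) + IC fun x => deriv (fun y => f y - M1 f y) x ^ 2) ≤
      (IC fun x => deriv f x ^ 2) - IC fun x => f x ^ 2)
    (hcT : Continuous T) (hcN : Continuous ν) (hcn : Continuous n)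
    (hcd : Continuous (EST_d T)) (hce : Continuous (EST_e a T ν n)) :
    κ * ((IC fun x => EST_d T x ⬝ᵥ EST_d T x) +
      IC fun x => EST_e a T ν n x ⬝ᵥ EST_e a T ν n x) ≤ IC fun x => a x ^ 2 := by
  have hT1 : ∀ i x, HasDerivAt (fun y => T y i) (ν x i + a x * n x i) x := fun i x => by
    have := hasDerivAt_pi.1 (h.dT x) i
    simpa using this
  have hca := h.ca.continuous
  have hcTi : ∀ i, Continuous fun y => T y i := fun i => continuous_pi_iff.1 hcT i
  have hcNi : ∀ i, Continuous fun y => ν y i := fun i => continuous_pi_iff.1 hcN i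
  have hcni : ∀ i, Continuous fun y => n y i := fun i => continuous_pi_iff.1 hcn i
  have hcdi : ∀ i, Continuous fun y => EST_d T y i := fun i => continuous_pi_iff.1 hcd i
  have hcei : ∀ i, Continuous fun y => EST_e a T ν n y i := fun i => continuous_pi_iff.1 hce i
  have hdT : ∀ i, deriv (fun y => T y i) = fun x => ν x i + a x * n x i := fun i =>
    funext fun x => (hT1 i x).deriv
  have hkey : ∀ i, κ * ((IC fun x => EST_d T x i ^ 2) + IC fun x => EST_e a T ν n x i ^ 2) ≤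
      (IC fun x => (ν x i + a x * n x i) ^ 2) - IC fun x => T x i ^ 2 := by
    intro i
    have hC1 : ContDiff ℝ 1 fun y => T y i := by
      rw [contDiff_one_iff_deriv]
      refine ⟨fun x => (hT1 i x).differentiableAt, ?_⟩
      rw [hdT i]
      exact (hcNi i).add (hca.mul (hcni i))
    have hper : Function.Periodic (fun y => T y i) (2 * π) := fun x => by
      simp only [h.pT x]
    have h1 := hκ (fun y => T y i) hC1 hper (h.clo i)
    have h2 : (fun y => T y i - M1 (fun y => T y i) y) = fun y => EST_d T y i :=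
      funext fun y => (EST_di T i y).symm
    have h3 : deriv (fun y => T y i - M1 (fun y => T y i) y) = fun x => EST_e a T ν n x i := by
      rw [h2]
      funext x
      exact (hasDerivAt_pi.1 (EST_dd h x) i).deriv
    rw [h3, hdT i] at h1
    have h4 : (fun x => (T x i - M1 (fun y => T y i) x) ^ 2) = fun x => EST_d T x i ^ 2 :=
      funext fun x => by rw [← EST_di T i x]
    rw [h4] at h1
    exact h1
  have q0 := hkey 0
  have q1 := hkey 1
  have q2 := hkey 2
  have s1 : (IC fun x => EST_d T x ⬝ᵥ EST_d T x) = (IC fun x => EST_d T x 0 ^ 2) +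
      (IC fun x => EST_d T x 1 ^ 2) + IC fun x => EST_d T x 2 ^ 2 := by
    have e1 : (fun x => EST_d T x ⬝ᵥ EST_d T x) = fun x =>
        (EST_d T x 0 ^ 2 + EST_d T x 1 ^ 2) + EST_d T x 2 ^ 2 := by
      funext x
      simp only [dotProduct, Fin.sum_univ_three]
      ring
    rw [e1]
    exact EST_add3 (u := fun x => EST_d T x 0 ^ 2) (v := fun x => EST_d T x 1 ^ 2)
      (w := fun x => EST_d T x 2 ^ 2) ((hcdi 0).pow 2) ((hcdi 1).pow 2) ((hcdi 2).pow 2)
  have s2 : (IC fun x => EST_e a T ν n x ⬝ᵥ EST_e a T ν n x) =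
      (IC fun x => EST_e a T ν n x 0 ^ 2) +
      (IC fun x => EST_e a T ν n x 1 ^ 2) + IC fun x => EST_e a T ν n x 2 ^ 2 := by
    have e1 : (fun x => EST_e a T ν n x ⬝ᵥ EST_e a T ν n x) = fun x =>
        (EST_e a T ν n x 0 ^ 2 + EST_e a T ν n x 1 ^ 2) + EST_e a T ν n x 2 ^ 2 := by
      funext x
      simp only [dotProduct, Fin.sum_univ_three]
      ring
    rw [e1]
    exact EST_add3 (u := fun x => EST_e a T ν n x 0 ^ 2) (v := fun x => EST_e a T ν n x 1 ^ 2)
      (w := fun x => EST_e a T ν n x 2 ^ 2) ((hcei 0).pow 2) ((hcei 1).pow 2) ((hcei 2).pow 2)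
  have hcv : ∀ i, Continuous fun x => (ν x i + a x * n x i) ^ 2 := fun i =>
    ((hcNi i).add (hca.mul (hcni i))).pow 2
  have s3 : (IC fun x => a x ^ 2) + ((IC fun x => T x 0 ^ 2) + (IC fun x => T x 1 ^ 2) +
      IC fun x => T x 2 ^ 2) = (IC fun x => (ν x 0 + a x * n x 0) ^ 2) +
      (IC fun x => (ν x 1 + a x * n x 1) ^ 2) + IC fun x => (ν x 2 + a x * n x 2) ^ 2 := by
    have r1 := EST_add3 (u := fun x => T x 0 ^ 2) (v := fun x => T x 1 ^ 2)
      (w := fun x => T x 2 ^ 2) ((hcTi 0).pow 2) ((hcTi 1).pow 2) ((hcTi 2).pow 2)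
    have r2 := EST_add (u := fun x => a x ^ 2) (v := fun x => T x 0 ^ 2 + T x 1 ^ 2 + T x 2 ^ 2)
      (hca.pow 2) ((((hcTi 0).pow 2).add ((hcTi 1).pow 2)).add ((hcTi 2).pow 2))
    have r3 := EST_add3 (hcv 0) (hcv 1) (hcv 2)
    rw [← r1, ← r2, ← r3]
    congr 1
    funext x
    have hTT := h.TT x
    have hNN := h.NN x
    have hnn := h.nn x
    have hNn := h.Nn x
    simp only [dotProduct, Fin.sum_univ_three] at hTT hNN hnn hNn
    linear_combination hTT - hNN - a x ^ 2 * hnn - 2 * a x * hNn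
  rw [s1, s2]
  linarith

/-- the integrated identity -/
theorem EST_ident {ρ a b : ℝ → ℝ} {T ν n : ℝ → V3} (h : Fr ρ a b T ν n)
    (hcT : Continuous T) (hcN : Continuous ν) (hcn : Continuous n)
    (hcd : Continuous (EST_d T)) (hce : Continuous (EST_e a T ν n)) :
    (IC fun x => b x ^ 2) = (IC fun x => a x * deriv b x) +
      (IC fun x => (-deriv b x) * (n x ⬝ᵥ EST_e a T ν n x)) +
      (IC fun x => (a x * b x) * (T x ⬝ᵥ EST_e a T ν n x)) +
      (IC fun x => (b x ^ 2) * (ν x ⬝ᵥ EST_e a T ν n x)) +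
      (IC fun x => b x * (n x ⬝ᵥ EST_d T x)) := by
  have hca := h.ca.continuous
  have hcb := h.cb.continuous
  have hca' : Continuous (deriv a) := h.ca.continuous_deriv (le_refl _)
  have hcb' : Continuous (deriv b) := h.cb.continuous_deriv (by norm_num)
  have c1 : Continuous fun x => a x * deriv b x := hca.mul hcb'
  have c2 : Continuous fun x => (-deriv b x) * (n x ⬝ᵥ EST_e a T ν n x) :=
    hcb'.neg.mul (EST_cdot hcn hce)
  have c3 : Continuous fun x => (a x * b x) * (T x ⬝ᵥ EST_e a T ν n x) :=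
    (hca.mul hcb).mul (EST_cdot hcT hce)
  have c4 : Continuous fun x => (b x ^ 2) * (ν x ⬝ᵥ EST_e a T ν n x) :=
    (hcb.pow 2).mul (EST_cdot hcN hce)
  have c5 : Continuous fun x => b x * (n x ⬝ᵥ EST_d T x) := hcb.mul (EST_cdot hcn hcd)
  rw [← EST_add5 c1 c2 c3 c4 c5]
  -- the function with the integral 0
  have hH : ∀ x, HasDerivAt (fun y => b y * (n y ⬝ᵥ EST_e a T ν n y) - a y * b y)
      (b x ^ 2 - ((((a x * deriv b x + (-deriv b x) * (n x ⬝ᵥ EST_e a T ν n x)) +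
        (a x * b x) * (T x ⬝ᵥ EST_e a T ν n x)) + (b x ^ 2) * (ν x ⬝ᵥ EST_e a T ν n x)) +
        b x * (n x ⬝ᵥ EST_d T x))) x := by
    intro x
    have ha : HasDerivAt a (deriv a x) x := (h.ca.differentiable (by norm_num) x).hasDerivAt
    have hb : HasDerivAt b (deriv b x) x := (h.cb.differentiable (by norm_num) x).hasDerivAt
    have h1 := (hb.mul (EST_dot (h.dn x) (EST_de h x))).sub (ha.mul hb)
    refine h1.congr_deriv ?_
    have hnn := h.nn x
    have hTn := h.Tn x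
    have hNn := h.Nn x
    simp only [dotProduct, Fin.sum_univ_three, EST_d, Pi.add_apply, Pi.sub_apply, Pi.neg_apply,
      Pi.smul_apply, smul_eq_mul] at hnn hTn hNn ⊢
    linear_combination (b x * (b x + deriv a x)) * hnn - b x * a x ^ 2 * hTn -
      b x * (a x * b x) * hNn
  have hcH : Continuous fun x => (b x ^ 2 - ((((a x * deriv b x +
      (-deriv b x) * (n x ⬝ᵥ EST_e a T ν n x)) +
        (a x * b x) * (T x ⬝ᵥ EST_e a T ν n x)) + (b x ^ 2) * (ν x ⬝ᵥ EST_e a T ν n x)) +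
        b x * (n x ⬝ᵥ EST_d T x))) :=
    (hcb.pow 2).sub ((((c1.add c2).add c3).add c4).add c5)
  have hint := intervalIntegral.integral_eq_sub_of_hasDerivAt (a := 0) (b := 2 * π)
    (fun x _ => hH x) (hcH.intervalIntegrable _ _)
  have hbp : b (2 * π) = b 0 := by
    have := h.pb 0
    rwa [zero_add] at this
  have hap : a (2 * π) = a 0 := by
    have := h.pa 0
    rwa [zero_add] at this
  have hnp : n (2 * π) = n 0 := by
    have := h.pn 0
    rwa [zero_add] at this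
  have hNp : ν (2 * π) = ν 0 := by
    have := h.pN 0
    rwa [zero_add] at this
  have hep : EST_e a T ν n (2 * π) = EST_e a T ν n 0 := by
    unfold EST_e
    rw [hap, hnp, hNp, Real.sin_two_pi, Real.cos_two_pi, Real.sin_zero, Real.cos_zero]
  rw [hbp, hap, hnp, hep, sub_self] at hint
  have hsub := EST_sub (u := fun x => b x ^ 2) (v := fun x => (((a x * deriv b x +
      (-deriv b x) * (n x ⬝ᵥ EST_e a T ν n x)) +
        (a x * b x) * (T x ⬝ᵥ EST_e a T ν n x)) + (b x ^ 2) * (ν x ⬝ᵥ EST_e a T ν n x)) +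
        b x * (n x ⬝ᵥ EST_d T x)) (hcb.pow 2) ((((c1.add c2).add c3).add c4).add c5)
  have h0 : (IC fun x => b x ^ 2 - ((((a x * deriv b x +
      (-deriv b x) * (n x ⬝ᵥ EST_e a T ν n x)) +
        (a x * b x) * (T x ⬝ᵥ EST_e a T ν n x)) + (b x ^ 2) * (ν x ⬝ᵥ EST_e a T ν n x)) +
        b x * (n x ⬝ᵥ EST_d T x))) = 0 := hint
  linarith

theorem EST_num {A B N r C S P : ℝ} (hA : 0 ≤ A) (hB : 0 ≤ B) (hN : 0 ≤ N) (hr : 0 ≤ r)
    (hC : 0 ≤ C) (hAS : A ≤ C * S * B) (hP : P ≤ A * N + N * (r * A) + (C * B) * (r * A) +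
      B * (r * A) + B * (r * A)) :
    P ≤ C * (1 + r) * (C + 2) * S * B * (N + B) := by
  have h1 : A * N + N * (r * A) + (C * B) * (r * A) + B * (r * A) + B * (r * A) ≤
      A * ((1 + r) * (C + 2) * (N + B)) := by
    have e : A * ((1 + r) * (C + 2) * (N + B)) - (A * N + N * (r * A) + (C * B) * (r * A) +
        B * (r * A) + B * (r * A)) = A * ((C + 1) * N + (C + 1) * (r * N) + (C + 2) * B) := by
      ring
    have e0 : 0 ≤ A * ((C + 1) * N + (C + 1) * (r * N) + (C + 2) * B) := by positivity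
    linarith
  have h2 : A * ((1 + r) * (C + 2) * (N + B)) ≤ (C * S * B) * ((1 + r) * (C + 2) * (N + B)) :=
    mul_le_mul_of_nonneg_right hAS (by positivity)
  calc P ≤ _ := hP
    _ ≤ _ := h1
    _ ≤ _ := h2
    _ = _ := by ring

theorem p_EST (hCSI : Stmt_CSI) (_hIBP : Stmt_IBP) (hKEY : Stmt_KEY) : Stmt_EST := by
  intro ρ hρ C hC
  obtain ⟨κ, hκ, hkey⟩ := hKEY ρ hρ
  refine ⟨C * (1 + √(κ⁻¹)) * (C + 2), by positivity, ?_⟩
  intro a b T ν n h S hS0 hS1 haC hbS
  have hcT : Continuous T := continuous_iff_continuousAt.2 fun x => (h.dT x).continuousAt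
  have hcN : Continuous ν := continuous_iff_continuousAt.2 fun x => (h.dN x).continuousAt
  have hcn : Continuous n := continuous_iff_continuousAt.2 fun x => (h.dn x).continuousAt
  have hcd : Continuous (EST_d T) := continuous_iff_continuousAt.2 fun x => (EST_dd h x).continuousAt
  have hce : Continuous (EST_e a T ν n) :=
    continuous_iff_continuousAt.2 fun x => (EST_de h x).continuousAt
  have hca := h.ca.continuous
  have hcb := h.cb.continuous
  have hcb' : Continuous (deriv b) := h.cb.continuous_deriv (by norm_num)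
  have hk := EST_key h hkey hcT hcN hcn hcd hce
  have hid := EST_ident h hcT hcN hcn hcd hce
  obtain ⟨A, hA⟩ : ∃ A, A = IC fun x => a x ^ 2 := ⟨_, rfl⟩
  obtain ⟨E, hE⟩ : ∃ E, E = IC fun x => EST_e a T ν n x ⬝ᵥ EST_e a T ν n x := ⟨_, rfl⟩
  obtain ⟨G, hG⟩ : ∃ G, G = IC fun x => EST_d T x ⬝ᵥ EST_d T x := ⟨_, rfl⟩
  rw [← hA, ← hE, ← hG] at hk
  have hself : ∀ v : V3, 0 ≤ v ⬝ᵥ v := fun v => by
    simp only [dotProduct, Fin.sum_univ_three]
    nlinarith [sq_nonneg (v 0), sq_nonneg (v 1), sq_nonneg (v 2)]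
  have hE0 : 0 ≤ E := by
    rw [hE]
    exact EST_nonneg fun x => hself _
  have hG0 : 0 ≤ G := by
    rw [hG]
    exact EST_nonneg fun x => hself _
  have hA0 : 0 ≤ A := by
    rw [hA]
    exact EST_nonneg fun x => sq_nonneg _
  have hEA : √E ≤ √(κ⁻¹) * √A := by
    rw [← Real.sqrt_mul (by positivity)]
    apply Real.sqrt_le_sqrt
    rw [inv_mul_eq_div, le_div_iff₀ hκ]
    nlinarith
  have hGA : √G ≤ √(κ⁻¹) * √A := by
    rw [← Real.sqrt_mul (by positivity)]
    apply Real.sqrt_le_sqrt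
    rw [inv_mul_eq_div, le_div_iff₀ hκ]
    nlinarith
  have hb2 : ∀ x, b x ^ 2 ≤ S ^ 2 := fun x => by
    rw [← sq_abs]
    exact pow_le_pow_left₀ (abs_nonneg _) (hbS x) 2
  have hb1 : ∀ x, b x ^ 2 ≤ 1 := fun x => le_trans (hb2 x) (pow_le_one₀ hS0 hS1)
  have ha2 : ∀ x, a x ^ 2 ≤ C ^ 2 * (b x ^ 2 * b x ^ 2) := fun x => by
    rw [← sq_abs (a x)]
    calc |a x| ^ 2 ≤ (C * b x ^ 2) ^ 2 := pow_le_pow_left₀ (abs_nonneg _) (haC x) 2
      _ = _ := by ring
  have hmul : ∀ c : ℝ, 0 ≤ c → √(IC fun x => c ^ 2 * b x ^ 2) = c * √(IC fun x => b x ^ 2) := by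
    intro c hc
    unfold IC
    rw [intervalIntegral.integral_const_mul, Real.sqrt_mul (sq_nonneg c), Real.sqrt_sq hc]
  have hAS : √A ≤ C * S * √(IC fun x => b x ^ 2) := by
    rw [← hmul (C * S) (by positivity), hA]
    apply Real.sqrt_le_sqrt
    refine EST_mono (hca.pow 2) (continuous_const.mul (hcb.pow 2)) fun x => ?_
    refine le_trans (ha2 x) ?_
    have e1 : C ^ 2 * (b x ^ 2 * b x ^ 2) ≤ C ^ 2 * (S ^ 2 * b x ^ 2) :=
      mul_le_mul_of_nonneg_left (mul_le_mul_of_nonneg_right (hb2 x) (sq_nonneg _)) (sq_nonneg _)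
    calc _ ≤ _ := e1
      _ = _ := by ring
  -- the terms
  have hle : ∀ u : ℝ → V3, Continuous u → (∀ x, u x ⬝ᵥ u x = 1) →
      √(IC fun x => (u x ⬝ᵥ EST_e a T ν n x) ^ 2) ≤ √(κ⁻¹) * √A := by
    intro u hu hu1
    refine le_trans (Real.sqrt_le_sqrt ?_) hEA
    rw [hE]
    exact EST_mono ((EST_cdot hu hce).pow 2) (EST_cdot hce hce) fun x => EST_cauchy (hu1 x)
  have hle2 : √(IC fun x => (n x ⬝ᵥ EST_d T x) ^ 2) ≤ √(κ⁻¹) * √A := by
    refine le_trans (Real.sqrt_le_sqrt ?_) hGA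
    rw [hG]
    exact EST_mono ((EST_cdot hcn hcd).pow 2) (EST_cdot hcd hcd) fun x => EST_cauchy (h.nn x)
  have t1 : (IC fun x => a x * deriv b x) ≤ √A * √(IC fun x => deriv b x ^ 2) := by
    rw [hA]
    exact EST_cs hCSI hca hcb'
  have t2 : (IC fun x => (-deriv b x) * (n x ⬝ᵥ EST_e a T ν n x)) ≤
      √(IC fun x => deriv b x ^ 2) * (√(κ⁻¹) * √A) := by
    refine EST_cs2 hCSI (u := fun x => -deriv b x) hcb'.neg (EST_cdot hcn hce) (le_of_eq ?_)
      (hle n hcn h.nn)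
    simp only [neg_sq]
  have t3 : (IC fun x => (a x * b x) * (T x ⬝ᵥ EST_e a T ν n x)) ≤
      (C * √(IC fun x => b x ^ 2)) * (√(κ⁻¹) * √A) := by
    refine EST_cs2 hCSI (u := fun x => a x * b x) (hca.mul hcb) (EST_cdot hcT hce) ?_
      (hle T hcT h.TT)
    rw [← hmul C hC]
    apply Real.sqrt_le_sqrt
    refine EST_mono (u := fun x => (a x * b x) ^ 2) (v := fun x => C ^ 2 * b x ^ 2)
      ((hca.mul hcb).pow 2) (continuous_const.mul (hcb.pow 2)) fun x => ?_
    rw [mul_pow]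
    have e1 : a x ^ 2 ≤ C ^ 2 := by
      refine le_trans (ha2 x) ?_
      have e2 : b x ^ 2 * b x ^ 2 ≤ 1 := mul_le_one₀ (hb1 x) (sq_nonneg _) (hb1 x)
      have e3 := mul_le_mul_of_nonneg_left e2 (sq_nonneg C)
      linarith
    exact mul_le_mul_of_nonneg_right e1 (sq_nonneg _)
  have t4 : (IC fun x => (b x ^ 2) * (ν x ⬝ᵥ EST_e a T ν n x)) ≤
      √(IC fun x => b x ^ 2) * (√(κ⁻¹) * √A) := by
    refine EST_cs2 hCSI (hcb.pow 2) (EST_cdot hcN hce) ?_ (hle ν hcN h.NN)
    apply Real.sqrt_le_sqrt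
    refine EST_mono ((hcb.pow 2).pow 2) (hcb.pow 2) fun x => ?_
    have e1 := mul_le_mul_of_nonneg_left (hb1 x) (sq_nonneg (b x))
    calc (b x ^ 2) ^ 2 = b x ^ 2 * b x ^ 2 := by ring
      _ ≤ b x ^ 2 * 1 := e1
      _ = _ := mul_one _
  have t5 : (IC fun x => b x * (n x ⬝ᵥ EST_d T x)) ≤
      √(IC fun x => b x ^ 2) * (√(κ⁻¹) * √A) :=
    EST_cs2 hCSI hcb (EST_cdot hcn hcd) (le_refl _) hle2
  refine EST_num (Real.sqrt_nonneg A) (Real.sqrt_nonneg _) (Real.sqrt_nonneg _)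
    (Real.sqrt_nonneg (κ⁻¹)) hC hAS ?_
  refine le_trans (le_of_eq hid) ?_
  linarith

end Pool.TRG
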