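import Pool.Agent.Work.MP_02e829_tr.Interface

open Set Filter Matrix MeasureTheory Metric
open scoped Topology ContDiff Real

set_option autoImplicit false

namespace Pool.TRG

theorem GAP_max {f : ℝ → ℝ} (hc : Continuous f) (hp : Function.Periodic f (2 * π)) :
    ∃ x0, ∀ x, f x ≤ f x0 := by
  have hpi : (0 : ℝ) < 2 * π := by positivity
  obtain ⟨x0, -, hx0⟩ := (isCompact_Icc (a := (0 : ℝ)) (b := 2 * π)).exists_isMaxOn
    (nonempty_Icc.2 hpi.le) hc.continuousOn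
  refine ⟨x0, fun x => ?_⟩
  obtain ⟨y, hy, hxy⟩ := hp.exists_mem_Ico₀ hpi x
  rw [hxy]
  exact hx0 (Ico_subset_Icc_self hy)

theorem GAP_nn (u : ℝ → ℝ) : 0 ≤ IC fun x => u x ^ 2 :=
  intervalIntegral.integral_nonneg (by positivity) fun _ _ => sq_nonneg _

/-- the arithmetic -/
theorem GAP_arith {C₁ M S β N δ K η : ℝ} (_hC₁ : 0 ≤ C₁) (hM : 0 ≤ M) (hS : 0 < S) (hβ0 : 0 ≤ β)
    (hN : 0 ≤ N) (hSδ : S ≤ δ) (hη0 : 0 < η) (hη1 : η ≤ 1) (hδ : δ = η ^ 2)
    (hK : K = 2 * C₁ ^ 2 * (3 * M + 3)) (hη : K * ((3 + 6 * √M) * η) < 1)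
    (h1 : β ^ 2 ≤ C₁ * S * β * (N + β)) (h2 : N ^ 2 ≤ 3 * M * β) (h3 : S ^ 2 ≤ β ^ 2 + 2 * β * N)
    (h4 : β ^ 2 ≤ 9 * S ^ 2) : False := by
  have hβ : 0 < β := by
    rcases hβ0.lt_or_eq with h | h
    · exact h
    · exfalso
      rw [← h] at h3
      nlinarith [mul_pos hS hS]
  have hβS : β ≤ 3 * S := by
    by_contra hcon
    push Not at hcon
    nlinarith
  have hS1 : S ≤ 1 := hSδ.trans (by rw [hδ]; nlinarith)
  have hβ3 : β ≤ 3 := by linarith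
  have h5 : β ≤ C₁ * S * (N + β) := by
    have : β * β ≤ β * (C₁ * S * (N + β)) := by nlinarith
    exact le_of_mul_le_mul_left this hβ
  have h6 : β ≤ K * S ^ 2 := by
    have h7 : β ^ 2 ≤ (C₁ * S * (N + β)) ^ 2 := by
      have := mul_self_le_mul_self hβ.le h5
      nlinarith
    have h8 : (N + β) ^ 2 ≤ 2 * (3 * M * β + β * 3) := by nlinarith [sq_nonneg (N - β)]
    have h9 : β ^ 2 ≤ β * (K * S ^ 2) := by
      calc β ^ 2 ≤ (C₁ * S * (N + β)) ^ 2 := h7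
        _ = (C₁ ^ 2 * S ^ 2) * (N + β) ^ 2 := by ring
        _ ≤ (C₁ ^ 2 * S ^ 2) * (2 * (3 * M * β + β * 3)) :=
            mul_le_mul_of_nonneg_left h8 (by positivity)
        _ = β * (K * S ^ 2) := by rw [hK]; ring
    have h10 : β * β ≤ β * (K * S ^ 2) := by nlinarith
    exact le_of_mul_le_mul_left h10 hβ
  have hsM : 0 ≤ √M := Real.sqrt_nonneg _
  have hM2 : √M ^ 2 = M := Real.sq_sqrt hM
  have h11 : N ≤ 3 * √M * η := by
    have : N ^ 2 ≤ (3 * √M * η) ^ 2 := by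
      calc N ^ 2 ≤ 3 * M * β := h2
        _ ≤ 3 * M * (3 * δ) := by
          have : β ≤ 3 * δ := by linarith
          exact mul_le_mul_of_nonneg_left this (by positivity)
        _ = (3 * √M * η) ^ 2 := by rw [hδ, mul_pow, mul_pow, hM2]; ring
    exact abs_le_of_sq_le_sq' this (by positivity) |>.2
  have h12 : β + 2 * N ≤ (3 + 6 * √M) * η := by
    have : β ≤ 3 * η := by
      have : δ ≤ η := by rw [hδ]; nlinarith
      linarith
    nlinarith
  have hK0 : 0 ≤ K := by rw [hK]; positivity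
  have h13 : S ^ 2 ≤ S ^ 2 * (K * ((3 + 6 * √M) * η)) := by
    calc S ^ 2 ≤ β * (β + 2 * N) := by nlinarith
      _ ≤ (K * S ^ 2) * (β + 2 * N) := mul_le_mul_of_nonneg_right h6 (by positivity)
      _ ≤ (K * S ^ 2) * ((3 + 6 * √M) * η) := mul_le_mul_of_nonneg_left h12 (by positivity)
      _ = _ := by ring
  have : 0 < S ^ 2 := by positivity
  nlinarith

theorem p_GAP (hEST : Stmt_EST) (hSUB : Stmt_SUB) (hINT : Stmt_INT) : Stmt_GAP := by
  intro ρ hρ C M hC hM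
  obtain ⟨C₁, hC₁, hest⟩ := hEST ρ hρ C hC
  set K : ℝ := 2 * C₁ ^ 2 * (3 * M + 3) with hK
  have hK0 : 0 ≤ K := by rw [hK]; positivity
  have hL0 : 0 ≤ 3 + 6 * √M := by positivity
  set η : ℝ := (1 + K * (3 + 6 * √M))⁻¹ with hη
  have hpos : 0 < 1 + K * (3 + 6 * √M) := by positivity
  have hη0 : 0 < η := inv_pos.2 hpos
  have hη1 : η ≤ 1 := by
    rw [hη]
    exact inv_le_one_of_one_le₀ (by nlinarith [mul_nonneg hK0 hL0])
  have hη2 : K * ((3 + 6 * √M) * η) < 1 := by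
    have : K * ((3 + 6 * √M) * η) = (K * (3 + 6 * √M)) / (1 + K * (3 + 6 * √M)) := by
      rw [hη]; field_simp
    rw [this, div_lt_one hpos]
    linarith
  refine ⟨η ^ 2, by positivity, ?_⟩
  intro a b T ν n hFr hab hbM hbδ
  obtain ⟨x0, hx0⟩ := GAP_max (f := fun x => |b x|) (hFr.cb.continuous.abs)
    (fun x => by simp only [hFr.pb x])
  set S := |b x0| with hS
  by_cases hS0 : S = 0
  · intro x
    have : |b x| ≤ |b x0| := hx0 x
    rw [← hS, hS0] at this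
    exact abs_nonpos_iff.1 this
  exfalso
  have hSpos : 0 < S := lt_of_le_of_ne (abs_nonneg _) (Ne.symm hS0)
  have hSδ : S ≤ η ^ 2 := hbδ x0
  have hS1 : S ≤ 1 := hSδ.trans (by nlinarith)
  set β := √(IC fun x => b x ^ 2) with hβ
  set N := √(IC fun x => deriv b x ^ 2) with hN
  have hβ2 : β ^ 2 = IC fun x => b x ^ 2 := Real.sq_sqrt (GAP_nn b)
  have hN2 : N ^ 2 = IC fun x => deriv b x ^ 2 := Real.sq_sqrt (GAP_nn (deriv b))
  have h1 : β ^ 2 ≤ C₁ * S * β * (N + β) := by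
    rw [hβ2]
    exact hest a b T ν n hFr S hSpos.le hS1 hab (fun x => hx0 x)
  have h2 : N ^ 2 ≤ 3 * M * β := by
    rw [hN2]
    exact hINT b M hFr.cb hFr.pb hM hbM
  have h3 : S ^ 2 ≤ β ^ 2 + 2 * β * N := by
    rw [hβ2, hS, sq_abs]
    exact hSUB b (hFr.cb.of_le (by norm_num)) hFr.pb x0
  have h4 : β ^ 2 ≤ 9 * S ^ 2 := by
    rw [hβ2]
    have h5 : ‖∫ x in (0 : ℝ)..(2 * π), b x ^ 2‖ ≤ S ^ 2 * |2 * π - 0| := by
      refine intervalIntegral.norm_integral_le_of_norm_le_const fun x _ => ?_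
      rw [Real.norm_eq_abs, abs_pow]
      exact pow_le_pow_left₀ (abs_nonneg _) (hx0 x) 2
    have h6 : (IC fun x => b x ^ 2) ≤ S ^ 2 * |2 * π - 0| :=
      (le_abs_self _).trans (by rw [← Real.norm_eq_abs]; exact h5)
    have h7 : |2 * π - 0| ≤ 9 := by
      rw [sub_zero, abs_of_pos (by positivity)]
      linarith [Real.pi_lt_d2]
    calc (IC fun x => b x ^ 2) ≤ S ^ 2 * |2 * π - 0| := h6
      _ ≤ S ^ 2 * 9 := mul_le_mul_of_nonneg_left h7 (by positivity)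
      _ = 9 * S ^ 2 := by ring
  exact GAP_arith hC₁ hM hSpos (Real.sqrt_nonneg _) (Real.sqrt_nonneg _) hSδ hη0 hη1 rfl hK hη2
    h1 h2 h3 h4

end Pool.TRG
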