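import Pool.Agent.Work.MP_02e829_tr.Interface

/-! # TROUGH RIGIDITY, block GPW (MP_02e829_gt, helper95) -/

open Set Filter Matrix MeasureTheory Metric
open scoped Topology ContDiff Real

set_option autoImplicit false

namespace Pool.TRG

open Pool.FR (pd ee gg WW DD NN II Ga Gb Imm SO3)

/-- continuous periodic functions are bounded -/
theorem GPW_bdd (f : ℝ → ℝ) (hf : Continuous f) (hp : Function.Periodic f (2 * π)) :
    ∃ K : ℝ, 0 ≤ K ∧ ∀ x, |f x| ≤ K := by
  have h1 : IsCompact (range f) := hp.compact_of_continuous (by positivity) hf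
  obtain ⟨K, hK⟩ := h1.isBounded.exists_norm_le
  refine ⟨|K|, abs_nonneg K, fun x => ?_⟩
  have := hK (f x) ⟨x, rfl⟩
  rw [Real.norm_eq_abs] at this
  exact le_trans this (le_abs_self K)

theorem GPW_per (ψ : ℝ → ℝ) (hψ : ∀ s, ψ (s + 2 * π) = ψ s + 2 * π) :
    Function.Periodic (deriv ψ) (2 * π) := by
  intro s
  rw [← deriv_comp_add_const ψ (2 * π) s]
  have : (fun x => ψ (x + 2 * π)) = fun x => ψ x + 2 * π := by
    funext x; exact hψ x
  rw [this, deriv_add_const]

theorem GPW_per2 (f : ℝ → ℝ) (hf : Function.Periodic f (2 * π)) :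
    Function.Periodic (deriv f) (2 * π) := by
  intro s
  rw [← deriv_comp_add_const f (2 * π) s]
  have : (fun x => f (x + 2 * π)) = f := by
    funext x; exact hf x
  rw [this]

theorem GPW_der (b ψ : ℝ → ℝ) (hb : ContDiff ℝ 2 b) (hψ : ContDiff ℝ 2 ψ) (s : ℝ) :
    deriv (deriv (fun s => b (ψ s))) s =
      deriv (deriv b) (ψ s) * deriv ψ s * deriv ψ s + deriv b (ψ s) * deriv (deriv ψ) s := by
  have hb1 : Differentiable ℝ b := hb.differentiable (by norm_num)
  have hp1 : Differentiable ℝ ψ := hψ.differentiable (by norm_num)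
  have hb2 : ContDiff ℝ 1 (deriv b) := by
    have : ContDiff ℝ (1 + 1) b := by
      have h : (1 + 1 : WithTop ℕ∞) = 2 := by norm_num
      rw [h]; exact hb
    exact (contDiff_succ_iff_deriv.1 this).2.2
  have hp2 : ContDiff ℝ 1 (deriv ψ) := by
    have : ContDiff ℝ (1 + 1) ψ := by
      have h : (1 + 1 : WithTop ℕ∞) = 2 := by norm_num
      rw [h]; exact hψ
    exact (contDiff_succ_iff_deriv.1 this).2.2
  have hb3 : Differentiable ℝ (deriv b) := hb2.differentiable (by norm_num)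
  have hp3 : Differentiable ℝ (deriv ψ) := hp2.differentiable (by norm_num)
  have h1 : deriv (fun s => b (ψ s)) = fun s => deriv b (ψ s) * deriv ψ s := by
    funext x
    exact ((hb1 (ψ x)).hasDerivAt.comp x (hp1 x).hasDerivAt).deriv
  rw [h1]
  have h2 : HasDerivAt (fun s => deriv b (ψ s)) (deriv (deriv b) (ψ s) * deriv ψ s) s :=
    (hb3 (ψ s)).hasDerivAt.comp s (hp1 s).hasDerivAt
  exact (h2.mul (hp3 s).hasDerivAt).deriv

/-- block GPW -/
theorem p_GPW (h1 : Stmt_GAP) (h2 : Stmt_REP) : Stmt_GPW := by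
  intro φ ρ hW C M hC hM
  obtain ⟨ψ, hψ, hl, hr, hper, hrad, hfr⟩ := h2 φ hW.ang
  have hψ2 : ContDiff ℝ 2 ψ := hψ.of_le (by norm_num)
  have c1 : ContDiff ℝ 2 (deriv ψ) := by
    have : ContDiff ℝ (2 + 1) ψ := by
      have h : (2 + 1 : WithTop ℕ∞) = 3 := by norm_num
      rw [h]; exact hψ
    exact (contDiff_succ_iff_deriv.1 this).2.2
  have c2 : ContDiff ℝ 1 (deriv (deriv ψ)) := by
    have : ContDiff ℝ (1 + 1) (deriv ψ) := by
      have h : (1 + 1 : WithTop ℕ∞) = 2 := by norm_num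
      rw [h]; exact c1
    exact (contDiff_succ_iff_deriv.1 this).2.2
  obtain ⟨K1, hK1, hb1⟩ := GPW_bdd (deriv ψ) c1.continuous (GPW_per ψ hper)
  obtain ⟨K2, hK2, hb2⟩ := GPW_bdd (deriv (deriv ψ)) c2.continuous
    (GPW_per2 _ (GPW_per ψ hper))
  obtain ⟨δ, hδ, hgap⟩ := h1 _ (hrad ρ hW) C (M * K1 * K1 + M * K2) hC (by positivity)
  refine ⟨δ, hδ, ?_⟩
  intro a b T ν n hfrm ha hbb hbd x
  have h3 := hgap _ _ _ _ _ (hfr ρ a b T ν n hW hfrm) (fun s => ha (ψ s)) ?_
    (fun s => hbd (ψ s)) (φ x)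
  · simp only [hl] at h3
    exact h3
  · intro s
    rw [GPW_der b ψ hfrm.cb hψ2 s]
    obtain ⟨e1, e2⟩ := hbb (ψ s)
    calc |deriv (deriv b) (ψ s) * deriv ψ s * deriv ψ s + deriv b (ψ s) * deriv (deriv ψ) s|
        ≤ |deriv (deriv b) (ψ s) * deriv ψ s * deriv ψ s| +
            |deriv b (ψ s) * deriv (deriv ψ) s| := abs_add_le _ _
      _ = |deriv (deriv b) (ψ s)| * |deriv ψ s| * |deriv ψ s| +
            |deriv b (ψ s)| * |deriv (deriv ψ) s| := by simp only [abs_mul]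
      _ ≤ M * K1 * K1 + M * K2 := by
          have := hb1 s
          have := hb2 s
          gcongr

end Pool.TRG
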