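import Pool.Agent.Work.MP_02e829_tr.Interface

/-! # Block IBP (helper77): integration by parts over a period -/

open Set Filter Matrix MeasureTheory Metric
open scoped Topology ContDiff Real

set_option autoImplicit false

namespace Pool.TRG

/-- block IBP -/
theorem p_IBP : Stmt_IBP := by
  intro u v hu hv pu pv
  have hu' : Continuous (deriv u) := hu.continuous_deriv le_rfl
  have hv' : Continuous (deriv v) := hv.continuous_deriv le_rfl
  have h := intervalIntegral.integral_deriv_mul_eq_sub (a := 0) (b := 2 * π)
    (fun x _ => (hu.differentiable one_ne_zero x).hasDerivAt)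
    (fun x _ => (hv.differentiable one_ne_zero x).hasDerivAt)
    (hu'.intervalIntegrable 0 (2 * π)) (hv'.intervalIntegrable 0 (2 * π))
  have h1 : u (2 * π) = u 0 := by
    have := pu 0
    rwa [zero_add] at this
  have h2 : v (2 * π) = v 0 := by
    have := pv 0
    rwa [zero_add] at this
  have h3 : IntervalIntegrable (fun x => deriv u x * v x) volume 0 (2 * π) :=
    (hu'.mul hv.continuous).intervalIntegrable _ _
  have h4 : IntervalIntegrable (fun x => u x * deriv v x) volume 0 (2 * π) :=
    (hu.continuous.mul hv').intervalIntegrable _ _
  rw [h1, h2, sub_self, intervalIntegral.integral_add h3 h4] at h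
  unfold IC
  linarith

end Pool.TRG
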