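import Pool.Agent.Work.MP_02e829_tr.Interface

/-!
# Block INF of TROUGH RIGIDITY: agreement of infinite order on the line
-/

open Set Filter Matrix MeasureTheory Metric
open scoped Topology ContDiff Real

set_option autoImplicit false

namespace Pool.TRG

open Pool.FR (pd ee gg WW DD NN II Ga Gb Imm SO3 pd_congr pd_contDiffOn diff_at pd_comm pd_add pd_cross)

/-- the iterated partial derivative -/
noncomputable def INF_it (l : List (Fin 2)) (u : E2 → V3) : E2 → V3 := l.foldr (fun i f => pd i f) u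

theorem INF_it_cons (i : Fin 2) (l : List (Fin 2)) (u : E2 → V3) : INF_it (i :: l) u = pd i (INF_it l u) := rfl

theorem INF_it_snoc (i : Fin 2) (l : List (Fin 2)) (u : E2 → V3) : INF_it (l ++ [i]) u = INF_it l (pd i u) := by
  unfold INF_it
  rw [List.foldr_append]
  rfl

theorem INF_congr {U : Set E2} (hU : IsOpen U) {f g : E2 → V3} (h : ∀ x ∈ U, f x = g x) (l : List (Fin 2)) :
    ∀ x ∈ U, INF_it l f x = INF_it l g x := by
  induction l with
  | nil => exact h
  | cons i l ih => exact fun x hx => pd_congr hU ih i hx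

theorem INF_pd {U : Set E2} (hU : IsOpen U) {f : E2 → V3} (hf : ContDiffOn ℝ ∞ f U) (i : Fin 2) :
    ContDiffOn ℝ ∞ (pd i f) U := pd_contDiffOn hU hf le_rfl i

theorem INF_smooth {U : Set E2} (hU : IsOpen U) {f : E2 → V3} (hf : ContDiffOn ℝ ∞ f U) (l : List (Fin 2)) :
    ContDiffOn ℝ ∞ (INF_it l f) U := by
  induction l with
  | nil => exact hf
  | cons i l ih => exact INF_pd hU ih i

theorem INF_diff {U : Set E2} (hU : IsOpen U) {f : E2 → V3} (hf : ContDiffOn ℝ ∞ f U) {x : E2} (hx : x ∈ U) :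
    DifferentiableAt ℝ f x := diff_at hU hf (by exact_mod_cast le_top) hx

theorem INF_add {U : Set E2} (hU : IsOpen U) {f g : E2 → V3} (hf : ContDiffOn ℝ ∞ f U) (hg : ContDiffOn ℝ ∞ g U)
    (l : List (Fin 2)) : ∀ x ∈ U, INF_it l (fun y => f y + g y) x = INF_it l f x + INF_it l g x := by
  induction l with
  | nil => exact fun x _ => rfl
  | cons i l ih =>
    intro x hx
    rw [INF_it_cons, INF_it_cons, INF_it_cons, pd_congr hU ih i hx,
      pd_add i (INF_diff hU (INF_smooth hU hf l) hx) (INF_diff hU (INF_smooth hU hg l) hx)]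

theorem INF_csm {U : Set E2} {f g : E2 → V3} (hf : ContDiffOn ℝ ∞ f U) (hg : ContDiffOn ℝ ∞ g U) :
    ContDiffOn ℝ ∞ (fun y => f y ⨯₃ g y) U := Pool.FR.contDiffOn_cross hf hg

/-- flat functions form an ideal -/
theorem INF_cross {U : Set E2} (hU : IsOpen U) (l : List (Fin 2)) : ∀ {u w : E2 → V3}, ContDiffOn ℝ ∞ u U →
    ContDiffOn ℝ ∞ w U → (∀ l : List (Fin 2), ∀ x, pt x ∈ U → INF_it l u (pt x) = 0) →
    ∀ x, pt x ∈ U → INF_it l (fun y => u y ⨯₃ w y) (pt x) = 0 := by
  induction l using List.reverseRecOn with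
  | nil =>
    intro u w _ _ h x hx
    have := h [] x hx
    change u (pt x) ⨯₃ w (pt x) = 0
    change u (pt x) = 0 at this
    rw [this, LinearMap.map_zero, LinearMap.zero_apply]
  | append_singleton l i ih =>
    intro u w hu hw h x hx
    rw [INF_it_snoc]
    have h1 : ∀ z ∈ U, pd i (fun y => u y ⨯₃ w y) z = pd i u z ⨯₃ w z + u z ⨯₃ pd i w z := fun z hz =>
      pd_cross i (INF_diff hU hu hz) (INF_diff hU hw hz)
    rw [INF_congr hU h1 l _ hx]
    rw [INF_add hU (INF_csm (INF_pd hU hu i) hw) (INF_csm hu (INF_pd hU hw i)) l _ hx]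
    rw [ih (INF_pd hU hu i) hw ?_ x hx, ih hu (INF_pd hU hw i) h x hx, add_zero]
    intro l' x' hx'
    rw [← INF_it_snoc]
    exact h _ x' hx'

/-- the derivative along the line of a function vanishing on the line -/
theorem INF_line {U : Set E2} (hU : IsOpen U) {f : E2 → V3} (hf : ContDiffOn ℝ ∞ f U)
    (h : ∀ x, pt x ∈ U → f (pt x) = 0) (x : ℝ) (hx : pt x ∈ U) : pd 0 f (pt x) = 0 := by
  have h1 : HasDerivAt pt (ee 0) x := by
    have := (hasDerivAt_id x).smul_const (ee 0)
    rw [one_smul] at this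
    exact this
  have h2 : HasDerivAt (fun s => f (pt s)) (fderiv ℝ f (pt x) (ee 0)) x :=
    (INF_diff hU hf hx).hasFDerivAt.comp_hasDerivAt x h1
  have h3 : (fun s => f (pt s)) =ᶠ[𝓝 x] fun _ => 0 := by
    have hc : ContinuousAt pt x := h1.continuousAt
    filter_upwards [hc.preimage_mem_nhds (hU.mem_nhds hx)] with s hs
    exact h s hs
  have h4 := h3.deriv_eq
  rw [h2.deriv] at h4
  rw [pd, h4]
  simp

/-- all derivatives across the line vanish, then all derivatives -/
theorem INF_all {U : Set E2} (hU : IsOpen U) (l : List (Fin 2)) : ∀ {u : E2 → V3}, ContDiffOn ℝ ∞ u U →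
    (∀ k, VV U k u) → ∀ x, pt x ∈ U → INF_it l u (pt x) = 0 := by
  induction l using List.reverseRecOn with
  | nil => exact fun _ h x hx => h 1 0 one_pos x hx
  | append_singleton l i ih =>
    intro u hu h x hx
    rw [INF_it_snoc]
    refine ih (INF_pd hU hu i) ?_ x hx
    have hs : ∀ j, ContDiffOn ℝ ∞ ((pd 1)^[j] u) U := by
      intro j
      induction j with
      | zero => exact hu
      | succ j ihj => rw [Function.iterate_succ_apply']; exact INF_pd hU ihj 1
    intro k j hj x' hx'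
    fin_cases i
    · have hc : ∀ j, ∀ z ∈ U, (pd 1)^[j] (pd 0 u) z = pd 0 ((pd 1)^[j] u) z := by
        intro j
        induction j with
        | zero => exact fun z _ => rfl
        | succ j ihj =>
          intro z hz
          rw [Function.iterate_succ_apply', Function.iterate_succ_apply', pd_congr hU ihj 1 hz]
          exact pd_comm hU (n := ((2 : ℕ) : ℕ∞)) ((hs j).of_le (by exact_mod_cast le_top)) le_rfl 1 0 hz
      change (pd 1)^[j] (pd 0 u) (pt x') = 0
      rw [hc j _ hx']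
      exact INF_line hU (hs j) (fun s hs' => h (j + 1) j (Nat.lt_succ_self j) s hs') x' hx'
    · change (pd 1)^[j] (pd 1 u) (pt x') = 0
      rw [← Function.iterate_succ_apply]
      exact h (j + 2) (j + 1) (Nat.lt_succ_self _) x' hx'

theorem p_INF (hYC1 : Pool.SXB.Stmt_YC1) (hUNQ : Stmt_UNQ) (hITD : Stmt_ITD) : Stmt_INF := by
  intro U F G hPL x hx k
  have hU := hPL.pair.op
  obtain ⟨hys, hyv⟩ := hUNQ U F G hPL
  obtain ⟨-, -, hv⟩ := hYC1 U F G hPL.pair
  have hms : ContDiffOn ℝ ∞ (Pool.SXB.mm F G) U := by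
    exact (hPL.smF.add hPL.smG).const_smul (1 / 2 : ℝ)
  have hvs : ContDiffOn ℝ ∞ (Pool.SXB.vv F G) U := by
    exact (hPL.smG.sub hPL.smF).const_smul (1 / 2 : ℝ)
  have hy : ∀ l : List (Fin 2), ∀ x, pt x ∈ U → INF_it l (Pool.SXB.yy F G) (pt x) = 0 := fun l x hx =>
    INF_all hU l hys hyv x hx
  have hz : ∀ l : List (Fin 2), INF_it l (Pool.SXB.vv F G) (pt x) = 0 := by
    intro l
    induction l using List.reverseRecOn with
    | nil =>
      change Pool.SXB.vv F G (pt x) = 0
      unfold Pool.SXB.vv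
      rw [hPL.eq0 x hx, sub_self, smul_zero]
    | append_singleton l i _ =>
      rw [INF_it_snoc, INF_congr hU (fun z hz => hv z hz i) l _ hx]
      exact INF_cross hU l hys (INF_pd hU hms i) hy x hx
  have h0 : iteratedFDeriv ℝ k (Pool.SXB.vv F G) (pt x) = 0 := hITD U hU _ hvs (pt x) hx hz k
  have hG : G = F + (2 : ℝ) • Pool.SXB.vv F G := by
    funext z
    change G z = F z + (2 : ℝ) • ((1 / 2 : ℝ) • (G z - F z))
    rw [smul_smul]
    norm_num
  have hF1 : ContDiffAt ℝ k F (pt x) := ((hPL.smF _ hx).contDiffAt (hU.mem_nhds hx)).of_le (by exact_mod_cast le_top)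
  have hv1 : ContDiffAt ℝ k (Pool.SXB.vv F G) (pt x) :=
    ((hvs _ hx).contDiffAt (hU.mem_nhds hx)).of_le (by exact_mod_cast le_top)
  conv_lhs => rw [hG]
  have h2 : iteratedFDeriv ℝ k ((2 : ℝ) • Pool.SXB.vv F G) (pt x) = 0 := by
    rw [iteratedFDeriv_const_smul_apply hv1, h0, smul_zero]
  have hv2 : ContDiffAt ℝ k ((2 : ℝ) • Pool.SXB.vv F G) (pt x) := by
    have := hv1.const_smul (2 : ℝ)
    exact this
  rw [iteratedFDeriv_add_apply hF1 hv2, h2, add_zero]

end Pool.TRG
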