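import Pool.Agent.Work.MP_02e829_tr.Interface

/-! Block INT (helper69). -/

open Set Filter Matrix MeasureTheory Metric
open scoped Topology ContDiff Real

set_option autoImplicit false

namespace Pool.TRG

theorem p_INT (hCSI : Stmt_CSI) (hIBP : Stmt_IBP) : Stmt_INT := by
  intro b M hb hp hM hbd
  have hb1 : ContDiff ℝ 1 (deriv b) := by
    have h : ContDiff ℝ (1 + 1) b := hb
    exact (contDiff_succ_iff_deriv.1 h).2.2
  have hb2 : Continuous (deriv (deriv b)) := hb1.continuous_deriv le_rfl
  have hp1 : Function.Periodic (deriv b) (2 * π) := by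
    intro x
    have h1 : (fun y => b (y + 2 * π)) = b := funext hp
    have h2 := deriv_comp_add_const b (2 * π) x
    rw [h1] at h2
    exact h2.symm
  have h1 := hIBP b (deriv b) (hb.of_le (by norm_num)) hb1 hp hp1
  have h2 := hCSI b (deriv (deriv b)) hb.continuous hb2
  have h3 : (IC fun x => deriv (deriv b) x ^ 2) ≤ 9 * M ^ 2 := by
    have h4 : (IC fun x => deriv (deriv b) x ^ 2) ≤ ∫ _x in (0 : ℝ)..(2 * π), M ^ 2 := by
      refine intervalIntegral.integral_mono_on (by positivity)
        ((hb2.pow 2).intervalIntegrable _ _) intervalIntegrable_const ?_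
      intro x _
      rw [← sq_abs]
      exact pow_le_pow_left₀ (abs_nonneg _) (hbd x) 2
    rw [intervalIntegral.integral_const, smul_eq_mul, sub_zero] at h4
    have h5 := Real.pi_lt_d2
    nlinarith [sq_nonneg M]
  have h0 : 0 ≤ IC fun x => b x ^ 2 :=
    intervalIntegral.integral_nonneg (by positivity) fun x _ => sq_nonneg _
  have h6 : (IC fun x => deriv b x ^ 2) = -IC fun x => b x * deriv (deriv b) x := by
    rw [← h1]
    congr 1
    funext x
    ring
  rw [h6]
  have h7 : (IC fun x => b x * deriv (deriv b) x) ^ 2 ≤ (3 * M * √(IC fun x => b x ^ 2)) ^ 2 := by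
    rw [mul_pow, Real.sq_sqrt h0]
    calc _ ≤ _ := h2
      _ ≤ (IC fun x => b x ^ 2) * (9 * M ^ 2) := mul_le_mul_of_nonneg_left h3 h0
      _ = _ := by ring
  have h8 := abs_le_of_sq_le_sq' h7 (by positivity)
  linarith [h8.1]

end Pool.TRG
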