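import Pool.Agent.Work.MP_02e829_tr.Interface

/-!
Block ITD: a smooth function all of whose iterated partial derivatives vanish at a point has vanishing iterated derivatives there.
-/

set_option autoImplicit false

open Set Filter Matrix MeasureTheory Metric
open scoped Topology ContDiff Real

namespace Pool.TRG

open Pool.FR (pd ee)

theorem ITD_key {U : Set E2} (hU : IsOpen U) {u : E2 → V3} (hu : ContDiffOn ℝ ∞ u U) :
    ∀ (k : ℕ) (i : Fin k → Fin 2), ∀ x ∈ U,
      iteratedFDeriv ℝ k u x (fun a => ee (i a)) = (List.ofFn i).foldr (fun i f => pd i f) u x := by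
  intro k
  induction k with
  | zero =>
    intro i x _
    simp
  | succ k ih =>
    intro i x hx
    rw [iteratedFDeriv_succ_apply_left, List.ofFn_succ, List.foldr_cons]
    have hd : DifferentiableAt ℝ (iteratedFDeriv ℝ k u) x := by
      have h1 : ContDiffAt ℝ ∞ u x := hu.contDiffAt (hU.mem_nhds hx)
      exact h1.differentiableAt_iteratedFDeriv (by exact_mod_cast WithTop.coe_lt_top (k : ℕ))
    have h2 : (fun y => iteratedFDeriv ℝ k u y (fun a => ee (i a.succ))) =ᶠ[𝓝 x]
        (List.ofFn fun a : Fin k => i a.succ).foldr (fun i f => pd i f) u :=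
      Filter.eventuallyEq_of_mem (hU.mem_nhds hx) (fun y hy => ih (fun a => i a.succ) y hy)
    have h3 : HasFDerivAt (fun y => iteratedFDeriv ℝ k u y (fun a => ee (i a.succ)))
        ((ContinuousMultilinearMap.apply ℝ (fun _ : Fin k => E2) V3 (fun a => ee (i a.succ))).comp
          (fderiv ℝ (iteratedFDeriv ℝ k u) x)) x :=
      (ContinuousMultilinearMap.apply ℝ (fun _ : Fin k => E2) V3 (fun a => ee (i a.succ))).hasFDerivAt.comp x
        hd.hasFDerivAt
    show _ = fderiv ℝ (List.foldr (fun i f => pd i f) u (List.ofFn fun a : Fin k => i a.succ)) x (ee (i 0))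
    rw [← h2.fderiv_eq, h3.fderiv]
    rfl

theorem p_ITD : Stmt_ITD := by
  intro U hU u hu x hx h k
  have h1 : ∀ i : Fin k → Fin 2, iteratedFDeriv ℝ k u x (fun a => ee (i a)) = 0 := fun i => by
    rw [ITD_key hU hu k i x hx]
    exact h _
  apply ContinuousMultilinearMap.toMultilinearMap_injective
  refine Module.Basis.ext_multilinear (fun _ => (EuclideanSpace.basisFun (Fin 2) ℝ).toBasis) ?_
  intro v
  have e : (fun i : Fin k => (EuclideanSpace.basisFun (Fin 2) ℝ).toBasis (v i)) = fun a => ee (v a) := by
    funext a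
    simp [ee]
  have h2 := h1 v
  simp only [e]
  exact h2

end Pool.TRG
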