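import Pool.Agent.Work.MP_02e829_tr.Interface2

/-!
# Block JT2: the iterated derivatives of order at most two are determined by the partial derivatives
-/

open Set Filter Manifold Matrix MeasureTheory Metric
open scoped Topology ContDiff Manifold Real

set_option autoImplicit false

universe w

namespace Pool.TRG

open Pool
open Pool.FR (pd ee gg WW DD NN II Ga Gb Imm SO3)
open Pool.SXB (E3 L3 Proper PosCurv Fam2 Fam3 Transv)

/-- linear maps on the plane are determined by their values on the basis -/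
theorem JT2_lin {G : Type*} [AddCommGroup G] [Module ℝ G] [TopologicalSpace G]
    {A B : E2 →L[ℝ] G} (h : ∀ i, A (ee i) = B (ee i)) : A = B := by
  have hb : (A : E2 →ₗ[ℝ] G) = B := by
    refine (EuclideanSpace.basisFun (Fin 2) ℝ).toBasis.ext fun i => ?_
    have : (EuclideanSpace.basisFun (Fin 2) ℝ).toBasis i = ee i := by
      simp [ee]
    rw [this]
    exact h i
  ext x
  exact congrArg (fun L : E2 →ₗ[ℝ] G => L x) hb

theorem JT2_key {U : Set E2} (hU : IsOpen U) {f : E2 → E3} (hf : ContDiffOn ℝ 2 f U) {x : E2}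
    (hx : x ∈ U) (a b : Fin 2) : pd a (pd b f) x = fderiv ℝ (fderiv ℝ f) x (ee a) (ee b) := by
  have h1 : ContDiffOn ℝ 1 (fderiv ℝ f) U := hf.fderiv_of_isOpen hU (by norm_num)
  have hd : DifferentiableAt ℝ (fderiv ℝ f) x :=
    (h1.differentiableOn (by norm_num) x hx).differentiableAt (hU.mem_nhds hx)
  have h2 : pd b f = fun y => fderiv ℝ f y (ee b) := rfl
  rw [pd, h2, fderiv_clm_apply hd (differentiableAt_const _)]
  simp

theorem p_JT2 : Stmt_JT2 := by
  intro U hU u w hu hw x hx h0 h1 h2 k hk
  have e1 : fderiv ℝ u x = fderiv ℝ w x := JT2_lin fun i => h1 i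
  have e2 : fderiv ℝ (fderiv ℝ u) x = fderiv ℝ (fderiv ℝ w) x := by
    refine JT2_lin fun i => JT2_lin fun j => ?_
    rw [← JT2_key hU hu hx, ← JT2_key hU hw hx]
    exact h2 i j
  interval_cases k
  · ext m
    rw [iteratedFDeriv_zero_apply, iteratedFDeriv_zero_apply, h0]
  · ext m
    rw [iteratedFDeriv_one_apply, iteratedFDeriv_one_apply, e1]
  · ext m
    rw [iteratedFDeriv_two_apply, iteratedFDeriv_two_apply, e2]

end Pool.TRG
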