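import Pool.Agent.Work.MP_02e829_tr.Interface

/-!
# MP_02e829_gt, TROUGH RIGIDITY, block KEY (helper79)
-/

open Set Filter Matrix MeasureTheory Metric
open scoped Topology ContDiff Real

set_option autoImplicit false

namespace Pool.TRG

/-- the integral over a period as a linear functional -/
noncomputable def KEY_L : C(ℝ, ℝ) →ₗ[ℝ] ℝ where
  toFun u := IC u
  map_add' u v := by
    unfold IC
    simp only [ContinuousMap.add_apply]
    exact intervalIntegral.integral_add (u.continuous.intervalIntegrable _ _)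
      (v.continuous.intervalIntegrable _ _)
  map_smul' c u := by
    unfold IC
    simp only [ContinuousMap.smul_apply, smul_eq_mul, RingHom.id_apply]
    exact intervalIntegral.integral_const_mul _ _

/-- the cosine -/
noncomputable def KEY_C : C(ℝ, ℝ) := ⟨Real.cos, Real.continuous_cos⟩

/-- the sine -/
noncomputable def KEY_S : C(ℝ, ℝ) := ⟨Real.sin, Real.continuous_sin⟩

theorem KEY_L1 : KEY_L 1 = 2 * π := by
  have h : KEY_L 1 = ∫ _x in (0 : ℝ)..(2 * π), (1 : ℝ) := rfl
  rw [h, intervalIntegral.integral_const, smul_eq_mul, sub_zero, mul_one]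

theorem KEY_LC : KEY_L KEY_C = 0 := by
  have h : KEY_L KEY_C = ∫ x in (0 : ℝ)..(2 * π), Real.cos x := rfl
  rw [h, integral_cos, Real.sin_two_pi, Real.sin_zero, sub_zero]

theorem KEY_LS : KEY_L KEY_S = 0 := by
  have h : KEY_L KEY_S = ∫ x in (0 : ℝ)..(2 * π), Real.sin x := rfl
  rw [h, integral_sin, Real.cos_two_pi, Real.cos_zero, sub_self]

theorem KEY_LCC : KEY_L (KEY_C * KEY_C) = π := by
  have h : KEY_L (KEY_C * KEY_C) = ∫ x in (0 : ℝ)..(2 * π), Real.cos x ^ 2 := by
    have h1 : KEY_L (KEY_C * KEY_C) = ∫ x in (0 : ℝ)..(2 * π), Real.cos x * Real.cos x := rfl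
    rw [h1]
    simp only [sq]
  rw [h, integral_cos_sq, Real.cos_two_pi, Real.sin_two_pi, Real.cos_zero, Real.sin_zero]
  ring

theorem KEY_LSS : KEY_L (KEY_S * KEY_S) = π := by
  have h : KEY_L (KEY_S * KEY_S) = ∫ x in (0 : ℝ)..(2 * π), Real.sin x ^ 2 := by
    have h1 : KEY_L (KEY_S * KEY_S) = ∫ x in (0 : ℝ)..(2 * π), Real.sin x * Real.sin x := rfl
    rw [h1]
    simp only [sq]
  rw [h, integral_sin_sq, Real.cos_two_pi, Real.sin_two_pi, Real.cos_zero, Real.sin_zero]
  ring

theorem KEY_LSC : KEY_L (KEY_S * KEY_C) = 0 := by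
  have h : KEY_L (KEY_S * KEY_C) = ∫ x in (0 : ℝ)..(2 * π), Real.sin x * Real.cos x := rfl
  rw [h, integral_sin_mul_cos₁, Real.sin_two_pi, Real.sin_zero]
  ring

/-- the decomposition in modes -/
structure KEY_O (f : ℝ → ℝ) (c α β : ℝ) (R : ℝ → ℝ) : Prop where
  cont : Continuous R
  i0 : IC R = 0
  ic : (IC fun x => R x * Real.cos x) = 0
  is : (IC fun x => R x * Real.sin x) = 0
  eq : ∀ x, f x = c + α * Real.cos x + β * Real.sin x + R x

theorem KEY_two {f g : ℝ → ℝ} {c α β c' α' β' : ℝ} {R Q : ℝ → ℝ} (hf : KEY_O f c α β R)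
    (hg : KEY_O g c' α' β' Q) :
    (IC fun x => f x * g x) = 2 * π * (c * c') + π * (α * α' + β * β') + IC fun x => R x * Q x := by
  obtain ⟨Rc, hRc⟩ : ∃ Rc : C(ℝ, ℝ), ∀ x, Rc x = R x := ⟨⟨R, hf.cont⟩, fun _ => rfl⟩
  obtain ⟨Qc, hQc⟩ : ∃ Qc : C(ℝ, ℝ), ∀ x, Qc x = Q x := ⟨⟨Q, hg.cont⟩, fun _ => rfl⟩
  have e : (fun x => f x * g x) = ⇑((c * c') • (1 : C(ℝ, ℝ)) + (α * α') • (KEY_C * KEY_C) +
      (β * β') • (KEY_S * KEY_S) + (α * β' + β * α') • (KEY_S * KEY_C) + (c * α' + α * c') • KEY_C +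
      (c * β' + β * c') • KEY_S + c • Qc + c' • Rc + α • (Qc * KEY_C) + α' • (Rc * KEY_C) +
      β • (Qc * KEY_S) + β' • (Rc * KEY_S) + Rc * Qc) := by
    funext x
    simp only [ContinuousMap.add_apply, ContinuousMap.smul_apply, ContinuousMap.mul_apply,
      ContinuousMap.one_apply, smul_eq_mul, hRc, hQc]
    rw [hf.eq, hg.eq]
    have h1 : KEY_C x = Real.cos x := rfl
    have h2 : KEY_S x = Real.sin x := rfl
    rw [h1, h2]
    ring
  have eL : ∀ u : C(ℝ, ℝ), IC ⇑u = KEY_L u := fun _ => rfl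
  have k1 : KEY_L Rc = 0 := by
    rw [← eL, ← hf.i0]
    exact congrArg IC (funext hRc)
  have k2 : KEY_L Qc = 0 := by
    rw [← eL, ← hg.i0]
    exact congrArg IC (funext hQc)
  have k3 : KEY_L (Rc * KEY_C) = 0 := by
    rw [← eL, ← hf.ic]
    exact congrArg IC (funext fun x => by rw [ContinuousMap.mul_apply, hRc]; rfl)
  have k4 : KEY_L (Qc * KEY_C) = 0 := by
    rw [← eL, ← hg.ic]
    exact congrArg IC (funext fun x => by rw [ContinuousMap.mul_apply, hQc]; rfl)
  have k5 : KEY_L (Rc * KEY_S) = 0 := by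
    rw [← eL, ← hf.is]
    exact congrArg IC (funext fun x => by rw [ContinuousMap.mul_apply, hRc]; rfl)
  have k6 : KEY_L (Qc * KEY_S) = 0 := by
    rw [← eL, ← hg.is]
    exact congrArg IC (funext fun x => by rw [ContinuousMap.mul_apply, hQc]; rfl)
  have k7 : KEY_L (Rc * Qc) = IC fun x => R x * Q x := by
    rw [← eL]
    exact congrArg IC (funext fun x => by rw [ContinuousMap.mul_apply, hRc, hQc])
  rw [e, eL]
  simp only [map_add, map_smul, smul_eq_mul]
  rw [KEY_L1, KEY_LC, KEY_LS, KEY_LCC, KEY_LSS, KEY_LSC, k1, k2, k3, k4, k5, k6, k7]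
  ring

theorem KEY_zero : (IC fun _ => 0) = 0 := by
  unfold IC
  rw [intervalIntegral.integral_zero]

theorem KEY_neg (u : ℝ → ℝ) : (IC fun x => -u x) = -IC u := intervalIntegral.integral_neg

theorem KEY_add {u v : ℝ → ℝ} (hu : Continuous u) (hv : Continuous v) :
    (IC fun x => u x + v x) = IC u + IC v :=
  intervalIntegral.integral_add (hu.intervalIntegrable _ _) (hv.intervalIntegrable _ _)

theorem KEY_der (hIBP : Stmt_IBP) {f : ℝ → ℝ} {c α β : ℝ} {R : ℝ → ℝ} (hf : KEY_O f c α β R)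
    (hR : ContDiff ℝ 1 R) (hp : Function.Periodic R (2 * π)) :
    KEY_O (deriv f) 0 β (-α) (deriv R) := by
  refine ⟨hR.continuous_deriv le_rfl, ?_, ?_, ?_, ?_⟩
  · have h := hIBP R (fun _ => 1) hR contDiff_const hp (fun x => rfl)
    have e1 : (fun x => deriv R x * (fun _ => (1 : ℝ)) x) = deriv R := funext fun x => mul_one _
    have e2 : (fun x => R x * deriv (fun _ : ℝ => (1 : ℝ)) x) = fun _ => 0 := funext fun x => by
      rw [deriv_const, mul_zero]
    rw [e1, e2, KEY_zero, neg_zero] at h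
    exact h
  · have h := hIBP R Real.cos hR Real.contDiff_cos hp Real.cos_periodic
    have e2 : (fun x => R x * deriv Real.cos x) = fun x => -(R x * Real.sin x) := funext fun x => by
      rw [Real.deriv_cos, mul_neg]
    rw [e2, KEY_neg, hf.is, neg_zero, neg_zero] at h
    exact h
  · have h := hIBP R Real.sin hR Real.contDiff_sin hp Real.sin_periodic
    have e2 : (fun x => R x * deriv Real.sin x) = fun x => R x * Real.cos x := funext fun x => by
      rw [Real.deriv_sin]
    rw [e2, hf.ic, neg_zero] at h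
    exact h
  · intro x
    have e : f = fun x => c + α * Real.cos x + β * Real.sin x + R x := funext hf.eq
    have h1 : HasDerivAt R (deriv R x) x := ((hR.differentiable (by norm_num)) x).hasDerivAt
    have h2 := ((((hasDerivAt_const x c).add ((Real.hasDerivAt_cos x).const_mul α)).add
      ((Real.hasDerivAt_sin x).const_mul β)).add h1).deriv
    have e3 : deriv f x = deriv (fun x => c + α * Real.cos x + β * Real.sin x + R x) x := by rw [← e]
    rw [e3]
    refine Eq.trans ?_ (h2.trans ?_)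
    · rfl
    · ring

theorem KEY_dec {f : ℝ → ℝ} (hf : ContDiff ℝ 1 f) (hp : Function.Periodic f (2 * π)) :
    ∃ (c α β : ℝ) (R : ℝ → ℝ), KEY_O f c α β R ∧ ContDiff ℝ 1 R ∧ Function.Periodic R (2 * π) ∧
      ∀ x, M1 f x = α * Real.cos x + β * Real.sin x := by
  obtain ⟨c, hc⟩ : ∃ c : ℝ, c = (2 * π)⁻¹ * IC f := ⟨_, rfl⟩
  obtain ⟨α, hα⟩ : ∃ α : ℝ, α = π⁻¹ * IC fun s => f s * Real.cos s := ⟨_, rfl⟩
  obtain ⟨β, hβ⟩ : ∃ β : ℝ, β = π⁻¹ * IC fun s => f s * Real.sin s := ⟨_, rfl⟩
  have hpi := Real.pi_ne_zero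
  have hR : ContDiff ℝ 1 fun x => f x - c - α * Real.cos x - β * Real.sin x :=
    ((hf.sub contDiff_const).sub (contDiff_const.mul Real.contDiff_cos)).sub
      (contDiff_const.mul Real.contDiff_sin)
  obtain ⟨F, hF⟩ : ∃ F : C(ℝ, ℝ), ∀ x, F x = f x := ⟨⟨f, hf.continuous⟩, fun _ => rfl⟩
  have eL : ∀ u : C(ℝ, ℝ), IC ⇑u = KEY_L u := fun _ => rfl
  have h1 : ∀ x, KEY_C x = Real.cos x := fun _ => rfl
  have h2 : ∀ x, KEY_S x = Real.sin x := fun _ => rfl
  have f0 : KEY_L F = 2 * π * c := by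
    rw [hc, ← eL, ← mul_assoc, mul_inv_cancel₀ (by positivity), one_mul]
    exact congrArg IC (funext hF)
  have f1 : KEY_L (F * KEY_C) = π * α := by
    rw [hα, ← eL, ← mul_assoc, mul_inv_cancel₀ hpi, one_mul]
    exact congrArg IC (funext fun x => by rw [ContinuousMap.mul_apply, hF, h1])
  have f2 : KEY_L (F * KEY_S) = π * β := by
    rw [hβ, ← eL, ← mul_assoc, mul_inv_cancel₀ hpi, one_mul]
    exact congrArg IC (funext fun x => by rw [ContinuousMap.mul_apply, hF, h2])
  have fCS : KEY_L (KEY_C * KEY_S) = 0 := by rw [mul_comm, KEY_LSC]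
  refine ⟨c, α, β, fun x => f x - c - α * Real.cos x - β * Real.sin x, ⟨hR.continuous, ?_, ?_, ?_, ?_⟩,
    hR, ?_, ?_⟩
  · have e : (fun x => f x - c - α * Real.cos x - β * Real.sin x) =
        ⇑(F - c • (1 : C(ℝ, ℝ)) - α • KEY_C - β • KEY_S) := by
      funext x
      simp only [ContinuousMap.sub_apply, ContinuousMap.smul_apply, ContinuousMap.one_apply, smul_eq_mul,
        hF, h1, h2]
      ring
    rw [e, eL]
    simp only [map_sub, map_smul, smul_eq_mul]
    rw [f0, KEY_L1, KEY_LC, KEY_LS]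
    ring
  · have e : (fun x => (f x - c - α * Real.cos x - β * Real.sin x) * Real.cos x) =
        ⇑(F * KEY_C - c • KEY_C - α • (KEY_C * KEY_C) - β • (KEY_S * KEY_C)) := by
      funext x
      simp only [ContinuousMap.sub_apply, ContinuousMap.smul_apply, ContinuousMap.mul_apply, smul_eq_mul,
        hF, h1, h2]
      ring
    rw [e, eL]
    simp only [map_sub, map_smul, smul_eq_mul]
    rw [f1, KEY_LC, KEY_LCC, KEY_LSC]
    ring
  · have e : (fun x => (f x - c - α * Real.cos x - β * Real.sin x) * Real.sin x) =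
        ⇑(F * KEY_S - c • KEY_S - α • (KEY_C * KEY_S) - β • (KEY_S * KEY_S)) := by
      funext x
      simp only [ContinuousMap.sub_apply, ContinuousMap.smul_apply, ContinuousMap.mul_apply, smul_eq_mul,
        hF, h1, h2]
      ring
    rw [e, eL]
    simp only [map_sub, map_smul, smul_eq_mul]
    rw [f2, KEY_LS, fCS, KEY_LSS]
    ring
  · intro x
    ring
  · intro x
    simp only [hp x, Real.cos_add_two_pi, Real.sin_add_two_pi]
  · intro x
    rw [hα, hβ]
    rfl

theorem KEY_sq (u : ℝ → ℝ) : (IC fun x => u x ^ 2) = IC fun x => u x * u x :=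
  congrArg IC (funext fun x => sq (u x))

theorem p_KEY (hCSI : Stmt_CSI) (hIBP : Stmt_IBP) (hWIR : Stmt_WIR) (hSUP : Stmt_SUP) : Stmt_KEY := by
  intro ρ hρ
  obtain ⟨q, hq, hqp, hqe, hJ⟩ := hSUP ρ hρ
  have hq1 : ContDiff ℝ 1 q := hq.of_le (by norm_num)
  have hdq : ContDiff ℝ 1 (deriv q) := by
    have h : ContDiff ℝ (1 + 1) q := hq
    exact (contDiff_succ_iff_deriv.1 h).2.2
  have hdqp : Function.Periodic (deriv q) (2 * π) := by
    intro x
    have h1 : (fun y => q (y + 2 * π)) = q := funext hqp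
    have h2 := deriv_comp_add_const q (2 * π) x
    rw [h1] at h2
    exact h2.symm
  have hddc : Continuous (deriv (deriv q)) := hdq.continuous_deriv le_rfl
  -- the functional `ρ` in terms of `q`
  have hrho : ∀ f : ℝ → ℝ, ContDiff ℝ 1 f → Function.Periodic f (2 * π) →
      (IC fun x => ρ x * f x) = -(IC fun x => deriv q x * deriv f x) + IC fun x => q x * f x := by
    intro f hf hfp
    have h1 := hIBP (deriv q) f hdq hf hdqp hfp
    have h2 : (IC fun x => deriv (deriv q) x * f x + q x * f x) =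
        (IC fun x => deriv (deriv q) x * f x) + IC fun x => q x * f x :=
      KEY_add (hddc.mul hf.continuous) (hq.continuous.mul hf.continuous)
    rw [← h1, ← h2]
    refine congrArg IC (funext fun x => ?_)
    rw [← hqe x]
    ring
  obtain ⟨c', α', β', Q, hQ, hQs, hQp, -⟩ := KEY_dec hq1 hqp
  have hQ' := KEY_der hIBP hQ hQs hQp
  -- `J`
  obtain ⟨J, hJe⟩ : ∃ J : ℝ, J = IC fun x => ρ x * q x := ⟨_, rfl⟩
  rw [← hJe] at hJ
  have hJ1 := hrho q hq1 hqp
  rw [KEY_two hQ hQ, KEY_two hQ' hQ', ← hJe] at hJ1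
  obtain ⟨bqq, hbqq⟩ : ∃ b : ℝ, b = (IC fun x => deriv Q x * deriv Q x) - IC fun x => Q x * Q x := ⟨_, rfl⟩
  have hJ2 : J = 2 * π * c' ^ 2 - bqq := by
    rw [hJ1, hbqq]
    ring
  -- Wirtinger
  have hwir : ∀ g : ℝ → ℝ, ContDiff ℝ 1 g → Function.Periodic g (2 * π) → IC g = 0 →
      (IC fun x => g x * Real.cos x) = 0 → (IC fun x => g x * Real.sin x) = 0 →
      0 ≤ (IC fun x => g x * g x) ∧ 4 * (IC fun x => g x * g x) ≤ IC fun x => deriv g x * deriv g x := by
    intro g hg hgp h0 hc hs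
    have h1 := hWIR g hg hgp h0 hc hs
    rw [KEY_sq, KEY_sq] at h1
    exact ⟨intervalIntegral.integral_nonneg (by positivity) fun x _ => mul_self_nonneg _, h1⟩
  have hbq0 : 0 ≤ bqq := by
    have h1 := hwir Q hQs hQp hQ.i0 hQ.ic hQ.is
    rw [hbqq]
    linarith [h1.1, h1.2]
  have hpi := Real.pi_pos
  have hc'2 : 0 < 2 * π * c' ^ 2 := by linarith
  refine ⟨3 / 8 * (J / (2 * π * c' ^ 2)), by positivity, ?_⟩
  intro f hf hfp hfo
  obtain ⟨c, α, β, R, hR, hRs, hRp, hM⟩ := KEY_dec hf hfp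
  have hR' := KEY_der hIBP hR hRs hRp
  obtain ⟨r0, hr0⟩ : ∃ r : ℝ, r = IC fun x => R x * R x := ⟨_, rfl⟩
  obtain ⟨r1, hr1⟩ : ∃ r : ℝ, r = IC fun x => deriv R x * deriv R x := ⟨_, rfl⟩
  obtain ⟨m0, hm0⟩ : ∃ r : ℝ, r = IC fun x => Q x * R x := ⟨_, rfl⟩
  obtain ⟨m1, hm1⟩ : ∃ r : ℝ, r = IC fun x => deriv Q x * deriv R x := ⟨_, rfl⟩
  obtain ⟨q0, hq0⟩ : ∃ r : ℝ, r = IC fun x => Q x * Q x := ⟨_, rfl⟩
  obtain ⟨q1, hq1'⟩ : ∃ r : ℝ, r = IC fun x => deriv Q x * deriv Q x := ⟨_, rfl⟩
  have hwR := hwir R hRs hRp hR.i0 hR.ic hR.is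
  rw [← hr0, ← hr1] at hwR
  rw [← hq0, ← hq1'] at hbqq
  -- the closing condition
  have hclo := hrho f hf hfp
  rw [hfo, KEY_two hQ' hR', KEY_two hQ hR, ← hm0, ← hm1] at hclo
  have hclo' : 2 * π * (c' * c) = m1 - m0 := by linarith
  -- Cauchy-Schwarz for the form `B`
  have hCS : (m1 - m0) ^ 2 ≤ bqq * (r1 - r0) := by
    have hpos : ∀ s : ℝ, 0 ≤ bqq * (s * s) + (2 * (m1 - m0)) * s + (r1 - r0) := by
      intro s
      obtain ⟨Rc, hRc⟩ : ∃ Rc : C(ℝ, ℝ), ∀ x, Rc x = R x := ⟨⟨R, hR.cont⟩, fun _ => rfl⟩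
      obtain ⟨Qc, hQc⟩ : ∃ Qc : C(ℝ, ℝ), ∀ x, Qc x = Q x := ⟨⟨Q, hQ.cont⟩, fun _ => rfl⟩
      obtain ⟨Rd, hRd⟩ : ∃ Rd : C(ℝ, ℝ), ∀ x, Rd x = deriv R x := ⟨⟨deriv R, hR'.cont⟩, fun _ => rfl⟩
      obtain ⟨Qd, hQd⟩ : ∃ Qd : C(ℝ, ℝ), ∀ x, Qd x = deriv Q x := ⟨⟨deriv Q, hQ'.cont⟩, fun _ => rfl⟩
      have eL : ∀ u : C(ℝ, ℝ), IC ⇑u = KEY_L u := fun _ => rfl
      have hgs : ContDiff ℝ 1 fun x => s * Q x + R x := (contDiff_const.mul hQs).add hRs
      have hgd : ∀ x, deriv (fun x => s * Q x + R x) x = s * deriv Q x + deriv R x := by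
        intro x
        have h1 : HasDerivAt R (deriv R x) x := ((hRs.differentiable (by norm_num)) x).hasDerivAt
        have h2 : HasDerivAt Q (deriv Q x) x := ((hQs.differentiable (by norm_num)) x).hasDerivAt
        exact ((h2.const_mul s).add h1).deriv
      have h1 := hwir (fun x => s * Q x + R x) hgs
        (fun x => by simp only [hQp x, hRp x])
        (by
          have e : (fun x => s * Q x + R x) = ⇑(s • Qc + Rc) := by
            funext x
            simp only [ContinuousMap.add_apply, ContinuousMap.smul_apply, smul_eq_mul, hRc, hQc]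
          rw [e, eL, map_add, map_smul, smul_eq_mul]
          have k1 : KEY_L Rc = 0 := by
            rw [← eL, ← hR.i0]
            exact congrArg IC (funext hRc)
          have k2 : KEY_L Qc = 0 := by
            rw [← eL, ← hQ.i0]
            exact congrArg IC (funext hQc)
          rw [k1, k2, mul_zero, add_zero])
        (by
          have e : (fun x => (s * Q x + R x) * Real.cos x) = ⇑(s • (Qc * KEY_C) + Rc * KEY_C) := by
            funext x
            simp only [ContinuousMap.add_apply, ContinuousMap.smul_apply, ContinuousMap.mul_apply,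
              smul_eq_mul, hRc, hQc]
            have h1 : KEY_C x = Real.cos x := rfl
            rw [h1]
            ring
          rw [e, eL, map_add, map_smul, smul_eq_mul]
          have k1 : KEY_L (Rc * KEY_C) = 0 := by
            rw [← eL, ← hR.ic]
            exact congrArg IC (funext fun x => by rw [ContinuousMap.mul_apply, hRc]; rfl)
          have k2 : KEY_L (Qc * KEY_C) = 0 := by
            rw [← eL, ← hQ.ic]
            exact congrArg IC (funext fun x => by rw [ContinuousMap.mul_apply, hQc]; rfl)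
          rw [k1, k2, mul_zero, add_zero])
        (by
          have e : (fun x => (s * Q x + R x) * Real.sin x) = ⇑(s • (Qc * KEY_S) + Rc * KEY_S) := by
            funext x
            simp only [ContinuousMap.add_apply, ContinuousMap.smul_apply, ContinuousMap.mul_apply,
              smul_eq_mul, hRc, hQc]
            have h1 : KEY_S x = Real.sin x := rfl
            rw [h1]
            ring
          rw [e, eL, map_add, map_smul, smul_eq_mul]
          have k1 : KEY_L (Rc * KEY_S) = 0 := by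
            rw [← eL, ← hR.is]
            exact congrArg IC (funext fun x => by rw [ContinuousMap.mul_apply, hRc]; rfl)
          have k2 : KEY_L (Qc * KEY_S) = 0 := by
            rw [← eL, ← hQ.is]
            exact congrArg IC (funext fun x => by rw [ContinuousMap.mul_apply, hQc]; rfl)
          rw [k1, k2, mul_zero, add_zero])
      have e0 : (IC fun x => (s * Q x + R x) * (s * Q x + R x)) = s * s * q0 + 2 * s * m0 + r0 := by
        have e : (fun x => (s * Q x + R x) * (s * Q x + R x)) =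
            ⇑((s * s) • (Qc * Qc) + (2 * s) • (Qc * Rc) + Rc * Rc) := by
          funext x
          simp only [ContinuousMap.add_apply, ContinuousMap.smul_apply, ContinuousMap.mul_apply,
            smul_eq_mul, hRc, hQc]
          ring
        rw [e, eL, map_add, map_add, map_smul, map_smul, smul_eq_mul, smul_eq_mul, hq0, hm0, hr0]
        have k1 : KEY_L (Qc * Qc) = IC fun x => Q x * Q x :=
          congrArg IC (funext fun x => by rw [ContinuousMap.mul_apply, hQc])
        have k2 : KEY_L (Qc * Rc) = IC fun x => Q x * R x :=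
          congrArg IC (funext fun x => by rw [ContinuousMap.mul_apply, hQc, hRc])
        have k3 : KEY_L (Rc * Rc) = IC fun x => R x * R x :=
          congrArg IC (funext fun x => by rw [ContinuousMap.mul_apply, hRc])
        rw [k1, k2, k3]
      have e1 : (IC fun x => deriv (fun x => s * Q x + R x) x * deriv (fun x => s * Q x + R x) x) =
          s * s * q1 + 2 * s * m1 + r1 := by
        have e : (fun x => deriv (fun x => s * Q x + R x) x * deriv (fun x => s * Q x + R x) x) =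
            ⇑((s * s) • (Qd * Qd) + (2 * s) • (Qd * Rd) + Rd * Rd) := by
          funext x
          simp only [ContinuousMap.add_apply, ContinuousMap.smul_apply, ContinuousMap.mul_apply,
            smul_eq_mul, hRd, hQd]
          rw [hgd]
          ring
        rw [e, eL, map_add, map_add, map_smul, map_smul, smul_eq_mul, smul_eq_mul, hq1', hm1, hr1]
        have k1 : KEY_L (Qd * Qd) = IC fun x => deriv Q x * deriv Q x :=
          congrArg IC (funext fun x => by rw [ContinuousMap.mul_apply, hQd])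
        have k2 : KEY_L (Qd * Rd) = IC fun x => deriv Q x * deriv R x :=
          congrArg IC (funext fun x => by rw [ContinuousMap.mul_apply, hQd, hRd])
        have k3 : KEY_L (Rd * Rd) = IC fun x => deriv R x * deriv R x :=
          congrArg IC (funext fun x => by rw [ContinuousMap.mul_apply, hRd])
        rw [k1, k2, k3]
      rw [e0, e1] at h1
      rw [hbqq]
      nlinarith [h1.1, h1.2]
    have h2 := discrim_le_zero hpos
    unfold discrim at h2
    nlinarith [h2]
  -- the two sides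
  have hL1 : (IC fun x => (f x - M1 f x) ^ 2) = 2 * π * c ^ 2 + r0 := by
    have h1 : KEY_O (fun x => c + R x) c 0 0 R := ⟨hR.cont, hR.i0, hR.ic, hR.is, fun x => by ring⟩
    have h2 := KEY_two h1 h1
    have e : (fun x => (f x - M1 f x) ^ 2) = fun x => (c + R x) * (c + R x) := by
      funext x
      rw [hM, hR.eq]
      ring
    rw [e, h2, hr0]
    ring
  have hL2 : (IC fun x => deriv (fun y => f y - M1 f y) x ^ 2) = r1 := by
    have e : (fun y => f y - M1 f y) = fun y => c + R y := by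
      funext x
      rw [hM, hR.eq]
      ring
    rw [e, KEY_sq, hr1]
    refine congrArg IC (funext fun x => ?_)
    rw [deriv_const_add]
  have hRt : (IC fun x => deriv f x ^ 2) - (IC fun x => f x ^ 2) = r1 - r0 - 2 * π * c ^ 2 := by
    rw [KEY_sq, KEY_sq, KEY_two hR' hR', KEY_two hR hR, hr0, hr1]
    ring
  rw [hL1, hL2, hRt]
  obtain ⟨κ₀, hκ₀⟩ : ∃ κ : ℝ, κ = J / (2 * π * c' ^ 2) := ⟨_, rfl⟩
  have hκpos : 0 < κ₀ := by
    rw [hκ₀]
    positivity
  rw [← hκ₀]
  have hJκ : J = κ₀ * (2 * π * c' ^ 2) := by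
    rw [hκ₀, div_mul_cancel₀ _ hc'2.ne']
  have hE0 : 0 ≤ r1 - r0 := by linarith [hwR.1, hwR.2]
  have hc2 : 2 * π * c ^ 2 ≤ (1 - κ₀) * (r1 - r0) := by
    have h1 : (2 * π * (c' * c)) ^ 2 ≤ bqq * (r1 - r0) := by
      rw [hclo']
      exact hCS
    have h2 : bqq = (1 - κ₀) * (2 * π * c' ^ 2) := by
      have h3 : bqq = 2 * π * c' ^ 2 - J := by linarith
      rw [h3, hJκ]
      ring
    have h3 : (2 * π * c' ^ 2) * (2 * π * c ^ 2) ≤ (2 * π * c' ^ 2) * ((1 - κ₀) * (r1 - r0)) := by
      calc (2 * π * c' ^ 2) * (2 * π * c ^ 2) = (2 * π * (c' * c)) ^ 2 := by ring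
        _ ≤ bqq * (r1 - r0) := h1
        _ = _ := by
          rw [h2]
          ring
    exact le_of_mul_le_mul_left h3 hc'2
  have h5 : 2 * π * c ^ 2 + r0 + r1 ≤ 8 / 3 * (r1 - r0) := by
    have h6 : (1 - κ₀) * (r1 - r0) ≤ r1 - r0 := by nlinarith
    linarith [hwR.1, hwR.2]
  calc 3 / 8 * κ₀ * (2 * π * c ^ 2 + r0 + r1) ≤ 3 / 8 * κ₀ * (8 / 3 * (r1 - r0)) :=
        mul_le_mul_of_nonneg_left h5 (by positivity)
    _ = κ₀ * (r1 - r0) := by ring
    _ ≤ r1 - r0 - 2 * π * c ^ 2 := by linarith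

end Pool.TRG
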