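import Pool.Agent.Work.MP_02e829_tr.Interface2

/-! # Block LBC (MP_02e829, TROUGH RIGIDITY) -/

open Set Filter Manifold Matrix MeasureTheory Metric
open scoped Topology ContDiff Manifold Real

set_option autoImplicit false

universe w

namespace Pool.TRG

open Pool

theorem LBC_bound (n : ℕ) (O : Set E2) (hO : IsOpen O) (ψ : E2 → E2) (hψ : ContDiffOn ℝ n ψ O)
    (x : E2) (hx : x ∈ O) : ∃ D : ℝ, 1 ≤ D ∧ ∀ᶠ y in 𝓝 x, ∀ i ≤ n,
      ‖iteratedFDeriv ℝ i ψ y‖ ≤ D := by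
  have h : ∀ i ≤ n, ∀ᶠ y in 𝓝 x, ‖iteratedFDeriv ℝ i ψ y‖ ≤ ‖iteratedFDeriv ℝ i ψ x‖ + 1 := by
    intro i hi
    have h1 : ContinuousOn (iteratedFDeriv ℝ i ψ) O := by
      have h2 := hψ.continuousOn_iteratedFDerivWithin (m := i) (by exact_mod_cast hi)
        hO.uniqueDiffOn
      exact h2.congr fun y hy => (iteratedFDerivWithin_of_isOpen i hO hy).symm
    have h3 : ContinuousAt (fun y => ‖iteratedFDeriv ℝ i ψ y‖) x :=
      (h1.continuousAt (hO.mem_nhds hx)).norm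
    exact (h3.eventually_lt continuousAt_const (lt_add_one _)).mono fun y hy => hy.le
  refine ⟨1 + ∑ i ∈ Finset.range (n + 1), (‖iteratedFDeriv ℝ i ψ x‖ + 1), ?_, ?_⟩
  · have : 0 ≤ ∑ i ∈ Finset.range (n + 1), (‖iteratedFDeriv ℝ i ψ x‖ + 1) :=
      Finset.sum_nonneg fun i _ => by positivity
    linarith
  · have h4 : ∀ᶠ y in 𝓝 x, ∀ i ∈ Finset.range (n + 1),
        ‖iteratedFDeriv ℝ i ψ y‖ ≤ ‖iteratedFDeriv ℝ i ψ x‖ + 1 := by
      rw [Filter.eventually_all_finset]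
      intro i hi
      exact h i (Nat.lt_succ_iff.1 (Finset.mem_range.1 hi))
    filter_upwards [h4] with y hy i hi
    have h5 := hy i (Finset.mem_range.2 (Nat.lt_succ_iff.2 hi))
    have h6 : ‖iteratedFDeriv ℝ i ψ x‖ + 1 ≤
        ∑ i ∈ Finset.range (n + 1), (‖iteratedFDeriv ℝ i ψ x‖ + 1) :=
      Finset.single_le_sum (f := fun i => ‖iteratedFDeriv ℝ i ψ x‖ + 1)
        (fun i _ => by positivity) (Finset.mem_range.2 (Nat.lt_succ_iff.2 hi))
    linarith

theorem p_LBC : Stmt_LBC := by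
  intro n O V hO hV G hG hLB ψ hψ hmaps x hx
  obtain ⟨M, hM⟩ := hLB (ψ x) (hmaps hx)
  obtain ⟨D, hD1, hD⟩ := LBC_bound n O hO ψ hψ x hx
  have hcont : ContinuousAt ψ x := hψ.continuousOn.continuousAt (hO.mem_nhds hx)
  have hM' := hcont.eventually hM
  refine ⟨∑ k ∈ Finset.range (n + 1), (k.factorial : ℝ) * |M| * D ^ k, ?_⟩
  filter_upwards [hM', hD, hO.mem_nhds hx] with y hy1 hy2 hyO t ht k hk
  have hkn : (k : WithTop ℕ∞) ≤ n := by exact_mod_cast hk
  have h1 : ‖iteratedFDerivWithin ℝ k (G t ∘ ψ) O y‖ ≤ k.factorial * |M| * D ^ k := by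
    refine norm_iteratedFDerivWithin_comp_le (hG t ht) hψ hkn hV.uniqueDiffOn hO.uniqueDiffOn
      hmaps hyO ?_ ?_
    · intro i hi
      rw [iteratedFDerivWithin_of_isOpen i hV (hmaps hyO)]
      exact (hy1 t ht i (hi.trans hk)).trans (le_abs_self M)
    · intro i hi1 hi2
      rw [iteratedFDerivWithin_of_isOpen i hO hyO]
      exact (hy2 i (hi2.trans hk)).trans (le_self_pow₀ hD1 (by omega))
  rw [iteratedFDerivWithin_of_isOpen k hO hyO] at h1
  refine h1.trans ?_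
  exact Finset.single_le_sum (f := fun k => (k.factorial : ℝ) * |M| * D ^ k)
    (fun i _ => by positivity) (Finset.mem_range.2 (Nat.lt_succ_iff.2 hk))

end Pool.TRG
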