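import Pool.Agent.Work.MP_02e829_tr.Interface2

/-!
# MP_02e829_gt, TROUGH RIGIDITY, block LBM: local bounds in coordinates (helper89)
-/

open Set Filter Manifold Matrix MeasureTheory Metric
open scoped Topology ContDiff Manifold Real

set_option autoImplicit false

universe w

namespace Pool.TRG

open Pool
open Pool.FR (pd ee gg WW DD NN II Ga Gb Imm SO3)
open Pool.SXB (E3 L3 Proper PosCurv Fam2 Fam3 Transv)

theorem p_LBM (hLCC : Stmt_LCC.{w}) (hLBC : Stmt_LBC) : Stmt_LBM.{w} := by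
  intro S _ _ _ f hf Φ hΦ x0 hx0
  obtain ⟨p, O, ψ, hO, hxO, hOS, hψ, hmaps, hψΦ⟩ := hLCC S Φ hΦ x0 hx0
  set V : Set E2 := (extChartAt (𝓡 2) p).target with hV
  have hVo : IsOpen V := isOpen_extChartAt_target p
  have hsm : ∀ t ∈ Icc (0 : ℝ) 1,
      ContDiffOn ℝ 4 (fun z => f t ((extChartAt (𝓡 2) p).symm z)) V := by
    intro t ht
    have h1 : ContMDiffOn (𝓡 2) (𝓡 3) 4 (fun z => f t ((extChartAt (𝓡 2) p).symm z)) V :=
      (hf.smooth t ht).comp_contMDiffOn (contMDiffOn_extChartAt_symm p)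
    exact contMDiffOn_iff_contDiffOn.1 h1
  have hG : ∀ t ∈ Icc (0 : ℝ) 1,
      ContDiffOn ℝ ((4 : ℕ) : WithTop ℕ∞) (fun z => L3 (f t ((extChartAt (𝓡 2) p).symm z))) V :=
    fun t ht => L3.contDiff.comp_contDiffOn (hsm t ht)
  have hLB : LB 4 V (fun t z => L3 (f t ((extChartAt (𝓡 2) p).symm z))) := by
    intro x hx
    obtain ⟨M, hM⟩ := hf.bdd p x hx
    refine ⟨‖L3‖ * M, ?_⟩
    filter_upwards [hM, hVo.mem_nhds hx] with y hy hyV t ht k hk
    have hc : ContDiffAt ℝ 4 (fun z => f t ((extChartAt (𝓡 2) p).symm z)) y :=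
      (hsm t ht).contDiffAt (hVo.mem_nhds hyV)
    have hk' : ((k : ℕ) : WithTop ℕ∞) ≤ 4 := by exact_mod_cast hk
    have h1 := L3.iteratedFDeriv_comp_left hc hk'
    have h2 : iteratedFDeriv ℝ k (fun z => L3 (f t ((extChartAt (𝓡 2) p).symm z))) y =
        L3.compContinuousMultilinearMap
          (iteratedFDeriv ℝ k (fun z => f t ((extChartAt (𝓡 2) p).symm z)) y) := h1
    rw [h2]
    exact (L3.norm_compContinuousMultilinearMap_le _).trans
      (mul_le_mul_of_nonneg_left (hy t ht k hk) (norm_nonneg _))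
  obtain ⟨M, hM⟩ := hLBC 4 O V hO hVo _ hG hLB ψ hψ hmaps x0 hxO
  refine ⟨M, ?_⟩
  filter_upwards [hM, hO.mem_nhds hxO] with y hy hyO t ht k hk
  have h1 : (fun x => L3 (f t (Φ x))) =ᶠ[𝓝 y]
      fun x => L3 (f t ((extChartAt (𝓡 2) p).symm (ψ x))) := by
    filter_upwards [hO.mem_nhds hyO] with z hz
    rw [hψΦ z hz]
  rw [h1.iteratedFDeriv ℝ k |>.eq_of_nhds]
  exact hy t ht k hk

end Pool.TRG
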