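import Pool.Agent.Work.MP_02e829_tr.Interface2

/-! # Block LBP: bounds along the line -/

open Set Filter Manifold Matrix MeasureTheory Metric
open scoped Topology ContDiff Manifold Real

set_option autoImplicit false

universe w

namespace Pool.TRG

open Pool
open Pool.FR (pd ee gg WW DD NN II Ga Gb Imm SO3)
open Pool.SXB (E3 L3 Proper PosCurv Fam2 Fam3 Transv)

theorem LBP_open : IsOpen St := by
  have h : Continuous fun x : E2 => |x 1| := by fun_prop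
  exact isOpen_lt h continuous_const

theorem LBP_pt (x : ℝ) : pt x ∈ St := by
  simp [St, pt, ee]

/-- the norm of a derivative of a partial derivative -/
theorem LBP_pd {G : Type*} [NormedAddCommGroup G] [NormedSpace ℝ G] {n : ℕ} {u : E2 → G}
    (hu : ContDiffOn ℝ ((n + 1 : ℕ) : WithTop ℕ∞) u St) (i : Fin 2) {x : E2} (hx : x ∈ St) :
    ‖iteratedFDeriv ℝ n (pd i u) x‖ ≤ ‖iteratedFDeriv ℝ (n + 1) u x‖ := by
  have h1 : ContDiffOn ℝ (n : WithTop ℕ∞) (fderiv ℝ u) St :=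
    hu.fderiv_of_isOpen LBP_open (by exact_mod_cast le_rfl)
  have h2 : ContDiffAt ℝ (n : WithTop ℕ∞) (fderiv ℝ u) x :=
    (h1 x hx).contDiffAt (LBP_open.mem_nhds hx)
  let g : (E2 →L[ℝ] G) →L[ℝ] G := ContinuousLinearMap.apply ℝ G (ee i)
  have h3 : pd i u = g ∘ fderiv ℝ u := rfl
  rw [h3, g.iteratedFDeriv_comp_left h2 le_rfl]
  refine (g.norm_compContinuousMultilinearMap_le _).trans ?_
  rw [norm_iteratedFDeriv_fderiv]
  have hg : ‖g‖ ≤ 1 := by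
    refine ContinuousLinearMap.opNorm_le_bound _ zero_le_one fun A => ?_
    have h4 : g A = A (ee i) := rfl
    rw [h4, one_mul]
    refine (A.le_opNorm _).trans ?_
    have h5 : ‖ee i‖ = 1 := by simp [ee]
    rw [h5, mul_one]
  calc ‖g‖ * ‖iteratedFDeriv ℝ (n + 1) u x‖ ≤ 1 * ‖iteratedFDeriv ℝ (n + 1) u x‖ := by gcongr
    _ = _ := one_mul _

theorem LBP_smooth {G : Type*} [NormedAddCommGroup G] [NormedSpace ℝ G] {n : ℕ} {u : E2 → G}
    (hu : ContDiffOn ℝ ((n + 1 : ℕ) : WithTop ℕ∞) u St) (i : Fin 2) :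
    ContDiffOn ℝ (n : WithTop ℕ∞) (pd i u) St :=
  Pool.FR.pd_contDiffOn LBP_open hu (by exact_mod_cast le_rfl) i

theorem LBP_val {G : Type*} [NormedAddCommGroup G] [NormedSpace ℝ G] (u : E2 → G) (x : E2) :
    ‖u x‖ = ‖iteratedFDeriv ℝ 0 u x‖ := by
  rw [norm_iteratedFDeriv_zero]

/-- the partial derivatives of a periodic function are periodic -/
theorem LBP_per {H : E2 → V3} (hH : Per H) (i : Fin 2) : Per (pd i H) := by
  intro x hx
  have h1 : fderiv ℝ (fun y => H (y + (2 * π) • ee 0)) x = fderiv ℝ H (x + (2 * π) • ee 0) :=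
    fderiv_comp_add_right _
  have h2 : (fun y => H (y + (2 * π) • ee 0)) =ᶠ[𝓝 x] H :=
    Filter.eventuallyEq_of_mem (LBP_open.mem_nhds hx) hH
  rw [pd, pd, ← h1, h2.fderiv_eq]

theorem LBP_all {H : E2 → V3} (hH : Per H) {M : ℝ}
    (h : ∀ x ∈ Icc (0 : ℝ) (2 * π), ‖H (pt x)‖ ≤ M) (x : ℝ) : ‖H (pt x)‖ ≤ M := by
  have hp : Function.Periodic (fun x => H (pt x)) (2 * π) := by
    intro y
    have h1 : pt (y + 2 * π) = pt y + (2 * π) • ee 0 := by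
      simp [pt, add_smul]
    change H (pt (y + 2 * π)) = H (pt y)
    rw [h1, hH _ (LBP_pt y)]
  obtain ⟨y, hy, hxy⟩ := hp.exists_mem_Ico₀ Real.two_pi_pos x
  have hxy' : H (pt x) = H (pt y) := hxy
  rw [hxy']
  exact h y ⟨hy.1, hy.2.le⟩

theorem p_LBP : Stmt_LBP := by
  intro F hI hP hL
  have hcont : Continuous pt := by unfold pt; fun_prop
  have hb : ∃ M : ℝ, ∀ x ∈ Icc (0 : ℝ) (2 * π), ∀ t ∈ Icc (0 : ℝ) 1, ∀ k ≤ 4,
      ‖iteratedFDeriv ℝ k (F t) (pt x)‖ ≤ M := by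
    refine IsCompact.induction_on (p := fun s => ∃ M : ℝ, ∀ x ∈ s, ∀ t ∈ Icc (0 : ℝ) 1, ∀ k ≤ 4,
      ‖iteratedFDeriv ℝ k (F t) (pt x)‖ ≤ M) (isCompact_Icc (a := (0 : ℝ)) (b := 2 * π))
      ⟨0, by simp⟩ ?_ ?_ ?_
    · rintro s t hst ⟨M, hM⟩
      exact ⟨M, fun x hx => hM x (hst hx)⟩
    · rintro s t ⟨M, hM⟩ ⟨M', hM'⟩
      refine ⟨max M M', fun x hx u hu k hk => ?_⟩
      rcases hx with hx | hx
      · exact (hM x hx u hu k hk).trans (le_max_left _ _)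
      · exact (hM' x hx u hu k hk).trans (le_max_right _ _)
    · intro x _
      obtain ⟨M, hM⟩ := hL (pt x) (LBP_pt x)
      have h1 : ∀ᶠ y in 𝓝 x, ∀ t ∈ Icc (0 : ℝ) 1, ∀ k ≤ 4,
          ‖iteratedFDeriv ℝ k (F t) (pt y)‖ ≤ M := hcont.continuousAt.eventually hM
      exact ⟨{y | ∀ t ∈ Icc (0 : ℝ) 1, ∀ k ≤ 4, ‖iteratedFDeriv ℝ k (F t) (pt y)‖ ≤ M},
        mem_nhdsWithin_of_mem_nhds h1, M, fun y hy => hy⟩
  obtain ⟨M, hM⟩ := hb
  refine ⟨M, fun t ht x i j => ?_⟩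
  have hs4 : ContDiffOn ℝ ((3 + 1 : ℕ) : WithTop ℕ∞) (F t) St := (hI t ht).smooth.of_le (by norm_num)
  have hs3 : ∀ i, ContDiffOn ℝ ((2 + 1 : ℕ) : WithTop ℕ∞) (pd i (F t)) St := fun i =>
    LBP_smooth hs4 i
  have hs3' : ContDiffOn ℝ ((2 + 1 : ℕ) : WithTop ℕ∞) (F t) St := hs4.of_le (by norm_num)
  have hs2' : ContDiffOn ℝ ((1 + 1 : ℕ) : WithTop ℕ∞) (F t) St := hs4.of_le (by norm_num)
  have hs1' : ContDiffOn ℝ ((0 + 1 : ℕ) : WithTop ℕ∞) (F t) St := hs4.of_le (by norm_num)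
  have hp0 := hP t ht
  -- the orders 1, 2, 3, 4
  have o1 : ∀ i, ∀ y ∈ Icc (0 : ℝ) (2 * π), ‖pd i (F t) (pt y)‖ ≤ M := by
    intro i y hy
    rw [LBP_val]
    exact (LBP_pd hs1' i (LBP_pt y)).trans (hM y hy t ht 1 (by norm_num))
  have o2 : ∀ a i, ∀ y ∈ Icc (0 : ℝ) (2 * π), ‖pd a (pd i (F t)) (pt y)‖ ≤ M := by
    intro a i y hy
    rw [LBP_val]
    refine (LBP_pd (n := 0) ((hs3 i).of_le (by norm_num)) a (LBP_pt y)).trans ?_
    exact (LBP_pd (n := 1) hs2' i (LBP_pt y)).trans (hM y hy t ht 2 (by norm_num))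
  have o3 : ∀ b a i, ∀ y ∈ Icc (0 : ℝ) (2 * π), ‖pd b (pd a (pd i (F t))) (pt y)‖ ≤ M := by
    intro b a i y hy
    rw [LBP_val]
    refine (LBP_pd (n := 0) ((LBP_smooth (n := 2) (hs3 i) a).of_le (by norm_num)) b
      (LBP_pt y)).trans ?_
    refine (LBP_pd (n := 1) ((hs3 i).of_le (by norm_num)) a (LBP_pt y)).trans ?_
    exact (LBP_pd (n := 2) hs3' i (LBP_pt y)).trans (hM y hy t ht 3 (by norm_num))
  have o4 : ∀ c b a i, ∀ y ∈ Icc (0 : ℝ) (2 * π),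
      ‖pd c (pd b (pd a (pd i (F t)))) (pt y)‖ ≤ M := by
    intro c b a i y hy
    rw [LBP_val]
    refine (LBP_pd (n := 0) ((LBP_smooth (n := 1) (LBP_smooth (n := 2) (hs3 i) a) b).of_le
      (by norm_num)) c (LBP_pt y)).trans ?_
    refine (LBP_pd (n := 1) ((LBP_smooth (n := 2) (hs3 i) a).of_le (by norm_num)) b
      (LBP_pt y)).trans ?_
    refine (LBP_pd (n := 2) ((hs3 i).of_le (by norm_num)) a (LBP_pt y)).trans ?_
    exact (LBP_pd (n := 3) hs4 i (LBP_pt y)).trans (hM y hy t ht 4 (by norm_num))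
  exact ⟨LBP_all (LBP_per hp0 i) (o1 i) x, LBP_all (LBP_per (LBP_per hp0 i) 0) (o2 0 i) x,
    LBP_all (LBP_per (LBP_per (LBP_per hp0 i) 0) 0) (o3 0 0 i) x,
    LBP_all (LBP_per (LBP_per hp0 j) i) (o2 i j) x,
    LBP_all (LBP_per (LBP_per (LBP_per hp0 j) i) 0) (o3 0 i j) x,
    LBP_all (LBP_per (LBP_per (LBP_per (LBP_per hp0 j) i) 0) 0) (o4 0 0 i j) x⟩

end Pool.TRG
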