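import Pool.Agent.Work.MP_02e829_tr.Interface2

/-! # TROUGH RIGIDITY, block LCC (MP_02e829_gt, helper95) -/

open Set Filter Manifold Matrix MeasureTheory Metric
open scoped Topology ContDiff Manifold Real

set_option autoImplicit false

universe w

namespace Pool.TRG

open Pool
open Pool.FR (pd ee gg WW DD NN II Ga Gb Imm SO3)

theorem LCC_open : IsOpen St := by
  have h : Continuous fun x : E2 => |x 1| := by fun_prop
  exact isOpen_lt h continuous_const

/-- block LCC -/
theorem p_LCC : Stmt_LCC.{w} := by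
  intro S _ _ _ Φ hΦ x0 hx0
  have hcont : ContinuousOn Φ St := hΦ.smooth.continuousOn
  refine ⟨Φ x0, St ∩ Φ ⁻¹' (chartAt E2 (Φ x0)).source, fun x => extChartAt (𝓡 2) (Φ x0) (Φ x),
    hcont.isOpen_inter_preimage LCC_open (chartAt E2 (Φ x0)).open_source,
    ⟨hx0, mem_chart_source E2 (Φ x0)⟩, inter_subset_left, ?_, ?_, ?_⟩
  · have h1 : ContMDiffOn (𝓡 2) 𝓘(ℝ, E2) 4 (extChartAt (𝓡 2) (Φ x0))
        (chartAt E2 (Φ x0)).source := contMDiffOn_extChartAt
    have h2 : ContMDiffOn (𝓡 2) 𝓘(ℝ, E2) 4 (fun x => extChartAt (𝓡 2) (Φ x0) (Φ x))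
        (St ∩ Φ ⁻¹' (chartAt E2 (Φ x0)).source) :=
      h1.comp (hΦ.smooth.mono inter_subset_left) inter_subset_right
    exact contMDiffOn_iff_contDiffOn.1 h2
  · intro x hx
    exact (extChartAt (𝓡 2) (Φ x0)).map_source (by rw [extChartAt_source]; exact hx.2)
  · intro x hx
    exact (extChartAt (𝓡 2) (Φ x0)).left_inv (by rw [extChartAt_source]; exact hx.2)

end Pool.TRG
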