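import Pool.Agent.Work.MP_02e829_tr.Interface

/-! # MP_02e829_gt, TROUGH RIGIDITY: block LEI (Leibniz) -/

open Set Filter Matrix Metric
open scoped Topology ContDiff Real

set_option autoImplicit false

namespace Pool.TRG

open Pool.FR (pd ee pd_congr pd_add pd_bilin pd_contDiffOn diff_at)

section LEI

variable {G : Type} [NormedAddCommGroup G] [NormedSpace ℝ G] {U : Set E2}

lemma LEI_congr (hU : IsOpen U) (k : ℕ) : ∀ {f g : E2 → G}, (∀ x ∈ U, f x = g x) → ∀ x ∈ U,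
    (pd 1)^[k] f x = (pd 1)^[k] g x := by
  induction k with
  | zero => intro f g h x hx; exact h x hx
  | succ k ih =>
    intro f g h x hx
    rw [Function.iterate_succ_apply, Function.iterate_succ_apply]
    exact ih (fun y hy => pd_congr hU h 1 hy) x hx

lemma LEI_pd (hU : IsOpen U) {f : E2 → G} (h : ContDiffOn ℝ ∞ f U) :
    ContDiffOn ℝ ∞ (pd 1 f) U := pd_contDiffOn hU h (by simp) 1

lemma LEI_add (hU : IsOpen U) (k : ℕ) : ∀ {f g : E2 → G}, ContDiffOn ℝ ∞ f U →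
    ContDiffOn ℝ ∞ g U → ∀ x ∈ U, (pd 1)^[k] (fun y => f y + g y) x =
      (pd 1)^[k] f x + (pd 1)^[k] g x := by
  induction k with
  | zero => intro f g _ _ x _; rfl
  | succ k ih =>
    intro f g hf hg x hx
    rw [Function.iterate_succ_apply, Function.iterate_succ_apply, Function.iterate_succ_apply]
    rw [LEI_congr hU k (fun y hy => pd_add 1 (diff_at hU hf (by simp) hy)
      (diff_at hU hg (by simp) hy)) x hx]
    exact ih (LEI_pd hU hf) (LEI_pd hU hg) x hx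

lemma LEI_B (B : V3 →L[ℝ] V3 →L[ℝ] G) {u w : E2 → V3} (hu : ContDiffOn ℝ ∞ u U)
    (hw : ContDiffOn ℝ ∞ w U) : ContDiffOn ℝ ∞ (fun x => B (u x) (w x)) U :=
  (B.contDiff.comp_contDiffOn hu).clm_apply hw

lemma LEI_step (hU : IsOpen U) (B : V3 →L[ℝ] V3 →L[ℝ] G) {u w : E2 → V3}
    (hu : ContDiffOn ℝ ∞ u U) (hw : ContDiffOn ℝ ∞ w U) (k : ℕ) : ∀ x ∈ U,
    (pd 1)^[k + 1] (fun y => B (u y) (w y)) x =
      (pd 1)^[k] (fun y => B (pd 1 u y) (w y)) x + (pd 1)^[k] (fun y => B (u y) (pd 1 w y)) x := by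
  intro x hx
  rw [Function.iterate_succ_apply, LEI_congr hU k (fun y hy => pd_bilin 1 B
    (diff_at hU hu (by simp) hy) (diff_at hU hw (by simp) hy)) x hx]
  exact LEI_add hU k (LEI_B B (LEI_pd hU hu) hw) (LEI_B B hu (LEI_pd hU hw)) x hx

lemma LEI_V {k : ℕ} {u : E2 → V3} (h : VV U (k + 1) u) : VV U k (pd 1 u) := by
  intro j hj x hx
  have h1 := h (j + 1) (by omega) x hx
  rwa [Function.iterate_succ_apply] at h1

lemma LEI_Q (hU : IsOpen U) (B : V3 →L[ℝ] V3 →L[ℝ] G) (k : ℕ) : ∀ {u w : E2 → V3},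
    ContDiffOn ℝ ∞ u U → ContDiffOn ℝ ∞ w U → VV U k u → ∀ x, pt x ∈ U →
    (pd 1)^[k] (fun y => B (u y) (w y)) (pt x) = B ((pd 1)^[k] u (pt x)) (w (pt x)) := by
  induction k with
  | zero => intro u w _ _ _ x _; rfl
  | succ k ih =>
    intro u w hu hw h x hx
    rw [LEI_step hU B hu hw k _ hx, ih (LEI_pd hU hu) hw (LEI_V h) x hx,
      ih hu (LEI_pd hU hw) (fun j hj => h j (by omega)) x hx, h k (by omega) x hx, map_zero,
      Function.iterate_succ_apply]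
    simp

lemma LEI_T (hU : IsOpen U) (B : V3 →L[ℝ] V3 →L[ℝ] G) (k : ℕ) : ∀ {u w : E2 → V3},
    ContDiffOn ℝ ∞ u U → ContDiffOn ℝ ∞ w U → VV U k u → ∀ x, pt x ∈ U →
    (pd 1)^[k + 1] (fun y => B (u y) (w y)) (pt x) =
      B ((pd 1)^[k + 1] u (pt x)) (w (pt x)) +
        (k + 1 : ℝ) • B ((pd 1)^[k] u (pt x)) (pd 1 w (pt x)) := by
  induction k with
  | zero =>
    intro u w hu hw _ x hx
    rw [LEI_step hU B hu hw 0 _ hx]
    simp
  | succ k ih =>
    intro u w hu hw h x hx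
    rw [LEI_step hU B hu hw (k + 1) _ hx, ih (LEI_pd hU hu) hw (LEI_V h) x hx,
      LEI_Q hU B (k + 1) hu (LEI_pd hU hw) h x hx]
    simp only [← Function.iterate_succ_apply (pd 1)]
    push_cast
    module

end LEI

theorem p_LEI : Stmt_LEI := by
  intro G _ _ B U hU u w hu hw k h
  refine ⟨fun j hj x hx => ?_, fun x hx => ⟨LEI_Q hU B k hu hw h x hx, LEI_T hU B k hu hw h x hx⟩⟩
  rw [LEI_Q hU B j hu hw (fun i hi => h i (by omega)) x hx, h j hj x hx, map_zero]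
  simp

end Pool.TRG
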