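import Pool.Agent.Work.MP_02e829_tr.Interface2

/-! # Block OPE: coordinates on an annulus are open maps -/

open Set Filter Manifold Matrix MeasureTheory Metric
open scoped Topology ContDiff Manifold Real

set_option autoImplicit false

universe w

namespace Pool.TRG

open Pool
open Pool.FR (pd ee gg WW DD NN II Ga Gb Imm SO3)
open Pool.SXB (E3 L3 Proper PosCurv Fam2 Fam3 Transv)

theorem OPE_open : IsOpen St := by
  have h : Continuous fun x : E2 => |x 1| := by fun_prop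
  exact isOpen_lt h continuous_const

theorem p_OPE : Stmt_OPE.{w} := by
  intro S _ _ _ Φ hΦ x hx V hV
  have h1 : ContMDiffAt (𝓡 2) (𝓡 2) 1 Φ x :=
    (hΦ.smooth x hx).contMDiffAt (OPE_open.mem_nhds hx)
  have hc : ContinuousAt Φ x := h1.continuousAt
  have h2 : ContDiffAt ℝ 1 (fun y => extChartAt (𝓡 2) (Φ x) (Φ y)) x := by
    have h3 := (contMDiffAt_iff.mp h1).2
    simpa [Function.comp_def, contDiffWithinAt_univ] using h3
  have h4 : fderiv ℝ (fun y => extChartAt (𝓡 2) (Φ x) (Φ y)) x = mfderiv (𝓡 2) (𝓡 2) Φ x := by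
    rw [(h1.mdifferentiableAt one_ne_zero).mfderiv]
    simp [writtenInExtChartAt, Function.comp_def, fderivWithin_univ]
  have h5 := h2.hasStrictFDerivAt one_ne_zero
  have hinj : Function.Injective (fderiv ℝ (fun y => extChartAt (𝓡 2) (Φ x) (Φ y)) x) := by
    rw [h4]
    exact hΦ.reg x hx
  have hsurj : (fderiv ℝ (fun y => extChartAt (𝓡 2) (Φ x) (Φ y)) x).range = ⊤ := by
    rw [LinearMap.range_eq_top]
    exact LinearMap.surjective_of_injective (f := (fderiv ℝ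
      (fun y => extChartAt (𝓡 2) (Φ x) (Φ y)) x : E2 →ₗ[ℝ] E2)) hinj
  have h6 := h5.map_nhds_eq_of_surj hsurj
  have hs : (extChartAt (𝓡 2) (Φ x)).source ∈ 𝓝 (Φ x) := extChartAt_source_mem_nhds (Φ x)
  have hV' : V ∩ Φ ⁻¹' (extChartAt (𝓡 2) (Φ x)).source ∈ 𝓝 x := inter_mem hV (hc hs)
  have h7 : (fun y => extChartAt (𝓡 2) (Φ x) (Φ y)) ''
      (V ∩ Φ ⁻¹' (extChartAt (𝓡 2) (Φ x)).source) ∈ 𝓝 (extChartAt (𝓡 2) (Φ x) (Φ x)) := by
    rw [← h6]
    exact image_mem_map hV'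
  have h8 := (continuousAt_extChartAt (I := 𝓡 2) (Φ x)).preimage_mem_nhds h7
  filter_upwards [h8, hs] with q hq hqs
  obtain ⟨v, ⟨hv, hvs⟩, hvq⟩ := hq
  exact ⟨v, hv, (extChartAt (𝓡 2) (Φ x)).injOn hvs hqs hvq⟩

end Pool.TRG
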