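import Pool.Agent.Work.MP_02e829_tr.Interface

/-! # MP_02e829_gt, TROUGH RIGIDITY, block OPN (helper94) -/

open Set Filter Matrix MeasureTheory Metric
open scoped Topology ContDiff Real

set_option autoImplicit false
set_option linter.unusedVariables false

namespace Pool.TRG

open Pool.FR (pd ee gg WW DD NN II Ga Gb Imm SO3)

theorem OPN_alg {r P m l X Y Z c1 r0 P0 P1 L1 m1 η : ℝ} (hr0 : 0 < r0) (hr : r0 ≤ r)
    (hP0 : 0 < P0) (hP : P0 ≤ P) (hP1 : P ≤ P1) (hl : |l| ≤ L1) (hm : 0 < m) (hm1 : m ≤ m1)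
    (hc : 0 < c1) (hZ : c1 ≤ |Z|) (hE : X * Z = Y ^ 2) (hX : |X| ≤ η)
    (hη : 4 * P1 * L1 ^ 2 * η ≤ r0 ^ 2 * P0 * c1) :
    |X / (r * P)| ≤ 4 * P1 * m1 ^ 2 / (r0 * c1) * ((Y - l * (X / r)) / (m * P)) ^ 2 := by
  have hr' : 0 < r := lt_of_lt_of_le hr0 hr
  have hP' : 0 < P := lt_of_lt_of_le hP0 hP
  have hP1' : 0 < P1 := lt_of_lt_of_le hP' hP1
  obtain ⟨a, ha⟩ : ∃ a, a = X / (r * P) := ⟨_, rfl⟩
  obtain ⟨b, hb⟩ : ∃ b, b = (Y - l * (X / r)) / (m * P) := ⟨_, rfl⟩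
  rw [← ha, ← hb]
  have hXa : X = r * P * a := by rw [ha]; field_simp
  have hYb : Y = P * (m * b + l * a) := by rw [hb, ha]; field_simp; ring
  have e1 : r * a * Z = P * (m * b + l * a) ^ 2 := by
    have h1 : P * (r * a * Z) = P * (P * (m * b + l * a) ^ 2) := by
      calc P * (r * a * Z) = X * Z := by rw [hXa]; ring
        _ = Y ^ 2 := hE
        _ = P * (P * (m * b + l * a) ^ 2) := by rw [hYb]; ring
    exact mul_left_cancel₀ hP'.ne' h1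
  have e2 : r * |a| * |Z| = P * (m * b + l * a) ^ 2 := by
    rw [← e1]
    have h1 : 0 ≤ r * a * Z := by rw [e1]; positivity
    rw [← abs_of_nonneg h1, abs_mul, abs_mul, abs_of_pos hr']
  have ha0 : 0 ≤ |a| := abs_nonneg a
  have h3 : r0 * P0 * |a| ≤ η := by
    have h4 : |X| = r * P * |a| := by
      rw [hXa, abs_mul, abs_of_pos (mul_pos hr' hP')]
    have h5 : r0 * P0 ≤ r * P := mul_le_mul hr hP hP0.le hr'.le
    have h6 := mul_le_mul_of_nonneg_right h5 ha0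
    linarith
  have h4 : 4 * P1 * L1 ^ 2 * |a| ≤ r0 * c1 := by
    have h5 : 4 * P1 * L1 ^ 2 * (r0 * P0 * |a|) ≤ 4 * P1 * L1 ^ 2 * η :=
      mul_le_mul_of_nonneg_left h3 (by positivity)
    have h6 : (r0 * P0) * (4 * P1 * L1 ^ 2 * |a|) ≤ (r0 * P0) * (r0 * c1) := by
      calc (r0 * P0) * (4 * P1 * L1 ^ 2 * |a|) = 4 * P1 * L1 ^ 2 * (r0 * P0 * |a|) := by ring
        _ ≤ 4 * P1 * L1 ^ 2 * η := h5
        _ ≤ r0 ^ 2 * P0 * c1 := hη
        _ = (r0 * P0) * (r0 * c1) := by ring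
    exact le_of_mul_le_mul_left h6 (mul_pos hr0 hP0)
  have hl2 : l ^ 2 ≤ L1 ^ 2 := by
    rw [← sq_abs l]
    exact pow_le_pow_left₀ (abs_nonneg _) hl 2
  have h5 : 4 * P * l ^ 2 * |a| ≤ r0 * c1 := by
    refine le_trans ?_ h4
    apply mul_le_mul_of_nonneg_right _ ha0
    apply mul_le_mul _ hl2 (by positivity) (by positivity)
    linarith
  have e3 : (m * b + l * a) ^ 2 ≤ 2 * m ^ 2 * b ^ 2 + 2 * l ^ 2 * a ^ 2 := by
    nlinarith [sq_nonneg (m * b - l * a)]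
  have e4 : r0 * |a| * c1 ≤ r * |a| * |Z| := by
    apply mul_le_mul _ hZ hc.le (by positivity)
    exact mul_le_mul_of_nonneg_right hr ha0
  have e5 : P * (m * b + l * a) ^ 2 ≤ P * (2 * m ^ 2 * b ^ 2 + 2 * l ^ 2 * a ^ 2) :=
    mul_le_mul_of_nonneg_left e3 hP'.le
  have e6 : 4 * P * l ^ 2 * a ^ 2 ≤ r0 * c1 * |a| := by
    have h6 := mul_le_mul_of_nonneg_right h5 ha0
    have h7 : |a| * |a| = a ^ 2 := by rw [← sq, sq_abs]
    calc 4 * P * l ^ 2 * a ^ 2 = 4 * P * l ^ 2 * |a| * |a| := by rw [← h7]; ring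
      _ ≤ r0 * c1 * |a| := h6
  have e7 : P * m ^ 2 * b ^ 2 ≤ P1 * m1 ^ 2 * b ^ 2 := by
    apply mul_le_mul_of_nonneg_right _ (sq_nonneg b)
    exact mul_le_mul hP1 (pow_le_pow_left₀ hm.le hm1 2) (by positivity) hP1'.le
  rw [div_mul_eq_mul_div, le_div_iff₀ (mul_pos hr0 hc)]
  nlinarith

theorem OPN_algb {r P m l X Y r0 P0 L1 m0 η δ : ℝ} (hr0 : 0 < r0) (hr : r0 ≤ r)
    (hP0 : 0 < P0) (hP : P0 ≤ P) (hl : |l| ≤ L1) (hm0 : 0 < m0) (hm : m0 ≤ m)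
    (hX : |X| ≤ η) (hY : |Y| ≤ η) (hη : η * (1 + L1 / r0) ≤ δ * (m0 * P0)) (hδ : 0 < δ) :
    |(Y - l * (X / r)) / (m * P)| ≤ δ := by
  have hr' : 0 < r := lt_of_lt_of_le hr0 hr
  have hP' : 0 < P := lt_of_lt_of_le hP0 hP
  have hm' : 0 < m := lt_of_lt_of_le hm0 hm
  have hη0 : 0 ≤ η := (abs_nonneg _).trans hX
  rw [abs_div, abs_of_pos (mul_pos hm' hP'), div_le_iff₀ (mul_pos hm' hP')]
  have h1 : |Y - l * (X / r)| ≤ η + L1 * (η / r0) := by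
    refine (abs_sub _ _).trans ?_
    rw [abs_mul, abs_div, abs_of_pos hr']
    refine add_le_add hY (mul_le_mul hl ?_ (by positivity) ((abs_nonneg _).trans hl))
    exact div_le_div₀ hη0 hX hr0 hr
  have h2 : m0 * P0 ≤ m * P := mul_le_mul hm hP hP0.le hm'.le
  have h3 : δ * (m0 * P0) ≤ δ * (m * P) := mul_le_mul_of_nonneg_left h2 hδ.le
  have h4 : η * (1 + L1 / r0) = η + L1 * (η / r0) := by ring
  linarith

theorem OPN_lb {f : ℝ → ℝ} (hf : ContinuousOn f (Icc 0 (2 * π)))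
    (hp : ∀ x ∈ Icc (0 : ℝ) (2 * π), 0 < f x) :
    ∃ m : ℝ, 0 < m ∧ ∀ x ∈ Icc (0 : ℝ) (2 * π), m ≤ f x := by
  have hne : (Icc (0 : ℝ) (2 * π)).Nonempty := ⟨0, le_rfl, by positivity⟩
  obtain ⟨y, hy, hmin⟩ := isCompact_Icc.exists_isMinOn hne hf
  exact ⟨f y, hp y hy, fun x hx => hmin hx⟩

theorem OPN_ub {f : ℝ → ℝ} (hf : ContinuousOn f (Icc 0 (2 * π))) :
    ∃ M : ℝ, 0 < M ∧ ∀ x ∈ Icc (0 : ℝ) (2 * π), |f x| ≤ M := by
  obtain ⟨M, hM⟩ := isCompact_Icc.exists_bound_of_continuousOn hf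
  refine ⟨max M 1, by positivity, fun x hx => (hM x hx).trans (le_max_left _ _)⟩

theorem OPN_ev {g : ℝ × ℝ → ℝ} (hg : ContinuousOn g (Icc (0 : ℝ) 1 ×ˢ univ)) {U : Set ℝ}
    (hU : IsOpen U) {t0 : ℝ} (ht0 : t0 ∈ Icc (0 : ℝ) 1)
    (h : ∀ x ∈ Icc (0 : ℝ) (2 * π), g (t0, x) ∈ U) :
    ∀ᶠ t in 𝓝[Icc (0 : ℝ) 1] t0, ∀ x ∈ Icc (0 : ℝ) (2 * π), g (t, x) ∈ U := by
  rw [eventually_nhdsWithin_iff]
  have h1 : ∀ᶠ t in 𝓝 t0, ∀ x ∈ Icc (0 : ℝ) (2 * π), t ∈ Icc (0 : ℝ) 1 → g (t, x) ∈ U := by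
    refine isCompact_Icc.eventually_forall_of_forall_eventually ?_
    intro y hy
    have h2 : ∀ᶠ z in 𝓝[Icc (0 : ℝ) 1 ×ˢ univ] (t0, y), g z ∈ U :=
      (hg (t0, y) ⟨ht0, mem_univ _⟩).eventually (hU.mem_nhds (h y hy))
    rw [eventually_nhdsWithin_iff] at h2
    exact h2.mono fun z hz hz1 => hz ⟨hz1, mem_univ _⟩
  exact h1.mono fun t ht ht1 x hx => ht x hx ht1

theorem OPN_mem (x : ℝ) : pt x ∈ St := by
  simp [pt, St, ee]

theorem OPN_open : IsOpen St := by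
  have h : Continuous fun x : E2 => |x 1| := by fun_prop
  exact isOpen_Iio.preimage h

theorem p_OPN (hFRM : Pool.FR.Stmt_FRM) (hCHR : Pool.FR.Stmt_CHR) (hTR0 : Stmt_TR0)
    (hFRA : Stmt_FRA) (hEGG : Stmt_EGG) (hSQR : Stmt_SQR) (hUB2 : Stmt_UB2) (hCTB : Stmt_CTB)
    (hGPW : Stmt_GPW) : Stmt_OPN := by
  intro F e1 e2 φ ρ lam mu hT hS t0 ht0 hflat
  obtain ⟨hW, -, hlam, hmu, -, -, h0⟩ := hTR0 (F 0) e1 e2 φ ρ lam mu hT
  have hsq := hSQR (F 0) e1 e2 φ ρ lam mu hT (F t0) (hS.imm t0 ht0) (hS.iso t0 ht0) hflat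
  -- constants
  have hslice : ContinuousOn (fun x : ℝ => |II (F t0) 1 1 (pt x)|) (Icc 0 (2 * π)) := by
    have h1 := hCTB F hS 1 1
    have h2 : ContinuousOn (fun x : ℝ => II (F t0) 1 1 (pt x)) (Icc 0 (2 * π)) :=
      h1.comp (f := fun x : ℝ => (t0, x)) (by fun_prop) fun x _ => ⟨ht0, mem_univ _⟩
    exact h2.abs
  obtain ⟨c2, hc2, hc2'⟩ := OPN_lb hslice (by
    intro x _
    have h1 : II (F t0) 1 1 (pt x) ≠ 0 := by
      intro h2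
      have h3 := hsq x
      rw [h2] at h3
      have h4 : II (F 0) 1 1 (pt x) = 0 := by nlinarith
      exact (h0 x).2.2.2.2.2.2.1 h4
    positivity)
  obtain ⟨r0, hr0, hr0'⟩ := OPN_lb hW.cont.continuousOn fun x _ => hW.pos x
  have hdφ : Continuous (deriv φ) := hW.ang.smooth.continuous_deriv (by norm_num)
  obtain ⟨P0, hP0, hP0'⟩ := OPN_lb hdφ.continuousOn fun x _ => hW.ang.pos x
  obtain ⟨P1, hP1, hP1'⟩ := OPN_ub hdφ.continuousOn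
  obtain ⟨L1, hL1, hL1'⟩ := OPN_ub hlam.continuous.continuousOn
  obtain ⟨m0, hm0, hm0'⟩ := OPN_lb hmu.continuous.continuousOn fun x _ => hT.mpos x
  obtain ⟨m1, hm1, hm1'⟩ := OPN_ub hmu.continuous.continuousOn
  obtain ⟨M, hM0, hM⟩ := hUB2 F e1 e2 φ ρ lam mu hT hS
  obtain ⟨c1, hc1, hc12⟩ : ∃ c1 : ℝ, 0 < c1 ∧ c1 < c2 := ⟨c2 / 2, by positivity, by linarith⟩
  obtain ⟨C, hC⟩ : ∃ C, C = 4 * P1 * m1 ^ 2 / (r0 * c1) := ⟨_, rfl⟩
  have hC0 : 0 ≤ C := by rw [hC]; positivity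
  obtain ⟨δ, hδ, hgap⟩ := hGPW φ ρ hW C M hC0 hM0
  obtain ⟨η, hη, hη1, hη2⟩ : ∃ η : ℝ, 0 < η ∧ 4 * P1 * L1 ^ 2 * η ≤ r0 ^ 2 * P0 * c1 ∧
      η * (1 + L1 / r0) ≤ δ * (m0 * P0) := by
    refine ⟨min (r0 ^ 2 * P0 * c1 / (4 * P1 * L1 ^ 2)) (δ * (m0 * P0) / (1 + L1 / r0)),
      by positivity, ?_, ?_⟩
    · rw [mul_comm, ← le_div_iff₀ (by positivity)]
      exact min_le_left _ _
    · rw [← le_div_iff₀ (by positivity)]
      exact min_le_right _ _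
  -- the times near `t0`
  have hopen : IsOpen {s : ℝ | |s| < η} := isOpen_lt continuous_abs continuous_const
  have hopen' : IsOpen {s : ℝ | c1 < |s|} := isOpen_lt continuous_const continuous_abs
  have hev1 := OPN_ev (hCTB F hS 0 0) hopen ht0 (fun x _ => by
    change |II (F t0) 0 0 (pt x)| < η
    rw [(hflat x).1, abs_zero]; exact hη)
  have hev2 := OPN_ev (hCTB F hS 0 1) hopen ht0 (fun x _ => by
    change |II (F t0) 0 1 (pt x)| < η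
    rw [(hflat x).2, abs_zero]; exact hη)
  have hev3 := OPN_ev (hCTB F hS 1 1) hopen' ht0 (fun x hx => by
    change c1 < |II (F t0) 1 1 (pt x)|
    exact lt_of_lt_of_le hc12 (hc2' x hx))
  filter_upwards [hev1, hev2, hev3, self_mem_nhdsWithin] with t h1 h2 h3 ht
  obtain ⟨hfr, -⟩ := hFRA (F 0) e1 e2 φ ρ lam mu hT (F t) (hS.imm t ht) (hS.iso t ht)
    (hS.per t ht)
  have hper : Function.Periodic
      (fun x => (aa φ ρ (F t) x, bb φ ρ lam mu (F t) x)) (2 * π) := by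
    intro x
    have h5 := hfr.pa x
    have h6 := hfr.pb x
    change (aa φ ρ (F t) (x + 2 * π), bb φ ρ lam mu (F t) (x + 2 * π)) = _
    rw [h5, h6]
  have hext : ∀ Q : ℝ × ℝ → Prop,
      (∀ x ∈ Icc (0 : ℝ) (2 * π), Q (aa φ ρ (F t) x, bb φ ρ lam mu (F t) x)) →
      ∀ x, Q (aa φ ρ (F t) x, bb φ ρ lam mu (F t) x) := by
    intro Q hQ x
    obtain ⟨y, hy, hxy⟩ := hper.exists_mem_Ico₀ (by positivity) x
    have hQy := hQ y ⟨hy.1, hy.2.le⟩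
    rwa [← hxy] at hQy
  have hegg : ∀ x, II (F t) 0 0 (pt x) * II (F t) 1 1 (pt x) = II (F t) 0 1 (pt x) ^ 2 := by
    intro x
    have h5 := hEGG St OPN_open (F 0) (F t) (hS.imm 0 ⟨le_rfl, zero_le_one⟩) (hS.imm t ht)
      (hS.iso t ht) (pt x) (OPN_mem x)
    have h6 := (h0 x).2.2.2.2.1
    have h7 := (h0 x).2.2.2.2.2.1
    rw [h6, h7] at h5
    linarith
  have hab : ∀ x, |aa φ ρ (F t) x| ≤ C * bb φ ρ lam mu (F t) x ^ 2 := by
    refine hext (fun z => |z.1| ≤ C * z.2 ^ 2) fun x hx => ?_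
    have h5 : |II (F t) 0 0 (pt x)| < η := h1 x hx
    have h7 : c1 < |II (F t) 1 1 (pt x)| := h3 x hx
    change |II (F t) 0 0 (pt x) / (ρ x * deriv φ x)| ≤ C *
      ((II (F t) 0 1 (pt x) - lam x * (II (F t) 0 0 (pt x) / ρ x)) / (mu x * deriv φ x)) ^ 2
    rw [hC]
    exact OPN_alg hr0 (hr0' x hx) hP0 (hP0' x hx) ((le_abs_self _).trans (hP1' x hx))
      (hL1' x hx) (hT.mpos x) ((le_abs_self _).trans (hm1' x hx)) hc1 h7.le (hegg x) h5.le hη1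
  have hb : ∀ x, |bb φ ρ lam mu (F t) x| ≤ δ := by
    refine hext (fun z => |z.2| ≤ δ) fun x hx => ?_
    have h5 : |II (F t) 0 0 (pt x)| < η := h1 x hx
    have h6 : |II (F t) 0 1 (pt x)| < η := h2 x hx
    exact OPN_algb hr0 (hr0' x hx) hP0 (hP0' x hx) (hL1' x hx) hm0 (hm0' x hx) h5.le h6.le
      hη2 hδ
  have hb0 := hgap _ _ _ _ _ hfr hab (hM t ht) hb
  intro x
  have hρ := hW.pos x
  have hφ := hW.ang.pos x
  have hμ := hT.mpos x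
  have ha0 : aa φ ρ (F t) x = 0 := by
    have h5 := hab x
    rw [hb0 x] at h5
    simpa using h5
  have hX : II (F t) 0 0 (pt x) = 0 := by
    have h5 : II (F t) 0 0 (pt x) / (ρ x * deriv φ x) = 0 := ha0
    rcases div_eq_zero_iff.1 h5 with h6 | h6
    · exact h6
    · exact absurd h6 (by positivity)
  refine ⟨hX, ?_⟩
  have h5 : (II (F t) 0 1 (pt x) - lam x * (II (F t) 0 0 (pt x) / ρ x)) /
    (mu x * deriv φ x) = 0 := hb0 x
  rw [hX, zero_div, mul_zero, sub_zero] at h5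
  rcases div_eq_zero_iff.1 h5 with h6 | h6
  · exact h6
  · exact absurd h6 (by positivity)

end Pool.TRG
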