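import Pool.Agent.Work.MP_02e829_tr.Interface2
import Pool.Agent.Work.MP_02e829_fr.MOT

/-! # Block PLB (helper54) -/

open Set Filter Manifold Matrix MeasureTheory Metric
open scoped Topology ContDiff Manifold Real

set_option autoImplicit false

namespace Pool.TRG

open Pool
open Pool.FR (pd ee gg WW DD NN II Ga Gb Imm SO3)
open Pool.SXB (E3 L3 Proper PosCurv Fam2 Fam3 Transv)
open Pool.FR.MOTb (cross_SO3 dot_SO3 pd_motion)

theorem PLB_open : IsOpen St :=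
  isOpen_lt (continuous_abs.comp (EuclideanSpace.proj (𝕜 := ℝ) (1 : Fin 2)).continuous)
    continuous_const

theorem PLB_pt (x : ℝ) : pt x ∈ St := by
  show |(pt x) 1| < 1
  have h1 : (pt x) 1 = 0 := by
    simp [pt, ee]
  rw [h1, abs_zero]
  exact one_pos

theorem p_PLB (hFRM : Pool.FR.Stmt_FRM) (hTR0 : Stmt_TR0) : Stmt_PLB := by
  intro F e1 e2 φ ρ lam mu hF G hG hiso hFs hGs R b hR h0 h1 hII
  have hSo := PLB_open
  obtain ⟨-, -, -, -, -, -, hT⟩ := hTR0 F e1 e2 φ ρ lam mu hF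
  obtain ⟨H, hH⟩ : ∃ H : E2 → V3, H = fun x => R *ᵥ F x + b := ⟨_, rfl⟩
  rw [← hH]
  have hHx : ∀ x, H x = R *ᵥ F x + b := fun x => by rw [hH]
  -- the derivatives of `H`
  have hd : ∀ x ∈ St, DifferentiableAt ℝ F x := fun x hx =>
    Pool.FR.diff_at hSo hFs (by norm_num) hx
  have hd1 : ∀ j, ∀ x ∈ St, DifferentiableAt ℝ (pd j F) x := fun j x hx =>
    Pool.FR.diff_at hSo (Pool.FR.pd_contDiffOn hSo hF.imm.smooth (m := 3) (by norm_num) j)
      (by norm_num) hx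
  have hp1 : ∀ i, ∀ x ∈ St, pd i H x = R *ᵥ pd i F x := fun i x hx =>
    pd_motion hSo hd (fun y _ => hHx y) i hx
  have hp2 : ∀ i j, ∀ x ∈ St, pd i (pd j H) x = R *ᵥ pd i (pd j F) x := by
    intro i j x hx
    refine pd_motion (b := 0) hSo (hd1 j) (fun y hy => ?_) i hx
    rw [hp1 j y hy, add_zero]
  have hHs : ContDiffOn ℝ ∞ H St := by
    rw [hH]
    have h2 : ContDiffOn ℝ ∞ (fun x => (LinearMap.toContinuousLinearMap R.mulVecLin) (F x)) St :=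
      (LinearMap.toContinuousLinearMap R.mulVecLin).contDiff.comp_contDiffOn hFs
    exact h2.add contDiffOn_const
  -- the forms
  have hgg : ∀ i j, ∀ x ∈ St, pd i H x ⬝ᵥ pd j H x = pd i G x ⬝ᵥ pd j G x := by
    intro i j x hx
    rw [hp1 i x hx, hp1 j x hx, dot_SO3 hR]
    exact (hiso x hx i j).symm
  have hDD : ∀ x ∈ St, DD G x = DD F x := by
    intro x hx
    unfold DD
    rw [hiso x hx, hiso x hx, hiso x hx]
  have hhF : ∀ i j, ∀ x ∈ St, Pool.SXB.hh F i j x = Real.sqrt (DD F x) * II F i j x := by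
    intro i j x hx
    obtain ⟨-, -, hW, -⟩ := hFRM St hSo F hF.imm x hx
    show pd i (pd j F) x ⬝ᵥ WW F x = _
    rw [hW, dotProduct_smul, smul_eq_mul]
    rfl
  have hhG : ∀ i j, ∀ x ∈ St, Pool.SXB.hh G i j x = Real.sqrt (DD G x) * II G i j x := by
    intro i j x hx
    obtain ⟨-, -, hW, -⟩ := hFRM St hSo G hG x hx
    show pd i (pd j G) x ⬝ᵥ WW G x = _
    rw [hW, dotProduct_smul, smul_eq_mul]
    rfl
  have hhH : ∀ i j, ∀ x ∈ St, Pool.SXB.hh H i j x = Pool.SXB.hh F i j x := by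
    intro i j x hx
    show pd i (pd j H) x ⬝ᵥ (pd 0 H x ⨯₃ pd 1 H x) = pd i (pd j F) x ⬝ᵥ (pd 0 F x ⨯₃ pd 1 F x)
    rw [hp2 i j x hx, hp1 0 x hx, hp1 1 x hx, cross_SO3 hR, dot_SO3 hR]
  have hWne : ∀ x ∈ St, ∀ c : ℝ, c ≠ 0 → R *ᵥ (c • WW F x) ≠ 0 := by
    intro x hx c hc h2
    obtain ⟨hN, -, hW, -⟩ := hFRM St hSo F hF.imm x hx
    have h3 : (R *ᵥ (c • WW F x)) ⬝ᵥ (R *ᵥ NN F x) = 0 := by rw [h2, zero_dotProduct]
    rw [dot_SO3 hR, hW, smul_dotProduct, smul_dotProduct, hN, smul_eq_mul, smul_eq_mul,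
      mul_one] at h3
    have h4 : 0 < Real.sqrt (DD F x) := Real.sqrt_pos.2 (hF.imm.pos x hx)
    exact (mul_ne_zero hc h4.ne') h3
  -- the normal vector of the mean surface
  have hdH : ∀ x ∈ St, DifferentiableAt ℝ H x := fun x hx =>
    Pool.FR.diff_at hSo hHs (by norm_num) hx
  have hdG : ∀ x ∈ St, DifferentiableAt ℝ G x := fun x hx =>
    Pool.FR.diff_at hSo hGs (by norm_num) hx
  have hmm : ContDiffOn ℝ ∞ (Pool.SXB.mm H G) St := by
    have h2 : ContDiffOn ℝ ∞ (fun x => H x + G x) St := hHs.add hGs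
    exact h2.const_smul (1 / 2 : ℝ)
  have hmp : ∀ i, ∀ x ∈ St, pd i (Pool.SXB.mm H G) x = (1 / 2 : ℝ) • (pd i H x + pd i G x) := by
    intro i x hx
    have h2 : DifferentiableAt ℝ (fun y => H y + G y) x := (hdH x hx).add (hdG x hx)
    have h3 : pd i (Pool.SXB.mm H G) x = (1 / 2 : ℝ) • pd i (fun y => H y + G y) x :=
      Pool.FR.pd_clm i ((1 / 2 : ℝ) • ContinuousLinearMap.id ℝ V3) h2
    rw [h3, Pool.FR.pd_add i (hdH x hx) (hdG x hx)]
  have hnn : ContinuousOn (Pool.SXB.nn H G) St := by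
    have h2 : ContDiffOn ℝ 0 (Pool.SXB.nn H G) St :=
      Pool.FR.contDiffOn_cross (Pool.FR.pd_contDiffOn hSo hmm (m := 0) (by norm_num) 0)
        (Pool.FR.pd_contDiffOn hSo hmm (m := 0) (by norm_num) 1)
    exact h2.continuousOn
  have heq1 : ∀ x, ∀ i, pd i H (pt x) = pd i G (pt x) := by
    intro x i
    rw [hp1 i _ (PLB_pt x), h1]
  have hnpt : ∀ x, Pool.SXB.nn H G (pt x) ≠ 0 := by
    intro x h2
    apply hWne (pt x) (PLB_pt x) 1 one_ne_zero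
    rw [one_smul, ← h2]
    have h3 : ∀ i, pd i (Pool.SXB.mm H G) (pt x) = R *ᵥ pd i F (pt x) := by
      intro i
      rw [hmp i _ (PLB_pt x), ← heq1, hp1 i _ (PLB_pt x), ← two_smul ℝ, smul_smul]
      norm_num
    show R *ᵥ (pd 0 F (pt x) ⨯₃ pd 1 F (pt x)) =
      pd 0 (Pool.SXB.mm H G) (pt x) ⨯₃ pd 1 (Pool.SXB.mm H G) (pt x)
    rw [h3, h3, cross_SO3 hR]
  have hUo : IsOpen {x ∈ St | Pool.SXB.nn H G x ≠ 0} := by
    have h2 := hnn.isOpen_inter_preimage hSo (isOpen_compl_singleton (x := (0 : V3)))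
    exact h2
  have hsub : {x ∈ St | Pool.SXB.nn H G x ≠ 0} ⊆ St := fun x hx => hx.1
  refine ⟨{x ∈ St | Pool.SXB.nn H G x ≠ 0}, hsub, fun x => ⟨PLB_pt x, hnpt x⟩, ?_⟩
  have h2i : (2 : WithTop ℕ∞) ≤ ∞ := ENat.LEInfty.out
  refine ⟨⟨hUo, (hHs.mono hsub).of_le h2i, (hGs.mono hsub).of_le h2i,
    fun x hx i j => hgg i j x hx.1, fun x hx => hx.2⟩, hHs.mono hsub, hGs.mono hsub, ?_, ?_, ?_,
    ?_, ?_⟩
  · intro x _
    rw [hHx, h0]
  · intro x _ i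
    exact heq1 x i
  · intro x _
    obtain ⟨-, -, -, -, h00, h01, -, -⟩ := hT x
    rw [hhH _ _ _ (PLB_pt x), hhH _ _ _ (PLB_pt x), hhF _ _ _ (PLB_pt x), hhF _ _ _ (PLB_pt x),
      h00, h01, mul_zero]
    exact ⟨rfl, rfl⟩
  · intro x _
    obtain ⟨-, -, -, -, -, -, h11, -⟩ := hT x
    rw [hhH _ _ _ (PLB_pt x), hhF _ _ _ (PLB_pt x), hhG _ _ _ (PLB_pt x), hII, hDD _ (PLB_pt x)]
    have h4 : 0 < Real.sqrt (DD F (pt x)) := Real.sqrt_pos.2 (hF.imm.pos _ (PLB_pt x))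
    rw [← two_mul]
    exact mul_ne_zero two_ne_zero (mul_ne_zero h4.ne' h11)
  · intro x _
    obtain ⟨-, -, -, -, h00, -, -, hGb⟩ := hT x
    obtain ⟨-, -, -, -, -, hGa, -⟩ := hFRM St hSo F hF.imm (pt x) (PLB_pt x)
    have hGbne : Gb F 1 0 0 (pt x) ≠ 0 := by
      rw [hGb]
      have a1 := hF.rpos x
      have a2 := hF.mpos x
      have a3 := hF.ang.pos x
      positivity
    have h5 : pd 0 H (pt x) ⨯₃ pd 0 (pd 0 H) (pt x) = R *ᵥ (Gb F 1 0 0 (pt x) • WW F (pt x)) := by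
      rw [hp1 0 _ (PLB_pt x), hp2 0 0 _ (PLB_pt x), cross_SO3 hR]
      congr 1
      rw [hGa 0 0, h00, zero_smul, add_zero]
      show pd 0 F (pt x) ⨯₃ (Gb F 0 0 0 (pt x) • pd 0 F (pt x) +
        Gb F 1 0 0 (pt x) • pd 1 F (pt x)) = Gb F 1 0 0 (pt x) • (pd 0 F (pt x) ⨯₃ pd 1 F (pt x))
      rw [map_add, map_smul, map_smul, cross_self, smul_zero, zero_add]
    rw [h5]
    exact hWne _ (PLB_pt x) _ hGbne

end Pool.TRG
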