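import Pool.Agent.Work.MP_02e829_tr.Interface2

/-!
# Block RD0: the family in the coordinates of the annulus
-/

open Set Filter Manifold Matrix MeasureTheory Metric
open scoped Topology ContDiff Manifold Real

set_option autoImplicit false

universe w

namespace Pool.TRG

open Pool
open Pool.FR (pd ee gg WW DD NN II Ga Gb Imm SO3)
open Pool.SXB (E3 L3 Proper PosCurv Fam2 Fam3 Transv)

theorem RD0_isOpen : IsOpen St := by
  have h : Continuous fun x : E2 => |x 1| :=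
    continuous_abs.comp (EuclideanSpace.proj (1 : Fin 2) : E2 →L[ℝ] ℝ).continuous
  exact isOpen_lt h continuous_const

theorem RD0_L3_apply (v : E3) (a : Fin 3) : L3 v a = v a := rfl

theorem RD0_inner (v u : E3) : L3 v ⬝ᵥ L3 u = inner ℝ v u := by
  rw [PiLp.inner_apply, dotProduct]
  refine Finset.sum_congr rfl fun a _ => ?_
  rw [RD0_L3_apply, RD0_L3_apply]
  simp [mul_comm]

theorem RD0_ee (i : Fin 2) : ee i ≠ (0 : E2) := by
  intro h
  have h1 := congrArg (fun v : E2 => v i) h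
  simp [ee] at h1

/-- Gram determinant -/
theorem RD0_gram {u v : E3} (hv : v ≠ 0) (hz : inner ℝ v v • u - inner ℝ u v • v ≠ (0 : E3)) :
    0 < inner ℝ u u * inner ℝ v v - inner ℝ u v ^ 2 := by
  have h1 : 0 < inner ℝ (inner ℝ v v • u - inner ℝ u v • v) (inner ℝ v v • u - inner ℝ u v • v) :=
    real_inner_self_pos.2 hz
  have h2 : 0 < inner ℝ v v := real_inner_self_pos.2 hv
  have h3 : inner ℝ (inner ℝ v v • u - inner ℝ u v • v) (inner ℝ v v • u - inner ℝ u v • v) =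
      inner ℝ v v * (inner ℝ u u * inner ℝ v v - inner ℝ u v ^ 2) := by
    rw [inner_sub_left, inner_sub_right, inner_sub_right, real_inner_smul_left,
      real_inner_smul_left, real_inner_smul_left, real_inner_smul_left, real_inner_smul_right,
      real_inner_smul_right, real_inner_smul_right, real_inner_smul_right, real_inner_comm u v]
    ring
  rw [h3] at h1
  exact (mul_pos_iff_of_pos_left h2).1 h1

theorem p_RD0 (hCHN : Stmt_CHN.{w}) : Stmt_RD0.{w} := by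
  intro S _ _ _ f hf Φ hΦ
  have hΦ1 : Ann 1 Φ := ⟨hΦ.smooth.of_le (by norm_num), hΦ.reg, hΦ.per⟩
  have key : ∀ t ∈ Icc (0 : ℝ) 1, ∀ x ∈ St, ∀ v : E2, fderiv ℝ (fun y => f t (Φ y)) x v =
      FRD.dvec (f t) (Φ x) (mfderiv (𝓡 2) (𝓡 2) Φ x v) := fun t ht x hx v =>
    hCHN S (f t) ((hf.smooth t ht).of_le (by norm_num)) Φ hΦ1 x hx v
  have hsm : ∀ t ∈ Icc (0 : ℝ) 1, ContDiffOn ℝ 4 (fun x => f t (Φ x)) St := fun t ht =>
    contMDiffOn_iff_contDiffOn.1 ((hf.smooth t ht).comp_contMDiffOn hΦ.smooth)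
  have hpd : ∀ t ∈ Icc (0 : ℝ) 1, ∀ x ∈ St, ∀ i, pd i (fun y => L3 (f t (Φ y))) x =
      L3 (FRD.dvec (f t) (Φ x) (mfderiv (𝓡 2) (𝓡 2) Φ x (ee i))) := by
    intro t ht x hx i
    have hd : DifferentiableAt ℝ (fun y => f t (Φ y)) x :=
      Pool.FR.diff_at RD0_isOpen (hsm t ht) (by norm_num) hx
    have h1 : fderiv ℝ (fun y => L3 (f t (Φ y))) x = (L3 : E3 →L[ℝ] V3).comp
        (fderiv ℝ (fun y => f t (Φ y)) x) := by
      have h2 := ((L3 : E3 →L[ℝ] V3).hasFDerivAt (x := f t (Φ x))).comp x hd.hasFDerivAt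
      exact h2.fderiv
    rw [pd, h1, ContinuousLinearMap.comp_apply, key t ht x hx]
  have hgg : ∀ t ∈ Icc (0 : ℝ) 1, ∀ x ∈ St, ∀ i j, gg (fun y => L3 (f t (Φ y))) i j x =
      FRD.firstForm (f t) (Φ x) (mfderiv (𝓡 2) (𝓡 2) Φ x (ee i))
        (mfderiv (𝓡 2) (𝓡 2) Φ x (ee j)) := by
    intro t ht x hx i j
    rw [gg, hpd t ht x hx, hpd t ht x hx, RD0_inner]
    rfl
  refine ⟨fun t ht => ⟨?_, ?_⟩, ?_, ?_⟩
  · exact (L3 : E3 →L[ℝ] V3).contDiff.comp_contDiffOn (hsm t ht)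
  · intro x hx
    rw [DD, hgg t ht x hx, hgg t ht x hx, hgg t ht x hx]
    have hlin : ∀ (a b : ℝ) (v v' : E2), FRD.dvec (f t) (Φ x) (mfderiv (𝓡 2) (𝓡 2) Φ x (a • v - b • v'))
        = a • FRD.dvec (f t) (Φ x) (mfderiv (𝓡 2) (𝓡 2) Φ x v) -
          b • FRD.dvec (f t) (Φ x) (mfderiv (𝓡 2) (𝓡 2) Φ x v') := by
      intro a b v v'
      rw [FRD.dvec, FRD.dvec, FRD.dvec]
      erw [map_sub, map_smul, map_smul]
      erw [map_sub, map_smul, map_smul]
    have hinj : ∀ v : E2, FRD.dvec (f t) (Φ x) (mfderiv (𝓡 2) (𝓡 2) Φ x v) = 0 → v = 0 := by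
      intro v hv
      have h0 : FRD.dvec (f t) (Φ x) (mfderiv (𝓡 2) (𝓡 2) Φ x 0) = 0 := by
        rw [FRD.dvec]
        erw [map_zero, map_zero]
      exact hΦ.reg x hx (hf.imm t ht (Φ x) (hv.trans h0.symm))
    set u := FRD.dvec (f t) (Φ x) (mfderiv (𝓡 2) (𝓡 2) Φ x (ee 0)) with hu
    set v := FRD.dvec (f t) (Φ x) (mfderiv (𝓡 2) (𝓡 2) Φ x (ee 1)) with hv
    have hv0 : v ≠ 0 := fun h => RD0_ee 1 (hinj _ h)
    refine RD0_gram hv0 ?_
    intro h
    have h1 := hinj (inner ℝ v v • ee 0 - inner ℝ u v • ee 1) ((hlin _ _ _ _).trans h)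
    have h2 := congrArg (fun z : E2 => z 0) h1
    simp [ee] at h2
    exact hv0 h2
  · intro t ht x hx i j
    rw [hgg t ht x hx, hgg 0 ⟨le_rfl, zero_le_one⟩ x hx]
    exact hf.iso t ht _ _ _
  · intro t _ x hx
    change L3 (f t (Φ _)) = L3 (f t (Φ x))
    rw [hΦ.per x hx]

end Pool.TRG
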