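import Pool.Agent.Work.MP_02e829_tr.Interface2

/-! # Block RD1: joint continuity in the coordinates of the annulus -/

open Set Filter Manifold Matrix MeasureTheory Metric
open scoped Topology ContDiff Manifold Real

set_option autoImplicit false

universe w

namespace Pool.TRG

open Pool
open Pool.FR (pd ee gg WW DD NN II Ga Gb Imm SO3)
open Pool.SXB (E3 L3 Proper PosCurv Fam2 Fam3 Transv)

theorem RD1_L3 {g : E2 → E3} {y : E2} (hg : DifferentiableAt ℝ g y) :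
    fderiv ℝ (fun x => L3 (g x)) y = L3.comp (fderiv ℝ g y) :=
  (L3.hasFDerivAt.comp y hg.hasFDerivAt).fderiv

theorem RD1_L32 {V : Set E2} (hV : IsOpen V) {g : E2 → E3} (hg : ContDiffOn ℝ 2 g V) {y : E2}
    (hy : y ∈ V) : fderiv ℝ (fderiv ℝ (fun x => L3 (g x))) y =
      (ContinuousLinearMap.compL ℝ E2 E3 V3 L3).comp (fderiv ℝ (fderiv ℝ g) y) := by
  have h1 : fderiv ℝ (fun x => L3 (g x)) =ᶠ[𝓝 y]
      fun x => ContinuousLinearMap.compL ℝ E2 E3 V3 L3 (fderiv ℝ g x) := by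
    refine Filter.eventuallyEq_of_mem (hV.mem_nhds hy) fun x hx => ?_
    exact RD1_L3 (Pool.FR.diff_at hV hg (by norm_num) hx)
  rw [h1.fderiv_eq]
  have h2 : ContDiffOn ℝ 1 (fderiv ℝ g) V := hg.fderiv_of_isOpen hV (by norm_num)
  have h3 : DifferentiableAt ℝ (fderiv ℝ g) y := Pool.FR.diff_at hV h2 le_rfl hy
  exact ((ContinuousLinearMap.compL ℝ E2 E3 V3 L3).hasFDerivAt.comp y h3.hasFDerivAt).fderiv

/-- a property of the product which holds near every point -/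
theorem RD1_glue {X : Type*} [TopologicalSpace X] (H : ℝ × E2 → X)
    (h : ∀ x ∈ St, ∃ O : Set E2, IsOpen O ∧ x ∈ O ∧ ContinuousOn H (Icc (0 : ℝ) 1 ×ˢ O)) :
    ContinuousOn H (Icc (0 : ℝ) 1 ×ˢ St) := by
  rintro ⟨t, x⟩ ⟨ht, hx⟩
  obtain ⟨O, hO, hxO, hc⟩ := h x hx
  refine (hc (t, x) ⟨ht, hxO⟩).mono_of_mem_nhdsWithin ?_
  have h1 : (univ : Set ℝ) ×ˢ O ∈ 𝓝 ((t, x) : ℝ × E2) :=
    (isOpen_univ.prod hO).mem_nhds ⟨mem_univ _, hxO⟩
  have h2 : (univ : Set ℝ) ×ˢ O ∩ Icc (0 : ℝ) 1 ×ˢ St ∈ 𝓝[Icc (0 : ℝ) 1 ×ˢ St] ((t, x) : ℝ × E2) :=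
    inter_mem (mem_nhdsWithin_of_mem_nhds h1) self_mem_nhdsWithin
  exact mem_of_superset h2 fun z hz => ⟨hz.2.1, hz.1.2⟩

theorem p_RD1 (hLCC : Stmt_LCC.{w}) (hCNV : Stmt_CNV.{w}) (hCDC : Stmt_CDC) : Stmt_RD1.{w} := by
  intro S _ _ _ f hf Φ hΦ
  have hF3 := hCNV S f hf
  haveI : IsManifold (𝓡 2) 2 S := IsManifold.of_le (n := 4) (by norm_num)
  -- the local statement
  have hloc : ∀ x ∈ St, ∃ O : Set E2, IsOpen O ∧ x ∈ O ∧ J2 O fun t x => L3 (f t (Φ x)) := by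
    intro x0 hx0
    obtain ⟨p, O, ψ, hO, hx0O, hOS, hψ, hmaps, hψΦ⟩ := hLCC S Φ hΦ x0 hx0
    refine ⟨O, hO, hx0O, ?_⟩
    have hVo : IsOpen (extChartAt (𝓡 2) p).target := isOpen_extChartAt_target p
    have hg : ∀ t ∈ Icc (0 : ℝ) 1, ContDiffOn ℝ 2 (fun y => f t ((extChartAt (𝓡 2) p).symm y))
        (extChartAt (𝓡 2) p).target := by
      intro t ht
      have h1 : ContMDiffOn (𝓡 2) (𝓡 3) 2 (fun y => f t ((extChartAt (𝓡 2) p).symm y))
          (extChartAt (𝓡 2) p).target :=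
        (hF3.fam.smooth t ht).comp_contMDiffOn (contMDiffOn_extChartAt_symm p)
      exact contMDiffOn_iff_contDiffOn.1 h1
    have hG : ∀ t ∈ Icc (0 : ℝ) 1, ContDiffOn ℝ 2
        (fun y => L3 (f t ((extChartAt (𝓡 2) p).symm y))) (extChartAt (𝓡 2) p).target := by
      intro t ht
      exact L3.contDiff.comp_contDiffOn (hg t ht)
    have hc1 : ContinuousOn (fun z : ℝ × E2 =>
        fderiv ℝ (fun y => L3 (f z.1 ((extChartAt (𝓡 2) p).symm y))) z.2)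
        (Icc (0 : ℝ) 1 ×ˢ (extChartAt (𝓡 2) p).target) := by
      have h1 : ContinuousOn (fun z : ℝ × E2 => ContinuousLinearMap.compL ℝ E2 E3 V3 L3
          (fderiv ℝ (fun y => f z.1 ((extChartAt (𝓡 2) p).symm y)) z.2))
          (Icc (0 : ℝ) 1 ×ˢ (extChartAt (𝓡 2) p).target) :=
        (ContinuousLinearMap.continuous _).comp_continuousOn (hF3.fam.cont1 p)
      refine h1.congr fun z hz => ?_
      exact RD1_L3 (Pool.FR.diff_at hVo (hg z.1 hz.1) (by norm_num) hz.2)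
    have hc2 : ContinuousOn (fun z : ℝ × E2 =>
        fderiv ℝ (fderiv ℝ (fun y => L3 (f z.1 ((extChartAt (𝓡 2) p).symm y)))) z.2)
        (Icc (0 : ℝ) 1 ×ˢ (extChartAt (𝓡 2) p).target) := by
      have h1 : ContinuousOn (fun z : ℝ × E2 =>
          ContinuousLinearMap.compL ℝ E2 (E2 →L[ℝ] E3) (E2 →L[ℝ] V3)
          (ContinuousLinearMap.compL ℝ E2 E3 V3 L3)
          (fderiv ℝ (fderiv ℝ (fun y => f z.1 ((extChartAt (𝓡 2) p).symm y))) z.2))
          (Icc (0 : ℝ) 1 ×ˢ (extChartAt (𝓡 2) p).target) :=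
        (ContinuousLinearMap.continuous _).comp_continuousOn (hF3.fam.cont2 p)
      refine h1.congr fun z hz => ?_
      exact RD1_L32 hVo (hg z.1 hz.1) hz.2
    have hJ := hCDC O _ hO hVo (fun t y => L3 (f t ((extChartAt (𝓡 2) p).symm y))) hG hc1 hc2 ψ
      (hψ.of_le (by norm_num)) hmaps
    have heq : ∀ t : ℝ, ∀ x ∈ O, L3 (f t (Φ x)) = L3 (f t ((extChartAt (𝓡 2) p).symm (ψ x))) := by
      intro t x hx
      rw [hψΦ x hx]
    refine ⟨fun i => ?_, fun i j => ?_⟩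
    · refine (hJ.1 i).congr fun z hz => ?_
      exact Pool.FR.pd_congr hO (heq z.1) i hz.2
    · refine (hJ.2 i j).congr fun z hz => ?_
      exact Pool.FR.pd_congr hO (fun x hx => Pool.FR.pd_congr hO (heq z.1) j hx) i hz.2
  refine ⟨fun i => RD1_glue _ fun x hx => ?_, fun i j => RD1_glue _ fun x hx => ?_⟩
  · obtain ⟨O, hO, hxO, hJ⟩ := hloc x hx
    exact ⟨O, hO, hxO, hJ.1 i⟩
  · obtain ⟨O, hO, hxO, hJ⟩ := hloc x hx
    exact ⟨O, hO, hxO, hJ.2 i j⟩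

end Pool.TRG
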