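import Pool.Agent.Work.MP_02e829_tr.Interface

open Set Filter Matrix MeasureTheory Metric
open scoped Topology ContDiff Real

set_option autoImplicit false

namespace Pool.TRG

theorem REP_iter {φ : ℝ → ℝ} (h : ∀ x, φ (x + 2 * π) = φ x + 2 * π) (n : ℕ) :
    φ (n * (2 * π)) = φ 0 + n * (2 * π) ∧ φ (-(n * (2 * π))) = φ 0 - n * (2 * π) := by
  induction n with
  | zero => simp
  | succ n ih =>
    constructor
    · have := h (n * (2 * π))
      rw [ih.1] at this
      have e : ((n + 1 : ℕ) : ℝ) * (2 * π) = n * (2 * π) + 2 * π := by push_cast; ring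
      rw [e, this]
      ring
    · have := h (-((n + 1 : ℕ) * (2 * π)))
      have e : -(((n + 1 : ℕ) : ℝ) * (2 * π)) + 2 * π = -(n * (2 * π)) := by push_cast; ring
      rw [e, ih.2] at this
      have e2 : ((n + 1 : ℕ) : ℝ) * (2 * π) = n * (2 * π) + 2 * π := by push_cast; ring
      rw [e2]
      rw [e2] at this
      linarith

theorem REP_inv {φ : ℝ → ℝ} (hφ : Ang φ) : ∃ ψ : ℝ → ℝ, ContDiff ℝ 3 ψ ∧ (∀ x, ψ (φ x) = x) ∧
    (∀ s, φ (ψ s) = s) := by
  have hmono : StrictMono φ := strictMono_of_deriv_pos hφ.pos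
  have hcont : Continuous φ := hφ.smooth.continuous
  have hpi : (0 : ℝ) < 2 * π := by positivity
  have hsurj : Function.Surjective φ := by
    intro s
    obtain ⟨n, hn⟩ := exists_nat_ge (|s - φ 0| / (2 * π))
    rw [div_le_iff₀ hpi] at hn
    obtain ⟨h1, h2⟩ := REP_iter hφ.per n
    have h3 := abs_le.1 hn
    have h4 : s ∈ Icc (φ (-(n * (2 * π)))) (φ (n * (2 * π))) := by
      rw [h1, h2]
      constructor <;> linarith [h3.1, h3.2]
    have h5 : -((n : ℝ) * (2 * π)) ≤ n * (2 * π) := by
      have : (0 : ℝ) ≤ n * (2 * π) := by positivity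
      linarith
    obtain ⟨x, -, hx⟩ := intermediate_value_Icc h5 hcont.continuousOn h4
    exact ⟨x, hx⟩
  let e : ℝ ≃o ℝ := hmono.orderIsoOfSurjective φ hsurj
  let h : ℝ ≃ₜ ℝ := e.toHomeomorph
  have he : ∀ x, h x = φ x := fun x => rfl
  have hcoe : (h : ℝ → ℝ) = φ := funext he
  refine ⟨h.symm, ?_, fun x => ?_, fun s => ?_⟩
  · refine h.contDiff_symm_deriv (f' := deriv φ) (fun x => (hφ.pos x).ne') (fun x => ?_) ?_
    · rw [hcoe]
      exact (hφ.smooth.differentiable (by norm_num) x).hasDerivAt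
    · rw [hcoe]
      exact hφ.smooth
  · rw [← he, h.symm_apply_apply]
  · rw [← he, h.apply_symm_apply]

theorem p_REP : Stmt_REP := by
  intro φ hφ
  obtain ⟨ψ, hψ, h1, h2⟩ := REP_inv hφ
  have hinj : Function.Injective φ := (strictMono_of_deriv_pos hφ.pos).injective
  have hper : ∀ s, ψ (s + 2 * π) = ψ s + 2 * π := by
    intro s
    apply hinj
    rw [h2, hφ.per, h2]
  have hdφ : ∀ x, HasDerivAt φ (deriv φ x) x := fun x =>
    (hφ.smooth.differentiable (by norm_num) x).hasDerivAt
  have hdψ : ∀ s, HasDerivAt ψ (deriv ψ s) s := fun s =>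
    (hψ.differentiable (by norm_num) s).hasDerivAt
  have hprod : ∀ s, deriv ψ s * deriv φ (ψ s) = 1 := by
    intro s
    have h3 : HasDerivAt (fun s => φ (ψ s)) (deriv φ (ψ s) * deriv ψ s) s := (hdφ (ψ s)).comp s (hdψ s)
    have h4 : (fun s => φ (ψ s)) = fun s => s := funext h2
    rw [h4] at h3
    have := h3.unique (hasDerivAt_id s)
    rw [mul_comm]
    exact this
  have hψpos : ∀ s, 0 < deriv ψ s := by
    intro s
    have h3 := hprod s
    have h4 := hφ.pos (ψ s)
    by_contra hcon
    push Not at hcon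
    nlinarith
  have hdper : Function.Periodic (deriv ψ) (2 * π) := by
    intro s
    have h3 : deriv (fun x => ψ (x + 2 * π)) s = deriv ψ (s + 2 * π) := deriv_comp_add_const ψ (2 * π) s
    have h4 : (fun x => ψ (x + 2 * π)) = fun x => ψ x + 2 * π := funext hper
    rw [← h3, h4, deriv_add_const]
  have hdc : Continuous (deriv ψ) := hψ.continuous_deriv (by norm_num)
  -- change of variables
  have hchg : ∀ g : ℝ → ℝ, Continuous g → Function.Periodic g (2 * π) →
      (IC fun s => g (ψ s) * deriv ψ s) = IC g := by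
    intro g hg hgp
    have h3 : (∫ s in (0 : ℝ)..(2 * π), (g ∘ ψ) s * deriv ψ s) = ∫ u in ψ 0..ψ (2 * π), g u :=
      intervalIntegral.integral_comp_mul_deriv (fun x _ => hdψ x) hdc.continuousOn hg
    have h4 : ψ (2 * π) = ψ 0 + 2 * π := by
      have := hper 0
      rwa [zero_add] at this
    have h5 := hgp.intervalIntegral_add_eq (ψ 0) 0
    rw [zero_add] at h5
    rw [IC, IC, ← h5, ← h4]
    exact h3
  have hcomp : ∀ {G : Type} (g : ℝ → G), Function.Periodic g (2 * π) →
      Function.Periodic (fun s => g (ψ s)) (2 * π) := by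
    intro G g hg s
    simp only
    rw [hper, hg]
  refine ⟨ψ, hψ, h1, h2, hper, ?_, ?_⟩
  · intro ρ hρ
    have hcosp : Function.Periodic (fun x => ρ x * Real.cos (φ x)) (2 * π) := by
      intro x
      simp only
      rw [hρ.per x, hφ.per, Real.cos_add_two_pi]
    have hsinp : Function.Periodic (fun x => ρ x * Real.sin (φ x)) (2 * π) := by
      intro x
      simp only
      rw [hρ.per x, hφ.per, Real.sin_add_two_pi]
    refine ⟨(hρ.cont.comp hψ.continuous).mul hdc, ?_, fun s => mul_pos (hρ.pos _) (hψpos s), ?_, ?_⟩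
    · intro s
      simp only
      rw [hper, hρ.per, hdper s]
    · have h3 := hchg (fun x => ρ x * Real.cos (φ x))
        (hρ.cont.mul (Real.continuous_cos.comp hφ.smooth.continuous)) hcosp
      rw [hρ.cos] at h3
      rw [← h3]
      congr 1
      funext s
      rw [h2]
      ring
    · have h3 := hchg (fun x => ρ x * Real.sin (φ x))
        (hρ.cont.mul (Real.continuous_sin.comp hφ.smooth.continuous)) hsinp
      rw [hρ.sin] at h3
      rw [← h3]
      congr 1
      funext s
      rw [h2]
      ring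
  · intro ρ a b T ν n hρ hF
    have hsc : ∀ (g : ℝ → V3) (v : V3) (s : ℝ), HasDerivAt g (deriv φ (ψ s) • v) (ψ s) →
        HasDerivAt (fun s => g (ψ s)) v s := by
      intro g v s hg
      have h3 := hg.scomp s (hdψ s)
      rw [smul_smul, hprod, one_smul] at h3
      exact h3
    refine ⟨fun s => hsc _ _ s (hF.dT _), fun s => hsc _ _ s (hF.dN _), fun s => hsc _ _ s (hF.dn _),
      fun s => hF.TT _, fun s => hF.NN _, fun s => hF.nn _, fun s => hF.TN _, fun s => hF.Tn _,
      fun s => hF.Nn _, hcomp _ hF.pT, hcomp _ hF.pN, hcomp _ hF.pn, hcomp _ hF.pa, hcomp _ hF.pb,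
      hF.ca.comp (hψ.of_le (by norm_num)), hF.cb.comp (hψ.of_le (by norm_num)), ?_⟩
    intro i
    have hTc : Continuous T := continuous_iff_continuousAt.2 fun x => (hF.dT x).continuousAt
    have h3 := hchg (fun x => ρ x * T x i) (hρ.cont.mul ((continuous_apply i).comp hTc)) (by
      intro x
      simp only
      rw [hρ.per x, hF.pT x])
    rw [hF.clo i] at h3
    rw [← h3]
    congr 1
    funext s
    ring

end Pool.TRG
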