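import Pool.Agent.Work.MP_02e829_tr.Interface

/-!
# MP_02e829_gt, TROUGH RIGIDITY, part 1: block RIG
-/

open Set Filter Matrix MeasureTheory Metric
open scoped Topology ContDiff Real

set_option autoImplicit false

namespace Pool.TRG

open Pool.FR (pd ee gg WW DD NN II Ga Gb Imm SO3)

theorem RIG_St_open : IsOpen St := by
  have h : Continuous fun x : E2 => |x 1| :=
    continuous_abs.comp (EuclideanSpace.proj (𝕜 := ℝ) (1 : Fin 2)).continuous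
  exact isOpen_lt h continuous_const

theorem RIG_pt_mem (x : ℝ) : pt x ∈ St := by
  change |(pt x) 1| < 1
  have h : (pt x) 1 = 0 := by
    simp [pt, ee]
  rw [h, abs_zero]
  exact one_pos

theorem RIG_dot {u v : ℝ → V3} {u' v' : V3} {x : ℝ} (hu : HasDerivAt u u' x)
    (hv : HasDerivAt v v' x) :
    HasDerivAt (fun y => u y ⬝ᵥ v y) (u' ⬝ᵥ v x + u x ⬝ᵥ v') x := by
  have hu' := hasDerivAt_pi.1 hu
  have hv' := hasDerivAt_pi.1 hv
  simp only [dotProduct, Fin.sum_univ_three]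
  refine ((((hu' 0).mul (hv' 0)).add ((hu' 1).mul (hv' 1))).add
    ((hu' 2).mul (hv' 2))).congr_deriv ?_
  ring

theorem RIG_mulVec {u : ℝ → V3} {u' : V3} {x : ℝ} (R : Matrix (Fin 3) (Fin 3) ℝ)
    (hu : HasDerivAt u u' x) : HasDerivAt (fun y => R *ᵥ u y) (R *ᵥ u') x := by
  have h := ((LinearMap.toContinuousLinearMap (Matrix.mulVecLin R)).hasFDerivAt
    (x := u x)).comp_hasDerivAt x hu
  exact h

/-- the matrix which maps the first frame to the second one -/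
noncomputable def RIG_R (T ν n T' ν' n' : V3) : Matrix (Fin 3) (Fin 3) ℝ :=
  (Matrix.of ![T', ν', n'])ᵀ * Matrix.of ![T, ν, n]

theorem RIG_R_apply (T ν n T' ν' n' w : V3) :
    RIG_R T ν n T' ν' n' *ᵥ w = (T ⬝ᵥ w) • T' + (ν ⬝ᵥ w) • ν' + (n ⬝ᵥ w) • n' := by
  unfold RIG_R
  rw [← Matrix.mulVec_mulVec]
  ext i
  simp only [Matrix.mulVec, dotProduct, Fin.sum_univ_three, Matrix.transpose_apply,
    Matrix.of_apply, Pi.add_apply, Pi.smul_apply, smul_eq_mul]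
  simp
  ring

theorem RIG_orth (T ν n : V3) (TT : T ⬝ᵥ T = 1) (NN : ν ⬝ᵥ ν = 1) (nn : n ⬝ᵥ n = 1)
    (TN : T ⬝ᵥ ν = 0) (Tn : T ⬝ᵥ n = 0) (Nn : ν ⬝ᵥ n = 0) :
    Matrix.of ![T, ν, n] * (Matrix.of ![T, ν, n])ᵀ = 1 := by
  ext i j
  have h : (Matrix.of ![T, ν, n] * (Matrix.of ![T, ν, n])ᵀ) i j =
      (![T, ν, n] i) ⬝ᵥ (![T, ν, n] j) := rfl
  rw [h]
  have TN' : ν ⬝ᵥ T = 0 := by rw [dotProduct_comm]; exact TN
  have Tn' : n ⬝ᵥ T = 0 := by rw [dotProduct_comm]; exact Tn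
  have Nn' : n ⬝ᵥ ν = 0 := by rw [dotProduct_comm]; exact Nn
  fin_cases i <;> fin_cases j <;> simp [TT, NN, nn, TN, Tn, Nn, TN', Tn', Nn']

theorem RIG_det (T n : V3) (TT : T ⬝ᵥ T = 1) (nn : n ⬝ᵥ n = 1) (Tn : T ⬝ᵥ n = 0) :
    (Matrix.of ![T, n ⨯₃ T, n]).det = 1 := by
  have h1 : (Matrix.of ![T, n ⨯₃ T, n]).det = T ⬝ᵥ ((n ⨯₃ T) ⨯₃ n) :=
    (triple_product_eq_det T (n ⨯₃ T) n).symm
  have h2 : T ⬝ᵥ ((n ⨯₃ T) ⨯₃ n) = (n ⬝ᵥ n) * (T ⬝ᵥ T) - (T ⬝ᵥ n) ^ 2 := by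
    simp only [cross_apply, dotProduct, Fin.sum_univ_three]
    simp
    ring
  rw [h1, h2, TT, nn, Tn]
  norm_num

theorem RIG_SO3 (T ν n T' ν' n' : V3) (hν : ν = n ⨯₃ T) (hν' : ν' = n' ⨯₃ T')
    (TT : T ⬝ᵥ T = 1) (NN : ν ⬝ᵥ ν = 1) (nn : n ⬝ᵥ n = 1)
    (TN : T ⬝ᵥ ν = 0) (Tn : T ⬝ᵥ n = 0) (Nn : ν ⬝ᵥ n = 0)
    (TT' : T' ⬝ᵥ T' = 1) (NN' : ν' ⬝ᵥ ν' = 1) (nn' : n' ⬝ᵥ n' = 1)
    (TN' : T' ⬝ᵥ ν' = 0) (Tn' : T' ⬝ᵥ n' = 0) (Nn' : ν' ⬝ᵥ n' = 0) :
    SO3 (RIG_R T ν n T' ν' n') := by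
  have h1 := RIG_orth T ν n TT NN nn TN Tn Nn
  have h2 := RIG_orth T' ν' n' TT' NN' nn' TN' Tn' Nn'
  have h1' := mul_eq_one_comm.1 h1
  constructor
  · unfold RIG_R
    rw [Matrix.transpose_mul, Matrix.transpose_transpose]
    calc (Matrix.of ![T, ν, n])ᵀ * Matrix.of ![T', ν', n'] *
          ((Matrix.of ![T', ν', n'])ᵀ * Matrix.of ![T, ν, n])
        = (Matrix.of ![T, ν, n])ᵀ * (Matrix.of ![T', ν', n'] *
          (Matrix.of ![T', ν', n'])ᵀ) * Matrix.of ![T, ν, n] := by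
          simp only [Matrix.mul_assoc]
      _ = 1 := by rw [h2, Matrix.mul_one, h1']
  · unfold RIG_R
    rw [Matrix.det_mul, Matrix.det_transpose]
    have h3 : (Matrix.of ![T, ν, n]).det = 1 := by
      subst hν
      exact RIG_det T n TT nn Tn
    have h4 : (Matrix.of ![T', ν', n']).det = 1 := by
      subst hν'
      exact RIG_det T' n' TT' nn' Tn'
    rw [h3, h4, one_mul]

/-- a solution of `u' = p w`, `w' = -p u` which vanishes at `0` is zero -/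
theorem RIG_ode (p : ℝ → ℝ) (u w : ℝ → V3) (hu : ∀ x, HasDerivAt u (p x • w x) x)
    (hw : ∀ x, HasDerivAt w (-(p x • u x)) x) (hu0 : u 0 = 0) (hw0 : w 0 = 0) (x : ℝ) :
    u x = 0 ∧ w x = 0 := by
  have hE : ∀ x, HasDerivAt (fun y => u y ⬝ᵥ u y + w y ⬝ᵥ w y) 0 x := by
    intro x
    refine ((RIG_dot (hu x) (hu x)).add (RIG_dot (hw x) (hw x))).congr_deriv ?_
    simp only [dotProduct, Fin.sum_univ_three, Pi.smul_apply, Pi.neg_apply, smul_eq_mul]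
    ring
  have hc := is_const_of_deriv_eq_zero (fun y => (hE y).differentiableAt)
    (fun y => (hE y).deriv) x 0
  simp only [hu0, hw0] at hc
  have h0 : (0 : V3) ⬝ᵥ (0 : V3) + (0 : V3) ⬝ᵥ (0 : V3) = 0 := by simp
  rw [h0] at hc
  simp only [dotProduct, Fin.sum_univ_three] at hc
  have e1 := mul_self_nonneg (u x 0)
  have e2 := mul_self_nonneg (u x 1)
  have e3 := mul_self_nonneg (u x 2)
  have e4 := mul_self_nonneg (w x 0)
  have e5 := mul_self_nonneg (w x 1)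
  have e6 := mul_self_nonneg (w x 2)
  have f1 : u x 0 = 0 := mul_self_eq_zero.1 (by linarith)
  have f2 : u x 1 = 0 := mul_self_eq_zero.1 (by linarith)
  have f3 : u x 2 = 0 := mul_self_eq_zero.1 (by linarith)
  have f4 : w x 0 = 0 := mul_self_eq_zero.1 (by linarith)
  have f5 : w x 1 = 0 := mul_self_eq_zero.1 (by linarith)
  have f6 : w x 2 = 0 := mul_self_eq_zero.1 (by linarith)
  constructor
  · ext i
    fin_cases i
    · exact f1
    · exact f2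
    · exact f3
  · ext i
    fin_cases i
    · exact f4
    · exact f5
    · exact f6

theorem RIG_line {H : E2 → V3} (hH : Imm H St) (x : ℝ) :
    HasDerivAt (fun y => H (pt y)) (pd 0 H (pt x)) x := by
  have h1 : DifferentiableAt ℝ H (pt x) :=
    Pool.FR.diff_at RIG_St_open hH.smooth (by norm_num) (RIG_pt_mem x)
  have h2 : HasDerivAt (fun y : ℝ => y • ee 0) (ee 0) x := by
    have := (hasDerivAt_id x).smul_const (ee 0)
    simpa using this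
  exact h1.hasFDerivAt.comp_hasDerivAt x h2

/-- the frame of a flat surface -/
theorem RIG_frame {φ ρ lam mu : ℝ → ℝ} {G : E2 → V3}
    (h : WFr φ ρ (aa φ ρ G) (bb φ ρ lam mu G) (fT ρ G) (fN ρ G) (fn G)) (hf : Flat G) :
    (∀ x, HasDerivAt (fT ρ G) (deriv φ x • fN ρ G x) x) ∧
    (∀ x, HasDerivAt (fN ρ G) (-(deriv φ x • fT ρ G x)) x) ∧
    ∀ x, fn G x = fn G 0 := by
  have ha : ∀ x, aa φ ρ G x = 0 := by
    intro x
    unfold aa
    rw [(hf x).1, zero_div]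
  have hb : ∀ x, bb φ ρ lam mu G x = 0 := by
    intro x
    unfold bb
    rw [(hf x).1, (hf x).2, zero_div, mul_zero, sub_zero, zero_div]
  refine ⟨fun x => ?_, fun x => ?_, fun x => ?_⟩
  · refine (h.dT x).congr_deriv ?_
    rw [ha, zero_smul, add_zero]
  · refine (h.dN x).congr_deriv ?_
    rw [hb, zero_smul, add_zero, smul_neg]
  · have hd : ∀ x, HasDerivAt (fn G) 0 x := by
      intro x
      refine (h.dn x).congr_deriv ?_
      rw [ha, hb, zero_smul, zero_smul, neg_zero, sub_zero, smul_zero]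
    exact is_const_of_deriv_eq_zero (fun y => (hd y).differentiableAt)
      (fun y => (hd y).deriv) x 0

theorem p_RIG (hFRM : Pool.FR.Stmt_FRM) (hCHR : Pool.FR.Stmt_CHR) (hTR0 : Stmt_TR0)
    (hFRA : Stmt_FRA) : Stmt_RIG := by
  intro F e1 e2 φ ρ lam mu hTr G hG hIso hPer hFlat hII
  have hF : Imm F St := hTr.imm
  obtain ⟨-, -, -, -, -, -, h0⟩ := hTR0 F e1 e2 φ ρ lam mu hTr
  have hFlatF : Flat F := fun x =>
    ⟨(h0 x).2.2.2.2.1, (h0 x).2.2.2.2.2.1⟩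
  obtain ⟨wG, fG⟩ := hFRA F e1 e2 φ ρ lam mu hTr G hG hIso hPer
  obtain ⟨wF, fF⟩ := hFRA F e1 e2 φ ρ lam mu hTr F hF (fun _ _ _ _ => rfl) hTr.per
  obtain ⟨gT, gN, gn⟩ := RIG_frame wG hFlat
  obtain ⟨kT, kN, kn⟩ := RIG_frame wF hFlatF
  set R := RIG_R (fT ρ F 0) (fN ρ F 0) (fn F 0) (fT ρ G 0) (fN ρ G 0) (fn G 0) with hR
  have hSO : SO3 R := RIG_SO3 _ _ _ _ _ _ rfl rfl (wF.TT 0) (wF.NN 0) (wF.nn 0) (wF.TN 0)
    (wF.Tn 0) (wF.Nn 0) (wG.TT 0) (wG.NN 0) (wG.nn 0) (wG.TN 0) (wG.Tn 0) (wG.Nn 0)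
  have hRT : R *ᵥ fT ρ F 0 = fT ρ G 0 := by
    rw [hR, RIG_R_apply, wF.TT, dotProduct_comm (fN ρ F 0), wF.TN, dotProduct_comm (fn F 0),
      wF.Tn, one_smul, zero_smul, zero_smul, add_zero, add_zero]
  have hRN : R *ᵥ fN ρ F 0 = fN ρ G 0 := by
    rw [hR, RIG_R_apply, wF.TN, wF.NN, dotProduct_comm (fn F 0), wF.Nn, one_smul, zero_smul,
      zero_smul, zero_add, add_zero]
  have hRn : R *ᵥ fn F 0 = fn G 0 := by
    rw [hR, RIG_R_apply, wF.Tn, wF.Nn, wF.nn, one_smul, zero_smul, zero_smul, zero_add,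
      zero_add]
  have hode := RIG_ode (deriv φ) (fun x => R *ᵥ fT ρ F x - fT ρ G x)
    (fun x => R *ᵥ fN ρ F x - fN ρ G x) (fun x => by
      refine ((RIG_mulVec R (kT x)).sub (gT x)).congr_deriv ?_
      rw [Matrix.mulVec_smul, smul_sub]) (fun x => by
      refine ((RIG_mulVec R (kN x)).sub (gN x)).congr_deriv ?_
      rw [Matrix.mulVec_neg, Matrix.mulVec_smul, smul_sub]
      abel) (by simp only [hRT, sub_self]) (by simp only [hRN, sub_self])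
  have hT : ∀ x, R *ᵥ fT ρ F x = fT ρ G x := fun x => sub_eq_zero.1 (hode x).1
  have hN : ∀ x, R *ᵥ fN ρ F x = fN ρ G x := fun x => sub_eq_zero.1 (hode x).2
  have hn : ∀ x, R *ᵥ fn F x = fn G x := fun x => by rw [kn, gn, hRn]
  have h1 : ∀ x, ∀ i, pd i G (pt x) = R *ᵥ pd i F (pt x) := by
    intro x
    rw [Fin.forall_fin_two]
    constructor
    · rw [(fG x).1, (fF x).1, Matrix.mulVec_smul, hT]
    · rw [(fG x).2, (fF x).2, Matrix.mulVec_add, Matrix.mulVec_smul, Matrix.mulVec_smul, hT, hN]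
  have hII' : ∀ x, ∀ i j, II G i j (pt x) = II F i j (pt x) := by
    intro x i j
    have sG := (hFRM St RIG_St_open G hG (pt x) (RIG_pt_mem x)).2.2.2.2.1
    have sF := (hFRM St RIG_St_open F hF (pt x) (RIG_pt_mem x)).2.2.2.2.1
    fin_cases i <;> fin_cases j
    · exact (hFlat x).1.trans (hFlatF x).1.symm
    · exact (hFlat x).2.trans (hFlatF x).2.symm
    · exact (sG 1 0).trans (((hFlat x).2.trans (hFlatF x).2.symm).trans (sF 0 1))
    · exact hII x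
  refine ⟨R, hSO, G (pt 0) - R *ᵥ F (pt 0), fun x => ⟨?_, h1 x, fun i j => ?_⟩⟩
  · have hd : ∀ y, HasDerivAt (fun y => G (pt y) - R *ᵥ F (pt y)) 0 y := by
      intro y
      refine ((RIG_line hG y).sub (RIG_mulVec R (RIG_line hF y))).congr_deriv ?_
      rw [h1 y 0, sub_self]
    have hc := is_const_of_deriv_eq_zero (fun y => (hd y).differentiableAt)
      (fun y => (hd y).deriv) x 0
    rw [← hc]
    abel
  · have qG := (hFRM St RIG_St_open G hG (pt x) (RIG_pt_mem x)).2.2.2.2.2.1 i j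
    have qF := (hFRM St RIG_St_open F hF (pt x) (RIG_pt_mem x)).2.2.2.2.2.1 i j
    have hc := (hCHR St RIG_St_open F hF).2.2 G hG hIso (pt x) (RIG_pt_mem x)
    have hnn : NN G (pt x) = R *ᵥ NN F (pt x) := (hn x).symm
    rw [qG, qF, (hc 0 i j).2, (hc 1 i j).2, hII' x i j, h1 x 0, h1 x 1, hnn, Matrix.mulVec_add,
      Matrix.mulVec_add, Matrix.mulVec_smul, Matrix.mulVec_smul, Matrix.mulVec_smul]

end Pool.TRG
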