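import Pool.Agent.Work.MP_02e829_tr.Interface

/-! # MP_02e829_gt, TROUGH RIGIDITY: block SQR -/

open Set Filter Matrix MeasureTheory Metric
open scoped Topology ContDiff Real

set_option autoImplicit false

namespace Pool.TRG

open Pool.FR (pd ee gg WW DD NN II Ga Gb Imm SO3)

lemma SQR_open : IsOpen St :=
  isOpen_lt (continuous_abs.comp (EuclideanSpace.proj (𝕜 := ℝ) (1 : Fin 2)).continuous)
    continuous_const

lemma SQR_pt (x : ℝ) : pt x ∈ St := by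
  show |(pt x) 1| < 1
  have : (pt x) 1 = 0 := by simp [pt, ee]
  rw [this]
  simp

/-- the derivative along the line of a function which vanishes on the line -/
lemma SQR_along {u : E2 → ℝ} {x : ℝ} (hd : DifferentiableAt ℝ u (pt x))
    (h0 : ∀ y, u (pt y) = 0) : pd 0 u (pt x) = 0 := by
  have h1 : HasDerivAt (fun t : ℝ => pt t) (ee 0) x := by
    have := (hasDerivAt_id x).smul_const (ee 0)
    simpa [pt] using this
  have h2 : HasDerivAt (fun t : ℝ => u (pt t)) (fderiv ℝ u (pt x) (ee 0)) x :=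
    hd.hasFDerivAt.comp_hasDerivAt x h1
  have h3 : (fun t : ℝ => u (pt t)) = fun _ => 0 := funext h0
  rw [h3] at h2
  exact h2.unique (hasDerivAt_const x 0)

lemma SQR_key (hFRM : Pool.FR.Stmt_FRM) (hCOD : Pool.FR.Stmt_COD) {H : E2 → V3} (hH : Imm H St)
    (hflat : Flat H) (x : ℝ) :
    pd 1 (fun y => II H 0 0 y * II H 1 1 y - II H 0 1 y ^ 2) (pt x) =
      -(Gb H 1 0 0 (pt x) * II H 1 1 (pt x) ^ 2) := by
  have hx := SQR_pt x
  have hF := hFRM St SQR_open H hH (pt x) hx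
  have hsm : ∀ i j, DifferentiableAt ℝ (II H i j) (pt x) := fun i j =>
    Pool.FR.diff_at SQR_open (hF.2.2.2.2.2.2.2.2.2 i j) (by norm_num) hx
  have h00 := (hflat x).1
  have h01 := (hflat x).2
  have h10 : II H 1 0 (pt x) = 0 := by rw [hF.2.2.2.2.1 1 0, h01]
  have hal : pd 0 (II H 0 1) (pt x) = 0 := SQR_along (hsm 0 1) fun y => (hflat y).2
  have hcod := (hCOD St SQR_open H hH (pt x) hx).1
  rw [hal, h00, h10, h01] at hcod
  have e1 : (fun y => II H 0 0 y * II H 1 1 y - II H 0 1 y ^ 2) =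
      fun y => II H 0 0 y * II H 1 1 y - II H 0 1 y * II H 0 1 y := by
    funext y; ring
  have e2 : pd 1 (fun y => II H 0 0 y * II H 1 1 y - II H 0 1 y * II H 0 1 y) (pt x) =
      pd 1 (fun y => II H 0 0 y * II H 1 1 y) (pt x) -
        pd 1 (fun y => II H 0 1 y * II H 0 1 y) (pt x) :=
    Pool.FR.pd_sub 1 ((hsm 0 0).mul (hsm 1 1)) ((hsm 0 1).mul (hsm 0 1))
  rw [e1, e2, Pool.FR.pd_mul 1 (hsm 0 0) (hsm 1 1), Pool.FR.pd_mul 1 (hsm 0 1) (hsm 0 1), h00, h01]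
  have h2 : pd 1 (II H 0 0) (pt x) = -(Gb H 1 0 0 (pt x) * II H 1 1 (pt x)) := by linarith
  rw [h2]
  ring

theorem p_SQR (hFRM : Pool.FR.Stmt_FRM) (hCHR : Pool.FR.Stmt_CHR) (hCOD : Pool.FR.Stmt_COD)
    (hEGG : Stmt_EGG) (hTR0 : Stmt_TR0) : Stmt_SQR := by
  intro F e1 e2 φ ρ lam mu hT G hG hiso hflat x
  obtain ⟨-, -, -, -, -, -, h0⟩ := hTR0 F e1 e2 φ ρ lam mu hT
  have hflatF : Flat F := fun y => ⟨(h0 y).2.2.2.2.1, (h0 y).2.2.2.2.2.1⟩
  have hGb : Gb F 1 0 0 (pt x) = ρ x * deriv φ x / mu x := (h0 x).2.2.2.2.2.2.2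
  have hne : Gb F 1 0 0 (pt x) ≠ 0 := by
    rw [hGb]
    have h1 := hT.rpos x
    have h2 := hT.mpos x
    have h3 := hT.ang.pos x
    positivity
  have hFk := SQR_key hFRM hCOD hT.imm hflatF x
  have hGk := SQR_key hFRM hCOD hG hflat x
  have hGb' : Gb G 1 0 0 (pt x) = Gb F 1 0 0 (pt x) :=
    ((hCHR St SQR_open F hT.imm).2.2 G hG hiso (pt x) (SQR_pt x) 1 0 0).2
  have heq : pd 1 (fun y => II G 0 0 y * II G 1 1 y - II G 0 1 y ^ 2) (pt x) =
      pd 1 (fun y => II F 0 0 y * II F 1 1 y - II F 0 1 y ^ 2) (pt x) :=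
    Pool.FR.pd_congr SQR_open (fun y hy => hEGG St SQR_open F G hT.imm hG hiso y hy) 1 (SQR_pt x)
  rw [hFk, hGk, hGb'] at heq
  have h4 := neg_inj.1 heq
  exact mul_left_cancel₀ hne h4

end Pool.TRG
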