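import Pool.Agent.Work.MP_02e829_tr.Interface

/-!
# MP_02e829_gt, TROUGH RIGIDITY, block SUB
-/

open Set Filter Matrix MeasureTheory Metric
open scoped Topology ContDiff Real

set_option autoImplicit false

namespace Pool.TRG

theorem p_SUB (hCSI : Stmt_CSI) : Stmt_SUB := by
  intro b hb hper x
  have hcb : Continuous b := hb.continuous
  have hcd : Continuous (deriv b) := hb.continuous_deriv le_rfl
  have h2pi : (0 : ℝ) < 2 * π := by positivity
  obtain ⟨x', hx', hxx⟩ := hper.exists_mem_Ico₀ h2pi x
  rw [hxx]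
  obtain ⟨y, hy, hmin⟩ := isCompact_Icc.exists_isMinOn (nonempty_Icc.2 h2pi.le)
    (hcb.pow 2).continuousOn
  have h1 : b y ^ 2 ≤ IC fun x => b x ^ 2 := by
    have h2 : (∫ s in (0 : ℝ)..(2 * π), b y ^ 2) ≤ ∫ s in (0 : ℝ)..(2 * π), b s ^ 2 :=
      intervalIntegral.integral_mono_on h2pi.le (by simp) ((hcb.pow 2).intervalIntegrable _ _)
        (fun s hs => hmin hs)
    rw [intervalIntegral.integral_const, smul_eq_mul, sub_zero] at h2
    unfold IC
    have h3 : b y ^ 2 ≤ 2 * π * b y ^ 2 := by nlinarith [sq_nonneg (b y), Real.pi_gt_three]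
    linarith
  have hg : Continuous (fun s => 2 * (b s * deriv b s)) := continuous_const.mul (hcb.mul hcd)
  have h4 : ∫ s in y..x', 2 * (b s * deriv b s) = b x' ^ 2 - b y ^ 2 := by
    refine intervalIntegral.integral_eq_sub_of_hasDerivAt (f := fun s => b s ^ 2) (fun s _ => ?_)
      (hg.intervalIntegrable _ _)
    have h5 : HasDerivAt b (deriv b s) s :=
      ((hb.differentiable (by norm_num)) s).hasDerivAt
    have h6 := h5.pow 2
    refine h6.congr_deriv ?_
    norm_num
    ring
  have h7 : abs (∫ s in y..x', 2 * (b s * deriv b s)) ≤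
      abs (∫ s in (0 : ℝ)..(2 * π), abs (2 * (b s * deriv b s))) := by
    have h8 : abs (∫ s in y..x', 2 * (b s * deriv b s)) ≤
        abs (∫ s in y..x', abs (2 * (b s * deriv b s))) := by
      have h9 := intervalIntegral.norm_integral_le_abs_integral_norm
        (f := fun s => 2 * (b s * deriv b s)) (a := y) (b := x') (μ := volume)
      simpa only [Real.norm_eq_abs] using h9
    refine h8.trans (intervalIntegral.abs_integral_mono_interval ?_ ?_ ?_)
    · intro s hs
      rw [uIoc_of_le h2pi.le]
      rcases le_total y x' with h | h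
      · rw [uIoc_of_le h] at hs
        exact ⟨lt_of_le_of_lt hy.1 hs.1, hs.2.trans hx'.2.le⟩
      · rw [uIoc_comm, uIoc_of_le h] at hs
        exact ⟨lt_of_le_of_lt hx'.1 hs.1, hs.2.trans hy.2⟩
    · exact Filter.Eventually.of_forall fun s => abs_nonneg _
    · exact hg.abs.intervalIntegrable _ _
  have h10 : (∫ s in (0 : ℝ)..(2 * π), abs (2 * (b s * deriv b s))) =
      2 * IC fun s => |b s| * |deriv b s| := by
    unfold IC
    rw [← intervalIntegral.integral_const_mul]
    refine intervalIntegral.integral_congr fun s _ => ?_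
    simp only [abs_mul, abs_two]
  have hI0 : 0 ≤ IC fun s => |b s| * |deriv b s| :=
    intervalIntegral.integral_nonneg h2pi.le fun s _ => mul_nonneg (abs_nonneg _) (abs_nonneg _)
  have h11 : (IC fun s => |b s| * |deriv b s|) ≤
      √(IC fun x => b x ^ 2) * √(IC fun x => deriv b x ^ 2) := by
    have h12 := hCSI (fun s => |b s|) (fun s => |deriv b s|) hcb.abs hcd.abs
    simp only [sq_abs] at h12
    have hA : 0 ≤ IC fun x => b x ^ 2 :=
      intervalIntegral.integral_nonneg h2pi.le fun s _ => sq_nonneg _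
    rw [← Real.sqrt_mul hA]
    exact Real.le_sqrt_of_sq_le h12
  rw [h4, h10, abs_of_nonneg (mul_nonneg zero_le_two hI0)] at h7
  have h13 := le_abs_self (b x' ^ 2 - b y ^ 2)
  linarith

end Pool.TRG
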