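import Pool.Agent.Work.MP_02e829_tr.Interface

/-!
Block SUP: the support function of a closed convex curve.
-/

open Set Filter Matrix MeasureTheory Metric
open scoped Topology ContDiff Real

set_option autoImplicit false

namespace Pool.TRG

open Pool.FR (pd ee gg WW DD NN II Ga Gb Imm SO3)

theorem SUP_deriv {u : ℝ → ℝ} (hu : Continuous u) (x : ℝ) :
    HasDerivAt (fun y => ∫ s in (0 : ℝ)..y, u s) (u x) x :=
  intervalIntegral.integral_hasDerivAt_right (hu.intervalIntegrable _ _)
    (hu.stronglyMeasurableAtFilter _ _) hu.continuousAt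

theorem SUP_per {u : ℝ → ℝ} (hu : Continuous u) (hp : Function.Periodic u (2 * π))
    (h0 : IC u = 0) (x : ℝ) :
    (∫ s in (0 : ℝ)..(x + 2 * π), u s) = ∫ s in (0 : ℝ)..x, u s := by
  have h1 := intervalIntegral.integral_add_adjacent_intervals
    (hu.intervalIntegrable (μ := volume) 0 x) (hu.intervalIntegrable (μ := volume) x (x + 2 * π))
  have h2 : (∫ s in x..(x + 2 * π), u s) = ∫ s in (0 : ℝ)..(0 + 2 * π), u s :=
    hp.intervalIntegral_add_eq x 0
  rw [zero_add] at h2
  have h3 : (∫ s in (0 : ℝ)..(2 * π), u s) = 0 := h0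
  rw [← h1, h2, h3, add_zero]

/-- the support function -/
noncomputable def SUP_q (ρ : ℝ → ℝ) (x : ℝ) : ℝ :=
  Real.sin x * (∫ s in (0 : ℝ)..x, ρ s * Real.cos s) -
    Real.cos x * ∫ s in (0 : ℝ)..x, ρ s * Real.sin s

/-- its derivative -/
noncomputable def SUP_q' (ρ : ℝ → ℝ) (x : ℝ) : ℝ :=
  Real.cos x * (∫ s in (0 : ℝ)..x, ρ s * Real.cos s) +
    Real.sin x * ∫ s in (0 : ℝ)..x, ρ s * Real.sin s

theorem SUP_d1 {ρ : ℝ → ℝ} (hρ : Continuous ρ) (x : ℝ) :
    HasDerivAt (SUP_q ρ) (SUP_q' ρ x) x := by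
  have hA := SUP_deriv (u := fun s => ρ s * Real.cos s) (hρ.mul Real.continuous_cos) x
  have hB := SUP_deriv (u := fun s => ρ s * Real.sin s) (hρ.mul Real.continuous_sin) x
  have h := ((Real.hasDerivAt_sin x).mul hA).sub ((Real.hasDerivAt_cos x).mul hB)
  refine h.congr_deriv ?_
  simp only [SUP_q']
  ring

theorem SUP_d2 {ρ : ℝ → ℝ} (hρ : Continuous ρ) (x : ℝ) :
    HasDerivAt (SUP_q' ρ) (ρ x - SUP_q ρ x) x := by
  have hA := SUP_deriv (u := fun s => ρ s * Real.cos s) (hρ.mul Real.continuous_cos) x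
  have hB := SUP_deriv (u := fun s => ρ s * Real.sin s) (hρ.mul Real.continuous_sin) x
  have h := ((Real.hasDerivAt_cos x).mul hA).add ((Real.hasDerivAt_sin x).mul hB)
  refine h.congr_deriv ?_
  simp only [SUP_q]
  have e := Real.sin_sq_add_cos_sq x
  linear_combination ρ x * e

theorem SUP_cd {ρ : ℝ → ℝ} (hρ : Continuous ρ) : ContDiff ℝ 2 (SUP_q ρ) := by
  have e1 : deriv (SUP_q ρ) = SUP_q' ρ := funext fun x => (SUP_d1 hρ x).deriv
  have e2 : deriv (SUP_q' ρ) = fun x => ρ x - SUP_q ρ x := funext fun x => (SUP_d2 hρ x).deriv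
  have d1 : Differentiable ℝ (SUP_q ρ) := fun x => (SUP_d1 hρ x).differentiableAt
  have d2 : Differentiable ℝ (SUP_q' ρ) := fun x => (SUP_d2 hρ x).differentiableAt
  have c1 : ContDiff ℝ 1 (SUP_q' ρ) := by
    rw [contDiff_one_iff_deriv]
    refine ⟨d2, ?_⟩
    rw [e2]
    exact hρ.sub d1.continuous
  have h2 : ContDiff ℝ (1 + 1) (SUP_q ρ) := by
    rw [contDiff_succ_iff_deriv]
    refine ⟨d1, fun h => absurd h (by simp), ?_⟩
    rw [e1]
    exact c1
  have h3 : ((1 : WithTop ℕ∞) + 1) = 2 := by norm_num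
  rw [h3] at h2
  exact h2

theorem SUP_int {ρ : ℝ → ℝ} (hρ : Continuous ρ) (a b x : ℝ) :
    Real.sin x * (∫ s in a..b, ρ s * Real.cos s) - Real.cos x * (∫ s in a..b, ρ s * Real.sin s) =
      ∫ s in a..b, ρ s * Real.sin (x - s) := by
  rw [← intervalIntegral.integral_const_mul, ← intervalIntegral.integral_const_mul,
    ← intervalIntegral.integral_sub]
  · refine intervalIntegral.integral_congr fun s _ => ?_
    simp only [Real.sin_sub]
    ring
  · exact (continuous_const.mul (hρ.mul Real.continuous_cos)).intervalIntegrable _ _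
  · exact (continuous_const.mul (hρ.mul Real.continuous_sin)).intervalIntegrable _ _

theorem SUP_pos {ρ : ℝ → ℝ} (h : Rad ρ) (x : ℝ) (hx : x ∈ Ioo (0 : ℝ) (2 * π)) :
    0 < SUP_q ρ x := by
  have hρ := h.cont
  rcases le_or_gt x π with hπ | hπ
  · have e : SUP_q ρ x = ∫ s in (0 : ℝ)..x, ρ s * Real.sin (x - s) := SUP_int hρ 0 x x
    rw [e]
    refine intervalIntegral.intervalIntegral_pos_of_pos_on ?_ ?_ hx.1
    · exact (hρ.mul (Real.continuous_sin.comp (continuous_const.sub continuous_id))).intervalIntegrable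
        _ _
    · intro s hs
      exact mul_pos (h.pos s) (Real.sin_pos_of_pos_of_lt_pi (by linarith [hs.2]) (by linarith [hs.1]))
  · have hA0 : (∫ s in (0 : ℝ)..(2 * π), ρ s * Real.cos s) = 0 := h.cos
    have hB0 : (∫ s in (0 : ℝ)..(2 * π), ρ s * Real.sin s) = 0 := h.sin
    have cA : Continuous fun s => ρ s * Real.cos s := hρ.mul Real.continuous_cos
    have cB : Continuous fun s => ρ s * Real.sin s := hρ.mul Real.continuous_sin
    have hA1 := intervalIntegral.integral_add_adjacent_intervals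
      (cA.intervalIntegrable (μ := volume) 0 x) (cA.intervalIntegrable (μ := volume) x (2 * π))
    have hB1 := intervalIntegral.integral_add_adjacent_intervals
      (cB.intervalIntegrable (μ := volume) 0 x) (cB.intervalIntegrable (μ := volume) x (2 * π))
    have e1 := SUP_int hρ x (2 * π) x
    have e2 : SUP_q ρ x = -∫ s in x..(2 * π), ρ s * Real.sin (x - s) := by
      rw [← e1]
      simp only [SUP_q]
      rw [hA0] at hA1
      rw [hB0] at hB1
      linear_combination Real.sin x * hA1 - Real.cos x * hB1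
    have e3 : (-∫ s in x..(2 * π), ρ s * Real.sin (x - s)) =
        ∫ s in x..(2 * π), ρ s * Real.sin (s - x) := by
      rw [← intervalIntegral.integral_neg]
      refine intervalIntegral.integral_congr fun s _ => ?_
      have e4 : Real.sin (s - x) = -Real.sin (x - s) := by rw [← Real.sin_neg, neg_sub]
      show -(ρ s * Real.sin (x - s)) = ρ s * Real.sin (s - x)
      rw [e4]
      ring
    rw [e2, e3]
    refine intervalIntegral.intervalIntegral_pos_of_pos_on ?_ ?_ hx.2
    · exact (hρ.mul (Real.continuous_sin.comp (continuous_id.sub continuous_const))).intervalIntegrable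
        _ _
    · intro s hs
      exact mul_pos (h.pos s) (Real.sin_pos_of_pos_of_lt_pi (by linarith [hs.1])
        (by linarith [hs.2, hs.1]))

theorem p_SUP : Stmt_SUP := by
  intro ρ h
  have hρ := h.cont
  have e1 : deriv (SUP_q ρ) = SUP_q' ρ := funext fun x => (SUP_d1 hρ x).deriv
  refine ⟨SUP_q ρ, SUP_cd hρ, ?_, ?_, ?_⟩
  · intro x
    have hA := SUP_per (u := fun s => ρ s * Real.cos s) (hρ.mul Real.continuous_cos)
      (fun s => by simp only [h.per s, Real.cos_add_two_pi]) h.cos x
    have hB := SUP_per (u := fun s => ρ s * Real.sin s) (hρ.mul Real.continuous_sin)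
      (fun s => by simp only [h.per s, Real.sin_add_two_pi]) h.sin x
    simp only [SUP_q, Real.sin_add_two_pi, Real.cos_add_two_pi]
    rw [hA, hB]
  · intro x
    rw [e1, (SUP_d2 hρ x).deriv]
    ring
  · refine intervalIntegral.intervalIntegral_pos_of_pos_on ?_ ?_ (by positivity)
    · exact (hρ.mul (SUP_cd hρ).continuous).intervalIntegrable _ _
    · intro x hx
      exact mul_pos (h.pos x) (SUP_pos h x hx)

end Pool.TRG
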