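import Pool.Agent.Work.MP_02e829_tr.Interface2
import Pool.Agent.Work.MP_02e829_tr.B_RD0

/-!
# Block TRC: a trough in coordinates
-/

open Set Filter Manifold Matrix MeasureTheory Metric
open scoped Topology ContDiff Manifold Real

set_option autoImplicit false

universe w

namespace Pool.TRG

open Pool
open Pool.FR (pd ee gg WW DD NN II Ga Gb Imm SO3)
open Pool.SXB (E3 L3 Proper PosCurv Fam2 Fam3 Transv)

theorem TRC_key3 (N p q r : V3) : (p ⬝ᵥ (q ⨯₃ r)) • N =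
    (p ⬝ᵥ N) • (q ⨯₃ r) + (q ⬝ᵥ N) • (r ⨯₃ p) + (r ⬝ᵥ N) • (p ⨯₃ q) := by
  ext i
  fin_cases i <;>
  · simp only [Matrix.vec3_dotProduct, cross_apply, Pi.smul_apply, Pi.add_apply, smul_eq_mul,
      Fin.zero_eta, Fin.mk_one, Fin.reduceFinMk, Fin.isValue, Matrix.cons_val]
    ring

theorem TRC_vol (a b : V3) : a ⬝ᵥ (b ⨯₃ (a ⨯₃ b)) = (a ⬝ᵥ a) * (b ⬝ᵥ b) - (a ⬝ᵥ b) ^ 2 := by
  simp only [Matrix.vec3_dotProduct, cross_apply, Fin.isValue, Matrix.cons_val]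
  ring

/-- a vector orthogonal to the normal of a plane is in the plane -/
theorem TRC_plane {a b w : V3} (ha : a ⬝ᵥ a = 1) (hb : b ⬝ᵥ b = 1) (hab : a ⬝ᵥ b = 0)
    (hw : w ⬝ᵥ (a ⨯₃ b) = 0) : w = (w ⬝ᵥ a) • a + (w ⬝ᵥ b) • b := by
  have h := TRC_key3 (w - ((w ⬝ᵥ a) • a + (w ⬝ᵥ b) • b)) a b (a ⨯₃ b)
  rw [TRC_vol, ha, hb, hab] at h
  have h1 : a ⬝ᵥ (w - ((w ⬝ᵥ a) • a + (w ⬝ᵥ b) • b)) = 0 := by
    rw [dotProduct_sub, dotProduct_add, dotProduct_smul, dotProduct_smul, ha, hab,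
      dotProduct_comm a w]
    simp
  have h2 : b ⬝ᵥ (w - ((w ⬝ᵥ a) • a + (w ⬝ᵥ b) • b)) = 0 := by
    rw [dotProduct_sub, dotProduct_add, dotProduct_smul, dotProduct_smul, hb,
      dotProduct_comm b a, hab, dotProduct_comm b w]
    simp
  have h3 : (a ⨯₃ b) ⬝ᵥ (w - ((w ⬝ᵥ a) • a + (w ⬝ᵥ b) • b)) = 0 := by
    rw [dotProduct_comm, sub_dotProduct, add_dotProduct, smul_dotProduct, smul_dotProduct, hw,
      dot_self_cross, dot_cross_self]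
    simp
  rw [h1, h2, h3] at h
  have h4 : w - ((w ⬝ᵥ a) • a + (w ⬝ᵥ b) • b) = 0 := by
    have : (1 * 1 - (0 : ℝ) ^ 2) • (w - ((w ⬝ᵥ a) • a + (w ⬝ᵥ b) • b)) =
        w - ((w ⬝ᵥ a) • a + (w ⬝ᵥ b) • b) := by
      norm_num
    rw [this] at h
    rw [h]
    simp
  exact sub_eq_zero.1 h4

theorem TRC_pt (x : ℝ) : pt x ∈ St := by
  show |(x • ee 0 : E2) 1| < 1
  simp [ee]

theorem p_TRC (hRD0 : Stmt_RD0.{w}) : Stmt_TRC.{w} := by
  intro S _ _ _ f hf Φ e1 e2 φ hT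
  obtain ⟨r1, -, r3⟩ := hRD0 S f hf Φ hT.ann
  have h01 : (0 : ℝ) ∈ Icc (0 : ℝ) 1 := ⟨le_rfl, zero_le_one⟩
  choose ρ hρ using hT.along
  choose lam mu hmu using hT.across
  have hsm : ContDiffOn ℝ 4 (fun x => f 0 (Φ x)) St :=
    contMDiffOn_iff_contDiffOn.1 ((hf.smooth 0 h01).comp_contMDiffOn hT.ann.smooth)
  have hsm1 : ContDiffOn ℝ 3 (pd 1 fun x => f 0 (Φ x)) St :=
    Pool.FR.pd_contDiffOn RD0_isOpen hsm (by norm_num) 1
  have hpd : ∀ i, ∀ x ∈ St, pd i (fun y => L3 (f 0 (Φ y))) x =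
      L3 (pd i (fun y => f 0 (Φ y)) x) := fun i x hx =>
    Pool.FR.pd_clm i L3 (Pool.FR.diff_at RD0_isOpen hsm (by norm_num) hx)
  have hpd2 : ∀ x ∈ St, pd 1 (pd 1 fun y => L3 (f 0 (Φ y))) x =
      L3 (pd 1 (pd 1 fun y => f 0 (Φ y)) x) := by
    intro x hx
    rw [Pool.FR.pd_congr RD0_isOpen (hpd 1) 1 hx]
    exact Pool.FR.pd_clm 1 L3 (Pool.FR.diff_at RD0_isOpen hsm1 (by norm_num) hx)
  have n1 : ‖e1‖ = 1 := by
    have := hT.ort.1 0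
    simpa using this
  have n2 : ‖e2‖ = 1 := by
    have := hT.ort.1 1
    simpa using this
  have n3 : inner ℝ e1 e2 = 0 := by
    have := hT.ort.2 (i := 0) (j := 1) (by decide)
    simpa using this
  have g11 : L3 e1 ⬝ᵥ L3 e1 = 1 := by
    rw [RD0_inner, real_inner_self_eq_norm_sq, n1, one_pow]
  have g22 : L3 e2 ⬝ᵥ L3 e2 = 1 := by
    rw [RD0_inner, real_inner_self_eq_norm_sq, n2, one_pow]
  have g12 : L3 e1 ⬝ᵥ L3 e2 = 0 := by
    rw [RD0_inner, n3]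
  refine ⟨ρ, lam, mu, ⟨hT.ang, r1 0 h01, r3 0 h01, g11, g22, g12, ?_, ?_, fun x => (hρ x).1,
    fun x => (hmu x).1, ?_⟩⟩
  · intro x
    rw [hpd 0 _ (TRC_pt x), (hρ x).2]
    simp only [c0, map_smul, map_add]
  · intro x
    rw [hpd 1 _ (TRC_pt x), (hmu x).2]
    simp only [c0, c1, map_smul, map_add]
  · intro x h0
    rw [hpd2 _ (TRC_pt x)] at h0
    apply hT.bend x
    have h1 := TRC_plane g11 g22 g12 h0
    rw [← map_smul, ← map_smul, ← map_add] at h1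
    have h2 := (EuclideanSpace.equiv (Fin 3) ℝ).injective h1
    rw [h2]
    exact Submodule.add_mem _
      (Submodule.smul_mem _ _ (Submodule.subset_span (by simp)))
      (Submodule.smul_mem _ _ (Submodule.subset_span (by simp)))

end Pool.TRG
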