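import Pool.Agent.Work.MP_02e829_tr.Interface

open Set Filter Matrix MeasureTheory Metric
open scoped Topology ContDiff Real

set_option autoImplicit false

namespace Pool.TRG

open Pool.FR (pd ee gg WW DD NN II Ga Gb Imm SO3)

/-- families of functions of class `C²`, uniformly bounded with two derivatives -/
def UB2_B (u : ℝ → ℝ → ℝ) : Prop :=
  ∃ M : ℝ, 0 ≤ M ∧ ∀ t ∈ Icc (0 : ℝ) 1, ContDiff ℝ 2 (u t) ∧
    ∀ x, |u t x| ≤ M ∧ |deriv (u t) x| ≤ M ∧ |deriv (deriv (u t)) x| ≤ M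

theorem UB2_congr {u v : ℝ → ℝ → ℝ} (hu : UB2_B u) (h : ∀ t ∈ Icc (0 : ℝ) 1, v t = u t) :
    UB2_B v := by
  obtain ⟨M, hM, H⟩ := hu
  refine ⟨M, hM, fun t ht => ?_⟩
  rw [h t ht]
  exact H t ht

theorem UB2_add {u v : ℝ → ℝ → ℝ} (hu : UB2_B u) (hv : UB2_B v) :
    UB2_B fun t x => u t x + v t x := by
  obtain ⟨M, hM, H⟩ := hu
  obtain ⟨M', hM', H'⟩ := hv
  refine ⟨M + M', by positivity, fun t ht => ?_⟩
  obtain ⟨hc, hb⟩ := H t ht
  obtain ⟨hc', hb'⟩ := H' t ht
  have hd : Differentiable ℝ (u t) := hc.differentiable (by norm_num)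
  have hd' : Differentiable ℝ (v t) := hc'.differentiable (by norm_num)
  have hdd : Differentiable ℝ (deriv (u t)) := hc.differentiable_deriv_two
  have hdd' : Differentiable ℝ (deriv (v t)) := hc'.differentiable_deriv_two
  have e1 : deriv (fun x => u t x + v t x) = fun x => deriv (u t) x + deriv (v t) x := by
    funext x
    exact deriv_fun_add (hd x) (hd' x)
  refine ⟨hc.add hc', fun x => ?_⟩
  obtain ⟨b1, b2, b3⟩ := hb x
  obtain ⟨c1, c2, c3⟩ := hb' x
  rw [e1]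
  refine ⟨(abs_add_le _ _).trans (add_le_add b1 c1), (abs_add_le _ _).trans (add_le_add b2 c2), ?_⟩
  rw [deriv_fun_add (hdd x) (hdd' x)]
  exact (abs_add_le _ _).trans (add_le_add b3 c3)

theorem UB2_mul {u v : ℝ → ℝ → ℝ} (hu : UB2_B u) (hv : UB2_B v) :
    UB2_B fun t x => u t x * v t x := by
  obtain ⟨M, hM, H⟩ := hu
  obtain ⟨M', hM', H'⟩ := hv
  refine ⟨4 * (M * M'), by positivity, fun t ht => ?_⟩
  obtain ⟨hc, hb⟩ := H t ht
  obtain ⟨hc', hb'⟩ := H' t ht
  have hd : Differentiable ℝ (u t) := hc.differentiable (by norm_num)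
  have hd' : Differentiable ℝ (v t) := hc'.differentiable (by norm_num)
  have hdd : Differentiable ℝ (deriv (u t)) := hc.differentiable_deriv_two
  have hdd' : Differentiable ℝ (deriv (v t)) := hc'.differentiable_deriv_two
  have e1 : deriv (fun x => u t x * v t x) =
      fun x => deriv (u t) x * v t x + u t x * deriv (v t) x := by
    funext x
    exact deriv_fun_mul (hd x) (hd' x)
  have hm : ∀ a b : ℝ, |a| ≤ M → |b| ≤ M' → |a * b| ≤ M * M' := by
    intro a b ha hb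
    rw [abs_mul]
    exact mul_le_mul ha hb (abs_nonneg _) hM
  have hMM : 0 ≤ M * M' := by positivity
  refine ⟨hc.mul hc', fun x => ?_⟩
  obtain ⟨b1, b2, b3⟩ := hb x
  obtain ⟨c1, c2, c3⟩ := hb' x
  rw [e1]
  refine ⟨?_, ?_, ?_⟩
  · have := hm _ _ b1 c1
    show |u t x * v t x| ≤ _
    linarith
  · have h1 := hm _ _ b2 c1
    have h2 := hm _ _ b1 c2
    have := abs_add_le (deriv (u t) x * v t x) (u t x * deriv (v t) x)
    linarith
  · have e2 : deriv (fun x => deriv (u t) x * v t x + u t x * deriv (v t) x) x =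
        (deriv (deriv (u t)) x * v t x + deriv (u t) x * deriv (v t) x) +
          (deriv (u t) x * deriv (v t) x + u t x * deriv (deriv (v t)) x) :=
      (((hdd x).hasDerivAt.mul (hd' x).hasDerivAt).add
        ((hd x).hasDerivAt.mul (hdd' x).hasDerivAt)).deriv
    rw [e2]
    have h1 := hm _ _ b3 c1
    have h2 := hm _ _ b2 c2
    have h3 := hm _ _ b1 c3
    have g1 := abs_add_le (deriv (deriv (u t)) x * v t x + deriv (u t) x * deriv (v t) x)
      (deriv (u t) x * deriv (v t) x + u t x * deriv (deriv (v t)) x)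
    have g2 := abs_add_le (deriv (deriv (u t)) x * v t x) (deriv (u t) x * deriv (v t) x)
    have g3 := abs_add_le (deriv (u t) x * deriv (v t) x) (u t x * deriv (deriv (v t)) x)
    linarith

theorem UB2_per (w : ℝ → ℝ) (hw : Continuous w) (hp : Function.Periodic w (2 * π)) :
    ∃ M : ℝ, 0 ≤ M ∧ ∀ x, |w x| ≤ M := by
  obtain ⟨M, hM⟩ := (isCompact_Icc (a := (0 : ℝ)) (b := 2 * π)).exists_bound_of_continuousOn
    hw.continuousOn
  have h0 : ∀ x, |w x| ≤ M := by
    intro x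
    obtain ⟨y, hy, hxy⟩ := hp.exists_mem_Ico₀ (by positivity) x
    rw [hxy]
    exact hM y ⟨hy.1, hy.2.le⟩
  exact ⟨M, (abs_nonneg _).trans (h0 0), h0⟩

theorem UB2_pd (w : ℝ → ℝ) (hp : Function.Periodic w (2 * π)) :
    Function.Periodic (deriv w) (2 * π) := by
  intro x
  have h1 : (fun y => w (y + 2 * π)) = w := funext hp
  rw [← deriv_comp_add_const, h1]

theorem UB2_fix (w : ℝ → ℝ) (hw : ContDiff ℝ 2 w) (hp : Function.Periodic w (2 * π)) :
    UB2_B fun _ => w := by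
  have hc1 : Continuous (deriv w) := hw.continuous_deriv (by norm_num)
  have hc2 : Continuous (deriv (deriv w)) := by
    have h1 : ContDiff ℝ (1 + 1) w := by
      have : (1 + 1 : WithTop ℕ∞) = 2 := by norm_num
      rw [this]
      exact hw
    have h2 : ContDiff ℝ 1 (deriv w) := (contDiff_succ_iff_deriv.mp h1).2.2
    exact h2.continuous_deriv le_rfl
  obtain ⟨A, hA, hA'⟩ := UB2_per w hw.continuous hp
  obtain ⟨B, hB, hB'⟩ := UB2_per (deriv w) hc1 (UB2_pd w hp)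
  obtain ⟨C, hC, hC'⟩ := UB2_per (deriv (deriv w)) hc2 (UB2_pd _ (UB2_pd w hp))
  refine ⟨A + B + C, by positivity, fun t _ => ⟨hw, fun x => ?_⟩⟩
  exact ⟨(hA' x).trans (by linarith), (hB' x).trans (by linarith), (hC' x).trans (by linarith)⟩

theorem UB2_St : IsOpen St := by
  have h1 : Continuous fun x : E2 => |x 1| := by fun_prop
  exact isOpen_lt h1 continuous_const

theorem UB2_pt (x : ℝ) : pt x ∈ St := by
  show |(pt x) 1| < 1
  simp [pt, ee]

theorem UB2_line {H : E2 → V3} {x : ℝ} (hH : DifferentiableAt ℝ H (pt x)) (a : Fin 3) :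
    HasDerivAt (fun y => H (pt y) a) (pd 0 H (pt x) a) x := by
  have h1 : HasDerivAt pt (ee 0) x := by
    have h2 := (hasDerivAt_id x).smul_const (ee 0)
    rw [one_smul] at h2
    exact h2
  have h3 : HasDerivAt (fun y => H (pt y)) (pd 0 H (pt x)) x :=
    hH.hasFDerivAt.comp_hasDerivAt x h1
  exact (hasDerivAt_pi.mp h3) a

theorem UB2_ptc : ContDiff ℝ ∞ pt := contDiff_id.smul contDiff_const

theorem UB2_cmp (H : ℝ → E2 → V3) (hH : ∀ t ∈ Icc (0 : ℝ) 1, ContDiffOn ℝ 2 (H t) St) (M : ℝ)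
    (hM : ∀ t ∈ Icc (0 : ℝ) 1, ∀ x : ℝ, ‖H t (pt x)‖ ≤ M ∧ ‖pd 0 (H t) (pt x)‖ ≤ M ∧
      ‖pd 0 (pd 0 (H t)) (pt x)‖ ≤ M) (a : Fin 3) : UB2_B fun t x => H t (pt x) a := by
  have hM0 : 0 ≤ M := (norm_nonneg _).trans (hM 0 (by norm_num) 0).1
  refine ⟨M, hM0, fun t ht => ?_⟩
  have h1 : ∀ x, HasDerivAt (fun y => H t (pt y) a) (pd 0 (H t) (pt x) a) x := fun x =>
    UB2_line (Pool.FR.diff_at UB2_St (hH t ht) (by norm_num) (UB2_pt x)) a
  have hpd : ContDiffOn ℝ 1 (pd 0 (H t)) St :=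
    Pool.FR.pd_contDiffOn UB2_St (hH t ht) (by norm_num) 0
  have h2 : ∀ x, HasDerivAt (fun y => pd 0 (H t) (pt y) a) (pd 0 (pd 0 (H t)) (pt x) a) x :=
    fun x => UB2_line (Pool.FR.diff_at UB2_St hpd le_rfl (UB2_pt x)) a
  have e1 : deriv (fun y => H t (pt y) a) = fun x => pd 0 (H t) (pt x) a :=
    funext fun x => (h1 x).deriv
  refine ⟨?_, fun x => ?_⟩
  · have h3 : ContDiffOn ℝ 2 (fun y : ℝ => H t (pt y)) univ :=
      (hH t ht).comp (UB2_ptc.of_le (by norm_cast)).contDiffOn fun x _ => UB2_pt x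
    rw [contDiffOn_univ] at h3
    exact (contDiff_pi.mp h3) a
  · obtain ⟨m1, m2, m3⟩ := hM t ht x
    rw [e1, (h2 x).deriv]
    exact ⟨(norm_le_pi_norm (H t (pt x)) a).trans m1,
      (norm_le_pi_norm (pd 0 (H t) (pt x)) a).trans m2,
      (norm_le_pi_norm (pd 0 (pd 0 (H t)) (pt x)) a).trans m3⟩

theorem p_UB2 (_hFRM : Pool.FR.Stmt_FRM) (hTR0 : Stmt_TR0) : Stmt_UB2 := by
  intro F e1 e2 φ ρ lam mu hTr hSF
  obtain ⟨hW, hρ3, hl3, hm3, hlp, hmp, hmet⟩ := hTR0 (F 0) e1 e2 φ ρ lam mu hTr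
  obtain ⟨M, hM⟩ := hSF.bdd
  have hρp := hW.per
  have hρpos := hW.pos
  have hmpos := hTr.mpos
  have hφpos := hW.ang.pos
  -- the velocity of the angle
  have hφ2 : ContDiff ℝ 2 (deriv φ) := by
    have h1 : ContDiff ℝ (2 + 1) φ := by
      have : (2 + 1 : WithTop ℕ∞) = 3 := by norm_num
      rw [this]
      exact hW.ang.smooth
    exact (contDiff_succ_iff_deriv.mp h1).2.2
  have hφp : Function.Periodic (deriv φ) (2 * π) := by
    intro x
    have h1 : (fun y => φ (y + 2 * π)) = fun y => φ y + 2 * π := funext hW.ang.per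
    rw [← deriv_comp_add_const, h1, deriv_add_const]
  have hρ2 : ContDiff ℝ 2 ρ := hρ3.of_le (by norm_num)
  have hl2 : ContDiff ℝ 2 lam := hl3.of_le (by norm_num)
  have hm2 : ContDiff ℝ 2 mu := hm3.of_le (by norm_num)
  -- the fixed functions
  have hA : UB2_B fun _ x => (mu x * deriv φ x * (ρ x * mu x))⁻¹ := by
    refine UB2_fix _ ?_ ?_
    · refine ((hm2.mul hφ2).mul (hρ2.mul hm2)).inv fun x => ?_
      have a1 := hρpos x
      have a2 := hmpos x
      have a3 := hφpos x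
      positivity
    · intro x
      show (mu (x + 2 * π) * deriv φ (x + 2 * π) * (ρ (x + 2 * π) * mu (x + 2 * π)))⁻¹ = _
      rw [hmp x, hφp x, hρp x]
  have hB : UB2_B fun _ x => -(lam x) * (mu x * deriv φ x * (ρ x * mu x) * ρ x)⁻¹ := by
    refine UB2_fix _ ?_ ?_
    · refine hl2.neg.mul ((((hm2.mul hφ2).mul (hρ2.mul hm2)).mul hρ2).inv fun x => ?_)
      have a1 := hρpos x
      have a2 := hmpos x
      have a3 := hφpos x
      positivity
    · intro x
      show -(lam (x + 2 * π)) * (mu (x + 2 * π) * deriv φ (x + 2 * π) *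
        (ρ (x + 2 * π) * mu (x + 2 * π)) * ρ (x + 2 * π))⁻¹ = _
      rw [hmp x, hφp x, hρp x, hlp x]
  have hN : UB2_B fun _ _ => (-1 : ℝ) := by
    refine UB2_fix _ contDiff_const fun x => rfl
  -- the components
  have hsm : ∀ t ∈ Icc (0 : ℝ) 1, ContDiffOn ℝ 4 (F t) St := fun t ht => (hSF.imm t ht).smooth
  have h1 : ∀ i a, UB2_B fun t x => pd i (F t) (pt x) a := by
    intro i a
    refine UB2_cmp (fun t => pd i (F t)) (fun t ht => ?_) M (fun t ht x => ?_) a
    · exact Pool.FR.pd_contDiffOn UB2_St (hsm t ht) (by norm_num) i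
    · obtain ⟨m1, m2, m3, -⟩ := hM t ht x i 0
      exact ⟨m1, m2, m3⟩
  have h2 : ∀ i j a, UB2_B fun t x => pd i (pd j (F t)) (pt x) a := by
    intro i j a
    refine UB2_cmp (fun t => pd i (pd j (F t))) (fun t ht => ?_) M (fun t ht x => ?_) a
    · have h3 : ContDiffOn ℝ 3 (pd j (F t)) St :=
        Pool.FR.pd_contDiffOn UB2_St (hsm t ht) (by norm_num) j
      exact Pool.FR.pd_contDiffOn UB2_St h3 (by norm_num) i
    · obtain ⟨-, -, -, m1, m2, m3⟩ := hM t ht x i j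
      exact ⟨m1, m2, m3⟩
  -- the triple products
  have h3 : ∀ i j, UB2_B fun t x => pd i (pd j (F t)) (pt x) ⬝ᵥ WW (F t) (pt x) := by
    intro i j
    have hsub : ∀ {u v : ℝ → ℝ → ℝ}, UB2_B u → UB2_B v → UB2_B fun t x => u t x - v t x := by
      intro u v hu hv
      refine UB2_congr (UB2_add hu (UB2_mul hN hv)) fun t _ => ?_
      funext x
      ring
    have q0 := UB2_mul (h2 i j 0) (hsub (UB2_mul (h1 0 1) (h1 1 2)) (UB2_mul (h1 0 2) (h1 1 1)))
    have q1 := UB2_mul (h2 i j 1) (hsub (UB2_mul (h1 0 2) (h1 1 0)) (UB2_mul (h1 0 0) (h1 1 2)))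
    have q2 := UB2_mul (h2 i j 2) (hsub (UB2_mul (h1 0 0) (h1 1 1)) (UB2_mul (h1 0 1) (h1 1 0)))
    refine UB2_congr (UB2_add (UB2_add q0 q1) q2) fun t _ => ?_
    funext x
    rw [WW, cross_apply, dotProduct, Fin.sum_univ_three]
    simp
  have hbb : UB2_B fun t => bb φ ρ lam mu (F t) := by
    refine UB2_congr (UB2_add (UB2_mul hA (h3 0 1)) (UB2_mul hB (h3 0 0))) fun t ht => ?_
    funext x
    have hDD : DD (F t) (pt x) = (ρ x * mu x) ^ 2 := by
      have hi := hSF.iso t ht (pt x) (UB2_pt x)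
      obtain ⟨g00, g01, g11, -⟩ := hmet x
      rw [DD, hi 0 0, hi 0 1, hi 1 1, g00, g01, g11]
      ring
    have a1 := hρpos x
    have a2 := hmpos x
    have a3 := hφpos x
    have hsq : Real.sqrt (DD (F t) (pt x)) = ρ x * mu x := by
      rw [hDD, Real.sqrt_sq (by positivity)]
    have hII : ∀ i j, II (F t) i j (pt x) =
        (ρ x * mu x)⁻¹ * (pd i (pd j (F t)) (pt x) ⬝ᵥ WW (F t) (pt x)) := by
      intro i j
      rw [II, NN, hsq, dotProduct_smul, smul_eq_mul]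
    rw [bb, hII, hII]
    field_simp
    ring
  obtain ⟨K, hK, hK'⟩ := hbb
  exact ⟨K, hK, fun t ht x => ((hK' t ht).2 x).2⟩

end Pool.TRG
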