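import Pool.Agent.Work.MP_02e829_tr.Interface
import Pool.Agent.Work.MP_02e829_sb.B_YC1

/-! # Trough rigidity, block UNQ: uniqueness to all orders along the line -/

open Set Filter Matrix MeasureTheory Metric
open scoped Topology ContDiff Real

set_option autoImplicit false

namespace Pool.TRG

open Pool.FR (pd ee pd_congr pd_contDiffOn diff_at pd_comm pd_dot pd_cross pd_const
  contDiffOn_dot contDiffOn_cross)
open Pool.SXB (mm vv nn yy hh)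

theorem UNQ_key3 (N p q r : V3) : (p ⬝ᵥ (q ⨯₃ r)) • N =
    (p ⬝ᵥ N) • (q ⨯₃ r) + (q ⬝ᵥ N) • (r ⨯₃ p) + (r ⬝ᵥ N) • (p ⨯₃ q) := by
  ext i
  fin_cases i <;>
  · simp only [Matrix.vec3_dotProduct, cross_apply, Pi.smul_apply, Pi.add_apply, smul_eq_mul,
      Fin.zero_eta, Fin.mk_one, Fin.reduceFinMk, Fin.isValue, Matrix.cons_val]
    ring

theorem UNQ_tri {N p q r : V3} (hN : N ≠ 0) (hp : p ⬝ᵥ N = 0) (hq : q ⬝ᵥ N = 0)
    (hr : r ⬝ᵥ N = 0) : p ⬝ᵥ (q ⨯₃ r) = 0 := by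
  have h := UNQ_key3 N p q r
  rw [hp, hq, hr] at h
  simp only [zero_smul, add_zero] at h
  exact (smul_eq_zero.1 h).resolve_right hN

theorem UNQ_dc (p q r : V3) : (p ⨯₃ q) ⨯₃ r = (p ⬝ᵥ r) • q - (q ⬝ᵥ r) • p := by
  ext i
  fin_cases i <;>
  · simp only [Matrix.vec3_dotProduct, cross_apply, Pi.smul_apply, Pi.sub_apply, smul_eq_mul,
      Fin.zero_eta, Fin.mk_one, Fin.reduceFinMk, Fin.isValue, Matrix.cons_val]
    ring

theorem UNQ_cd (r a N : V3) : r ⨯₃ (a ⨯₃ N) = (r ⬝ᵥ N) • a - (r ⬝ᵥ a) • N := by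
  ext i
  fin_cases i <;>
  · simp only [Matrix.vec3_dotProduct, cross_apply, Pi.smul_apply, Pi.sub_apply, smul_eq_mul,
      Fin.zero_eta, Fin.mk_one, Fin.reduceFinMk, Fin.isValue, Matrix.cons_val]
    ring

theorem UNQ_par {N p q r : V3} (hp : p ⬝ᵥ N = 0) (hq : q ⬝ᵥ N = 0) (hpq : p ⨯₃ q ≠ 0)
    (hr : r ⬝ᵥ N ≠ 0) : r ⬝ᵥ (p ⨯₃ q) ≠ 0 := by
  intro h
  have h1 := UNQ_dc p q N
  rw [hp, hq, zero_smul, zero_smul, sub_zero] at h1
  have h2 := UNQ_cd r (p ⨯₃ q) N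
  rw [h1, h, zero_smul, sub_zero, map_zero] at h2
  rcases smul_eq_zero.1 h2.symm with h3 | h3
  · exact hr h3
  · exact hpq h3

theorem UNQ_line {G : Type} [NormedAddCommGroup G] [NormedSpace ℝ G] {U : Set E2}
    (hU : IsOpen U) {f g : E2 → G} {x : ℝ} (hx : pt x ∈ U) (hf : DifferentiableAt ℝ f (pt x))
    (hg : DifferentiableAt ℝ g (pt x)) (h : ∀ t, pt t ∈ U → f (pt t) = g (pt t)) :
    pd 0 f (pt x) = pd 0 g (pt x) := by
  have hpt : HasDerivAt pt (ee 0) x := by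
    have := (hasDerivAt_id x).smul_const (ee 0)
    rw [one_smul] at this
    exact this
  have h1 : HasDerivAt (fun t => f (pt t)) (fderiv ℝ f (pt x) (ee 0)) x :=
    hf.hasFDerivAt.comp_hasDerivAt x hpt
  have h2 : HasDerivAt (fun t => g (pt t)) (fderiv ℝ g (pt x) (ee 0)) x :=
    hg.hasFDerivAt.comp_hasDerivAt x hpt
  have ev : (fun t => f (pt t)) =ᶠ[𝓝 x] fun t => g (pt t) := by
    filter_upwards [hpt.continuousAt.preimage_mem_nhds (hU.mem_nhds hx)] with t ht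
    exact h t ht
  exact h1.unique (h2.congr_of_eventuallyEq ev)

theorem UNQ_sm {G : Type} [NormedAddCommGroup G] [NormedSpace ℝ G] {U : Set E2}
    (hU : IsOpen U) {f : E2 → G} (hf : ContDiffOn ℝ ∞ f U) (i : Fin 2) :
    ContDiffOn ℝ ∞ (pd i f) U :=
  pd_contDiffOn hU hf le_rfl i

theorem UNQ_df {G : Type} [NormedAddCommGroup G] [NormedSpace ℝ G] {U : Set E2}
    (hU : IsOpen U) {f : E2 → G} (hf : ContDiffOn ℝ ∞ f U) {x : E2} (hx : x ∈ U) :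
    DifferentiableAt ℝ f x :=
  diff_at hU hf (by norm_cast) hx

theorem UNQ_cm {G : Type} [NormedAddCommGroup G] [NormedSpace ℝ G] {U : Set E2}
    (hU : IsOpen U) {f : E2 → G} (hf : ContDiffOn ℝ ∞ f U) (i j : Fin 2) {x : E2} (hx : x ∈ U) :
    pd i (pd j f) x = pd j (pd i f) x :=
  pd_comm hU hf (by norm_cast) i j hx

theorem UNQ_itc {G : Type} [NormedAddCommGroup G] [NormedSpace ℝ G] {U : Set E2}
    (hU : IsOpen U) {f g : E2 → G} (h : ∀ x ∈ U, f x = g x) (j : ℕ) :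
    ∀ x ∈ U, (pd 1)^[j] f x = (pd 1)^[j] g x := by
  induction j with
  | zero => exact h
  | succ j ih =>
    intro x hx
    rw [Function.iterate_succ_apply', Function.iterate_succ_apply']
    exact pd_congr hU ih 1 hx

theorem UNQ_its {G : Type} [NormedAddCommGroup G] [NormedSpace ℝ G] {U : Set E2}
    (hU : IsOpen U) {f : E2 → G} (hf : ContDiffOn ℝ ∞ f U) (j : ℕ) :
    ContDiffOn ℝ ∞ ((pd 1)^[j] f) U := by
  induction j with
  | zero => exact hf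
  | succ j ih =>
    rw [Function.iterate_succ_apply']
    exact UNQ_sm hU ih 1

theorem UNQ_ith {G : Type} [NormedAddCommGroup G] [NormedSpace ℝ G] {U : Set E2}
    (hU : IsOpen U) {f : E2 → G} (hf : ContDiffOn ℝ ∞ f U) (j : ℕ) :
    ∀ x ∈ U, (pd 1)^[j] (pd 0 f) x = pd 0 ((pd 1)^[j] f) x := by
  induction j with
  | zero => exact fun x _ => rfl
  | succ j ih =>
    intro x hx
    rw [Function.iterate_succ_apply', Function.iterate_succ_apply', pd_congr hU ih 1 hx]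
    exact UNQ_cm hU (UNQ_its hU hf j) 1 0 hx

theorem UNQ_zero {G : Type} [NormedAddCommGroup G] [NormedSpace ℝ G] (j : ℕ) :
    (pd 1)^[j] (fun _ : E2 => (0 : G)) = fun _ => 0 := by
  induction j with
  | zero => rfl
  | succ j ih =>
    rw [Function.iterate_succ_apply', ih]
    exact funext fun x => pd_const 1 0 x

theorem UNQ_B {G : Type} [NormedAddCommGroup G] [NormedSpace ℝ G] (b : V3 →ₗ[ℝ] V3 →ₗ[ℝ] G) :
    ∃ B : V3 →L[ℝ] V3 →L[ℝ] G, ∀ u v, B u v = b u v := by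
  refine ⟨LinearMap.toContinuousLinearMap
    ((LinearMap.toContinuousLinearMap :
      (V3 →ₗ[ℝ] G) ≃ₗ[ℝ] (V3 →L[ℝ] G)).toLinearMap ∘ₗ b), fun u v => rfl⟩

theorem UNQ_dotB : ∃ B : V3 →L[ℝ] V3 →L[ℝ] ℝ, ∀ u v, B u v = u ⬝ᵥ v :=
  UNQ_B (LinearMap.mk₂ ℝ (fun u v : V3 => u ⬝ᵥ v) (fun _ _ _ => add_dotProduct _ _ _)
    (fun _ _ _ => smul_dotProduct _ _ _) (fun _ _ _ => dotProduct_add _ _ _)
    (fun _ _ _ => dotProduct_smul _ _ _))

theorem UNQ_crossB : ∃ B : V3 →L[ℝ] V3 →L[ℝ] V3, ∀ u v, B u v = u ⨯₃ v :=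
  UNQ_B (crossProduct : V3 →ₗ[ℝ] V3 →ₗ[ℝ] V3)

/-- the algebra of the step -/
theorem UNQ_alg {η m Z W : V3} (h : η ⨯₃ m = 0) (hZ : m ⬝ᵥ Z ≠ 0) (hW : m ⬝ᵥ W = 0)
    (hm : m ≠ 0) : η ⬝ᵥ W = 0 ∧ (η ⬝ᵥ Z = 0 → η = 0) := by
  constructor
  · have h1 := UNQ_dc η m W
    rw [h, hW, zero_smul, sub_zero] at h1
    simp only [map_zero, LinearMap.zero_apply] at h1
    exact (smul_eq_zero.1 h1.symm).resolve_right hm
  · intro h0
    have h1 := UNQ_dc η m Z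
    rw [h, h0, zero_smul, zero_sub] at h1
    simp only [map_zero, LinearMap.zero_apply] at h1
    have h2 : (m ⬝ᵥ Z) • η = 0 := by
      rw [← neg_eq_zero]
      exact h1.symm
    exact (smul_eq_zero.1 h2).resolve_left hZ

/-- smoothness -/
theorem UNQ_smooth {U : Set E2} {F G : E2 → V3} (h : PL U F G) :
    ContDiffOn ℝ ∞ (mm F G) U ∧ ContDiffOn ℝ ∞ (vv F G) U ∧ ContDiffOn ℝ ∞ (nn F G) U ∧
      ContDiffOn ℝ ∞ (yy F G) U := by
  have hm : ContDiffOn ℝ ∞ (mm F G) U := (h.smF.add h.smG).const_smul (1 / 2 : ℝ)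
  have hv : ContDiffOn ℝ ∞ (vv F G) U := (h.smG.sub h.smF).const_smul (1 / 2 : ℝ)
  have hm1 := UNQ_sm h.pair.op hm
  have hv1 := UNQ_sm h.pair.op hv
  have hn : ContDiffOn ℝ ∞ (nn F G) U := contDiffOn_cross (hm1 0) (hm1 1)
  have hnn : ContDiffOn ℝ ∞ (fun x => nn F G x ⬝ᵥ nn F G x) U := contDiffOn_dot hn hn
  have hn0 : ∀ x ∈ U, nn F G x ⬝ᵥ nn F G x ≠ 0 := fun x hx h0 =>
    h.pair.imm x hx (dotProduct_self_eq_zero.1 h0)
  refine ⟨hm, hv, hn, ?_⟩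
  refine (hnn.inv hn0).smul ?_
  exact (((contDiffOn_dot (hv1 1) hn).smul (hm1 0)).sub
    ((contDiffOn_dot (hv1 0) hn).smul (hm1 1))).add
    ((contDiffOn_dot (hv1 0) (hm1 1)).smul hn)

/-- the equations on `U` -/
theorem UNQ_E (hYC1 : Pool.SXB.Stmt_YC1) {U : Set E2} {F G : E2 → V3} (h : PL U F G) :
    (∀ x ∈ U, pd 1 (yy F G) x ⨯₃ pd 0 (mm F G) x = pd 0 (yy F G) x ⨯₃ pd 1 (mm F G) x) ∧
    (∀ x ∈ U, pd 1 (yy F G) x ⬝ᵥ nn F G x = 0) ∧ (∀ x ∈ U, pd 0 (yy F G) x ⬝ᵥ nn F G x = 0) ∧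
    (∀ x ∈ U, pd 1 (yy F G) x ⬝ᵥ pd 0 (nn F G) x = pd 0 (yy F G) x ⬝ᵥ pd 1 (nn F G) x) ∧
    ∀ x ∈ U, pd 0 (mm F G) x ⬝ᵥ pd 0 (nn F G) x + pd 0 (pd 0 (mm F G)) x ⬝ᵥ nn F G x = 0 := by
  obtain ⟨hm, hv, hn, hy⟩ := UNQ_smooth h
  have hU := h.pair.op
  have hm1 := UNQ_sm hU hm
  have hy1 := UNQ_sm hU hy
  have hV := (hYC1 U F G h.pair).2.2
  have e1 : ∀ x ∈ U,
      pd 1 (yy F G) x ⨯₃ pd 0 (mm F G) x = pd 0 (yy F G) x ⨯₃ pd 1 (mm F G) x := by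
    intro x hx
    have a1 := UNQ_cm hU hv 1 0 hx
    rw [pd_congr hU (fun z hz => hV z hz 0) 1 hx, pd_congr hU (fun z hz => hV z hz 1) 0 hx,
      pd_cross 1 (UNQ_df hU hy hx) (UNQ_df hU (hm1 0) hx),
      pd_cross 0 (UNQ_df hU hy hx) (UNQ_df hU (hm1 1) hx), UNQ_cm hU hm 1 0 hx] at a1
    exact add_right_cancel a1
  have e2 : ∀ x ∈ U, pd 1 (yy F G) x ⬝ᵥ nn F G x = 0 := by
    intro x hx
    have a1 := congrArg (fun z : V3 => z ⬝ᵥ pd 1 (mm F G) x) (e1 x hx)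
    simp only [nn] at a1 ⊢
    generalize pd 1 (yy F G) x = p at a1 ⊢
    generalize pd 0 (yy F G) x = q at a1 ⊢
    generalize pd 0 (mm F G) x = a at a1 ⊢
    generalize pd 1 (mm F G) x = b at a1 ⊢
    simp only [Matrix.vec3_dotProduct, cross_apply, Fin.isValue, Matrix.cons_val] at a1 ⊢
    linear_combination a1
  have e3 : ∀ x ∈ U, pd 0 (yy F G) x ⬝ᵥ nn F G x = 0 := by
    intro x hx
    have a1 := congrArg (fun z : V3 => z ⬝ᵥ pd 0 (mm F G) x) (e1 x hx)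
    simp only [nn] at a1 ⊢
    generalize pd 1 (yy F G) x = p at a1 ⊢
    generalize pd 0 (yy F G) x = q at a1 ⊢
    generalize pd 0 (mm F G) x = a at a1 ⊢
    generalize pd 1 (mm F G) x = b at a1 ⊢
    simp only [Matrix.vec3_dotProduct, cross_apply, Fin.isValue, Matrix.cons_val] at a1 ⊢
    linear_combination a1
  refine ⟨e1, e2, e3, ?_, ?_⟩
  · intro x hx
    have a1 := pd_congr hU (g := fun _ => (0 : ℝ)) e2 0 hx
    have a2 := pd_congr hU (g := fun _ => (0 : ℝ)) e3 1 hx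
    rw [pd_dot 0 (UNQ_df hU (hy1 1) hx) (UNQ_df hU hn hx), pd_const] at a1
    rw [pd_dot 1 (UNQ_df hU (hy1 0) hx) (UNQ_df hU hn hx), pd_const] at a2
    rw [UNQ_cm hU hy 0 1 hx] at a1
    linarith
  · intro x hx
    have a1 : pd 0 (nn F G) x = pd 0 (pd 0 (mm F G)) x ⨯₃ pd 1 (mm F G) x +
        pd 0 (mm F G) x ⨯₃ pd 0 (pd 1 (mm F G)) x :=
      pd_cross 0 (UNQ_df hU (hm1 0) hx) (UNQ_df hU (hm1 1) hx)
    rw [a1]
    simp only [nn]
    generalize pd 0 (pd 0 (mm F G)) x = p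
    generalize pd 0 (pd 1 (mm F G)) x = q
    generalize pd 0 (mm F G) x = a
    generalize pd 1 (mm F G) x = b
    simp only [Matrix.vec3_dotProduct, cross_apply, Fin.isValue, Matrix.cons_val, Pi.add_apply]
    ring

/-- the situation on the line -/
theorem UNQ_L {U : Set E2} {F G : E2 → V3} (h : PL U F G)
    (hE : ∀ x ∈ U, pd 0 (mm F G) x ⬝ᵥ pd 0 (nn F G) x +
      pd 0 (pd 0 (mm F G)) x ⬝ᵥ nn F G x = 0) (x : ℝ) (hx : pt x ∈ U) :
    (∀ z : V3, z ⬝ᵥ nn F G (pt x) = 0 → z ⬝ᵥ pd 0 (nn F G) (pt x) = 0) ∧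
    pd 0 (mm F G) (pt x) ⬝ᵥ pd 1 (nn F G) (pt x) = 0 ∧
    pd 0 (mm F G) (pt x) ⬝ᵥ pd 1 (pd 0 (nn F G)) (pt x) ≠ 0 := by
  obtain ⟨hm, hv, hn, hy⟩ := UNQ_smooth h
  have hU := h.pair.op
  have hm1 := UNQ_sm hU hm
  have hn1 := UNQ_sm hU hn
  have hF1 := UNQ_sm hU h.smF
  have hG1 := UNQ_sm hU h.smG
  have hN : nn F G (pt x) ≠ 0 := h.pair.imm _ hx
  -- first derivatives on the line
  have b1 : ∀ t, pt t ∈ U → ∀ i, pd i (mm F G) (pt t) = pd i F (pt t) := by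
    intro t ht i
    rw [Pool.SXB.YC1_pm h.pair i ht, ← h.eq1 t ht i, ← two_smul ℝ, smul_smul]
    norm_num
  have b2 : ∀ t, pt t ∈ U → ∀ i, pd 0 (pd i (mm F G)) (pt t) = pd 0 (pd i F) (pt t) :=
    fun t ht i => UNQ_line hU ht (UNQ_df hU (hm1 i) ht) (UNQ_df hU (hF1 i) ht)
      fun s hs => b1 s hs i
  have b3 : ∀ t, pt t ∈ U → pd 0 (pd 0 (mm F G)) (pt t) ⬝ᵥ nn F G (pt t) = 0 := by
    intro t ht
    have := (h.flat t ht).1
    simp only [nn, hh] at this ⊢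
    rw [b2 t ht, b1 t ht, b1 t ht]
    exact this
  have b4 : ∀ t, pt t ∈ U → pd 0 (pd 1 (mm F G)) (pt t) ⬝ᵥ nn F G (pt t) = 0 := by
    intro t ht
    have := (h.flat t ht).2
    simp only [nn, hh] at this ⊢
    rw [b2 t ht, b1 t ht, b1 t ht]
    exact this
  have b5 : pd 1 (pd 1 (mm F G)) (pt x) ⬝ᵥ nn F G (pt x) ≠ 0 := by
    intro h0
    apply h.bend x hx
    have c1 : pd 1 (pd 1 (mm F G)) (pt x) =
        (1 / 2 : ℝ) • (pd 1 (pd 1 F) (pt x) + pd 1 (pd 1 G) (pt x)) := by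
      rw [pd_congr hU (fun z hz => Pool.SXB.YC1_pm h.pair 1 hz) 1 hx,
        Pool.SXB.YC1_csmul 1 (1 / 2) (f := fun z => pd 1 F z + pd 1 G z)
          ((UNQ_df hU (hF1 1) hx).add (UNQ_df hU (hG1 1) hx)),
        Pool.FR.pd_add 1 (UNQ_df hU (hF1 1) hx) (UNQ_df hU (hG1 1) hx)]
    rw [c1] at h0
    simp only [nn, hh] at h0 ⊢
    rw [b1 x hx, b1 x hx] at h0
    rw [← h.eq1 x hx 0, ← h.eq1 x hx 1]
    rw [smul_dotProduct, add_dotProduct, smul_eq_mul] at h0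
    linarith
  have b6 : pd 0 (mm F G) (pt x) ⨯₃ pd 0 (pd 0 (mm F G)) (pt x) ≠ 0 := by
    rw [b2 x hx, b1 x hx]
    exact h.geo x hx
  have b7 : pd 0 (nn F G) (pt x) = pd 0 (pd 0 (mm F G)) (pt x) ⨯₃ pd 1 (mm F G) (pt x) +
      pd 0 (mm F G) (pt x) ⨯₃ pd 0 (pd 1 (mm F G)) (pt x) :=
    pd_cross 0 (UNQ_df hU (hm1 0) hx) (UNQ_df hU (hm1 1) hx)
  have b8 : pd 1 (nn F G) (pt x) = pd 0 (pd 1 (mm F G)) (pt x) ⨯₃ pd 1 (mm F G) (pt x) +
      pd 0 (mm F G) (pt x) ⨯₃ pd 1 (pd 1 (mm F G)) (pt x) := by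
    have := pd_cross 1 (UNQ_df hU (hm1 0) hx) (UNQ_df hU (hm1 1) hx)
    rw [UNQ_cm hU hm 1 0 hx] at this
    exact this
  have n0 : pd 0 (mm F G) (pt x) ⬝ᵥ nn F G (pt x) = 0 := dot_self_cross _ _
  have n1 : pd 1 (mm F G) (pt x) ⬝ᵥ nn F G (pt x) = 0 := dot_cross_self _ _
  have L1 : ∀ z : V3, z ⬝ᵥ nn F G (pt x) = 0 → z ⬝ᵥ pd 0 (nn F G) (pt x) = 0 := by
    intro z hz
    rw [b7, dotProduct_add, UNQ_tri hN hz (b3 x hx) n1, UNQ_tri hN hz n0 (b4 x hx), add_zero]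
  have L2 : pd 0 (mm F G) (pt x) ⬝ᵥ pd 1 (nn F G) (pt x) = 0 := by
    rw [b8, dotProduct_add, UNQ_tri hN n0 (b4 x hx) n1, dot_self_cross, add_zero]
  refine ⟨L1, L2, ?_⟩
  -- the second derivative
  have c1 := pd_congr hU (g := fun _ => (0 : ℝ)) hE 1 hx
  have d1 : DifferentiableAt ℝ (fun z => pd 0 (mm F G) z ⬝ᵥ pd 0 (nn F G) z) (pt x) :=
    UNQ_df hU (contDiffOn_dot (hm1 0) (hn1 0)) hx
  have hm2 := UNQ_sm hU (hm1 0)
  have d2 : DifferentiableAt ℝ (fun z => pd 0 (pd 0 (mm F G)) z ⬝ᵥ nn F G z) (pt x) :=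
    UNQ_df hU (contDiffOn_dot (hm2 0) hn) hx
  rw [Pool.FR.pd_add 1 d1 d2, pd_const,
    pd_dot 1 (UNQ_df hU (hm1 0) hx) (UNQ_df hU (hn1 0) hx),
    pd_dot 1 (UNQ_df hU (hm2 0) hx) (UNQ_df hU hn hx), UNQ_cm hU hm 1 0 hx,
    L1 _ (b4 x hx)] at c1
  have c2 : pd 1 (pd 0 (pd 0 (mm F G))) (pt x) ⬝ᵥ nn F G (pt x) = 0 := by
    have c3 : pd 1 (pd 0 (pd 0 (mm F G))) (pt x) = pd 0 (pd 0 (pd 1 (mm F G))) (pt x) := by
      rw [UNQ_cm hU (hm1 0) 1 0 hx]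
      exact pd_congr hU (fun z hz => UNQ_cm hU hm 1 0 hz) 0 hx
    have hm3 := UNQ_sm hU (hm1 1)
    have c4 := UNQ_line hU hx (f := fun z => pd 0 (pd 1 (mm F G)) z ⬝ᵥ nn F G z)
      (g := fun _ => (0 : ℝ)) (UNQ_df hU (contDiffOn_dot (hm3 0) hn) hx)
      (differentiableAt_const _) b4
    rw [pd_dot 0 (UNQ_df hU (hm3 0) hx) (UNQ_df hU hn hx), pd_const, L1 _ (b4 x hx),
      add_zero] at c4
    rw [c3]
    exact c4
  rw [c2] at c1
  have c5 : pd 0 (pd 0 (mm F G)) (pt x) ⬝ᵥ pd 1 (nn F G) (pt x) =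
      - (pd 1 (pd 1 (mm F G)) (pt x) ⬝ᵥ
        (pd 0 (mm F G) (pt x) ⨯₃ pd 0 (pd 0 (mm F G)) (pt x))) := by
    rw [b8, dotProduct_add, UNQ_tri hN (b3 x hx) (b4 x hx) n1, zero_add]
    generalize pd 0 (pd 0 (mm F G)) (pt x) = p
    generalize pd 1 (pd 1 (mm F G)) (pt x) = q
    generalize pd 0 (mm F G) (pt x) = a
    simp only [Matrix.vec3_dotProduct, cross_apply, Fin.isValue, Matrix.cons_val]
    ring
  have c6 := UNQ_par n0 (b3 x hx) b6 b5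
  intro h0
  apply c6
  rw [h0, c5] at c1
  linarith

theorem p_UNQ (hYC1 : Pool.SXB.Stmt_YC1) (hLEI : Stmt_LEI) : Stmt_UNQ := by
  intro U F G h
  obtain ⟨hm, hv, hn, hy⟩ := UNQ_smooth h
  obtain ⟨E1, E2a, E2b, E3, E4⟩ := UNQ_E hYC1 h
  have hU := h.pair.op
  have hm1 := UNQ_sm hU hm
  have hy1 := UNQ_sm hU hy
  have hn1 := UNQ_sm hU hn
  have hL := UNQ_L h E4
  obtain ⟨Bd, hBd⟩ := UNQ_dotB
  obtain ⟨Bc, hBc⟩ := UNQ_crossB
  refine ⟨hy, ?_⟩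
  intro k
  induction k with
  | zero => intro j hj; omega
  | succ n ih =>
    rcases Nat.eq_zero_or_pos n with hn0 | hn0
    · subst hn0
      intro j hj x hx
      have hj0 : j = 0 := by omega
      subst hj0
      have hv0 : ∀ i, pd i (vv F G) (pt x) = 0 := by
        intro i
        rw [Pool.SXB.YC1_pv h.pair i hx, h.eq1 x hx i, sub_self, smul_zero]
      show yy F G (pt x) = 0
      simp [yy, hv0]
    · obtain ⟨l, rfl⟩ : ∃ l, n = l + 1 := ⟨n - 1, by omega⟩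
      have vY1 : VV U l (pd 1 (yy F G)) := by
        intro j hj x hx
        have := ih (j + 1) (by omega) x hx
        rwa [Function.iterate_succ_apply] at this
      have vY0 : VV U (l + 1) (pd 0 (yy F G)) := by
        intro j hj x hx
        rw [UNQ_ith hU hy j _ hx]
        have := UNQ_line hU hx (f := (pd 1)^[j] (yy F G)) (g := fun _ => (0 : V3))
          (UNQ_df hU (UNQ_its hU hy j) hx) (differentiableAt_const _)
          fun t ht => ih j hj t ht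
        rw [this, pd_const]
      -- the first equation
      have k1 : ∀ x, pt x ∈ U → (pd 1)^[l + 1] (yy F G) (pt x) ⨯₃ pd 0 (mm F G) (pt x) = 0 := by
        intro x hx
        have a1 := ((hLEI V3 Bc U hU _ _ (hy1 1) (hm1 0) l vY1).2 x hx).1
        have a2 := (hLEI V3 Bc U hU _ _ (hy1 0) (hm1 1) (l + 1) vY0).1 l (by omega) x hx
        simp only [hBc] at a1 a2
        rw [UNQ_itc hU E1 l _ hx, a2] at a1
        rw [Function.iterate_succ_apply]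
        exact a1.symm
      have m0 : ∀ x, pt x ∈ U → pd 0 (mm F G) (pt x) ≠ 0 := by
        intro x hx h0
        apply h.pair.imm _ hx
        simp [nn, h0]
      have k2 : ∀ x, pt x ∈ U →
          (pd 1)^[l + 1] (yy F G) (pt x) ⬝ᵥ pd 1 (nn F G) (pt x) = 0 := fun x hx =>
        (UNQ_alg (k1 x hx) (hL x hx).2.2 (hL x hx).2.1 (m0 x hx)).1
      have k3 : ∀ x, pt x ∈ U →
          (pd 1)^[l + 1] (pd 1 (yy F G)) (pt x) ⬝ᵥ nn F G (pt x) = 0 := by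
        intro x hx
        have a1 := ((hLEI ℝ Bd U hU _ _ (hy1 1) hn l vY1).2 x hx).2
        simp only [hBd] at a1
        rw [UNQ_itc hU E2a (l + 1) _ hx, UNQ_zero, ← Function.iterate_succ_apply (pd 1) l,
          k2 x hx, smul_zero, add_zero] at a1
        exact a1.symm
      have k4 : ∀ x, pt x ∈ U →
          (pd 1)^[l + 1] (yy F G) (pt x) ⬝ᵥ pd 1 (pd 0 (nn F G)) (pt x) = 0 := by
        intro x hx
        have a1 := ((hLEI ℝ Bd U hU _ _ (hy1 1) (hn1 0) l vY1).2 x hx).2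
        have a2 := ((hLEI ℝ Bd U hU _ _ (hy1 0) (hn1 1) (l + 1) vY0).2 x hx).1
        simp only [hBd] at a1 a2
        rw [UNQ_itc hU E3 (l + 1) _ hx, a2, (hL x hx).1 _ (k3 x hx), zero_add,
          ← Function.iterate_succ_apply (pd 1) l, UNQ_ith hU hy (l + 1) _ hx] at a1
        have a3 := UNQ_line hU hx
          (f := fun z => (pd 1)^[l + 1] (yy F G) z ⬝ᵥ pd 1 (nn F G) z)
          (g := fun _ => (0 : ℝ))
          (UNQ_df hU (contDiffOn_dot (UNQ_its hU hy (l + 1)) (hn1 1)) hx)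
          (differentiableAt_const _) k2
        rw [pd_dot 0 (UNQ_df hU (UNQ_its hU hy (l + 1)) hx) (UNQ_df hU (hn1 1) hx), pd_const,
          UNQ_cm hU hn 0 1 hx, a1, smul_eq_mul] at a3
        have a4 : ((l : ℝ) + 2) *
            ((pd 1)^[l + 1] (yy F G) (pt x) ⬝ᵥ pd 1 (pd 0 (nn F G)) (pt x)) = 0 := by
          linear_combination a3
        have a5 : ((l : ℝ) + 2) ≠ 0 := by positivity
        exact (mul_eq_zero.1 a4).resolve_left a5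
      intro j hj x hx
      rcases Nat.lt_succ_iff_lt_or_eq.1 hj with hj1 | hj1
      · exact ih j hj1 x hx
      · subst hj1
        exact (UNQ_alg (k1 x hx) (hL x hx).2.2 (hL x hx).2.1 (m0 x hx)).2 (k4 x hx)

end Pool.TRG
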