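import Pool.Agent.Work.MP_02e829_tr.Interface

/-!
# Block WIR (MP_02e829_gt): Wirtinger's inequality for the modes of order at least two (helper88)
-/

open Set Filter Matrix MeasureTheory Metric
open scoped Topology ContDiff Real

set_option autoImplicit false

namespace Pool.TRG

theorem WIR_pos : (0 : ℝ) < 2 * π := by positivity

theorem WIR_memLp (F : ℝ → ℂ) (hF : Continuous F) :
    MemLp F 2 (volume.restrict (Ioc 0 (2 * π))) := by
  obtain ⟨C, hC⟩ := (isCompact_Icc (a := (0 : ℝ)) (b := 2 * π)).exists_bound_of_continuousOn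
    hF.continuousOn
  refine MemLp.of_bound hF.aestronglyMeasurable C ?_
  rw [ae_restrict_iff' measurableSet_Ioc]
  exact Eventually.of_forall fun x hx => hC x ⟨hx.1.le, hx.2⟩

theorem WIR_exp (n : ℤ) (x : ℝ) :
    (fourier (-n) (x : AddCircle (2 * π - 0)) : ℂ) =
      (Real.cos (n * x) : ℂ) - Complex.I * (Real.sin (n * x) : ℂ) := by
  rw [fourier_coe_apply]
  have e1 : (2 * (π : ℂ) * Complex.I * ((-n : ℤ) : ℂ) * (x : ℂ) / ((2 * π - 0 : ℝ) : ℂ)) =
      ((-(n * x) : ℝ) : ℂ) * Complex.I := by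
    have hπ : (π : ℂ) ≠ 0 := by exact_mod_cast Real.pi_ne_zero
    push_cast
    field_simp
    ring
  rw [e1, Complex.exp_mul_I, ← Complex.ofReal_cos, ← Complex.ofReal_sin, Real.cos_neg,
    Real.sin_neg]
  push_cast
  ring

theorem WIR_coef (f : ℝ → ℝ) (hf : Continuous f) (n : ℤ) :
    fourierCoeffOn WIR_pos (fun x => (f x : ℂ)) n = (1 / (2 * π - 0) : ℝ) •
      (((∫ x in (0 : ℝ)..(2 * π), f x * Real.cos (n * x) : ℝ) : ℂ) -
        Complex.I * ((∫ x in (0 : ℝ)..(2 * π), f x * Real.sin (n * x) : ℝ) : ℂ)) := by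
  rw [fourierCoeffOn_eq_integral]
  congr 1
  rw [← intervalIntegral.integral_ofReal, ← intervalIntegral.integral_ofReal,
    ← intervalIntegral.integral_const_mul, ← intervalIntegral.integral_sub]
  · apply intervalIntegral.integral_congr
    intro x _
    show (fourier (-n) (x : AddCircle (2 * π - 0)) : ℂ) • (f x : ℂ) = _
    rw [WIR_exp, smul_eq_mul]
    push_cast
    ring
  · apply Continuous.intervalIntegrable
    fun_prop
  · apply Continuous.intervalIntegrable
    fun_prop

theorem WIR_deriv (f : ℝ → ℝ) (hf : ContDiff ℝ 1 f) (hp : Function.Periodic f (2 * π)) (n : ℤ)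
    (hn : n ≠ 0) : ‖fourierCoeffOn WIR_pos (fun x => (f x : ℂ)) n‖ * |(n : ℝ)| =
      ‖fourierCoeffOn WIR_pos (fun x => ((deriv f x : ℝ) : ℂ)) n‖ := by
  have h1 := fourierCoeffOn_of_hasDerivAt WIR_pos (f := fun x => (f x : ℂ))
    (f' := fun x => ((deriv f x : ℝ) : ℂ)) hn (fun x _ =>
      ((hf.differentiable one_ne_zero x).hasDerivAt).ofReal_comp)
      ((Complex.continuous_ofReal.comp (hf.continuous_deriv le_rfl)).intervalIntegrable _ _)
  have h2 : f (2 * π) = f 0 := by
    have := hp 0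
    rwa [zero_add] at this
  rw [h1, h2, sub_self, mul_zero, zero_sub, norm_mul, norm_neg, norm_mul, norm_div, norm_one]
  have hn' : |(n : ℝ)| ≠ 0 := by
    rw [abs_ne_zero]
    exact_mod_cast hn
  have hπ := Real.pi_pos
  have e1 : ‖(-2 * (π : ℂ) * Complex.I * (n : ℂ))‖ = 2 * π * |(n : ℝ)| := by
    rw [norm_mul, norm_mul, norm_mul, norm_neg, Complex.norm_I, mul_one, Complex.norm_ofNat,
      Complex.norm_real, Real.norm_eq_abs, abs_of_pos hπ, Complex.norm_intCast]
  have e2 : ‖(((2 * π : ℝ) : ℂ) - ((0 : ℝ) : ℂ))‖ = 2 * π := by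
    rw [← Complex.ofReal_sub, sub_zero, Complex.norm_real, Real.norm_eq_abs, abs_of_pos WIR_pos]
  rw [e1, e2]
  field_simp

theorem p_WIR : Stmt_WIR := by
  intro f hf hp h0 hc hs
  have hfc : Continuous f := hf.continuous
  have hfd : Continuous (deriv f) := hf.continuous_deriv le_rfl
  have S1 := hasSum_sq_fourierCoeffOn WIR_pos
    (WIR_memLp (fun x => (f x : ℂ)) (Complex.continuous_ofReal.comp hfc))
  have S2 := hasSum_sq_fourierCoeffOn WIR_pos
    (WIR_memLp (fun x => ((deriv f x : ℝ) : ℂ)) (Complex.continuous_ofReal.comp hfd))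
  have hle : ∀ n : ℤ, 4 * ‖fourierCoeffOn WIR_pos (fun x => (f x : ℂ)) n‖ ^ 2 ≤
      ‖fourierCoeffOn WIR_pos (fun x => ((deriv f x : ℝ) : ℂ)) n‖ ^ 2 := by
    intro n
    have hz : (n = 0 ∨ n = 1 ∨ n = -1) → fourierCoeffOn WIR_pos (fun x => (f x : ℂ)) n = 0 := by
      intro h
      rw [WIR_coef f hfc]
      have e1 : (∫ x in (0 : ℝ)..(2 * π), f x * Real.cos (n * x)) = 0 := by
        rcases h with h | h | h
        · rw [h]; simpa [IC] using h0
        · rw [h]; simpa [IC] using hc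
        · rw [h]; simpa [IC] using hc
      have e2 : (∫ x in (0 : ℝ)..(2 * π), f x * Real.sin (n * x)) = 0 := by
        rcases h with h | h | h
        · rw [h]; simp
        · rw [h]; simpa [IC] using hs
        · rw [h]
          have : ∀ x : ℝ, f x * Real.sin (((-1 : ℤ) : ℝ) * x) = -(f x * Real.sin x) := by
            intro x
            push_cast
            rw [neg_one_mul, Real.sin_neg]
            ring
          simp_rw [this]
          rw [intervalIntegral.integral_neg, neg_eq_zero]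
          exact hs
      rw [e1, e2]
      simp
    by_cases h : n = 0 ∨ n = 1 ∨ n = -1
    · rw [hz h, norm_zero]
      have := sq_nonneg ‖fourierCoeffOn WIR_pos (fun x => ((deriv f x : ℝ) : ℂ)) n‖
      linarith
    · push Not at h
      rw [← WIR_deriv f hf hp n h.1, mul_pow, sq_abs]
      have h2 : (4 : ℝ) ≤ (n : ℝ) ^ 2 := by
        have h3 : 2 ≤ n ∨ n ≤ -2 := by omega
        have h4 : 4 ≤ n ^ 2 := by
          rcases h3 with h3 | h3 <;> nlinarith
        exact_mod_cast h4
      nlinarith [sq_nonneg ‖fourierCoeffOn WIR_pos (fun x => (f x : ℂ)) n‖]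
  have h5 := hasSum_le hle (S1.mul_left 4) S2
  rw [smul_eq_mul, smul_eq_mul, sub_zero] at h5
  have hπ := WIR_pos
  have e3 : ∀ u : ℝ → ℝ, (∫ x in (0 : ℝ)..(2 * π), ‖(u x : ℂ)‖ ^ 2) = IC fun x => u x ^ 2 := by
    intro u
    unfold IC
    apply intervalIntegral.integral_congr
    intro x _
    show ‖(u x : ℂ)‖ ^ 2 = u x ^ 2
    rw [Complex.norm_real, Real.norm_eq_abs, sq_abs]
  rw [e3 f, e3 (deriv f), ← mul_assoc, mul_comm (4 : ℝ), mul_assoc] at h5
  exact le_of_mul_le_mul_left h5 (by positivity)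

end Pool.TRG
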