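import Pool.Agent.Work.MP_02e829_fr.FRM
import Pool.Agent.Work.MP_02e829_fr.CHR
import Pool.Agent.Work.MP_02e829_fr.COD
import Pool.Agent.Work.MP_02e829_sb.B_YC1
import Pool.Agent.Work.MP_02e829_sb.B_SOL
import Pool.Agent.Work.MP_02e829_tr.Final
import Pool.Agent.Work.MP_02e829_tr.B_ALL
import Pool.Agent.Work.MP_02e829_tr.B_ANZ
import Pool.Agent.Work.MP_02e829_tr.B_CDC
import Pool.Agent.Work.MP_02e829_tr.B_CHN
import Pool.Agent.Work.MP_02e829_tr.B_CNV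
import Pool.Agent.Work.MP_02e829_tr.B_CSI
import Pool.Agent.Work.MP_02e829_tr.B_CTB
import Pool.Agent.Work.MP_02e829_tr.B_CV3
import Pool.Agent.Work.MP_02e829_tr.B_DVC
import Pool.Agent.Work.MP_02e829_tr.B_EGG
import Pool.Agent.Work.MP_02e829_tr.B_EST
import Pool.Agent.Work.MP_02e829_tr.B_FRA
import Pool.Agent.Work.MP_02e829_tr.B_GAP
import Pool.Agent.Work.MP_02e829_tr.B_GPW
import Pool.Agent.Work.MP_02e829_tr.B_IBP
import Pool.Agent.Work.MP_02e829_tr.B_IDN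
import Pool.Agent.Work.MP_02e829_tr.B_INF
import Pool.Agent.Work.MP_02e829_tr.B_INT
import Pool.Agent.Work.MP_02e829_tr.B_ITD
import Pool.Agent.Work.MP_02e829_tr.B_JT2
import Pool.Agent.Work.MP_02e829_tr.B_KEY
import Pool.Agent.Work.MP_02e829_tr.B_LBC
import Pool.Agent.Work.MP_02e829_tr.B_LBM
import Pool.Agent.Work.MP_02e829_tr.B_LBP
import Pool.Agent.Work.MP_02e829_tr.B_LCC
import Pool.Agent.Work.MP_02e829_tr.B_LEI
import Pool.Agent.Work.MP_02e829_tr.B_MTN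
import Pool.Agent.Work.MP_02e829_tr.B_OPE
import Pool.Agent.Work.MP_02e829_tr.B_OPN
import Pool.Agent.Work.MP_02e829_tr.B_PLB
import Pool.Agent.Work.MP_02e829_tr.B_RD0
import Pool.Agent.Work.MP_02e829_tr.B_RD1
import Pool.Agent.Work.MP_02e829_tr.B_REP
import Pool.Agent.Work.MP_02e829_tr.B_RIG
import Pool.Agent.Work.MP_02e829_tr.B_SQR
import Pool.Agent.Work.MP_02e829_tr.B_SUB
import Pool.Agent.Work.MP_02e829_tr.B_SUP
import Pool.Agent.Work.MP_02e829_tr.B_TR0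
import Pool.Agent.Work.MP_02e829_tr.B_TRC
import Pool.Agent.Work.MP_02e829_tr.B_UB2
import Pool.Agent.Work.MP_02e829_tr.B_UNQ
import Pool.Agent.Work.MP_02e829_tr.B_WIR

/-!
# Trough rigidity without hypotheses on blocks
-/

open Set Filter Manifold Matrix MeasureTheory Metric
open scoped Topology ContDiff Manifold Real

set_option autoImplicit false

universe w

namespace Pool.TRG

open Pool
open Pool.SXB (E3 L3 Proper PosCurv Fam2 Fam3 Transv)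

theorem all_TR0 : Stmt_TR0 := p_TR0 Pool.FR.blk_FRM

theorem all_EGG : Stmt_EGG := p_EGG Pool.FR.blk_FRM Pool.FR.blk_CHR

theorem all_ALL : Stmt_ALL := by
  have hFRM : Pool.FR.Stmt_FRM := Pool.FR.blk_FRM
  have hCHR : Pool.FR.Stmt_CHR := Pool.FR.blk_CHR
  have hCOD : Pool.FR.Stmt_COD := Pool.FR.blk_COD hFRM
  have hKEY := p_KEY p_CSI p_IBP p_WIR p_SUP
  have hGAP := p_GAP (p_EST p_CSI p_IBP hKEY) (p_SUB p_CSI) (p_INT p_CSI p_IBP)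
  have hGPW := p_GPW hGAP p_REP
  have hFRA := p_FRA hFRM hCHR all_TR0
  have hSQR := p_SQR hFRM hCHR hCOD all_EGG all_TR0
  exact p_ALL all_TR0 hSQR p_CTB
    (p_OPN hFRM hCHR all_TR0 hFRA all_EGG hSQR (p_UB2 hFRM all_TR0) p_CTB hGPW)

theorem all_RIG : Stmt_RIG :=
  p_RIG Pool.FR.blk_FRM Pool.FR.blk_CHR all_TR0 (p_FRA Pool.FR.blk_FRM Pool.FR.blk_CHR all_TR0)

theorem all_INF : Stmt_INF :=
  p_INF (Pool.SXB.blk_YC1 Pool.SXB.blk_SOL) (p_UNQ (Pool.SXB.blk_YC1 Pool.SXB.blk_SOL) p_LEI) p_ITD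

theorem all_RD0 : Stmt_RD0.{w} := p_RD0 p_CHN

theorem all_RD1 : Stmt_RD1.{w} := p_RD1 p_LCC p_CNV p_CDC

theorem all_LBM : Stmt_LBM.{w} := p_LBM p_LCC p_LBC

theorem all_TRC : Stmt_TRC.{w} := p_TRC all_RD0

theorem all_PLB : Stmt_PLB := p_PLB Pool.FR.blk_FRM all_TR0

/-- one trough -/
theorem all_main1 {S : Type w} [TopologicalSpace S] [ChartedSpace E2 S] [IsManifold (𝓡 2) 4 S]
    [ConnectedSpace S] (f : ℝ → S → E3) (hf : Dfm f) (Φ : E2 → S) (e1 e2 : E3) (φ : ℝ → ℝ)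
    (hΦ : Tro 4 (f 0) Φ e1 e2 φ) (t : ℝ) (ht : t ∈ Icc (0 : ℝ) 1) :
    ∃ A : E3 ≃ᵃⁱ[ℝ] E3, Proper A ∧ Agr 2 (f t) (fun p => A (f 0 p)) Φ ∧
      (Ann ∞ Φ → ContMDiff (𝓡 2) (𝓡 3) ∞ (f 0) → ContMDiff (𝓡 2) (𝓡 3) ∞ (f t) →
        ∀ m, Agr m (f t) (fun p => A (f 0 p)) Φ) ∧
      (IsManifold (𝓡 2) ω S → Ann ω Φ → ContMDiff (𝓡 2) (𝓡 3) ω (f 0) →
        ContMDiff (𝓡 2) (𝓡 3) ω (f t) → ∀ p, f t p = A (f 0 p)) :=
  main1 all_RD0 all_RD1 all_LBM p_LBP all_TRC all_ALL all_RIG p_MTN p_JT2 (p_DVC p_CHN) all_PLB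
    all_INF p_CV3 p_IDN p_OPE p_ANZ f hf Φ e1 e2 φ hΦ t ht

end Pool.TRG
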