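import Pool.Agent.Work.MP_02e829_tr.Interface2

/-! # Block CNV -/

open Set Filter Manifold Matrix MeasureTheory Metric
open scoped Topology ContDiff Manifold Real

set_option autoImplicit false

universe w

namespace Pool.TRG

open Pool
open Pool.FR (pd ee gg WW DD NN II Ga Gb Imm SO3)
open Pool.SXB (E3 L3 Proper PosCurv Fam2 Fam3 Transv)

theorem CNV_zero (E F : Type) [NormedAddCommGroup E] [NormedSpace ℝ E] [NormedAddCommGroup F]
    [NormedSpace ℝ F] (h : E → F) (x : E) :
    h x = continuousMultilinearCurryFin0 ℝ E F (iteratedFDeriv ℝ 0 h x) := by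
  rw [iteratedFDeriv_zero_eq_comp]
  simp

theorem CNV_right (E F : Type) [NormedAddCommGroup E] [NormedSpace ℝ E] [NormedAddCommGroup F]
    [NormedSpace ℝ F] (n : ℕ) (h : E → F) (x : E) :
    iteratedFDeriv ℝ n (fderiv ℝ h) x =
      continuousMultilinearCurryRightEquiv' ℝ n E F (iteratedFDeriv ℝ (n + 1) h x) := by
  rw [iteratedFDeriv_succ_eq_comp_right]
  simp

theorem p_CNV : Stmt_CNV.{w} := by
  intro S _ _ f hf
  refine ⟨⟨fun t ht => (hf.smooth t ht).of_le (by norm_num), hf.imm, hf.iso, ?_, ?_⟩, ?_⟩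
  · intro p
    have h1 := hf.cont p 1 (by norm_num)
    have h2 : (fun z : ℝ × E2 => fderiv ℝ (fun x => f z.1 ((extChartAt (𝓡 2) p).symm x)) z.2) =
        fun z : ℝ × E2 => continuousMultilinearCurryFin0 ℝ E2 (E2 →L[ℝ] E3)
          (continuousMultilinearCurryRightEquiv' ℝ 0 E2 E3
            (iteratedFDeriv ℝ 1 (fun x => f z.1 ((extChartAt (𝓡 2) p).symm x)) z.2)) := by
      funext z
      rw [CNV_zero E2 (E2 →L[ℝ] E3) (fderiv ℝ (fun x => f z.1 ((extChartAt (𝓡 2) p).symm x))) z.2,
        CNV_right E2 E3 0]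
    rw [h2]
    exact (LinearIsometryEquiv.continuous _).comp_continuousOn
      ((LinearIsometryEquiv.continuous _).comp_continuousOn h1)
  · intro p
    have h1 := hf.cont p 2 (by norm_num)
    have h2 : (fun z : ℝ × E2 =>
        fderiv ℝ (fderiv ℝ (fun x => f z.1 ((extChartAt (𝓡 2) p).symm x))) z.2) =
        fun z : ℝ × E2 => continuousMultilinearCurryFin0 ℝ E2 (E2 →L[ℝ] E2 →L[ℝ] E3)
          (continuousMultilinearCurryRightEquiv' ℝ 0 E2 (E2 →L[ℝ] E3)
            (continuousMultilinearCurryRightEquiv' ℝ 1 E2 E3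
              (iteratedFDeriv ℝ 2 (fun x => f z.1 ((extChartAt (𝓡 2) p).symm x)) z.2))) := by
      funext z
      rw [CNV_zero E2 (E2 →L[ℝ] E2 →L[ℝ] E3)
        (fderiv ℝ (fderiv ℝ (fun x => f z.1 ((extChartAt (𝓡 2) p).symm x)))) z.2,
        CNV_right E2 (E2 →L[ℝ] E3) 0, CNV_right E2 E3 1]
    rw [h2]
    exact (LinearIsometryEquiv.continuous _).comp_continuousOn
      ((LinearIsometryEquiv.continuous _).comp_continuousOn
        ((LinearIsometryEquiv.continuous _).comp_continuousOn h1))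
  · intro p
    have h1 := hf.cont p 0 (by norm_num)
    have h2 : (fun z : ℝ × E2 => f z.1 ((extChartAt (𝓡 2) p).symm z.2)) =
        fun z : ℝ × E2 => continuousMultilinearCurryFin0 ℝ E2 E3
          (iteratedFDeriv ℝ 0 (fun x => f z.1 ((extChartAt (𝓡 2) p).symm x)) z.2) := by
      funext z
      exact CNV_zero E2 E3 (fun x => f z.1 ((extChartAt (𝓡 2) p).symm x)) z.2
    rw [h2]
    exact (LinearIsometryEquiv.continuous _).comp_continuousOn h1

end Pool.TRG
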