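import Pool.Agent.Work.MP_02e829_tr.Interface2

/-! # Block IDN (MP_02e829, TROUGH RIGIDITY) -/

open Set Filter Manifold Matrix MeasureTheory Metric
open scoped Topology ContDiff Manifold Real

set_option autoImplicit false

universe w

namespace Pool.TRG

open Pool
open Pool.SXB (E3 L3 Proper PosCurv Fam2 Fam3 Transv)

theorem IDN_analytic (S : Type w) [TopologicalSpace S] [ChartedSpace E2 S]
    [IsManifold (𝓡 2) ω S] (g : S → E3) (hg : ContMDiff (𝓡 2) (𝓡 3) ω g) (p : S) :
    AnalyticOnNhd ℝ (fun z => g ((extChartAt (𝓡 2) p).symm z)) (extChartAt (𝓡 2) p).target := by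
  have hopen : IsOpen (extChartAt (𝓡 2) p).target := isOpen_extChartAt_target p
  have h1 : ContMDiffOn (𝓡 2) (𝓡 3) ω (g ∘ (extChartAt (𝓡 2) p).symm)
      (extChartAt (𝓡 2) p).target :=
    hg.comp_contMDiffOn (contMDiffOn_extChartAt_symm p)
  have h2 : ContDiffOn ℝ ω (g ∘ (extChartAt (𝓡 2) p).symm) (extChartAt (𝓡 2) p).target :=
    h1.contDiffOn
  exact hopen.analyticOn_iff_analyticOnNhd.1 h2.analyticOn

theorem p_IDN : Stmt_IDN.{w} := by
  intro S _ _ _ _ g h hg hh O hO hne hgh p
  let W : Set S := {q | g =ᶠ[𝓝 q] h}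
  have hWo : IsOpen W := isOpen_setOfPred_eventually_nhds
  have hWne : W.Nonempty := by
    obtain ⟨q, hq⟩ := hne
    exact ⟨q, Filter.mem_of_superset (hO.mem_nhds hq) hgh⟩
  have hWc : IsClosed W := by
    rw [← closure_subset_iff_isClosed]
    intro q hq
    set e := extChartAt (𝓡 2) q with he
    have hT : IsOpen e.target := isOpen_extChartAt_target q
    have hqT : e q ∈ e.target := mem_extChartAt_target q
    obtain ⟨r, hr, hB⟩ := Metric.isOpen_iff.1 hT (e q) hqT
    have hpre : ∀ y ∈ 𝓝 (e q), ∀ᶠ x in 𝓝 q, x ∈ e.source ∧ e x ∈ y := by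
      intro y hy
      have h1 : ∀ᶠ x in 𝓝 q, x ∈ e.source := extChartAt_source_mem_nhds q
      have h2 : ∀ᶠ x in 𝓝 q, e x ∈ y := (continuousAt_extChartAt q).eventually hy
      exact h1.and h2
    have hN := hpre _ (Metric.ball_mem_nhds (e q) hr)
    obtain ⟨x, hxN, hxW⟩ := mem_closure_iff_nhds.1 hq _ hN
    obtain ⟨hxs, hxb⟩ := hxN
    have hga := (IDN_analytic S g hg q).mono hB
    have hha := (IDN_analytic S h hh q).mono hB
    have hxl : e.symm (e x) = x := e.left_inv hxs
    have hev : (fun z => g (e.symm z)) =ᶠ[𝓝 (e x)] (fun z => h (e.symm z)) := by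
      have hc : Tendsto e.symm (𝓝 (e x)) (𝓝 x) := by
        have h3 := continuousAt_extChartAt_symm'' (I := 𝓡 2) (x := q) (y := e x) (hB hxb)
        have h4 : Tendsto e.symm (𝓝 (e x)) (𝓝 (e.symm (e x))) := h3
        rwa [hxl] at h4
      exact hc.eventually hxW
    have heq := hga.eqOn_of_preconnected_of_eventuallyEq hha
      (convex_ball (e q) r).isPreconnected hxb hev
    refine Filter.mem_of_superset hN ?_
    intro y hy
    obtain ⟨hys, hyb⟩ := hy
    have h5 := heq hyb
    simp only at h5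
    rw [e.left_inv hys] at h5
    exact h5
  have huniv : W = univ := IsClopen.eq_univ ⟨hWc, hWo⟩ hWne
  have hp : p ∈ W := huniv ▸ mem_univ p
  exact hp.self_of_nhds

end Pool.TRG
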