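import Pool.Agent.Work.MP_02e829_tr.Interface2

/-! # Block MTN: a direct motion as an affine isometry (MP_02e829, TROUGH RIGIDITY) -/

open Set Filter Manifold Matrix MeasureTheory Metric
open scoped Topology ContDiff Manifold Real

set_option autoImplicit false

universe w

namespace Pool.TRG

open Pool
open Pool.FR (pd ee gg WW DD NN II Ga Gb Imm SO3)
open Pool.SXB (E3 L3 Proper PosCurv Fam2 Fam3 Transv)

theorem MTN_L3inj : Function.Injective (L3 : E3 → V3) :=
  (EuclideanSpace.equiv (Fin 3) ℝ).injective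

theorem MTN_lin (R : Matrix (Fin 3) (Fin 3) ℝ) (z : E3) :
    L3 (Matrix.toEuclideanLin R z) = R *ᵥ L3 z := rfl

theorem MTN_norm (z : E3) : ‖z‖ ^ 2 = L3 z ⬝ᵥ L3 z := by
  rw [EuclideanSpace.norm_sq_eq]
  simp only [dotProduct, Real.norm_eq_abs, sq_abs]
  exact Finset.sum_congr rfl fun i _ => sq (z i)

theorem p_MTN : Stmt_MTN := by
  intro R b hR
  have hnorm : ∀ z : E3, ‖Matrix.toEuclideanLin R z‖ = ‖z‖ := by
    intro z
    have h1 : ‖Matrix.toEuclideanLin R z‖ ^ 2 = ‖z‖ ^ 2 := by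
      rw [MTN_norm, MTN_norm, MTN_lin, Matrix.dotProduct_mulVec, Matrix.vecMul_mulVec, hR.1,
        Matrix.vecMul_one]
    exact (sq_eq_sq₀ (norm_nonneg _) (norm_nonneg _)).1 h1
  let li : E3 →ₗᵢ[ℝ] E3 := ⟨Matrix.toEuclideanLin R, hnorm⟩
  let T : E3 ≃ₗᵢ[ℝ] E3 := li.toLinearIsometryEquiv rfl
  have hT : ∀ z, T z = Matrix.toEuclideanLin R z := fun z => rfl
  let b' : E3 := (EuclideanSpace.equiv (Fin 3) ℝ).symm b
  have hb : L3 b' = b := (EuclideanSpace.equiv (Fin 3) ℝ).apply_symm_apply b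
  let A : E3 ≃ᵃⁱ[ℝ] E3 := T.toAffineIsometryEquiv.trans (AffineIsometryEquiv.constVAdd ℝ E3 b')
  have hA : ∀ z, A z = b' + T z := fun z => rfl
  have hAl : ∀ z, A.linearIsometryEquiv z = T z := by
    intro z
    have h1 := A.map_vadd (0 : E3) z
    rw [vadd_eq_add, vadd_eq_add, hA, hA, add_zero, map_zero, add_zero, add_comm] at h1
    exact (add_right_cancel h1).symm
  refine ⟨A, ?_, ?_, ?_⟩
  · have h2 : (A.linearIsometryEquiv.toLinearEquiv : E3 →ₗ[ℝ] E3) = Matrix.toEuclideanLin R := by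
      refine LinearMap.ext fun z => ?_
      exact (hAl z).trans (hT z)
    unfold Proper
    rw [h2, Matrix.toEuclideanLin_eq_toLin, LinearMap.det_toLin, hR.2]
    exact one_pos
  · intro z
    rw [hA, map_add, hb, hT, MTN_lin, add_comm]
  · intro z
    rw [hAl, hT, MTN_lin]

end Pool.TRG
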