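import Pool.Agent.Work.MP_02e829_tr.Interface

open Set Filter Matrix MeasureTheory Metric
open scoped Topology ContDiff Real

set_option autoImplicit false

namespace Pool.TRG

open Pool.FR (pd ee gg WW DD NN II Ga Gb Imm SO3)

theorem TR0_open : IsOpen St := by
  have : Continuous fun x : E2 => |x 1| := by fun_prop
  exact isOpen_lt this continuous_const

theorem TR0_mem (x : ℝ) : pt x ∈ St := by
  simp [St, pt, ee]

theorem TR0_pt_add (x y : ℝ) : pt (x + y) = pt x + y • ee 0 := by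
  simp [pt, add_smul]

theorem TR0_hpt (x : ℝ) : HasDerivAt pt (ee 0) x := by
  have h := (hasDerivAt_id x).smul_const (ee 0)
  rw [one_smul] at h
  exact h

theorem TR0_comp {G : Type*} [NormedAddCommGroup G] [NormedSpace ℝ G] {H : E2 → G} {x : ℝ}
    (h : DifferentiableAt ℝ H (pt x)) : HasDerivAt (fun x => H (pt x)) (pd 0 H (pt x)) x :=
  h.hasFDerivAt.comp_hasDerivAt x (TR0_hpt x)

theorem TR0_cd {G : Type*} [NormedAddCommGroup G] [NormedSpace ℝ G] {H : E2 → G} {n : WithTop ℕ∞}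
    (h : ContDiffOn ℝ n H St) : ContDiff ℝ n fun x => H (pt x) := by
  rw [← contDiffOn_univ]
  refine h.comp ?_ fun x _ => TR0_mem x
  rw [contDiffOn_univ]
  exact contDiff_id.smul contDiff_const

theorem TR0_dot {u v : ℝ → V3} {n : WithTop ℕ∞} (hu : ContDiff ℝ n u) (hv : ContDiff ℝ n v) :
    ContDiff ℝ n fun x => u x ⬝ᵥ v x := by
  have hu' := contDiff_pi.1 hu
  have hv' := contDiff_pi.1 hv
  have h1 : (fun y => u y ⬝ᵥ v y) = fun y => ∑ a, u y a * v y a := rfl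
  rw [h1]
  exact ContDiff.sum fun a _ => (hu' a).mul (hv' a)

theorem TR0_c0d (e1 e2 : V3) (y : ℝ) : HasDerivAt (c0 e1 e2) (c1 e1 e2 y) y := by
  have h := ((Real.hasDerivAt_cos y).smul_const e1).add ((Real.hasDerivAt_sin y).smul_const e2)
  exact h

theorem TR0_c1d (e1 e2 : V3) (y : ℝ) : HasDerivAt (c1 e1 e2) (-(c0 e1 e2 y)) y := by
  have h := ((Real.hasDerivAt_sin y).neg.smul_const e1).add
    ((Real.hasDerivAt_cos y).smul_const e2)
  have e : -(c0 e1 e2 y) = (-(Real.cos y)) • e1 + (-(Real.sin y)) • e2 := by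
    rw [c0]
    module
  rw [e]
  exact h

theorem TR0_c0s (e1 e2 : V3) : ContDiff ℝ 3 (c0 e1 e2) := by
  exact (Real.contDiff_cos.smul contDiff_const).add (Real.contDiff_sin.smul contDiff_const)

theorem TR0_c1s (e1 e2 : V3) : ContDiff ℝ 3 (c1 e1 e2) := by
  exact (Real.contDiff_sin.neg.smul contDiff_const).add (Real.contDiff_cos.smul contDiff_const)

theorem TR0_c00 {e1 e2 : V3} (h11 : e1 ⬝ᵥ e1 = 1) (h22 : e2 ⬝ᵥ e2 = 1) (h12 : e1 ⬝ᵥ e2 = 0)
    (y : ℝ) : c0 e1 e2 y ⬝ᵥ c0 e1 e2 y = 1 := by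
  have h21 : e2 ⬝ᵥ e1 = 0 := by rw [dotProduct_comm]; exact h12
  simp only [c0, add_dotProduct, dotProduct_add, smul_dotProduct, dotProduct_smul, smul_eq_mul,
    h11, h22, h12, h21]
  nlinarith [Real.sin_sq_add_cos_sq y]

theorem TR0_c11 {e1 e2 : V3} (h11 : e1 ⬝ᵥ e1 = 1) (h22 : e2 ⬝ᵥ e2 = 1) (h12 : e1 ⬝ᵥ e2 = 0)
    (y : ℝ) : c1 e1 e2 y ⬝ᵥ c1 e1 e2 y = 1 := by
  have h21 : e2 ⬝ᵥ e1 = 0 := by rw [dotProduct_comm]; exact h12
  simp only [c1, add_dotProduct, dotProduct_add, smul_dotProduct, dotProduct_smul, smul_eq_mul,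
    h11, h22, h12, h21]
  nlinarith [Real.sin_sq_add_cos_sq y]

theorem TR0_c01 {e1 e2 : V3} (h11 : e1 ⬝ᵥ e1 = 1) (h22 : e2 ⬝ᵥ e2 = 1) (h12 : e1 ⬝ᵥ e2 = 0)
    (y : ℝ) : c0 e1 e2 y ⬝ᵥ c1 e1 e2 y = 0 := by
  have h21 : e2 ⬝ᵥ e1 = 0 := by rw [dotProduct_comm]; exact h12
  simp only [c0, c1, add_dotProduct, dotProduct_add, smul_dotProduct, dotProduct_smul, smul_eq_mul,
    h11, h22, h12, h21]
  ring

theorem TR0_cross (e1 e2 : V3) (y : ℝ) : c0 e1 e2 y ⨯₃ c1 e1 e2 y = e1 ⨯₃ e2 := by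
  have hs := Real.sin_sq_add_cos_sq y
  rw [cross_apply, cross_apply]
  simp only [c0, c1, Pi.add_apply, Pi.smul_apply, smul_eq_mul]
  congr 1
  · linear_combination (e1 1 * e2 2 - e1 2 * e2 1) * hs
  · congr 1
    · linear_combination (e1 2 * e2 0 - e1 0 * e2 2) * hs
    · congr 1
      linear_combination (e1 0 * e2 1 - e1 1 * e2 0) * hs

theorem TR0_plane0 (e1 e2 : V3) (y : ℝ) : c0 e1 e2 y ⬝ᵥ (e1 ⨯₃ e2) = 0 := by
  simp [c0, add_dotProduct, smul_dotProduct]

theorem TR0_plane1 (e1 e2 : V3) (y : ℝ) : c1 e1 e2 y ⬝ᵥ (e1 ⨯₃ e2) = 0 := by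
  simp [c1, add_dotProduct, smul_dotProduct]

theorem TR0_perpd {F : E2 → V3} (hp : ∀ x ∈ St, F (x + (2 * π) • ee 0) = F x) (i : Fin 2) (x : ℝ) :
    pd i F (pt (x + 2 * π)) = pd i F (pt x) := by
  rw [TR0_pt_add]
  have h1 : (fun y => F (y + (2 * π) • ee 0)) =ᶠ[𝓝 (pt x)] F :=
    Filter.eventuallyEq_of_mem (TR0_open.mem_nhds (TR0_mem x)) hp
  have h2 := h1.fderiv_eq (𝕜 := ℝ)
  rw [fderiv_comp_add_right] at h2
  rw [pd, pd, h2]

theorem p_TR0 (_hFRM : Pool.FR.Stmt_FRM) : Stmt_TR0 := by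
  intro F e1 e2 φ ρ lam mu h
  have h00 := TR0_c00 h.e11 h.e22 h.e12
  have h11 := TR0_c11 h.e11 h.e22 h.e12
  have h01 := TR0_c01 h.e11 h.e22 h.e12
  have h10 : ∀ y, c1 e1 e2 y ⬝ᵥ c0 e1 e2 y = 0 := fun y => by rw [dotProduct_comm]; exact h01 y
  have hpd : ∀ i, ContDiffOn ℝ 3 (pd i F) St := fun i =>
    Pool.FR.pd_contDiffOn TR0_open h.imm.smooth (by norm_num) i
  have hpc : ∀ i, ContDiff ℝ 3 fun x => pd i F (pt x) := fun i => TR0_cd (hpd i)
  have hφ3 : ContDiff ℝ 3 φ := h.ang.smooth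
  have hc0 : ContDiff ℝ 3 fun x => c0 e1 e2 (φ x) := (TR0_c0s e1 e2).comp hφ3
  have hc1 : ContDiff ℝ 3 fun x => c1 e1 e2 (φ x) := (TR0_c1s e1 e2).comp hφ3
  have hρe : ρ = fun x => pd 0 F (pt x) ⬝ᵥ c0 e1 e2 (φ x) := by
    funext x
    rw [h.along, smul_dotProduct, h00, smul_eq_mul, mul_one]
  have hle : lam = fun x => pd 1 F (pt x) ⬝ᵥ c0 e1 e2 (φ x) := by
    funext x
    rw [h.across, add_dotProduct, smul_dotProduct, smul_dotProduct, h00, h10]
    simp
  have hme : mu = fun x => pd 1 F (pt x) ⬝ᵥ c1 e1 e2 (φ x) := by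
    funext x
    rw [h.across, add_dotProduct, smul_dotProduct, smul_dotProduct, h01, h11]
    simp
  have hρs : ContDiff ℝ 3 ρ := by rw [hρe]; exact TR0_dot (hpc 0) hc0
  have hls : ContDiff ℝ 3 lam := by rw [hle]; exact TR0_dot (hpc 1) hc0
  have hms : ContDiff ℝ 3 mu := by rw [hme]; exact TR0_dot (hpc 1) hc1
  have hp0 : ∀ x, c0 e1 e2 (φ (x + 2 * π)) = c0 e1 e2 (φ x) := by
    intro x
    rw [h.ang.per, c0, c0, Real.cos_add_two_pi, Real.sin_add_two_pi]
  have hp1 : ∀ x, c1 e1 e2 (φ (x + 2 * π)) = c1 e1 e2 (φ x) := by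
    intro x
    rw [h.ang.per, c1, c1, Real.cos_add_two_pi, Real.sin_add_two_pi]
  have hρp : Function.Periodic ρ (2 * π) := by
    intro x
    rw [hρe]
    simp only
    rw [TR0_perpd h.per, hp0]
  have hlp : Function.Periodic lam (2 * π) := by
    intro x
    rw [hle]
    simp only
    rw [TR0_perpd h.per, hp0]
  have hmp : Function.Periodic mu (2 * π) := by
    intro x
    rw [hme]
    simp only
    rw [TR0_perpd h.per, hp1]
  have hdF : ∀ x, DifferentiableAt ℝ F (pt x) := fun x =>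
    Pool.FR.diff_at TR0_open h.imm.smooth (by norm_num) (TR0_mem x)
  have hdP : ∀ i x, DifferentiableAt ℝ (pd i F) (pt x) := fun i x =>
    Pool.FR.diff_at TR0_open (hpd i) (by norm_num) (TR0_mem x)
  have hclose : ∀ e : V3, (IC fun x => pd 0 F (pt x) ⬝ᵥ e) = 0 := by
    intro e
    have h1 : ∀ x, HasDerivAt (fun x => F (pt x) ⬝ᵥ e) (pd 0 F (pt x) ⬝ᵥ e) x := by
      intro x
      have h2 := TR0_comp (hdF x)
      have h3 := hasDerivAt_pi.1 h2
      have h4 : HasDerivAt (fun x => ∑ a, F (pt x) a * e a) (∑ a, pd 0 F (pt x) a * e a) x :=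
        HasDerivAt.fun_sum fun a _ => (h3 a).mul_const (e a)
      exact h4
    have h2 := intervalIntegral.integral_eq_sub_of_hasDerivAt (a := 0) (b := 2 * π)
      (fun x _ => h1 x) ((TR0_dot (hpc 0) contDiff_const).continuous.intervalIntegrable _ _)
    rw [IC, h2]
    have h3 := h.per (pt 0) (TR0_mem 0)
    rw [← TR0_pt_add, zero_add] at h3
    rw [h3, sub_self]
  have hcos : IC (fun x => ρ x * Real.cos (φ x)) = 0 := by
    rw [← hclose e1]
    congr 1
    funext x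
    have h21 : e2 ⬝ᵥ e1 = 0 := by rw [dotProduct_comm]; exact h.e12
    rw [h.along, c0]
    simp only [add_dotProduct, smul_dotProduct, smul_add, h.e11, h21, smul_eq_mul]
    ring
  have hsin : IC (fun x => ρ x * Real.sin (φ x)) = 0 := by
    rw [← hclose e2]
    congr 1
    funext x
    rw [h.along, c0]
    simp only [add_dotProduct, smul_dotProduct, smul_add, h.e22, h.e12, smul_eq_mul]
    ring
  refine ⟨⟨h.ang, hρs.continuous, hρp, h.rpos, hcos, hsin⟩, hρs, hls, hms, hlp, hmp, ?_⟩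
  intro x
  have hg00 : gg F 0 0 (pt x) = ρ x ^ 2 := by
    rw [gg, h.along, smul_dotProduct, dotProduct_smul, h00]
    simp only [smul_eq_mul]
    ring
  have hg01 : gg F 0 1 (pt x) = ρ x * lam x := by
    rw [gg, h.along, h.across, smul_dotProduct, dotProduct_add, dotProduct_smul, dotProduct_smul,
      h00, h01]
    simp only [smul_eq_mul]
    ring
  have hg11 : gg F 1 1 (pt x) = lam x ^ 2 + mu x ^ 2 := by
    rw [gg, h.across]
    simp only [add_dotProduct, dotProduct_add, smul_dotProduct, dotProduct_smul, h00, h01, h10, h11,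
      smul_eq_mul]
    ring
  have hDD : DD F (pt x) = (ρ x * mu x) ^ 2 := by
    rw [DD, hg00, hg01, hg11]
    ring
  have hρμ : 0 < ρ x * mu x := mul_pos (h.rpos x) (h.mpos x)
  have hWW : WW F (pt x) = (ρ x * mu x) • (e1 ⨯₃ e2) := by
    rw [WW, h.along, h.across, ← TR0_cross e1 e2 (φ x)]
    simp only [map_smul, map_add, LinearMap.smul_apply, cross_self, smul_zero, zero_add]
    rw [smul_smul, mul_comm]
  have hNN : NN F (pt x) = e1 ⨯₃ e2 := by
    rw [NN, hDD, Real.sqrt_sq hρμ.le, hWW, smul_smul, inv_mul_cancel₀ hρμ.ne', one_smul]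
  have hφd : HasDerivAt φ (deriv φ x) x := (hφ3.differentiable (by norm_num) x).hasDerivAt
  have hρd : HasDerivAt ρ (deriv ρ x) x := (hρs.differentiable (by norm_num) x).hasDerivAt
  have hld : HasDerivAt lam (deriv lam x) x := (hls.differentiable (by norm_num) x).hasDerivAt
  have hmd : HasDerivAt mu (deriv mu x) x := (hms.differentiable (by norm_num) x).hasDerivAt
  have hd0 : HasDerivAt (fun x => c0 e1 e2 (φ x)) (deriv φ x • c1 e1 e2 (φ x)) x :=
    (TR0_c0d e1 e2 (φ x)).scomp x hφd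
  have hd1 : HasDerivAt (fun x => c1 e1 e2 (φ x)) (deriv φ x • -(c0 e1 e2 (φ x))) x :=
    (TR0_c1d e1 e2 (φ x)).scomp x hφd
  have hP0 : pd 0 (pd 0 F) (pt x) =
      ρ x • (deriv φ x • c1 e1 e2 (φ x)) + deriv ρ x • c0 e1 e2 (φ x) := by
    have h1 := TR0_comp (hdP 0 x)
    have h2 := hρd.smul hd0
    have h3 : (fun x => pd 0 F (pt x)) = ρ • fun x => c0 e1 e2 (φ x) := by
      funext x
      rw [h.along]
      rfl
    rw [h3] at h1
    exact h1.unique h2
  have hP1 : pd 0 (pd 1 F) (pt x) =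
      (lam x • (deriv φ x • c1 e1 e2 (φ x)) + deriv lam x • c0 e1 e2 (φ x)) +
      (mu x • (deriv φ x • -(c0 e1 e2 (φ x))) + deriv mu x • c1 e1 e2 (φ x)) := by
    have h1 := TR0_comp (hdP 1 x)
    have h2 := (hld.smul hd0).add (hmd.smul hd1)
    have h3 : (fun x => pd 1 F (pt x)) = (lam • fun x => c0 e1 e2 (φ x)) +
        (mu • fun x => c1 e1 e2 (φ x)) := by
      funext x
      rw [h.across]
      rfl
    rw [h3] at h1
    exact h1.unique h2
  refine ⟨hg00, hg01, hg11, hNN, ?_, ?_, ?_, ?_⟩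
  · rw [II, hNN, hP0]
    simp only [add_dotProduct, smul_dotProduct, TR0_plane0, TR0_plane1, smul_zero, add_zero]
  · rw [II, hNN, hP1]
    simp only [add_dotProduct, smul_dotProduct, neg_dotProduct, TR0_plane0, TR0_plane1, smul_zero,
      add_zero, neg_zero]
  · rw [II, hNN]
    exact h.bend x
  · have hG1 : Ga F 0 0 1 (pt x) = deriv ρ x * lam x + ρ x * deriv φ x * mu x := by
      rw [Ga, hP0, h.across]
      simp only [add_dotProduct, dotProduct_add, smul_dotProduct, dotProduct_smul, h00, h01, h10,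
        h11, smul_eq_mul]
      ring
    have hG0 : Ga F 0 0 0 (pt x) = deriv ρ x * ρ x := by
      rw [Ga, hP0, h.along]
      simp only [add_dotProduct, smul_dotProduct, dotProduct_smul, h00, h10, smul_eq_mul]
      ring
    have hρ0 : ρ x ≠ 0 := (h.rpos x).ne'
    have hμ0 : mu x ≠ 0 := (h.mpos x).ne'
    rw [Gb, if_neg (by decide), hg00, hg01, hG1, hG0, hDD]
    field_simp
    ring

end Pool.TRG
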