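import Pool.Agent.Work.MP_02e829_fr.Interface
import Pool.Agent.Work.MP_02e829_sb.Interface

/-!
# MP_02e829_gt, TROUGH RIGIDITY, part 1: analysis on the circle, geometry on the strip

File `Pool/Agent/Work/MP_02e829_tr/B_X.lean`, `import Pool.Agent.Work.MP_02e829_tr.Interface`,
namespace `Pool.TRG`, `theorem p_X (hA : Stmt_A) .. : Stmt_X` with exactly the blocks of the column
`uses` as hypotheses in that order (`FR.Y` = `Pool.FR.Stmt_Y`, `SXB.Y` = `Pool.SXB.Stmt_Y`);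
auxiliary lemmas with the prefix `X_`.  You may import finished files of `MP_02e829_fr`,
`MP_02e829_sb` for their auxiliary lemmas.  Toolkit for `pd`: `Pool.FR.Base` (`pd_congr pd_comm
pd_add pd_smul pd_dot pd_cross pd_clm contDiffOn_dot contDiffOn_cross pd_contDiffOn diff_at`).

THE PROOF.  `F` = surface on the strip `|x 1| < 1`, `2π`-periodic in `x 0`, the curve is the line
`x 1 = 0`; `F₀ (x, 0)` is a plane convex curve with tangent angle `φ x` and velocity `ρ x`.  Frame of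
an isometric surface along the line: `T' = φ' (ν + a n)`, `ν' = φ' (-T + b n)`,
`n' = φ' (-a T - b ν)`, `a = II₀₀ / (ρ φ')`, `b = (II₀₁ - λ II₀₀ / ρ) / (μ φ')`; egregium:
`II₀₀ II₁₁ = II₀₁²` on the line, so `|a| ≤ C b²`.  GAP: small `b` with bounded `b''` vanish.  So the
set of the times with `II₀₀ = II₀₁ = 0` on the line is open; it is closed because `II₁₁²` is
intrinsic there.
-/

open Set Filter Matrix MeasureTheory Metric
open scoped Topology ContDiff Real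

set_option autoImplicit false

namespace Pool.TRG

open Pool.FR (pd ee gg WW DD NN II Ga Gb Imm SO3)

abbrev E2 := Pool.FR.E2
abbrev V3 := Pool.FR.V3

/-! ### Analysis on the circle -/

/-- the integral over a period -/
noncomputable def IC (u : ℝ → ℝ) : ℝ := ∫ x in (0 : ℝ)..(2 * π), u x

/-- the first Fourier mode -/
noncomputable def M1 (f : ℝ → ℝ) (x : ℝ) : ℝ :=
  (π⁻¹ * IC fun s => f s * Real.cos s) * Real.cos x +
    (π⁻¹ * IC fun s => f s * Real.sin s) * Real.sin x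

/-- the radius of curvature of a closed convex curve as a function of the tangent angle -/
structure Rad (ρ : ℝ → ℝ) : Prop where
  cont : Continuous ρ
  per : Function.Periodic ρ (2 * π)
  pos : ∀ x, 0 < ρ x
  cos : IC (fun x => ρ x * Real.cos x) = 0
  sin : IC (fun x => ρ x * Real.sin x) = 0

/-- CSI (60 lines). Cauchy-Schwarz.  (`0 ≤ IC ((s u + v)²)` for all `s`, `discrim_le_zero`; or
search the repository.) -/
def Stmt_CSI : Prop :=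
  ∀ u v : ℝ → ℝ, Continuous u → Continuous v →
    (IC fun x => u x * v x) ^ 2 ≤ (IC fun x => u x ^ 2) * IC fun x => v x ^ 2

/-- IBP (50 lines). `intervalIntegral.integral_deriv_mul_eq_sub` (or `..eq_sub_of_hasDerivAt`). -/
def Stmt_IBP : Prop :=
  ∀ u v : ℝ → ℝ, ContDiff ℝ 1 u → ContDiff ℝ 1 v → Function.Periodic u (2 * π) →
    Function.Periodic v (2 * π) → (IC fun x => deriv u x * v x) = -IC fun x => u x * deriv v x

/-- WIR (200 lines). Wirtinger's inequality for the modes `≥ 2`.  Parseval for `f` and `deriv f`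
(`fourierCoeffOn`, `fourierCoeffOn_of_hasDerivAt`, `tsum_sq_fourierCoeff` on `AddCircle (2π)`, or
`fourierCoeff (f') n = i n fourierCoeff f n` by parts): the coefficients of `f` with `|n| ≤ 1`
vanish, so `|n|² |c n|² ≥ 4 |c n|²` for all `n`. -/
def Stmt_WIR : Prop :=
  ∀ f : ℝ → ℝ, ContDiff ℝ 1 f → Function.Periodic f (2 * π) → IC f = 0 →
    (IC fun x => f x * Real.cos x) = 0 → (IC fun x => f x * Real.sin x) = 0 →
    4 * (IC fun x => f x ^ 2) ≤ IC fun x => deriv f x ^ 2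

/-- SUP (150 lines). The support function.  `q x = ∫ s in 0..x, ρ s sin (x - s) = sin x A x -
cos x B x`, `A x = ∫ s in 0..x, ρ s cos s`, `B x = ∫ s in 0..x, ρ s sin s` (both `2π`-periodic by
`Rad`).  `q' = cos x A x + sin x B x`, `q'' = ρ - q`.  `q > 0` on `(0, 2π)`: for `x ≤ π` by the
integral; for `x > π`: `q x = ∫ s in x..2π, ρ s sin (s - x)` (`A (2π) = B (2π) = 0`).  So
`∫ ρ q > 0`. -/
def Stmt_SUP : Prop :=
  ∀ ρ : ℝ → ℝ, Rad ρ → ∃ q : ℝ → ℝ, ContDiff ℝ 2 q ∧ Function.Periodic q (2 * π) ∧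
    (∀ x, deriv (deriv q) x + q x = ρ x) ∧ 0 < IC fun x => ρ x * q x

/-- KEY (250 lines; uses CSI IBP WIR SUP). `f = c + M1 f + R`, `c = IC f / 2π`, `R` orthogonal to
`1, cos, sin`, the same for `q = c' + M1 q + Q`.  With `B u w = IC (u' w') - IC (u w)`: `B` is
nonnegative on functions orthogonal to `1, cos, sin` (WIR), so `B(Q,R)² ≤ B(Q,Q) B(R,R)`
(discriminant).  `IC (f'²) - IC (f²) = B(R,R) - 2π c²` (the mode `M1 f` is orthogonal to `c`, `R`,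
also after differentiation, and contributes 0).  With `P = IC ρ`: `0 = IC (ρ f) = P c + IC (ρ R)`
(`ρ` is orthogonal to `cos, sin`), `IC (ρ R) = IC ((q'' + q) R) = -B(q,R) = -B(Q,R)`,
`c' = P / 2π`, `J = IC (ρ q) = IC (q²) - IC (q'²) = 2π c'² - B(Q,Q) = P²/2π - B(Q,Q)`.  So
`P² c² ≤ (P²/2π - J) B(R,R)`, `2π c² ≤ (1 - κ₀) B(R,R)`, `κ₀ = 2π J / P² > 0`, and
`IC (f'²) - IC (f²) ≥ κ₀ B(R,R)`.  WIR: `B(R,R) ≥ (3/4) IC (R'²)`, `IC (R²) ≤ IC (R'²) / 4`;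
`f - M1 f = c + R`: `IC ((c + R)²) + IC (R'²) = 2π c² + IC (R²) + IC (R'²) ≤ (8/3) B(R,R)`.
`κ = 3 κ₀ / 8`. -/
def Stmt_KEY : Prop :=
  ∀ ρ : ℝ → ℝ, Rad ρ → ∃ κ : ℝ, 0 < κ ∧ ∀ f : ℝ → ℝ, ContDiff ℝ 1 f →
    Function.Periodic f (2 * π) → (IC fun x => ρ x * f x) = 0 →
    κ * ((IC fun x => (f x - M1 f x) ^ 2) + IC fun x => deriv (fun y => f y - M1 f y) x ^ 2) ≤
      (IC fun x => deriv f x ^ 2) - IC fun x => f x ^ 2

/-- the frame along the curve -/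
structure Fr (ρ a b : ℝ → ℝ) (T ν n : ℝ → V3) : Prop where
  dT : ∀ x, HasDerivAt T (ν x + a x • n x) x
  dN : ∀ x, HasDerivAt ν (-(T x) + b x • n x) x
  dn : ∀ x, HasDerivAt n (-(a x • T x) - b x • ν x) x
  TT : ∀ x, T x ⬝ᵥ T x = 1
  NN : ∀ x, ν x ⬝ᵥ ν x = 1
  nn : ∀ x, n x ⬝ᵥ n x = 1
  TN : ∀ x, T x ⬝ᵥ ν x = 0
  Tn : ∀ x, T x ⬝ᵥ n x = 0
  Nn : ∀ x, ν x ⬝ᵥ n x = 0
  pT : Function.Periodic T (2 * π)
  pN : Function.Periodic ν (2 * π)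
  pn : Function.Periodic n (2 * π)
  pa : Function.Periodic a (2 * π)
  pb : Function.Periodic b (2 * π)
  ca : ContDiff ℝ 1 a
  cb : ContDiff ℝ 2 b
  clo : ∀ i, (IC fun x => ρ x * T x i) = 0

/-- EST (300 lines; uses CSI IBP KEY). The main estimate.  `D_i = T_i - M1 T_i`, of class `C²`;
`T'' + T = (b + a') n - a² T - a b ν` and `(M1 T_i)'' + M1 T_i = 0`, so `D'' + D` is the same
vector.  Multiply by `b n` and integrate, `(b n)' = b' n - a b T - b² ν`, IBP: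
`IC (b²) = IC (a b') - IC (b' n·D') + IC (a b T·D') + IC (b² ν·D') + IC (b n·D)`.
KEY for the components `T_i` and `Σ (T_i')² = 1 + a²`: `κ (IC |D|² + IC |D'|²) ≤ IC (a²)`.
`(n·D')² ≤ |D'|²` etc., `|a| ≤ C`, `|b| ≤ S ≤ 1`, `√IC (a²) ≤ C S √IC (b²)`, CSI:
`IC (b²) ≤ √IC (a²) (1 + κ^(-1/2)) (C + 2) (√IC (b'²) + √IC (b²))`,
`C₁ = C (1 + κ^(-1/2)) (C + 2)`. -/
def Stmt_EST : Prop :=
  ∀ ρ : ℝ → ℝ, Rad ρ → ∀ C : ℝ, 0 ≤ C → ∃ C₁ : ℝ, 0 ≤ C₁ ∧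
    ∀ (a b : ℝ → ℝ) (T ν n : ℝ → V3), Fr ρ a b T ν n → ∀ S : ℝ, 0 ≤ S → S ≤ 1 →
    (∀ x, |a x| ≤ C * b x ^ 2) → (∀ x, |b x| ≤ S) →
    (IC fun x => b x ^ 2) ≤ C₁ * S * √(IC fun x => b x ^ 2) *
      (√(IC fun x => deriv b x ^ 2) + √(IC fun x => b x ^ 2))

/-- SUB (100 lines; uses CSI). Some `y` in the period with `b(y)² ≤ IC (b²) / 2π ≤ IC (b²)`;
`b(x)² - b(y)² = ∫ 2 b b'` over a part of a period, at most `2 IC |b b'|`
(`Function.Periodic.exists_mem_Ico`, periodicity). -/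
def Stmt_SUB : Prop :=
  ∀ b : ℝ → ℝ, ContDiff ℝ 1 b → Function.Periodic b (2 * π) → ∀ x,
    b x ^ 2 ≤ (IC fun x => b x ^ 2) + 2 * √(IC fun x => b x ^ 2) * √(IC fun x => deriv b x ^ 2)

/-- INT (60 lines; uses CSI IBP). `IC (b'²) = -IC (b b'') ≤ √IC (b²) √IC (b''²)`,
`√(2π) M ≤ 3 M`. -/
def Stmt_INT : Prop :=
  ∀ (b : ℝ → ℝ) (M : ℝ), ContDiff ℝ 2 b → Function.Periodic b (2 * π) → 0 ≤ M →
    (∀ x, |deriv (deriv b) x| ≤ M) →
    (IC fun x => deriv b x ^ 2) ≤ 3 * M * √(IC fun x => b x ^ 2)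

/-- GAP (150 lines; uses EST SUB INT). `β = √IC (b²)`, `S = max |b|` (over a period),
`N = √IC (b'²)`.  If `β = 0` then `b = 0` (continuity).  Otherwise EST: `β ≤ C₁ S (N + β)`,
`β² ≤ 2 C₁² S² (N² + β²) ≤ 2 C₁² S² (3 M β + β²)` (INT), `β ≤ 3 S ≤ 3`, so `β ≤ C₂ S²`,
`C₂ = 2 C₁² (3 M + 3)`; SUB: `S² ≤ β² + 2 β N ≤ β (β + 2 √(3 M β)) ≤ C₂ S² (β + 2 √(3 M β))`, and
`S > 0`: `1 ≤ C₂ (3 δ + 2 √(9 M δ))`, false for small `δ ≤ 1`. -/
def Stmt_GAP : Prop :=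
  ∀ ρ : ℝ → ℝ, Rad ρ → ∀ C M : ℝ, 0 ≤ C → 0 ≤ M → ∃ δ : ℝ, 0 < δ ∧
    ∀ (a b : ℝ → ℝ) (T ν n : ℝ → V3), Fr ρ a b T ν n → (∀ x, |a x| ≤ C * b x ^ 2) →
    (∀ x, |deriv (deriv b) x| ≤ M) → (∀ x, |b x| ≤ δ) → ∀ x, b x = 0

/-! ### Arbitrary parameters -/

/-- the tangent angle of a closed convex curve, as a function of a parameter -/
structure Ang (φ : ℝ → ℝ) : Prop where
  smooth : ContDiff ℝ 3 φ
  pos : ∀ x, 0 < deriv φ x
  per : ∀ x, φ (x + 2 * π) = φ x + 2 * π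

/-- the velocity of a closed convex curve with tangent angle `φ` -/
structure WRad (φ ρ : ℝ → ℝ) : Prop where
  ang : Ang φ
  cont : Continuous ρ
  per : Function.Periodic ρ (2 * π)
  pos : ∀ x, 0 < ρ x
  cos : IC (fun x => ρ x * Real.cos (φ x)) = 0
  sin : IC (fun x => ρ x * Real.sin (φ x)) = 0

/-- the frame in an arbitrary parameter -/
structure WFr (φ ρ a b : ℝ → ℝ) (T ν n : ℝ → V3) : Prop where
  dT : ∀ x, HasDerivAt T (deriv φ x • (ν x + a x • n x)) x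
  dN : ∀ x, HasDerivAt ν (deriv φ x • (-(T x) + b x • n x)) x
  dn : ∀ x, HasDerivAt n (deriv φ x • (-(a x • T x) - b x • ν x)) x
  TT : ∀ x, T x ⬝ᵥ T x = 1
  NN : ∀ x, ν x ⬝ᵥ ν x = 1
  nn : ∀ x, n x ⬝ᵥ n x = 1
  TN : ∀ x, T x ⬝ᵥ ν x = 0
  Tn : ∀ x, T x ⬝ᵥ n x = 0
  Nn : ∀ x, ν x ⬝ᵥ n x = 0
  pT : Function.Periodic T (2 * π)
  pN : Function.Periodic ν (2 * π)
  pn : Function.Periodic n (2 * π)
  pa : Function.Periodic a (2 * π)
  pb : Function.Periodic b (2 * π)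
  ca : ContDiff ℝ 1 a
  cb : ContDiff ℝ 2 b
  clo : ∀ i, (IC fun x => ρ x * T x i) = 0

/-- REP (250 lines; uses nothing). The inverse function of `φ` (strictly increasing, unbounded in
both directions by `per`, inverse function theorem `ContDiffAt.to_localInverse` or
`OpenPartialHomeomorph.contDiffAt_symm_deriv`); `ψ' = 1 / φ' ∘ ψ`.  The closing conditions: change
of variables `s = φ x` over a period (`intervalIntegral.integral_comp_mul_deriv`, then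
`Function.Periodic.intervalIntegral_add_eq` for the period starting at `φ 0`). -/
def Stmt_REP : Prop :=
  ∀ φ : ℝ → ℝ, Ang φ → ∃ ψ : ℝ → ℝ, ContDiff ℝ 3 ψ ∧ (∀ x, ψ (φ x) = x) ∧ (∀ s, φ (ψ s) = s) ∧
    (∀ s, ψ (s + 2 * π) = ψ s + 2 * π) ∧
    (∀ ρ, WRad φ ρ → Rad fun s => ρ (ψ s) * deriv ψ s) ∧
    ∀ (ρ a b : ℝ → ℝ) (T ν n : ℝ → V3), WRad φ ρ → WFr φ ρ a b T ν n →
      Fr (fun s => ρ (ψ s) * deriv ψ s) (fun s => a (ψ s)) (fun s => b (ψ s)) (fun s => T (ψ s))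
        (fun s => ν (ψ s)) fun s => n (ψ s)

/-- GPW (120 lines; uses GAP REP). `ψ', ψ''` are continuous and periodic, so bounded;
`(b ∘ ψ)'' = b'' ψ'² + b' ψ''`. -/
def Stmt_GPW : Prop :=
  ∀ φ ρ : ℝ → ℝ, WRad φ ρ → ∀ C M : ℝ, 0 ≤ C → 0 ≤ M → ∃ δ : ℝ, 0 < δ ∧
    ∀ (a b : ℝ → ℝ) (T ν n : ℝ → V3), WFr φ ρ a b T ν n → (∀ x, |a x| ≤ C * b x ^ 2) →
    (∀ x, |deriv b x| ≤ M ∧ |deriv (deriv b) x| ≤ M) → (∀ x, |b x| ≤ δ) → ∀ x, b x = 0

/-! ### Geometry on the strip -/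

/-- the strip -/
def St : Set E2 := {x | |x 1| < 1}

/-- the points of the line -/
noncomputable def pt (x : ℝ) : E2 := x • ee 0

/-- the tangent vector of direction angle `x` -/
noncomputable def c0 (e1 e2 : V3) (x : ℝ) : V3 := Real.cos x • e1 + Real.sin x • e2

/-- the inner normal vector -/
noncomputable def c1 (e1 e2 : V3) (x : ℝ) : V3 := -(Real.sin x) • e1 + Real.cos x • e2

/-- `F` touches a plane along the line `x 1 = 0` in a closed convex curve with tangent angle `φ` -/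
structure Tr (F : E2 → V3) (e1 e2 : V3) (φ ρ lam mu : ℝ → ℝ) : Prop where
  ang : Ang φ
  imm : Imm F St
  per : ∀ x ∈ St, F (x + (2 * π) • ee 0) = F x
  e11 : e1 ⬝ᵥ e1 = 1
  e22 : e2 ⬝ᵥ e2 = 1
  e12 : e1 ⬝ᵥ e2 = 0
  along : ∀ x, pd 0 F (pt x) = ρ x • c0 e1 e2 (φ x)
  across : ∀ x, pd 1 F (pt x) = lam x • c0 e1 e2 (φ x) + mu x • c1 e1 e2 (φ x)
  rpos : ∀ x, 0 < ρ x
  mpos : ∀ x, 0 < mu x
  bend : ∀ x, pd 1 (pd 1 F) (pt x) ⬝ᵥ (e1 ⨯₃ e2) ≠ 0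

/-- `G` is isometric to `F` -/
def Iso (F G : E2 → V3) : Prop := ∀ x ∈ St, ∀ i j, gg G i j x = gg F i j x

/-- periodicity -/
def Per (G : E2 → V3) : Prop := ∀ x ∈ St, G (x + (2 * π) • ee 0) = G x

/-- the asymptotic direction is the direction of the line -/
def Flat (G : E2 → V3) : Prop := ∀ x, II G 0 0 (pt x) = 0 ∧ II G 0 1 (pt x) = 0

/-- TR0 (200 lines; uses FR.FRM). `ρ x = pd 0 F (pt x) ⬝ c0 (φ x)`, etc. (scalar products with `c0`,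
`c1`), so `C³` and periodic (differentiate `per`); `IC (ρ cos φ) = ∫ (d/dx) (F (pt x) ⬝ e1) = 0`.
The metric: `c0, c1` are orthonormal.  `c0 ⨯₃ c1 = e1 ⨯₃ e2`, `WW = ρ μ (e1 ⨯₃ e2)`, `DD = ρ² μ²`.
`d/dx` of `along`: `pd 0 (pd 0 F) (pt x) = ρ' c0 + ρ φ' c1` (`c0' = c1`, `c1' = -c0`), of `across`:
`pd 0 (pd 1 F) (pt x)` is in the plane too.  `Gb F 1 0 0`: definition of `Gb` with
`Ga F 0 0 0 = ρ ρ'`, `Ga F 0 0 1 = ρ' λ + ρ φ' μ`. -/
def Stmt_TR0 : Prop :=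
  ∀ (F : E2 → V3) (e1 e2 : V3) (φ ρ lam mu : ℝ → ℝ), Tr F e1 e2 φ ρ lam mu →
    WRad φ ρ ∧ ContDiff ℝ 3 ρ ∧ ContDiff ℝ 3 lam ∧ ContDiff ℝ 3 mu ∧
    Function.Periodic lam (2 * π) ∧ Function.Periodic mu (2 * π) ∧
    ∀ x, gg F 0 0 (pt x) = ρ x ^ 2 ∧ gg F 0 1 (pt x) = ρ x * lam x ∧
      gg F 1 1 (pt x) = lam x ^ 2 + mu x ^ 2 ∧ NN F (pt x) = e1 ⨯₃ e2 ∧
      II F 0 0 (pt x) = 0 ∧ II F 0 1 (pt x) = 0 ∧ II F 1 1 (pt x) ≠ 0 ∧
      Gb F 1 0 0 (pt x) = ρ x * deriv φ x / mu x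

/-- the unit tangent vector -/
noncomputable def fT (ρ : ℝ → ℝ) (G : E2 → V3) (x : ℝ) : V3 := (ρ x)⁻¹ • pd 0 G (pt x)

/-- the unit normal vector -/
noncomputable def fn (G : E2 → V3) (x : ℝ) : V3 := NN G (pt x)

/-- the unit conormal vector -/
noncomputable def fN (ρ : ℝ → ℝ) (G : E2 → V3) (x : ℝ) : V3 := fn G x ⨯₃ fT ρ G x

/-- normal curvature divided by geodesic curvature -/
noncomputable def aa (φ ρ : ℝ → ℝ) (G : E2 → V3) (x : ℝ) : ℝ :=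
  II G 0 0 (pt x) / (ρ x * deriv φ x)

/-- geodesic torsion divided by geodesic curvature -/
noncomputable def bb (φ ρ lam mu : ℝ → ℝ) (G : E2 → V3) (x : ℝ) : ℝ :=
  (II G 0 1 (pt x) - lam x * (II G 0 0 (pt x) / ρ x)) / (mu x * deriv φ x)

/-- FRA (300 lines; uses FR.FRM FR.CHR TR0). The frame.  The metric of `G` on the line is that of
`F` (TR0), so `|G_0| = ρ`, `T` is a unit vector, `G_1 = λ T + μ ν` with `ν = n ⨯₃ T`:
`G_1·T = g01/ρ = λ`, `G_1·n = 0`, `G_1·ν = n·(T ⨯₃ G_1) = √DD/ρ = μ`.  `T'·T = 0`;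
`T'·ν = ρ⁻¹ G_00·ν = ρ⁻¹ μ⁻¹ (Ga 0 0 1 - (λ/ρ) Ga 0 0 0)`, the same as for `F` (CHR), where it is
`φ'` (`Ga F 0 0 1 = ρ' λ + ρ φ' μ`, `Ga F 0 0 0 = ρ ρ'`, from `F_00 = ρ' c0 + ρ φ' c1`);
`T'·n = II00/ρ = φ' a`.  `ν'·T = -ν·T' = -φ'`, `ν'·ν = 0`,
`ν'·n = μ⁻¹ (G_01·n - λ T'·n) = φ' b` (`ν = μ⁻¹ (G_1 - λ T)`).  `n'`: `n'·n = 0`, `n'·T = -φ' a`,
`n'·ν = -φ' b`.  A vector is the sum of its components in the orthonormal frame.  `II` is `C²`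
(FRM).  Closing: `ρ T = d/dx G (pt x)`. -/
def Stmt_FRA : Prop :=
  ∀ (F : E2 → V3) (e1 e2 : V3) (φ ρ lam mu : ℝ → ℝ), Tr F e1 e2 φ ρ lam mu →
    ∀ G : E2 → V3, Imm G St → Iso F G → Per G →
    WFr φ ρ (aa φ ρ G) (bb φ ρ lam mu G) (fT ρ G) (fN ρ G) (fn G) ∧
    ∀ x, pd 0 G (pt x) = ρ x • fT ρ G x ∧ pd 1 G (pt x) = lam x • fT ρ G x + mu x • fN ρ G x

/-- EGG (200 lines; uses FR.FRM FR.CHR). Theorema egregium.  `F_00·F_11 - F_01·F_01 =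
pd 1 (Ga F 0 0 1) - pd 0 (Ga F 0 1 1)` (third derivatives cancel by `pd_comm`); the `Ga` of `F` and
`G` are equal on `U` (CHR), so are their derivatives (`pd_congr`).  By FRM
`F_ij = Gb 0 F_0 + Gb 1 F_1 + II NN`, so `F_00·F_11 - F_01·F_01` is `II00 II11 - II01²` plus an
expression in the `Gb` and `gg`, which are equal for `F` and `G`. -/
def Stmt_EGG : Prop :=
  ∀ U : Set E2, IsOpen U → ∀ F G : E2 → V3, Imm F U → Imm G U →
    (∀ x ∈ U, ∀ i j, gg G i j x = gg F i j x) → ∀ x ∈ U,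
    II G 0 0 x * II G 1 1 x - II G 0 1 x ^ 2 = II F 0 0 x * II F 1 1 x - II F 0 1 x ^ 2

/-- SQR (120 lines; uses FR.FRM FR.CHR FR.COD EGG TR0). For `H = F` and `H = G` (both `Flat`)
Codazzi (first equation) at `pt x`: `pd 1 (II H 0 0) = -Gb H 1 0 0 II H 1 1` (`pd 0 (II H 0 1)`
vanishes on the line, it is the derivative along the line); so
`pd 1 (II00 II11 - II01²) (pt x) = -Gb H 1 0 0 (II H 1 1)²`.  The left side is the same for both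
(EGG), `Gb` too (CHR), and `Gb F 1 0 0 = ρ φ'/μ ≠ 0`. -/
def Stmt_SQR : Prop :=
  ∀ (F : E2 → V3) (e1 e2 : V3) (φ ρ lam mu : ℝ → ℝ), Tr F e1 e2 φ ρ lam mu →
    ∀ G : E2 → V3, Imm G St → Iso F G → Flat G →
    ∀ x, II G 1 1 (pt x) ^ 2 = II F 1 1 (pt x) ^ 2

/-- a family of isometric surfaces on the strip, bounded in `C⁴`, continuous in `C²` -/
structure SFam (F : ℝ → E2 → V3) : Prop where
  imm : ∀ t ∈ Icc (0 : ℝ) 1, Imm (F t) St
  iso : ∀ t ∈ Icc (0 : ℝ) 1, Iso (F 0) (F t)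
  per : ∀ t ∈ Icc (0 : ℝ) 1, Per (F t)
  con1 : ∀ i, ContinuousOn (fun z : ℝ × E2 => pd i (F z.1) z.2) (Icc (0 : ℝ) 1 ×ˢ St)
  con2 : ∀ i j, ContinuousOn (fun z : ℝ × E2 => pd i (pd j (F z.1)) z.2) (Icc (0 : ℝ) 1 ×ˢ St)
  bdd : ∃ M : ℝ, ∀ t ∈ Icc (0 : ℝ) 1, ∀ x : ℝ, ∀ i j,
    ‖pd i (F t) (pt x)‖ ≤ M ∧ ‖pd 0 (pd i (F t)) (pt x)‖ ≤ M ∧
    ‖pd 0 (pd 0 (pd i (F t))) (pt x)‖ ≤ M ∧ ‖pd i (pd j (F t)) (pt x)‖ ≤ M ∧
    ‖pd 0 (pd i (pd j (F t))) (pt x)‖ ≤ M ∧ ‖pd 0 (pd 0 (pd i (pd j (F t)))) (pt x)‖ ≤ M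

/-- UB2 (250 lines; uses FR.FRM TR0). On the line `NN G = (ρ μ)⁻¹ • (G_0 ⨯₃ G_1)` (`DD G = ρ² μ²`
as for `F`), so `II G i j (pt x) = (ρ μ)⁻¹ det (G_ij, G_0, G_1)`; `bb` is a sum of products of
fixed `C²` periodic functions with the components of `G_0, G_1, G_00, G_01` along the line.  The
class of the families `u t x`, `u t` of class `C²`, with `u, u', u''` bounded uniformly in
`t ∈ [0,1]`, `x`, is closed under sums and products; `d/dx` of `H (pt x)` is `pd 0 H (pt x)`. -/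
def Stmt_UB2 : Prop :=
  ∀ (F : ℝ → E2 → V3) (e1 e2 : V3) (φ ρ lam mu : ℝ → ℝ), Tr (F 0) e1 e2 φ ρ lam mu → SFam F →
    ∃ M : ℝ, 0 ≤ M ∧ ∀ t ∈ Icc (0 : ℝ) 1, ∀ x, |deriv (bb φ ρ lam mu (F t)) x| ≤ M ∧
      |deriv (deriv (bb φ ρ lam mu (F t))) x| ≤ M

/-- CTB (100 lines). `II = pd i (pd j F) ⬝ NN`, `NN = (√DD)⁻¹ • WW`, `DD > 0` (`Imm`),
all continuous by `con1`, `con2`; `pt` is continuous. -/
def Stmt_CTB : Prop :=
  ∀ F : ℝ → E2 → V3, SFam F → ∀ i j,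
    ContinuousOn (fun z : ℝ × ℝ => II (F z.1) i j (pt z.2)) (Icc (0 : ℝ) 1 ×ˢ univ)

/-- OPN (300 lines; uses FR.FRM FR.CHR TR0 FRA EGG SQR UB2 CTB GPW). `c = min |II (F 0) 1 1 (pt x)|`
over a period, `> 0`; by SQR the same for `t0`, so `|II (F t) 1 1 (pt x)| ≥ c/2` for `t` near `t0`
and all `x` (CTB, compactness of the period, periodicity of `II`); `aa, bb → 0` uniformly.
EGG at `pt x` (value `0` for `F 0`), with `II00 = ρ φ' a`, `II01 = φ' (μ b + λ a)`: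
`ρ a II11 = φ' (μ b + λ a)² ≤ 2 φ' (μ² b² + λ² a²)`, so `|a| (ρ c/2 - 2 φ' λ² |a|) ≤ 2 φ' μ² b²`,
and `|a| ≤ C b²` when `|a|` is small, `C` independent of `t`.  FRA, UB2, GPW: `b = 0`, `a = 0`. -/
def Stmt_OPN : Prop :=
  ∀ (F : ℝ → E2 → V3) (e1 e2 : V3) (φ ρ lam mu : ℝ → ℝ), Tr (F 0) e1 e2 φ ρ lam mu → SFam F →
    ∀ t0 ∈ Icc (0 : ℝ) 1, Flat (F t0) → ∀ᶠ t in 𝓝[Icc (0 : ℝ) 1] t0, Flat (F t)

/-- ALL (120 lines; uses TR0 SQR CTB OPN). `{t | Flat (F t)}` contains `0` (TR0), is open in `[0,1]`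
(OPN) and closed (CTB, fixed `x`).  For fixed `x` the function `t ↦ II (F t) 1 1 (pt x)` is
continuous with constant nonzero square (SQR), so constant. -/
def Stmt_ALL : Prop :=
  ∀ (F : ℝ → E2 → V3) (e1 e2 : V3) (φ ρ lam mu : ℝ → ℝ), Tr (F 0) e1 e2 φ ρ lam mu → SFam F →
    ∀ t ∈ Icc (0 : ℝ) 1, Flat (F t) ∧ ∀ x, II (F t) 1 1 (pt x) = II (F 0) 1 1 (pt x)

/-- RIG (250 lines; uses FR.FRM FR.CHR TR0 FRA). `a = b = 0`: `T' = φ' ν, ν' = -φ' T, n' = 0`, so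
`T x = cos (φ x) α + sin (φ x) β`, `ν x = -sin (φ x) α + cos (φ x) β` with constant orthonormal
`α = cos φ T - sin φ ν`, `β = sin φ T + cos φ ν`, and `n = α ⨯₃ β` constant.  For `F` itself
`fT ρ F x = c0 (φ x)`, `fN ρ F x = c1 (φ x)`, `fn F x = e1 ⨯₃ e2`.  `R` = the rotation with
`R e1 = α`, `R e2 = β`, `R (e1 ⨯₃ e2) = n` (matrix `Σ` of the products of columns and rows; `SO3`).
`G_i = R F_i` on the line by the formulas of FRA, `G (pt x) - R F (pt x)` has derivative `0`.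
Second derivatives: FRM (Gauss formula), the `Gb` are equal (CHR), `II` by hypothesis. -/
def Stmt_RIG : Prop :=
  ∀ (F : E2 → V3) (e1 e2 : V3) (φ ρ lam mu : ℝ → ℝ), Tr F e1 e2 φ ρ lam mu →
    ∀ G : E2 → V3, Imm G St → Iso F G → Per G → Flat G →
    (∀ x, II G 1 1 (pt x) = II F 1 1 (pt x)) →
    ∃ R : Matrix (Fin 3) (Fin 3) ℝ, SO3 R ∧ ∃ b : V3, ∀ x, G (pt x) = R *ᵥ F (pt x) + b ∧
      (∀ i, pd i G (pt x) = R *ᵥ pd i F (pt x)) ∧
      ∀ i j, pd i (pd j G) (pt x) = R *ᵥ pd i (pd j F) (pt x)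

/-! ### Infinite order -/

/-- `u` vanishes on the line in `U` with its derivatives of order `< k` across the line -/
def VV {G : Type} [NormedAddCommGroup G] [NormedSpace ℝ G] (U : Set E2) (k : ℕ) (u : E2 → G) :
    Prop := ∀ j < k, ∀ x, pt x ∈ U → (pd 1)^[j] u (pt x) = 0

/-- LEI (150 lines). Leibniz.  `pd 1 (B u w) = B (pd 1 u) w + B u (pd 1 w)` on `U` (`pd_bilin`);
`VV U (k+1) u` implies `VV U k (pd 1 u)`.  All three by induction on `k` for all `u, w`: third: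
`D^(k+2) B(u,w) = D^(k+1) B(Du,w) + D^(k+1) B(u,Dw)`, the first is `B(D^(k+2)u,w) +
(k+1) B(D^(k+1)u,Dw)` by induction, the second `B(D^(k+1)u,Dw)` by the second formula.  (Iterates
on `U`: `pd_congr`.) -/
def Stmt_LEI : Prop :=
  ∀ (G : Type) [NormedAddCommGroup G] [NormedSpace ℝ G] (B : V3 →L[ℝ] V3 →L[ℝ] G) (U : Set E2),
    IsOpen U → ∀ u w : E2 → V3, ContDiffOn ℝ ∞ u U → ContDiffOn ℝ ∞ w U → ∀ k, VV U k u →
    VV U k (fun x => B (u x) (w x)) ∧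
    ∀ x, pt x ∈ U →
      (pd 1)^[k] (fun y => B (u y) (w y)) (pt x) = B ((pd 1)^[k] u (pt x)) (w (pt x)) ∧
      (pd 1)^[k + 1] (fun y => B (u y) (w y)) (pt x) =
        B ((pd 1)^[k + 1] u (pt x)) (w (pt x)) +
          (k + 1 : ℝ) • B ((pd 1)^[k] u (pt x)) (pd 1 w (pt x))

/-- two isometric surfaces of class `C^∞` which agree to first order on the line, where the
asymptotic direction is that of the line; `F_0 ⨯₃ F_00 ≠ 0` on the line -/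
structure PL (U : Set E2) (F G : E2 → V3) : Prop where
  pair : Pool.SXB.Pair U F G
  smF : ContDiffOn ℝ ∞ F U
  smG : ContDiffOn ℝ ∞ G U
  eq0 : ∀ x, pt x ∈ U → F (pt x) = G (pt x)
  eq1 : ∀ x, pt x ∈ U → ∀ i, pd i F (pt x) = pd i G (pt x)
  flat : ∀ x, pt x ∈ U → Pool.SXB.hh F 0 0 (pt x) = 0 ∧ Pool.SXB.hh F 0 1 (pt x) = 0
  bend : ∀ x, pt x ∈ U → Pool.SXB.hh F 1 1 (pt x) + Pool.SXB.hh G 1 1 (pt x) ≠ 0
  geo : ∀ x, pt x ∈ U → pd 0 F (pt x) ⨯₃ pd 0 (pd 0 F) (pt x) ≠ 0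

/-- UNQ (400 lines; uses SXB.YC1 LEI). Notation of `MP_02e829_sb/Interface.lean`: `m = mm F G`,
`v = vv F G`, `nn`, `y = yy F G` (`C^∞` on `U` by its formula), YC1: `v_i = y × m_i`.  `D = pd 1`,
`d = pd 0`, index 0, 1 = derivatives.
(E1) `v_01 = v_10`, `m_01 = m_10`: `Dy × m_0 = dy × m_1` on `U`; scalar products with `m_1`, `m_0`:
`nn·Dy = 0`, `nn·dy = 0`.  (E2) apply `d` to the first, `D` to the second: `dnn·Dy = Dnn·dy`.
On the line: `m_0 = F_0`, `m_1 = F_1`, `m_00 = F_00`, `m_01 = F_01` (differentiate `eq1` along the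
line), so `m_00, m_01` are in the plane of `m_0, m_1`, `m_00 = α m_0 + β m_1` with `β ≠ 0` (`geo`),
`s_11 = m_11·nn ≠ 0` (`bend`; `m_11 = (F_11 + G_11)/2`).  Hence on the line:
(L1) `dnn = m_00 × m_1 + m_0 × m_01` is a multiple `ω nn` of `nn`; (L2) `m_0·Dnn = -m_01·nn = 0`;
(L3) `m_0·D(dnn) = β s_11`: `m_0·dnn = -m_00·nn` on `U`, apply `D`: `m_01·dnn + m_0·D(dnn) =
-D(m_00·nn)`, `m_01·dnn = ω m_01·nn = 0`, `D(m_00·nn) = m_001·nn + m_00·Dnn`,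
`m_001·nn = d(m_01·nn) - m_01·dnn = 0`, `m_00·Dnn = α m_0·Dnn + β m_1·Dnn = -β m_11·nn`.
INDUCTION: `VV U k y` for all `k`.  `k = 1`: `v_i = 0` on the line.  `k → k+1` (`k ≥ 1`): put
`η = D^k y` on the line.  `VV U (k-1) (Dy)`, `VV U k (dy)` (`D^j d y = d D^j y` vanishes on the line).
LEI for (E1), order `k-1`: `η × m_0 = 0`, so `η = c m_0`.  LEI for `nn·Dy = 0` (third formula with
`k-1`): `D^(k+1)y·nn + k η·Dnn = 0`, and `η·Dnn = c m_0·Dnn = 0`, so `D^(k+1)y·nn = 0`.  LEI for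
(E2), order `k`: left `D^(k+1)y·dnn + k η·D(dnn) = k η·D(dnn)` by (L1); right `(dη)·Dnn` (`dη` = the
derivative of `D^k y` along the line `= pd 0 (D^k y)`), `= d(η·Dnn) - η·d(Dnn) = -η·D(dnn)` because
`η·Dnn = 0` along the line.  So `(k+1) η·D(dnn) = 0`, `c β s_11 = 0`, `c = 0`. -/
def Stmt_UNQ : Prop :=
  ∀ (U : Set E2) (F G : E2 → V3), PL U F G → ContDiffOn ℝ ∞ (Pool.SXB.yy F G) U ∧
    ∀ k, VV U k (Pool.SXB.yy F G)

/-- ITD (100 lines). `iteratedFDeriv ℝ k u x (fun a => ee (i a))` is the iterated partial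
derivative (`iteratedFDeriv_succ_apply_left/right`), and a multilinear map on `E2` is determined by
its values on the basis vectors `ee 0, ee 1` (`Basis.ext_multilinear`). -/
def Stmt_ITD : Prop :=
  ∀ (U : Set E2), IsOpen U → ∀ u : E2 → V3, ContDiffOn ℝ ∞ u U → ∀ x ∈ U,
    (∀ l : List (Fin 2), l.foldr (fun i f => pd i f) u x = 0) → ∀ k, iteratedFDeriv ℝ k u x = 0

/-- INF (150 lines; uses SXB.YC1 UNQ ITD). All iterated partial derivatives of `y` vanish on the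
line: those of the form `D^k y` by UNQ; `pd 0` of a function vanishing on the line vanishes on the
line; all others are of the form `d^a D^b y` (`pd_comm`).  By the product rule the iterated
derivatives of `v_i = y × m_i` vanish on the line (say: `C^∞` functions all of whose iterated
derivatives vanish on the line form a module closed under `× w` and `pd`), `v = 0` on the line
(`eq0`), so ITD for `v` (`G = F + 2 v`). -/
def Stmt_INF : Prop :=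
  ∀ (U : Set E2) (F G : E2 → V3), PL U F G → ∀ x, pt x ∈ U → ∀ k,
    iteratedFDeriv ℝ k G (pt x) = iteratedFDeriv ℝ k F (pt x)

/-- ANZ (80 lines). An analytic function with vanishing derivatives at a point: the power series
`p` at `x0` has `p k (fun _ => v) = (k!)⁻¹ • iteratedFDeriv ℝ k u x0 (fun _ => v) = 0`
(`HasFPowerSeriesOnBall.factorial_smul`), so `u (x0 + v) = 0` near 0. -/
def Stmt_ANZ : Prop :=
  ∀ (u : E2 → EuclideanSpace ℝ (Fin 3)) (x0 : E2), AnalyticAt ℝ u x0 →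
    (∀ k, iteratedFDeriv ℝ k u x0 = 0) → ∀ᶠ x in 𝓝 x0, u x = 0

end Pool.TRG
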